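import Pool.Agent.Helper98.FR.Rep2

/-! FUNCTIONAL REPRESENTATION of a label: a label `l'` over `l` with a partition `Zr` (the randomness), independent of
the space, such that the value of `l` is a function of the point of the space and of `Zr`; the leaks grow by
`4 δ info + C(δ)` bits. -/

set_option autoImplicit false

namespace Pool.Agent.Helper98.FR

open Finset Pool.Agent.Helper69.RK Pool.Agent.Helper31.EC Pool.Agent.Helper40.EL
open Pool.Agent.Helper98.FR.Rep

noncomputable section

/-! ### product spaces -/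

section prod

variable {X R : Type} [Fintype X] [Fintype R]

theorem push_sum {Ω Ω' : Type} [Fintype Ω] [Fintype Ω'] (π : Ω' → Ω) (μ : Ω' → ℝ) : ∑ a, push π μ a = ∑ ω, μ ω := by
  classical
  have h1 : ∀ a, push π μ a = ∑ x, e1_ind (π x = a) * μ x := fun a => push_ind π μ a
  rw [Finset.sum_congr rfl fun a _ => h1 a, Finset.sum_comm]
  apply Finset.sum_congr rfl
  intro ω _
  rw [Finset.sum_eq_single (π ω)]
  · rw [e1_ind_pos rfl, one_mul]
  · intro b _ hb
    rw [e1_ind_neg (fun h => hb h.symm), zero_mul]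
  · intro h
    exact absurd (Finset.mem_univ _) h

theorem push_nn {Ω Ω' : Type} [Fintype Ω'] (π : Ω' → Ω) {μ : Ω' → ℝ} (h : ∀ ω, 0 ≤ μ ω) (a : Ω) : 0 ≤ push π μ a := by
  rw [push_ind]
  exact Finset.sum_nonneg fun x _ => mul_nonneg (ind_nonneg _) (h x)

/-- entropy of the second factor given a function of the first one -/
theorem CH_prod {γ : Type} {μ : X → ℝ} {ν : R → ℝ} (hμ : ∀ x, 0 ≤ μ x) (hμ1 : ∑ x, μ x = 1) (hν : Wt ν) (g : X → γ) :
    CH (fun z : X × R => μ z.1 * ν z.2) (fun z => z.2) (fun z => g z.1) = ∑ r, ν r * -Real.logb 2 (ν r) := by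
  classical
  have p1 : ∀ z : X × R, pr (fun z : X × R => μ z.1 * ν z.2) (fun z => g z.1) z =
      ∑ x, if g x = g z.1 then μ x else 0 := fun z => by
    have h1 : pr (fun z : X × R => μ z.1 * ν z.2) (fun z => g z.1) z =
        ∑ z' : X × R, if g z'.1 = g z.1 then μ z'.1 * ν z'.2 else 0 := by
      unfold pr
      apply Finset.sum_congr rfl
      intro z' _
      split_ifs <;> rfl
    rw [h1, Fintype.sum_prod_type]
    apply Finset.sum_congr rfl
    intro x _
    by_cases h : g x = g z.1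
    · rw [if_pos h]
      have h2 : ∀ r : R, (if g (x, r).1 = g z.1 then μ (x, r).1 * ν (x, r).2 else 0) = μ x * ν r := fun r => if_pos h
      rw [Finset.sum_congr rfl fun r _ => h2 r, ← Finset.mul_sum, hν.2, mul_one]
    · rw [if_neg h]
      exact Finset.sum_eq_zero fun r _ => if_neg h
  have p2 : ∀ z : X × R, pr (fun z : X × R => μ z.1 * ν z.2) (fun z => (z.2, g z.1)) z =
      (∑ x, if g x = g z.1 then μ x else 0) * ν z.2 := fun z => by
    have h1 : pr (fun z : X × R => μ z.1 * ν z.2) (fun z => (z.2, g z.1)) z =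
        ∑ z' : X × R, if (z'.2 = z.2 ∧ g z'.1 = g z.1) then μ z'.1 * ν z'.2 else 0 := by
      unfold pr
      apply Finset.sum_congr rfl
      intro z' _
      by_cases h : z'.2 = z.2 ∧ g z'.1 = g z.1
      · rw [if_pos h]
        exact if_pos (show (z'.2, g z'.1) = (z.2, g z.1) by rw [h.1, h.2])
      · rw [if_neg h]
        exact if_neg (fun h3 => h ⟨(Prod.mk.inj h3).1, (Prod.mk.inj h3).2⟩)
    rw [h1, Fintype.sum_prod_type, Finset.sum_mul]
    apply Finset.sum_congr rfl
    intro x _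
    rw [Finset.sum_eq_single z.2]
    · by_cases h : g x = g z.1
      · rw [if_pos h]
        exact if_pos ⟨rfl, h⟩
      · rw [if_neg h, zero_mul]
        exact if_neg fun h3 => h h3.2
    · intro r _ hr
      exact if_neg fun h3 => hr h3.1
    · intro h
      exact absurd (Finset.mem_univ _) h
  unfold CH
  have h1 : ∀ z : X × R, (μ z.1 * ν z.2) * (Real.logb 2 (pr (fun z : X × R => μ z.1 * ν z.2) (fun z => g z.1) z) -
      Real.logb 2 (pr (fun z : X × R => μ z.1 * ν z.2) (fun z => (z.2, g z.1)) z)) =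
      μ z.1 * (ν z.2 * -Real.logb 2 (ν z.2)) := fun z => by
    rw [p1, p2]
    rcases (hμ z.1).eq_or_lt with h2 | h2
    · rw [← h2]; simp
    rcases (hν.1 z.2).eq_or_lt with h3 | h3
    · rw [← h3]; simp
    have h4 : 0 < ∑ x, if g x = g z.1 then μ x else 0 := by
      refine h2.trans_le ?_
      have h5 : (if g z.1 = g z.1 then μ z.1 else 0) ≤ ∑ x, if g x = g z.1 then μ x else 0 :=
        Finset.single_le_sum (f := fun x => if g x = g z.1 then μ x else 0) (fun x _ => by
          split_ifs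
          · exact hμ x
          · exact le_rfl) (Finset.mem_univ z.1)
      rwa [if_pos rfl] at h5
    rw [Real.logb_mul h4.ne' h3.ne']
    ring
  rw [Finset.sum_congr rfl fun z _ => h1 z, Fintype.sum_prod_type]
  have h2 : ∀ x, ∑ r, μ (x, r).1 * (ν (x, r).2 * -Real.logb 2 (ν (x, r).2)) = μ x * ∑ r, ν r * -Real.logb 2 (ν r) :=
    fun x => by
    rw [Finset.mul_sum]
  rw [Finset.sum_congr rfl fun x _ => h2 x, ← Finset.sum_mul, hμ1, one_mul]

end prod

namespace Fr

variable {F : FSp} (l : FLab F)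

instance : Fintype (Quotient l.V) := Fintype.ofFinite _

/-- point of the space and value of the label -/
def jp (ω : l.T.Ω) : F.Ω × Quotient l.V := (l.p.π ω, Quotient.mk l.V ω)

/-- joint law -/
def jw : F.Ω × Quotient l.V → ℝ := push (jp l) l.T.μ

theorem jw_nn (z) : 0 ≤ jw l z := push_nn _ l.T.nn z

theorem jw_sum : ∑ z, jw l z = 1 := by
  unfold jw
  rw [push_sum]
  exact l.T.ms

theorem mx_jw (x : F.Ω) : mx (jw l) x = F.μ x := by
  classical
  rw [← l.p.law]
  unfold mx jw
  rw [push_ind]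
  have h1 : ∀ v, push (jp l) l.T.μ (x, v) = ∑ ω, e1_ind (jp l ω = (x, v)) * l.T.μ ω := fun v => push_ind _ _ _
  rw [Finset.sum_congr rfl fun v _ => h1 v, Finset.sum_comm]
  apply Finset.sum_congr rfl
  intro ω _
  rw [Finset.sum_eq_single (Quotient.mk l.V ω)]
  · congr 1
    apply ind_congr
    unfold jp
    rw [Prod.mk.injEq]
    exact and_iff_left rfl
  · intro v _ hv
    rw [e1_ind_neg, zero_mul]
    intro h
    exact hv (Prod.mk.inj h).2.symm
  · intro h
    exact absurd (Finset.mem_univ _) h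

/-- space of the joint law -/
def js : FSp where
  Ω := F.Ω × Quotient l.V
  ft := inferInstance
  μ := jw l
  nn := jw_nn l
  ms := jw_sum l
  Z := Setoid.comap Prod.fst F.Z
  n := F.n
  pos := F.pos

/-- the space of the label over the joint law -/
def rj : FPj l.T (js l) where
  π := jp l
  law := rfl
  hZ := l.p.hZ

/-- the joint law over the space -/
def pj : FPj (js l) F where
  π := Prod.fst
  law := by
    funext x
    refine (push_ind (Ω₂ := (js l).Ω) _ _ _).trans ?_
    have h1 : F.μ x = mx (jw l) x := (mx_jw l x).symm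
    rw [h1]
    classical
    have h2 : ∀ z : F.Ω × Quotient l.V, e1_ind (z.1 = x) * (js l).μ z = if z.1 = x then jw l z else 0 := fun z => by
      by_cases h : z.1 = x
      · rw [e1_ind_pos h, if_pos h, one_mul]
        rfl
      · rw [e1_ind_neg h, if_neg h, zero_mul]
    have h3 : ∑ z : (js l).Ω, e1_ind (Prod.fst z = x) * (js l).μ z =
        ∑ z : F.Ω × Quotient l.V, if z.1 = x then jw l z else 0 := Finset.sum_congr rfl fun z _ => h2 z
    rw [h3, Fintype.sum_prod_type, Finset.sum_eq_single x]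
    · exact Finset.sum_congr rfl fun v _ => if_pos rfl
    · intro x' _ hx
      exact Finset.sum_eq_zero fun v _ => if_neg hx
    · intro h
      exact absurd (Finset.mem_univ _) h
  hZ := fun _ _ _ _ => Iff.rfl

/-- the information of a label as a difference of conditional entropies of the joint law -/
theorem info_jw : l.info = CH (jw l) (fun z => z.2) (fun z => Quotient.mk F.Z z.1) - CH (jw l) (fun z => z.2) (fun z => z.1) := by
  have hv : l.v = (rj l).map (fc (Setoid.ker Prod.snd : Setoid (js l).Ω)) := by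
    rw [FPj.map_fc]
    unfold FLab.v
    congr 1
    ext ω ω'
    exact Quotient.eq.symm
  have ht : l.p.top = (rj l).map (fc (Setoid.ker Prod.fst : Setoid (js l).Ω)) := rfl
  have h1 : l.info = I (fc (Setoid.ker Prod.snd : Setoid (js l).Ω)) (fc (Setoid.ker Prod.fst : Setoid (js l).Ω)) ⊥ := by
    unfold FLab.info
    rw [hv, ht, ← (rj l).I_map, (rj l).map_bot]
  rw [h1, I_eq, sup_bot_eq, ← fc_top, h_fc, h_fc]
  have h2 : (js l).e (Setoid.ker Prod.snd) (⊤ ⊓ (js l).Z) = CH (jw l) (fun z => z.2) (fun z => Quotient.mk F.Z z.1) := by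
    apply (js l).e_congr
    · intro ω ω' _ _
      exact Iff.rfl
    · intro ω ω' _ _
      constructor
      · intro h
        exact Quotient.sound h.2
      · intro h
        exact ⟨trivial, Quotient.exact (s := F.Z) h⟩
  have h3 : (js l).e (Setoid.ker Prod.snd) (Setoid.ker Prod.fst ⊓ (js l).Z) = CH (jw l) (fun z => z.2) (fun z => z.1) := by
    apply (js l).e_congr
    · intro ω ω' _ _
      exact Iff.rfl
    · intro ω ω' _ _
      constructor
      · intro h
        exact h.1
      · intro h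
        refine ⟨h, ?_⟩
        have h' : ω'.1 = ω.1 := h
        show F.Z ω'.1 ω.1
        rw [h']
  rw [h2, h3]

end Fr

open Fr

/-- FUNCTIONAL REPRESENTATION OF A LABEL -/
theorem frep {F : FSp} (l : FLab F) : ∃ (l' : FLab F) (r : FPj l'.T l.T) (Zr : Setoid l'.T.Ω),
    l'.V = Zr ⊓ Setoid.comap r.π l.V ∧
    (∀ ω, l'.T.μ ω ≠ 0 → l'.p.π ω = l.p.π (r.π ω)) ∧
    (∀ ω ω', l'.T.μ ω ≠ 0 → l'.T.μ ω' ≠ 0 → l'.p.π ω = l'.p.π ω' → Zr ω ω' → l.V (r.π ω) (r.π ω')) ∧
    I (fc Zr) l'.p.top ⊥ = 0 ∧ l.info ≤ l'.info ∧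
    ∀ δ : ℝ, 0 < δ → δ ≤ 1 → ∀ x, l'.leak x ≤ l.leak x + (4 * δ * l.info + cK δ) := by
  classical
  letI : Fintype (Quotient F.Z) := Fintype.ofFinite _
  obtain ⟨R, ftR, ν, f, hν, hf, hcode⟩ := frep_abs (jw_nn l) (jw_sum l) (Quotient.mk F.Z)
  -- the space with the randomness
  set T1 : FSp :=
    { Ω := F.Ω × R
      ft := inferInstance
      μ := fun z => F.μ z.1 * ν z.2
      nn := fun z => mul_nonneg (F.nn _) (hν.1 _)
      ms := by
        show ∑ z : F.Ω × R, F.μ z.1 * ν z.2 = 1
        rw [Fintype.sum_prod_type, ← Finset.sum_mul_sum, hν.2, mul_one]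
        exact F.ms
      Z := Setoid.comap Prod.fst F.Z
      n := F.n
      pos := F.pos } with hT1
  have e1 : ∀ (x : F.Ω), ∑ z : F.Ω × R, e1_ind (z.1 = x) * (F.μ z.1 * ν z.2) = F.μ x := fun x => by
    rw [Fintype.sum_prod_type, Finset.sum_eq_single x]
    · have h2 : ∀ r, e1_ind ((x, r).1 = x) * (F.μ (x, r).1 * ν (x, r).2) = F.μ x * ν r := fun r => by
        rw [e1_ind_pos rfl, one_mul]
      rw [Finset.sum_congr rfl fun r _ => h2 r, ← Finset.mul_sum, hν.2, mul_one]
    · intro x' _ hx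
      exact Finset.sum_eq_zero fun v _ => by rw [e1_ind_neg hx, zero_mul]
    · intro h
      exact absurd (Finset.mem_univ _) h
  set q1 : FPj T1 F :=
    { π := Prod.fst
      law := by
        funext x
        rw [push_ind]
        exact e1 x
      hZ := fun _ _ _ _ => Iff.rfl } with hq1
  have e2 : ∀ (x : F.Ω) (v : Quotient l.V), ∑ z : F.Ω × R, e1_ind ((z.1, f z.1 z.2) = (x, v)) * (F.μ z.1 * ν z.2) =
      jw l (x, v) := fun x v => by
    rw [Fintype.sum_prod_type, Finset.sum_eq_single x]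
    · have h2 : ∀ r, e1_ind (((x, r).1, f (x, r).1 (x, r).2) = (x, v)) * (F.μ (x, r).1 * ν (x, r).2) =
          F.μ x * (ν r * e1_ind (f x r = v)) := fun r => by
        have h3 : e1_ind (((x, r).1, f (x, r).1 (x, r).2) = (x, v)) = e1_ind (f x r = v) := by
          apply ind_congr
          constructor
          · intro h
            exact (Prod.mk.inj h).2
          · intro h
            show (x, f x r) = (x, v)
            rw [h]
        rw [h3]
        ring
      rw [Finset.sum_congr rfl fun r _ => h2 r, ← Finset.mul_sum, ← mx_jw l x]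
      exact hf x v
    · intro x' _ hx
      exact Finset.sum_eq_zero fun v _ => by
        rw [e1_ind_neg (fun h => hx (Prod.mk.inj h).1), zero_mul]
    · intro h
      exact absurd (Finset.mem_univ _) h
  set rj' : FPj T1 (js l) :=
    { π := fun z => (z.1, f z.1 z.2)
      law := by
        funext z
        obtain ⟨x, v⟩ := z
        exact (push_ind (Ω₁ := F.Ω × Quotient l.V) (fun z : F.Ω × R => (z.1, f z.1 z.2)) _ (x, v)).trans (e2 x v)
      hZ := fun _ _ _ _ => Iff.rfl } with hrj'
  -- the amalgam over the joint law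
  set D : FAm T1 l.T :=
    { α := (js l).Ω
      f := rj'.π
      g := (rj l).π
      law := fun a => by
        have h1 : ms T1.μ rj'.π a = push rj'.π T1.μ a := (push_ind _ _ _).symm
        have h2 : ms l.T.μ (rj l).π a = push (rj l).π l.T.μ a := (push_ind _ _ _).symm
        rw [h1, h2, rj'.law, (rj l).law]
      Zr := (js l).Z
      hZ1 := rj'.hZ
      hZ2 := (rj l).hZ } with hD
  set Zr : Setoid D.sp.Ω := Setoid.comap D.p1.π (Setoid.ker (Prod.snd : T1.Ω → R)) with hZr
  set l' : FLab F := { T := D.sp, p := D.p1.comp q1, hn := rfl, V := Zr ⊓ Setoid.comap D.p2.π l.V } with hl'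
  have hcom : ∀ ω, l'.T.μ ω ≠ 0 → (D.p1.π ω).1 = l.p.π (D.p2.π ω) ∧
      f (D.p1.π ω).1 (D.p1.π ω).2 = Quotient.mk l.V (D.p2.π ω) := fun ω hω => by
    have h1 : ((D.p1.π ω).1, f (D.p1.π ω).1 (D.p1.π ω).2) = (l.p.π (D.p2.π ω), Quotient.mk l.V (D.p2.π ω)) :=
      (D.supp ω hω).1
    exact ⟨(Prod.mk.inj h1).1, (Prod.mk.inj h1).2⟩
  -- common informations
  have hv : ∀ A : Setoid (js l).Ω, D.p1.map (rj'.map (fc A)) = D.p2.map ((rj l).map (fc A)) := fun A => by
    have hc : ∀ ω, D.sp.μ ω ≠ 0 → rj'.π (D.p1.π ω) = (rj l).π (D.p2.π ω) := fun ω hω => (D.supp ω hω).1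
    apply le_antisymm
    · apply fc_le
      intro ω ω' h h' _ e
      show A (rj'.π (D.p1.π ω)) (rj'.π (D.p1.π ω'))
      rw [hc ω h, hc ω' h']
      exact e
    · apply fc_le
      intro ω ω' h h' _ e
      show A ((rj l).π (D.p2.π ω)) ((rj l).π (D.p2.π ω'))
      rw [← hc ω h, ← hc ω' h']
      exact e
  set z : FL l'.T := fc Zr with hz
  set v : FL l'.T := D.p2.map l.v with hvv
  have hvl : l.v = (rj l).map (fc (Setoid.ker Prod.snd : Setoid (js l).Ω)) := by
    rw [FPj.map_fc]
    unfold FLab.v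
    congr 1
    ext ω ω'
    exact Quotient.eq.symm
  have htl : l.p.top = (rj l).map (fc (Setoid.ker Prod.fst : Setoid (js l).Ω)) := rfl
  have hv1 : v = D.p1.map (rj'.map (fc (Setoid.ker Prod.snd : Setoid (js l).Ω))) := by
    rw [hvv, hvl, hv]
  have ht1 : l'.p.top = D.p2.map l.p.top := by
    rw [htl, ← hv]
    rfl
  have hx1 : ∀ x : FL F, l'.p.map x = D.p2.map (l.p.map x) := fun x => by
    induction x using fc_ind with | _ A
    have h1 := hv (Setoid.comap Prod.fst A)
    exact h1
  have hvz : l'.v = z ⊔ v := rfl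
  -- informations of the old label
  have i1 : I v l'.p.top ⊥ = l.info := by
    rw [ht1, hvv, ← D.p2.map_bot, D.p2.I_map]
    rfl
  have i2 : ∀ x, I v l'.p.top (l'.p.map x) = l.leak x := fun x => by
    rw [ht1, hvv, hx1, D.p2.I_map]
    rfl
  -- independence
  have hind : I z l'.p.top ⊥ = 0 := by
    have h1 : z = D.p1.map (fc (Setoid.ker (Prod.snd : T1.Ω → R))) := rfl
    have h2 : l'.p.top = D.p1.map (fc (Setoid.ker (Prod.fst : T1.Ω → F.Ω))) := rfl
    rw [h1, h2, ← D.p1.map_bot, D.p1.I_map, I_eq, sup_bot_eq, ← fc_top, h_fc, h_fc]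
    have h3 : T1.e (Setoid.ker (Prod.snd : T1.Ω → R)) (⊤ ⊓ T1.Z) = ∑ r, ν r * -Real.logb 2 (ν r) := by
      rw [← CH_prod F.nn F.ms hν (Quotient.mk F.Z)]
      apply T1.e_congr
      · intro ω ω' _ _
        exact Iff.rfl
      · intro ω ω' _ _
        constructor
        · intro h
          exact Quotient.sound h.2
        · intro h
          exact ⟨trivial, Quotient.exact (s := F.Z) h⟩
    have h4 : T1.e (Setoid.ker (Prod.snd : T1.Ω → R)) (Setoid.ker (Prod.fst : T1.Ω → F.Ω) ⊓ T1.Z) =
        ∑ r, ν r * -Real.logb 2 (ν r) := by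
      rw [← CH_prod F.nn F.ms hν (fun x => x)]
      apply T1.e_congr
      · intro ω ω' _ _
        exact Iff.rfl
      · intro ω ω' _ _
        constructor
        · intro h
          exact h.1
        · intro h
          refine ⟨h, ?_⟩
          have h' : ω'.1 = ω.1 := h
          show F.Z ω'.1 ω.1
          rw [h']
    rw [h3, h4, sub_self]
  -- entropy of the value given the randomness
  have hent : ∀ δ : ℝ, 0 < δ → δ ≤ 1 → h v z ≤ (1 + 4 * δ) * l.info + cK δ := fun δ hδ hδ1 => by
    obtain ⟨ι, J, c, hK, hdec, hsum⟩ := hcode δ hδ hδ1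
    have h1 : z = D.p1.map (fc (Setoid.ker (Prod.snd : T1.Ω → R))) := rfl
    rw [hv1, h1, D.p1.h_map]
    have h2 : rj'.map (fc (Setoid.ker Prod.snd : Setoid (js l).Ω)) = fc (Setoid.ker (fun w : T1.Ω => f w.1 w.2)) := rfl
    rw [h2, h_fc]
    have h3 : T1.e (Setoid.ker (fun w : T1.Ω => f w.1 w.2)) (Setoid.ker (Prod.snd : T1.Ω → R) ⊓ T1.Z) ≤
        T1.e (Setoid.ker (fun w : T1.Ω => f w.1 w.2)) (Setoid.ker (fun w : T1.Ω => (w.2, Quotient.mk F.Z w.1))) := by
      apply T1.e_anti
      intro ω ω' _ _ hg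
      exact Prod.ext (show ω.2 = ω'.2 from hg.1) (Quotient.sound hg.2)
    refine h3.trans ?_
    refine (e_code T1 _ _ (fun w : T1.Ω => J w.1 w.2) c hK ?_).trans ?_
    · intro ω ω' _ _ hJ hg
      have hg' : (ω.2, Quotient.mk F.Z ω.1) = (ω'.2, Quotient.mk F.Z ω'.1) := hg
      have hJ' : J ω.1 ω.2 = J ω'.1 ω'.2 := hJ
      show f ω.1 ω.2 = f ω'.1 ω'.2
      rw [← (Prod.mk.inj hg').1] at hJ' ⊢
      exact hdec _ _ _ (Prod.mk.inj hg').2 hJ'
    · have h4 : ∑ w : T1.Ω, T1.μ w * c (J w.1 w.2) = ∑ x, mx (jw l) x * ∑ r, ν r * c (J x r) := by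
        have h5 : ∑ w : T1.Ω, T1.μ w * c (J w.1 w.2) = ∑ w : F.Ω × R, (F.μ w.1 * ν w.2) * c (J w.1 w.2) := rfl
        rw [h5, Fintype.sum_prod_type]
        apply Finset.sum_congr rfl
        intro x _
        rw [mx_jw, Finset.mul_sum]
        apply Finset.sum_congr rfl
        intro r _
        ring
      rw [h4, info_jw]
      exact hsum
  refine ⟨l', D.p2, Zr, rfl, fun ω hω => (hcom ω hω).1, ?_, hind, ?_, ?_⟩
  · intro ω ω' hω hω' hp hZ
    have hp' : (D.p1.π ω).1 = (D.p1.π ω').1 := hp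
    have hZ' : (D.p1.π ω).2 = (D.p1.π ω').2 := hZ
    have h1 := (hcom ω hω).2
    have h2 := (hcom ω' hω').2
    rw [hp', hZ', h2] at h1
    exact Quotient.exact h1.symm
  · rw [← i1]
    unfold FLab.info
    rw [hvz]
    exact I_mono_left (le_sup_right.trans le_sup_left)
  · intro δ hδ hδ1 x
    have h1 : l'.leak x = I (z ⊔ v) l'.p.top (l'.p.map x) := rfl
    have h2 : I (z ⊔ v) l'.p.top (l'.p.map x) = I v l'.p.top (l'.p.map x) + I z l'.p.top (v ⊔ l'.p.map x) := by
      rw [sup_comm z v, I_chain]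
    have h3 : I z l'.p.top (v ⊔ l'.p.map x) ≤ I z l'.p.top v := by
      have h4 := I_chain_right z (l'.p.map x) l'.p.top v
      rw [sup_eq_right.mpr (l'.p.map_le_top x)] at h4
      have h5 := I_nonneg z (l'.p.map x) v
      rw [sup_comm v]
      linarith
    have h4 : I z l'.p.top v + l.info = I v l'.p.top z := by
      have h5 := I_chain v z l'.p.top ⊥
      have h6 := I_chain z v l'.p.top ⊥
      rw [sup_comm v z, h6, sup_bot_eq, sup_bot_eq, hind, i1] at h5
      linarith
    have h5 := (I_le_h_left v l'.p.top z).trans (hent δ hδ hδ1)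
    rw [h1, h2, i2]
    linarith

end

end Pool.Agent.Helper98.FR
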