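import Pool.Agent.Helper98.FR.Dom
import Pool.Agent.Helper98.FR.Rep3

/-! NESTED FAMILIES OF LABELS WHICH ARE FUNCTIONS OF THE SPACE AND OF A COMMON RANDOMNESS (property DET). -/

set_option autoImplicit false

namespace Pool.Agent.Helper98.FR

open Finset Filter Topology Pool.Agent.Helper69.RK Pool.Agent.Helper31.EC Pool.Agent.Helper40.EL
open Pool.Agent.Helper98.FR.Rep

noncomputable section

/-! ### amalgams of finitely many labels -/

/-- the label with another partition -/
abbrev wp {F : FSp} (l : FLab F) (W : Setoid l.T.Ω) : FLab F := ⟨l.T, l.p, l.hn, W⟩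

/-- the meet of pulled back partitions -/
def mtr {F T : FSp} {κ : ℕ → FLab F} {N : ℕ} (r : ∀ i : Fin N, FPj T (κ i).T) (W : ∀ i, Setoid (κ i).T.Ω) :
    Setoid T.Ω where
  r := fun ω ω' => ∀ i : Fin N, W i ((r i).π ω) ((r i).π ω')
  iseqv := ⟨fun _ i => (W i).refl _, fun h i => (W i).symm (h i), fun h h' i => (W i).trans (h i) (h' i)⟩

theorem exists_amalg {F : FSp} (κ : ℕ → FLab F) (N : ℕ) : ∃ (T : FSp) (p : FPj T F) (hn : T.n = F.n)
    (r : ∀ i : Fin N, FPj T (κ i).T), (∀ (i : Fin N) ω, T.μ ω ≠ 0 → p.π ω = (κ i).p.π ((r i).π ω)) ∧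
    ∀ W : ∀ i, Setoid (κ i).T.Ω, (∀ x, (FLab.mk T p hn (mtr r W)).leak x ≤ ∑ i ∈ range N, (wp (κ i) (W i)).leak x) ∧
      ∀ i, i < N → (wp (κ i) (W i)).info ≤ (FLab.mk T p hn (mtr r W)).info := by
  induction N with
  | zero =>
    refine ⟨(FLab.triv F).T, (FLab.triv F).p, (FLab.triv F).hn, fun i => i.elim0, fun i => i.elim0, fun W => ⟨fun x => ?_,
      fun i hi => absurd hi (Nat.not_lt_zero i)⟩⟩
    rw [Finset.sum_range_zero]
    refine le_trans ?_ (FLab.triv_leak x).le
    apply FLab.leak_of_coarser (FLab.triv F)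
    exact fc_le fun _ _ _ _ _ _ i => i.elim0
  | succ N ih =>
    obtain ⟨T, p, hn, r, hr, hW⟩ := ih
    set D : FAm T (κ N).T := (FLab.mk T p hn ⊤).am (κ N) with hD
    set r' : ∀ i : Fin (N + 1), FPj D.sp (κ i).T :=
      Fin.lastCases (motive := fun i => FPj D.sp (κ i).T) D.p2 (fun i => D.p1.comp (r i)) with hr'
    have r1 : r' (Fin.last N) = D.p2 := Fin.lastCases_last
    have r2 : ∀ i : Fin N, r' i.castSucc = D.p1.comp (r i) := fun i => Fin.lastCases_castSucc i
    have hm : ∀ W : ∀ i, Setoid (κ i).T.Ω, mtr r' W = Setoid.comap D.p1.π (mtr r W) ⊓ Setoid.comap D.p2.π (W N) := by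
      intro W
      apply Setoid.ext
      intro ω ω'
      show (∀ i : Fin (N + 1), W i ((r' i).π ω) ((r' i).π ω')) ↔
        (∀ i : Fin N, W i ((r i).π (D.p1.π ω)) ((r i).π (D.p1.π ω'))) ∧ W N (D.p2.π ω) (D.p2.π ω')
      rw [Fin.forall_fin_succ']
      constructor
      · rintro ⟨h1, h2⟩
        refine ⟨fun i => ?_, ?_⟩
        · have h3 := h1 i
          rw [r2] at h3
          exact h3
        · rw [r1] at h2
          exact h2
      · rintro ⟨h1, h2⟩
        refine ⟨fun i => ?_, ?_⟩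
        · rw [r2]
          exact h1 i
        · rw [r1]
          exact h2
    refine ⟨D.sp, D.p1.comp p, hn, r', ?_, fun W => ⟨fun x => ?_, fun i hi => ?_⟩⟩
    · intro i
      refine Fin.lastCases ?_ (fun i => ?_) i
      · intro ω hω
        rw [r1]
        exact (D.supp ω hω).1
      · intro ω hω
        rw [r2]
        exact hr i _ (D.supp ω hω).2.1
    · rw [hm, Finset.sum_range_succ]
      have h1 := (FLab.mk T p hn (mtr r W)).join_leak (wp (κ N) (W N)) x
      have h2 := (hW W).1 x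
      refine le_trans ?_ (add_le_add h2 le_rfl)
      exact h1
    · rw [hm]
      rcases Nat.lt_succ_iff_lt_or_eq.mp hi with h | h
      · exact ((hW W).2 i h).trans ((FLab.mk T p hn (mtr r W)).join_info_ge_left (wp (κ N) (W N)))
      · subst h
        exact (FLab.mk T p hn (mtr r W)).join_info_ge_right (wp (κ i) (W i))

/-! ### the family -/

variable {S : Sp}

/-- the loss of the representation is null -/
theorem nul_of_loss {f g i : ℕ → ℝ} (hf0 : ∀ k, 0 ≤ f k) (hg : Nul S g) (hi : ∃ C, ∀ᶠ k in UF, i k / (S.F k).n ≤ C)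
    (h : ∀ δ : ℝ, 0 < δ → δ ≤ 1 → ∀ k, f k ≤ g k + (4 * δ * i k + cK δ)) : Nul S f := by
  unfold Nul at hg ⊢
  obtain ⟨C, hC⟩ := hi
  rw [Metric.tendsto_nhds]
  intro ε hε
  obtain ⟨δ, hδ0, hδ1, hδ2⟩ : ∃ δ : ℝ, 0 < δ ∧ δ ≤ 1 ∧ 4 * δ * (|C| + 1) ≤ ε / 4 := by
    refine ⟨min 1 (ε / (16 * (|C| + 1))), lt_min one_pos (by positivity), min_le_left _ _, ?_⟩
    calc 4 * min 1 (ε / (16 * (|C| + 1))) * (|C| + 1) ≤ 4 * (ε / (16 * (|C| + 1))) * (|C| + 1) := by
          apply mul_le_mul_of_nonneg_right _ (by positivity)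
          exact mul_le_mul_of_nonneg_left (min_le_right _ _) (by norm_num)
      _ = ε / 4 := by
          field_simp
          norm_num
  have hn := S.lim
  have h1 : Tendsto (fun k => cK δ / (S.F k).n) UF (𝓝 0) := Tendsto.div_atTop tendsto_const_nhds hn
  filter_upwards [hC, hg.eventually (gt_mem_nhds (show (0 : ℝ) < ε / 4 by positivity)),
    h1.eventually (gt_mem_nhds (show (0 : ℝ) < ε / 4 by positivity))] with k a b c
  have hn := (S.F k).pos
  rw [Real.dist_eq, sub_zero, abs_of_nonneg (div_nonneg (hf0 k) hn.le)]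
  have h2 := div_le_div_of_nonneg_right (h δ hδ0 hδ1 k) hn.le
  have h3 : (g k + (4 * δ * i k + cK δ)) / (S.F k).n = g k / (S.F k).n + (4 * δ * (i k / (S.F k).n) + cK δ / (S.F k).n) := by
    ring
  rw [h3] at h2
  have h4 : 4 * δ * (i k / (S.F k).n) ≤ 4 * δ * (|C| + 1) :=
    mul_le_mul_of_nonneg_left (a.trans ((le_abs_self C).trans (by linarith))) (by linarith)
  linarith

open Classical in
/-- LITERALLY NESTED FAMILIES of maximal double Markov labels, which dominate given maximal labels and are functions of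
the space and of a common randomness -/
theorem exists_nested2 (q : ℕ → ℝ) (A : ℕ → Part S) (B : Part S)
    (hA : ∀ i j, q i ≤ q j → PLe (A i) (A j)) (hAb : ∀ i, (A i).Bd) (κ : ℕ → Lab S)
    (hκ : ∀ i, (κ i).IsMax (A i) B) :
    ∃ (M : Fam S) (Zr : ∀ k, Setoid (M k).T.Ω), (∀ i, (M.lab i).IsMax (A i) B) ∧
      (∀ i j, q i ≤ q j → ∀ k, (M k).V j ≤ (M k).V i) ∧ (∀ i, Dom (M.lab i) (κ i)) ∧
      (∀ i k, (M k).V i ≤ Zr k) ∧
      ∀ i k ω ω', (M k).T.μ ω ≠ 0 → (M k).T.μ ω' ≠ 0 → (M k).p.π ω = (M k).p.π ω' → Zr k ω ω' → (M k).V i ω ω' := by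
  -- representations
  choose l' rr Z' hV' hp' hd' hi' hinf' hlk' using fun (i : ℕ) (k : ℕ) => frep (κ i k)
  have hDM' : ∀ i, Lab.DM (fun k => l' i k) (A i) B := by
    intro i
    obtain ⟨C, hC⟩ := (hκ i).1.ub (hAb i)
    have hC' : ∃ C, ∀ᶠ k in UF, (κ i k).info / (S.F k).n ≤ C := by
      refine ⟨C, hC.mono fun k hk => ?_⟩
      exact (le_abs_self _).trans hk
    constructor
    · exact nul_of_loss (fun k => FLab.leak_nonneg _ _) (hκ i).1.1 hC' (fun δ h0 h1 k => hlk' i k δ h0 h1 (A i k))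
    · exact nul_of_loss (fun k => FLab.leak_nonneg _ _) (hκ i).1.2 hC' (fun δ h0 h1 k => hlk' i k δ h0 h1 (B k))
  have hG : ∀ N : ℕ, ∀ᶠ k in UF, (∀ i ∈ range N, ∀ j ∈ range N, q i ≤ q j →
      (l' i k).leak (A j k) / (S.F k).n ≤ 1 / ((N : ℝ) + 1) ^ 2) ∧
      (∀ i ∈ range N, (l' i k).leak (B k) / (S.F k).n ≤ 1 / ((N : ℝ) + 1) ^ 2) := by
    intro N
    have hpos : (0 : ℝ) < 1 / ((N : ℝ) + 1) ^ 2 := by positivity
    apply Filter.Eventually.and
    · rw [Filter.eventually_all_finset]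
      intro i _
      rw [Filter.eventually_all_finset]
      intro j _
      by_cases hij : q i ≤ q j
      · have h1 := ((hDM' i).mono (hA i j hij) (PLe.refl B)).1
        filter_upwards [h1.eventually (gt_mem_nhds hpos)] with k hk _ using hk.le
      · exact Eventually.of_forall fun k h => absurd h hij
    · rw [Filter.eventually_all_finset]
      intro i _
      filter_upwards [(hDM' i).2.eventually (gt_mem_nhds hpos)] with k hk using hk.le
  obtain ⟨J, hJ, hJG⟩ := dia (fun N k => (∀ i ∈ range N, ∀ j ∈ range N, q i ≤ q j →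
      (l' i k).leak (A j k) / (S.F k).n ≤ 1 / ((N : ℝ) + 1) ^ 2) ∧
      (∀ i ∈ range N, (l' i k).leak (B k) / (S.F k).n ≤ 1 / ((N : ℝ) + 1) ^ 2)) hG
  choose T p hn r hr hW using fun k : ℕ => exists_amalg (fun i => l' i k) (J k)
  -- the choice of the partitions
  set Wc : ℕ → ∀ k i, Setoid (l' i k).T.Ω := fun j k i => if q i ≤ q j then (l' i k).V else Z' i k with hWc
  have hVZ : ∀ i k, (l' i k).V ≤ Z' i k := fun i k => by
    rw [hV']
    exact inf_le_left
  have hWZ : ∀ j k i, Wc j k i ≤ Z' i k := fun j k i => by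
    rw [hWc]
    simp only
    split_ifs
    · exact hVZ i k
    · exact le_rfl
  set M : Fam S := fun k =>
    { T := T k
      p := p k
      hn := hn k
      V := fun j => mtr (κ := fun i => l' i k) (r k) (Wc j k) } with hM
  have hZl : ∀ i k x, (wp (l' i k) (Z' i k)).leak x = 0 := fun i k x => by
    apply le_antisymm _ (FLab.leak_nonneg _ _)
    have h1 : (wp (l' i k) (Z' i k)).leak x = I (fc (Z' i k)) (l' i k).p.top ((l' i k).p.map x) := rfl
    rw [h1, ← hi' i k]
    exact leak_cond bot_le ((l' i k).p.map_le_top x)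
  have hlk : ∀ j k x, ((M.lab j) k).leak x ≤ ∑ i ∈ range (J k), if q i ≤ q j then (l' i k).leak x else 0 := fun j k x => by
    refine ((hW k (Wc j k)).1 x).trans (Finset.sum_le_sum fun i _ => ?_)
    by_cases hij : q i ≤ q j
    · rw [if_pos hij]
      have h1 : Wc j k i = (l' i k).V := if_pos hij
      rw [h1]
    · rw [if_neg hij]
      have h1 : Wc j k i = Z' i k := if_neg hij
      rw [h1]
      exact (hZl i k x).le
  have h0 : Tendsto (fun k => 1 / ((J k : ℝ) + 1)) UF (𝓝 0) :=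
    tendsto_one_div_add_atTop_nhds_zero_nat.comp hJ
  have hsum : ∀ (N : ℕ) (f : ℕ → ℝ) (P : ℕ → Prop), (∀ i ∈ range N, P i → f i ≤ 1 / ((N : ℝ) + 1) ^ 2) →
      (∑ i ∈ range N, if P i then f i else 0) ≤ 1 / ((N : ℝ) + 1) := by
    intro N f P hf
    have h1 : (∑ i ∈ range N, if P i then f i else 0) ≤ ∑ i ∈ range N, 1 / ((N : ℝ) + 1) ^ 2 := by
      apply Finset.sum_le_sum
      intro i hi
      split_ifs with hP
      · exact hf i hi hP
      · positivity
    refine h1.trans ?_
    rw [Finset.sum_const, card_range, nsmul_eq_mul, mul_one_div, div_le_div_iff₀ (by positivity) (by positivity)]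
    nlinarith [(Nat.cast_nonneg N : (0 : ℝ) ≤ N)]
  have hleakA : ∀ j, ∀ᶠ k in UF, ((M.lab j) k).leak (A j k) / (S.F k).n ≤ 1 / ((J k : ℝ) + 1) := by
    intro j
    filter_upwards [hJG, hJ.eventually (eventually_gt_atTop j)] with k hk hkj
    have h1 := hk (J k) le_rfl
    refine (div_le_div_of_nonneg_right (hlk j k (A j k)) (S.F k).pos.le).trans ?_
    rw [Finset.sum_div]
    have h4 : (∑ i ∈ range (J k), (if q i ≤ q j then (l' i k).leak (A j k) else 0) / (S.F k).n) =
        ∑ i ∈ range (J k), if q i ≤ q j then (l' i k).leak (A j k) / (S.F k).n else 0 := by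
      apply Finset.sum_congr rfl
      intro i _
      split_ifs
      · rfl
      · rw [zero_div]
    rw [h4]
    apply hsum
    intro i hi hP
    exact h1.1 i hi j (mem_range.mpr hkj) hP
  have hleakB : ∀ j, ∀ᶠ k in UF, ((M.lab j) k).leak (B k) / (S.F k).n ≤ 1 / ((J k : ℝ) + 1) := by
    intro j
    filter_upwards [hJG] with k hk
    have h1 := hk (J k) le_rfl
    refine (div_le_div_of_nonneg_right (hlk j k (B k)) (S.F k).pos.le).trans ?_
    rw [Finset.sum_div]
    have h4 : (∑ i ∈ range (J k), (if q i ≤ q j then (l' i k).leak (B k) else 0) / (S.F k).n) =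
        ∑ i ∈ range (J k), if q i ≤ q j then (l' i k).leak (B k) / (S.F k).n else 0 := by
      apply Finset.sum_congr rfl
      intro i _
      split_ifs
      · rfl
      · rw [zero_div]
    rw [h4]
    apply hsum
    intro i hi _
    exact h1.2 i hi
  have hDM : ∀ j, (M.lab j).DM (A j) B := by
    intro j
    constructor
    · refine tendsto_of_tendsto_of_tendsto_of_le_of_le' tendsto_const_nhds h0 ?_ (hleakA j)
      exact Eventually.of_forall fun k => div_nonneg (FLab.leak_nonneg _ _) (S.F k).pos.le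
    · refine tendsto_of_tendsto_of_tendsto_of_le_of_le' tendsto_const_nhds h0 ?_ (hleakB j)
      exact Eventually.of_forall fun k => div_nonneg (FLab.leak_nonneg _ _) (S.F k).pos.le
  refine ⟨M, fun k => mtr (κ := fun i => l' i k) (r k) (Z' · k), ?_, ?_, ?_, ?_, ?_⟩
  · intro j
    refine ⟨hDM j, fun l1 hl1 => ((hκ j).2 l1 hl1).trans ?_⟩
    apply ul_mono ((hκ j).1.ub (hAb j)) ((hDM j).ub (hAb j))
    filter_upwards [hJ.eventually (eventually_gt_atTop j)] with k hk
    apply div_le_div_of_nonneg_right _ (S.F k).pos.le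
    refine (hinf' j k).trans ?_
    have h1 := (hW k (Wc j k)).2 j hk
    have h2 : Wc j k j = (l' j k).V := if_pos le_rfl
    rw [h2] at h1
    exact h1
  · intro i j hij k ω ω' h a
    have h1 : Wc j k a ((r k a).π ω) ((r k a).π ω') := h a
    show Wc i k a ((r k a).π ω) ((r k a).π ω')
    by_cases h2 : q a ≤ q i
    · have h3 : Wc i k a = (l' a k).V := if_pos h2
      have h4 : Wc j k a = (l' a k).V := if_pos (h2.trans hij)
      rw [h3]
      rw [h4] at h1
      exact h1
    · have h3 : Wc i k a = Z' a k := if_neg h2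
      rw [h3]
      exact hWZ j k a h1
  · intro i
    filter_upwards [hJ.eventually (eventually_gt_atTop i)] with k hk
    refine ⟨(r k ⟨i, hk⟩).comp (rr i k), ?_, fun ω hω => ?_⟩
    · intro ω ω' h
      have h1 : Wc i k i ((r k ⟨i, hk⟩).π ω) ((r k ⟨i, hk⟩).π ω') := h ⟨i, hk⟩
      have h2 : Wc i k i = (l' i k).V := if_pos le_rfl
      rw [h2, hV'] at h1
      exact h1.2
    · rw [show (M.lab i k).p.π ω = (p k).π ω from rfl, hr k ⟨i, hk⟩ ω hω]
      exact hp' i k _ ((r k ⟨i, hk⟩).supp ω hω)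
  · intro i k ω ω' h a
    exact hWZ i k a (h a)
  · intro i k ω ω' hω hω' hp hZ a
    have h1 : Z' a k ((r k a).π ω) ((r k a).π ω') := hZ a
    show Wc i k a ((r k a).π ω) ((r k a).π ω')
    have h2 : (l' a k).V ((r k a).π ω) ((r k a).π ω') := by
      rw [hV']
      refine ⟨h1, ?_⟩
      apply hd' a k _ _ ((r k a).supp ω hω) ((r k a).supp ω' hω') _ h1
      rw [← hr k a ω hω, ← hr k a ω' hω']
      exact hp
    by_cases h3 : q a ≤ q i
    · have h4 : Wc i k a = (l' a k).V := if_pos h3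
      rw [h4]
      exact h2
    · have h4 : Wc i k a = Z' a k := if_neg h3
      rw [h4]
      exact h1

end

end Pool.Agent.Helper98.FR
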