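import Pool.Agent.Helper98.FR.Vel
import Pool.Agent.Helper98.FR.Nes

/-! EXISTENCE OF THE BOX: a literally nested family of maximal labels of countably many windows, with literal frames. -/

set_option autoImplicit false

namespace Pool.Agent.Helper98.FR

open Finset Filter Topology Pool.Agent.Helper69.RK Pool.Agent.Helper31.EC
open Pool.Agent.Helper82.TP Pool.Agent.Helper40.EL Pool.Agent.Helper60.CS
open Pool.Agent.Helper42.NS Pool.Agent.Helper91.GR Pool.Agent.Helper52.KP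
open Pool.Agent.Helper3.LF (pl sp_dl sp_Sub)

noncomputable section

open Sp QS Pool.Agent.Helper80.MX

variable {S : Sp} {m : ℕ}

/-- the coordinates of `(t, P)` -/
def plT (s : Sys S m) (j : Fin (m + 1)) : TR S :=
  ⟨fun k ω => pl (s.a.v k ω) (s.x.v k ω) (s.t.v k ω 0) j, by
    refine Fin.cases ?_ (fun i => ?_) j
    · exact (TR.cor s.t 0).2
    · exact (TR.cor s.P i).2⟩

theorem plT_zero (s : Sys S m) : plT s 0 = TR.cor s.t 0 := rfl
theorem plT_succ (s : Sys S m) (i : Fin m) : plT s i.succ = TR.cor s.P i := rfl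

theorem mk_mem_of_ag {f : TR S} {r : ℝ} (h : TR.Ag r f 0) : QS.mk f ∈ Id S r := by
  rw [mk_mem_Id']
  exact h.anti (min_le_left _ _)

/-- the frame of a sheet: literal functions of the label -/
theorem frame_of_Sht {s : Sys S m} {i : Fin m} {J : Finset (Fin (m + 1))} {σ : ℝ} (h0 : 0 ≤ σ) {l : Lab S}
    {v : ∀ k, (l k).T.Ω → Cf (m + 1)} (h : Sht s i J σ l v) : ∃ (f0 : TR l.sp) (f : Fin (m + 1) → TR l.sp),
    Lt (S := l.sp) l.V f0 ∧ (∀ j, Lt (S := l.sp) l.V (f j)) ∧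
    QS.mk (TR.cor (s.pull l.pj).P i) - (QS.mk f0 + ∑ j ∈ J, QS.mk (f j) * QS.mk (plT (s.pull l.pj) j)) ∈ Id l.sp σ := by
  classical
  obtain ⟨hm, K, hK, hb, ht⟩ := h
  obtain ⟨K1, hK1, hb1⟩ := (TR.vec (plT (s.pull l.pj))).bd
  obtain ⟨K2, hK2, hb2⟩ := (TR.cor (s.pull l.pj).P i).2
  have hKs : l.sp.Sub K := (sp_Sub l).mpr hK
  -- the bound of the intercept
  set K3 : ℕ → ℝ := fun k => K k + (K2 k + ((m + 1 : ℕ) : ℝ) * (K k * K1 k)) with hK3
  have hK3s : l.sp.Sub K3 :=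
    hKs.add (hK2.add ((l.sp.Sub_const (show (0 : ℝ) ≤ ((m + 1 : ℕ) : ℝ) by positivity)).mul (hKs.mul hK1)))
  set f0 : TR l.sp := ⟨fun k (ω : (l k).T.Ω) => if |(v k ω).1| ≤ K3 k then (v k ω).1 else 0, K3, hK3s, by
    filter_upwards [hK3s.1] with k hk ω _
    split_ifs with h
    · exact h
    · rw [abs_zero]; exact hk⟩ with hf0
  set f : Fin (m + 1) → TR l.sp := fun j => ⟨fun k (ω : (l k).T.Ω) => (v k ω).2 j, K, hKs, by
    filter_upwards [hb] with k hk ω hω using hk ω hω j⟩ with hf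
  refine ⟨f0, f, ?_, fun j => ?_, ?_⟩
  · refine Eventually.of_forall fun k ω ω' a b c d => ?_
    have h1 : v k ω = v k ω' := hm k ω ω' a b c d
    show (if |(v k ω).1| ≤ K3 k then (v k ω).1 else 0) = if |(v k ω').1| ≤ K3 k then (v k ω').1 else 0
    rw [h1]
  · refine Eventually.of_forall fun k ω ω' a b c d => ?_
    have h1 : v k ω = v k ω' := hm k ω ω' a b c d
    show (v k ω).2 j = (v k ω').2 j
    rw [h1]
  · have e0 : QS.mk (TR.cor (s.pull l.pj).P i) - (QS.mk f0 + ∑ j ∈ J, QS.mk (f j) * QS.mk (plT (s.pull l.pj) j)) =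
        QS.mk (TR.cor (s.pull l.pj).P i - (f0 + ∑ j ∈ J, f j * plT (s.pull l.pj) j)) := by
      simp only [map_sub, map_add, map_sum, map_mul]
    rw [e0]
    apply mk_mem_of_ag
    refine ⟨fun k (ω : (l k).T.Ω) => |dfl s i J l v k ω| ≤ K k * S.dl σ k, K, ht, hKs, ?_⟩
    filter_upwards [hb, hb1, hb2, hKs.1, hK1.1] with k hb hb1 hb2 hk0 hk1 ω hω hE
    have hE' : |dfl s i J l v k ω| ≤ K k * S.dl σ k := hE
    have h1 : ∀ j, TR.evh k ω (plT (s.pull l.pj) j) =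
        pl (s.a.v k ((l k).p.π ω)) (s.x.v k ((l k).p.π ω)) (s.t.v k ((l k).p.π ω) 0) j := fun j => rfl
    have hpl : ∀ j, |pl (s.a.v k ((l k).p.π ω)) (s.x.v k ((l k).p.π ω)) (s.t.v k ((l k).p.π ω) 0) j| ≤ K1 k :=
      fun j => hb1 ω hω j
    have hP : |s.a.v k ((l k).p.π ω) i + s.t.v k ((l k).p.π ω) 0 * s.x.v k ((l k).p.π ω) i| ≤ K2 k := hb2 ω hω
    have hdl : S.dl σ k ≤ 1 := by
      unfold Sp.dl
      apply Real.rpow_le_one_of_one_le_of_nonpos (by norm_num)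
      have := (S.F k).pos
      have : 0 ≤ σ * (S.F k).n := by positivity
      linarith
    -- the sum
    have hs : |∑ j ∈ J, (v k ω).2 j * pl (s.a.v k ((l k).p.π ω)) (s.x.v k ((l k).p.π ω)) (s.t.v k ((l k).p.π ω) 0) j| ≤
        ((m + 1 : ℕ) : ℝ) * (K k * K1 k) := by
      refine (Finset.abs_sum_le_sum_abs _ _).trans ?_
      calc ∑ j ∈ J, |(v k ω).2 j * pl (s.a.v k ((l k).p.π ω)) (s.x.v k ((l k).p.π ω)) (s.t.v k ((l k).p.π ω) 0) j|
          ≤ ∑ j ∈ J, K k * K1 k := Finset.sum_le_sum fun j _ => by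
            rw [abs_mul]
            exact mul_le_mul (hb ω hω j) (hpl j) (abs_nonneg _) hk0
        _ = (J.card : ℝ) * (K k * K1 k) := by rw [Finset.sum_const, nsmul_eq_mul]
        _ ≤ ((m + 1 : ℕ) : ℝ) * (K k * K1 k) := by
            apply mul_le_mul_of_nonneg_right _ (mul_nonneg hk0 hk1)
            have := Finset.card_le_univ J
            rw [Fintype.card_fin] at this
            exact_mod_cast this
    -- the intercept is not clipped
    have hi : |(v k ω).1| ≤ K3 k := by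
      have e1 : (v k ω).1 = (s.a.v k ((l k).p.π ω) i + s.t.v k ((l k).p.π ω) 0 * s.x.v k ((l k).p.π ω) i) -
          dfl s i J l v k ω -
          ∑ j ∈ J, (v k ω).2 j * pl (s.a.v k ((l k).p.π ω)) (s.x.v k ((l k).p.π ω)) (s.t.v k ((l k).p.π ω) 0) j := by
        unfold dfl df aff
        ring
      rw [e1]
      refine (abs_sub _ _).trans ?_
      have h2 := abs_sub (s.a.v k ((l k).p.π ω) i + s.t.v k ((l k).p.π ω) 0 * s.x.v k ((l k).p.π ω) i)
        (dfl s i J l v k ω)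
      have h3 : K k * S.dl σ k ≤ K k := mul_le_of_le_one_right hk0 hdl
      show _ ≤ K k + (K2 k + ((m + 1 : ℕ) : ℝ) * (K k * K1 k))
      linarith
    have e2 : TR.ev (TR.cor (s.pull l.pj).P i - (f0 + ∑ j ∈ J, f j * plT (s.pull l.pj) j)) k ω -
        TR.ev (0 : TR l.sp) k ω = dfl s i J l v k ω := by
      have e3 : TR.ev (∑ j ∈ J, f j * plT (s.pull l.pj) j) k ω =
          ∑ j ∈ J, (v k ω).2 j * pl (s.a.v k ((l k).p.π ω)) (s.x.v k ((l k).p.π ω)) (s.t.v k ((l k).p.π ω) 0) j := by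
        rw [← TR.evh_apply, map_sum]
        rfl
      have e4 : TR.ev f0 k ω = (v k ω).1 := if_pos hi
      rw [TR.ev_sub, TR.ev_add, e3, e4, TR.ev_zero, sub_zero]
      rfl
    rw [e2, sp_dl]
    exact hE'

/-! ### cells -/

/-- the cells of the window -/
def cw (s : Sys S m) (c : ℝ) (hc : 0 ≤ c) (k : ℕ) (ω : (S.F k).Ω) :
    ((Fin 1 → ℤ) × (Fin m → ℤ)) × ((Fin 1 → ℤ) × ((Fin m → ℤ) × (Fin m → ℤ))) :=
  ((s.t.cellv c k ω, s.P.cellv c k ω), (s.t.cellv c k ω, (s.x.cellv 0 k ω, (s.bc c hc).cellv (c + 0) k ω)))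

theorem cw_bdd (s : Sys S m) (c : ℝ) (hc : 0 ≤ c) : Bdd (S := S) (cw s c hc) :=
  ((s.t.bdd c).pair (s.P.bdd c)).pair ((s.t.bdd c).pair ((s.x.bdd 0).pair ((s.bc c hc).bdd (c + 0))))

theorem cw_io (s : Sys S m) (c : ℝ) (hc : 0 ≤ c) : io (cw s c hc) = s.t.dg c ⊔ s.P.dg c := by
  have h1 : io (cw s c hc) = (io (fun k ω => s.t.cellv c k ω) ⊔ io (fun k ω => s.P.cellv c k ω)) ⊔
      (io (fun k ω => s.t.cellv c k ω) ⊔ (io (fun k ω => s.x.cellv 0 k ω) ⊔ io (fun k ω => (s.bc c hc).cellv (c + 0) k ω))) := by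
    have a1 := io_pair ((s.t.bdd c).pair (s.P.bdd c)) ((s.t.bdd c).pair ((s.x.bdd 0).pair ((s.bc c hc).bdd (c + 0))))
    have a2 := io_pair (s.t.bdd c) (s.P.bdd c)
    have a3 := io_pair (s.t.bdd c) ((s.x.bdd 0).pair ((s.bc c hc).bdd (c + 0)))
    have a4 := io_pair (s.x.bdd 0) ((s.bc c hc).bdd (c + 0))
    rw [← a4, ← a3, ← a2, ← a1]
    rfl
  have h2 : io (fun k ω => (s.bc c hc).cellv (c + 0) k ω) = s.P.dg (c + 0) := by
    rw [add_zero]
    exact s.bc_dg c hc le_rfl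
  have h3 : io (fun k ω => s.x.cellv 0 k ω) = ⊥ := s.x.dg_nonpos le_rfl
  have h4 : io (fun k ω => s.t.cellv c k ω) = s.t.dg c := rfl
  have h5 : io (fun k ω => s.P.cellv c k ω) = s.P.dg c := rfl
  rw [h1, h2, h3, h4, h5, bot_sup_eq, add_zero, sup_idem]

theorem cw_A (s : Sys S m) {c : ℝ} (hc : 0 ≤ c) (h1 : c ≤ 1) : io (cw s c hc) ≤ lA s c := by
  rw [cw_io]
  exact sup_le le_sup_right (P_le_A s h1)

theorem cw_B (s : Sys S m) {c : ℝ} (hc : 0 ≤ c) (h1 : c ≤ 1) : io (cw s c hc) ≤ lB s := by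
  rw [cw_io]
  exact sup_le (t_le_B s h1) (P_le_B s h1)

theorem Kc_of_cw {s : Sys S m} {c : ℝ} {hc : 0 ≤ c} {l : Lab S} (h : Knw l (cw s c hc)) : Kc s c hc l := by
  filter_upwards [h] with k h ω ω' a b d e
  have h1 := h ω ω' a b d e
  unfold cw at h1
  rw [Prod.mk.injEq] at h1
  exact h1.2

/-- floors of known cells are literal functions -/
theorem Lt_fl {l : Lab S} {p : ℕ} {y : S.VV p} {c : ℝ} (hc : 0 ≤ c) (h : Knw l (fun k ω => y.cellv c k ω)) (i : Fin p) :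
    Lt (S := l.sp) l.V (TR.cor ((l.pj.vv y).fl c hc) i) := by
  filter_upwards [h] with k h ω ω' a b d e
  have h1 : (l.pj.vv y).cellv c k ω = (l.pj.vv y).cellv c k ω' :=
    (pj_cellv l y c k ω).trans ((h ω ω' a b d e).trans (pj_cellv l y c k ω').symm)
  have h2 : ⌊(l.pj.vv y).v k ω i / l.sp.dl c k⌋ = ⌊(l.pj.vv y).v k ω' i / l.sp.dl c k⌋ := congrFun h1 i
  show (⌊(l.pj.vv y).v k ω i / l.sp.dl c k⌋ : ℝ) * l.sp.dl c k = ⌊(l.pj.vv y).v k ω' i / l.sp.dl c k⌋ * l.sp.dl c k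
  rw [h2]

theorem fl_mem {p : ℕ} (y : S.VV p) {c : ℝ} (hc : 0 ≤ c) (i : Fin p) :
    QS.mk (TR.cor y i) - QS.mk (TR.cor (y.fl c hc) i) ∈ Id S c := by
  rw [← map_sub]
  apply mk_mem_of_ag
  refine ⟨fun _ _ => True, fun _ => 1, Typ_true, S.Sub_const zero_le_one, Eventually.of_forall fun k ω _ _ => ?_⟩
  obtain ⟨h1, h2⟩ := y.fl_sub c hc k ω i
  have e : TR.ev (TR.cor y i - TR.cor (y.fl c hc) i) k ω - TR.ev (0 : TR S) k ω = y.v k ω i - (y.fl c hc).v k ω i := by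
    rw [TR.ev_sub, TR.ev_zero, sub_zero]
    rfl
  rw [e, abs_of_nonneg h1, one_mul]
  exact h2.le

theorem cor_fl_dg (y : S.VV m) {c : ℝ} (hc : 0 ≤ c) (i : Fin m) (r : ℝ) :
    TR.dg (TR.cor (y.fl c hc) i) r ≤ TR.dg (TR.cor y i) c := by
  have h1 := VV.fl_dg_le (TR.vec (fun _ : Fin 1 => TR.cor y i)) c hc r
  have h2 : TR.vec (fun _ : Fin 1 => TR.cor (y.fl c hc) i) = (TR.vec (fun _ : Fin 1 => TR.cor y i)).fl c hc := rfl
  unfold TR.dg
  rw [h2]
  exact h1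

theorem dg_qc_lab (l : Lab S) (f : TR S) : dg (qc (S := l.sp) l.V (QS.mk (l.pj.tr f))) 1 = up1 l (TR.dg f 1) := by
  rw [qc_dg, dg_mk _ le_rfl, Pj.tr_dg]
  rfl

theorem T_eq (s : Sys S m) : TR.dg (TR.cor s.t 0) 1 = s.T := by
  have h2 : TR.vec (fun _ : Fin 1 => TR.cor s.t 0) = s.t := by
    have h3 : (fun _ : Fin 1 => TR.cor s.t 0) = TR.cor s.t := by
      funext i
      rw [Subsingleton.elim i 0]
    rw [h3]
    exact TR.vec_cor s.t
  unfold TR.dg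
  rw [h2]
  rfl

theorem full_lab {s : Sys S m} {c lam : ℝ} (h0 : 0 ≤ c) (h1 : c ≤ 1) {l : Lab S} (hk : IsKap s c l) {x y : S.L}
    (hf : (1 - c) + (1 - lam) ≤ h (up1 l (x ⊔ y)) (up1 l s.T)) :
    (1 - c) + (1 - c) + (1 - lam) ≤ H (up1 l s.T ⊔ up1 l x ⊔ up1 l y) := by
  rw [sup_assoc, ← up1_sup, H_chain, hk.H_T h0 h1]
  linarith

/-! ### the box -/

/-- the projection of a family -/
def famPj (M : Fam S) : Pj M.sp S := (M.lab 0).pj

/-- A BOX of a system of lines in `R^4` over countably many windows: literally nested maximal labels which know the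
cells, the frame of `R = P_1` over `(t, y = P_0)` of depth `lam i`, the frame of `z = P_2` over `(t, y, R)` of depth
`eta i`, and given labels `L i`; all labels are functions of the space and of a common randomness `Zr` known to all -/
structure Bx (s : Sys S 3) (q lam eta : ℕ → ℝ) (L : ℕ → Lab S) where
  M : Fam S
  q0 : ∀ i, 0 ≤ q i
  q1 : ∀ i, q i ≤ 1
  lam1 : ∀ i, lam i ≤ 1
  eta1 : ∀ i, eta i ≤ 1
  qlam : ∀ i, q i ≤ lam i
  slam : ∀ i j, q i ≤ q j → lam i - q i ≤ lam j - q j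
  seta : ∀ i j, q i ≤ q j → eta i - q i ≤ eta j - q j
  kap : ∀ i, IsKap s (q i) (M.lab i)
  nest : ∀ i j, q i ≤ q j → ∀ k, (M k).V j ≤ (M k).V i
  dom : ∀ i, Dom (M.lab i) (L i)
  Zr : ∀ k, Setoid (M k).T.Ω
  VZ : ∀ i k, (M k).V i ≤ Zr k
  dZ : ∀ i k ω ω', (M k).T.μ ω ≠ 0 → (M k).T.μ ω' ≠ 0 → (M k).p.π ω = (M k).p.π ω' → Zr k ω ω' → (M k).V i ω ω'
  cel : ∀ i, Knw (M.lab i) (cw s (q i) (q0 i))
  r : ℕ → Fin 3 → TR M.sp
  c : ℕ → Fin 4 → TR M.sp
  lr : ∀ i j, Lt (S := M.sp) (fun k => (M k).V i) (r i j)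
  lc : ∀ i j, Lt (S := M.sp) (fun k => (M k).V i) (c i j)
  hr : ∀ i, QS.mk (TR.cor (s.pull (famPj M)).P 1) - (QS.mk (r i 0) + QS.mk (r i 1) * QS.mk (TR.cor (s.pull (famPj M)).t 0) +
    QS.mk (r i 2) * QS.mk (TR.cor (s.pull (famPj M)).P 0)) ∈ Id M.sp (lam i)
  hc : ∀ i, QS.mk (TR.cor (s.pull (famPj M)).P 2) - (QS.mk (c i 0) + QS.mk (c i 1) * QS.mk (TR.cor (s.pull (famPj M)).t 0) +
    QS.mk (c i 2) * QS.mk (TR.cor (s.pull (famPj M)).P 0) + QS.mk (c i 3) * QS.mk (TR.cor (s.pull (famPj M)).P 1)) ∈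
      Id M.sp (eta i)
  full : ∀ i (l : Lab S), IsKap s (q i) l → (1 - q i) + (1 - lam i) ≤
    h (up1 l (TR.dg (TR.cor s.P 0) 1 ⊔ TR.dg (TR.cor s.P 1) 1)) (up1 l s.T)

namespace Bx

variable {s : Sys S 3} {q lam eta : ℕ → ℝ} {L : ℕ → Lab S} (b : Bx s q lam eta L)

/-- the system in the space of the family -/
abbrev sy : Sys b.M.sp 3 := s.pull (famPj b.M)

/-- DET: over any label of the family all labels are functions of the space -/
theorem det (i j k : ℕ) {ω ω' : (b.M k).T.Ω} (h : (b.M k).T.μ ω ≠ 0) (h' : (b.M k).T.μ ω' ≠ 0)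
    (hp : (b.M k).p.π ω = (b.M k).p.π ω') (hV : (b.M k).V i ω ω') : (b.M k).V j ω ω' :=
  b.dZ j k ω ω' h h' hp (b.VZ i k hV)

theorem kc (i : ℕ) : Kc s (q i) (b.q0 i) (b.M.lab i) := Kc_of_cw (b.cel i)

theorem dg_qc (f : TR S) (i : ℕ) :
    dg (qc (S := b.M.sp) (fun k => (b.M k).V i) (QS.mk ((famPj b.M).tr f))) 1 = up1 (b.M.lab i) (TR.dg f 1) :=
  dg_qc_lab (b.M.lab i) f

theorem full' (i : ℕ) : (1 - q i) + (1 - q i) + (1 - lam i) ≤
    H (dg (qc (S := b.M.sp) (fun k => (b.M k).V i) (QS.mk (TR.cor b.sy.t 0))) 1 ⊔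
      dg (qc (S := b.M.sp) (fun k => (b.M k).V i) (QS.mk (TR.cor b.sy.P 0))) 1 ⊔
      dg (qc (S := b.M.sp) (fun k => (b.M k).V i) (QS.mk (TR.cor b.sy.P 1))) 1) := by
  have h1 := b.dg_qc (TR.cor s.t 0) i
  have h2 := b.dg_qc (TR.cor s.P 0) i
  have h3 := b.dg_qc (TR.cor s.P 1) i
  have e1 : (famPj b.M).tr (TR.cor s.t 0) = TR.cor b.sy.t 0 := rfl
  have e2 : (famPj b.M).tr (TR.cor s.P 0) = TR.cor b.sy.P 0 := rfl
  have e3 : (famPj b.M).tr (TR.cor s.P 1) = TR.cor b.sy.P 1 := rfl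
  rw [e1] at h1
  rw [e2] at h2
  rw [e3] at h3
  rw [h1, h2, h3, T_eq]
  exact full_lab (b.q0 i) (b.q1 i) (b.kap i) (b.full i _ (b.kap i))

/-- the box data -/
def bd : BD b.M.sp where
  V := fun i k => (b.M k).V i
  q := q
  lam := lam
  eta := eta
  t := TR.cor b.sy.t 0
  y := TR.cor b.sy.P 0
  R := TR.cor b.sy.P 1
  z := TR.cor b.sy.P 2
  tc := fun i => TR.cor (b.sy.t.fl (q i) (b.q0 i)) 0
  yc := fun i => TR.cor (b.sy.P.fl (q i) (b.q0 i)) 0
  r := b.r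
  c := b.c
  nest := fun i j h => Eventually.of_forall fun k => b.nest i j h k
  q0 := b.q0
  q1 := b.q1
  lam1 := b.lam1
  eta1 := b.eta1
  qlam := b.qlam
  lt := fun i => Lt_fl (l := b.M.lab i) (y := s.t) (b.q0 i) ((b.cel i).comp (fun _ w => w.1.1)) 0
  ly := fun i => Lt_fl (l := b.M.lab i) (y := s.P) (b.q0 i) ((b.cel i).comp (fun _ w => w.1.2)) 0
  lr := b.lr
  lc := b.lc
  ht := fun i => fl_mem _ _ 0
  hy := fun i => fl_mem _ _ 0
  hr := b.hr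
  hc := b.hc
  full := b.full'
  slam := b.slam
  seta := b.seta

/-- centres are functions of the digits -/
theorem tc_dg (i : ℕ) (r : ℝ) : TR.dg (b.bd.tc i) r ≤ TR.dg b.bd.t (q i) := cor_fl_dg _ _ _ _
theorem yc_dg (i : ℕ) (r : ℝ) : TR.dg (b.bd.yc i) r ≤ TR.dg b.bd.y (q i) := cor_fl_dg _ _ _ _

/-- the line data -/
def ld : LD b.bd where
  a := TR.cor b.sy.a
  x := TR.cor b.sy.x
  hy := rfl
  hR := rfl
  hz := rfl
  L := (famPj b.M).map (s.xi 1)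
  aL := fun j => by
    have h1 : TR.dg (TR.cor b.sy.a j) 1 = (famPj b.M).map (TR.dg (TR.cor s.a j) 1) := Pj.tr_dg (famPj b.M) (TR.cor s.a j) 1
    rw [h1]
    exact (famPj b.M).map_mono ((TR.cor_dg_le s.a j 1).trans (s.a_le_xi le_rfl))
  xL := fun j => by
    have h1 : TR.dg (TR.cor b.sy.x j) 1 = (famPj b.M).map (TR.dg (TR.cor s.x j) 1) := Pj.tr_dg (famPj b.M) (TR.cor s.x j) 1
    rw [h1]
    exact (famPj b.M).map_mono ((TR.cor_dg_le s.x j 1).trans (s.x_le_xi le_rfl))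
  real := fun i => by
    have h1 := b.dg_qc (TR.cor s.t 0) i
    rw [T_eq] at h1
    have h2 : dg (qc (b.bd.V i) (QS.mk b.bd.t)) 1 = up1 (b.M.lab i) s.T := h1
    rw [h2]
    exact ((b.kap i).h_T (b.q0 i) (b.q1 i)).ge

end Bx

/-- EXISTENCE OF THE BOX -/
theorem exists_box (s : Sys S 3) (q lam eta : ℕ → ℝ) (L : ℕ → Lab S) (q0 : ∀ i, 0 ≤ q i) (q1 : ∀ i, q i ≤ 1)
    (lam1 : ∀ i, lam i ≤ 1) (eta0 : ∀ i, 0 ≤ eta i) (eta1 : ∀ i, eta i ≤ 1) (qlam : ∀ i, q i ≤ lam i)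
    (slam : ∀ i j, q i ≤ q j → lam i - q i ≤ lam j - q j) (seta : ∀ i j, q i ≤ q j → eta i - q i ≤ eta j - q j)
    (hR : ∀ i, HH (SJ 1 {0, 1}) s (q i) (lam i)) (hz : ∀ i, HH (SJ 2 {0, 1, 2}) s (q i) (eta i))
    (hL : ∀ i, DMc s (q i) (L i))
    (full : ∀ i (l : Lab S), IsKap s (q i) l → (1 - q i) + (1 - lam i) ≤
      h (up1 l (TR.dg (TR.cor s.P 0) 1 ⊔ TR.dg (TR.cor s.P 1) 1)) (up1 l s.T)) : Nonempty (Bx s q lam eta L) := by
  classical
  have hR' : ∀ i, ∃ (l : Lab S) (v : ∀ k, (l k).T.Ω → Cf 4), DMc s (q i) l ∧ Sht s 1 {0, 1} (lam i) l v := fun i => by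
    obtain ⟨l, v, h1, h2⟩ := Sht_of_HH (hR i)
    exact ⟨l, v, h1, h2⟩
  have hz' : ∀ i, ∃ (l : Lab S) (v : ∀ k, (l k).T.Ω → Cf 4), DMc s (q i) l ∧ Sht s 2 {0, 1, 2} (eta i) l v := fun i => by
    obtain ⟨l, v, h1, h2⟩ := Sht_of_HH (hz i)
    exact ⟨l, v, h1, h2⟩
  choose lR vR dR sR using hR'
  choose lz vz dz sz using hz'
  set κ1 : ℕ → Lab S := fun i k => (kap s (q i) k).join (lR i k) with h1
  set κ2 : ℕ → Lab S := fun i k => (κ1 i k).join (lz i k) with h2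
  set κ3 : ℕ → Lab S := fun i k => (κ2 i k).join (L i k) with h3
  set κ : ℕ → Lab S := fun i => lW (κ3 i) (cw s (q i) (q0 i)) with h4
  have k1 : ∀ i, IsKap s (q i) (κ1 i) := fun i => join_kap (kap_isKap s (q i)) (dR i)
  have k2 : ∀ i, IsKap s (q i) (κ2 i) := fun i => join_kap (k1 i) (dz i)
  have k3 : ∀ i, IsKap s (q i) (κ3 i) := fun i => join_kap (k2 i) (hL i)
  have k4 : ∀ i, IsKap s (q i) (κ i) := fun i => lW_kap (cw_bdd s _ _) (cw_A s (q0 i) (q1 i)) (cw_B s (q0 i) (q1 i)) (k3 i)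
  obtain ⟨M, Zr, hM, hn, hd, hVZ, hdZ⟩ := exists_nested2 q (fun i => cA s (q i)) (cB s) (fun i j hij => by
      rw [cA_eq, cA_eq, PLe_rpI, cl_A, cl_A]
      exact sup_le_sup_left (s.t.dg_mono hij) _) (fun i => cA_Bd s (q i)) κ k4
  have d3 : ∀ i, Dom (M.lab i) (κ3 i) := fun i => (hd i).trans (lW_dom _ _)
  have d2 : ∀ i, Dom (M.lab i) (κ2 i) := fun i => (d3 i).trans (Dom.left _ _)
  have d1 : ∀ i, Dom (M.lab i) (κ1 i) := fun i => (d2 i).trans (Dom.left _ _)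
  have dL : ∀ i, Dom (M.lab i) (L i) := fun i => (d3 i).trans (Dom.right _ _)
  have dz' : ∀ i, Dom (M.lab i) (lz i) := fun i => (d2 i).trans (Dom.right _ _)
  have dR' : ∀ i, Dom (M.lab i) (lR i) := fun i => (d1 i).trans (Dom.right _ _)
  have lam0 : ∀ i, 0 ≤ lam i := fun i => (q0 i).trans (qlam i)
  have fR : ∀ i, ∃ (f0 : TR M.sp) (f : Fin 4 → TR M.sp), Lt (S := M.sp) (fun k => (M k).V i) f0 ∧
      (∀ j, Lt (S := M.sp) (fun k => (M k).V i) (f j)) ∧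
      QS.mk (TR.cor (s.pull (famPj M)).P 1) - (QS.mk f0 + ∑ j ∈ ({0, 1} : Finset (Fin 4)), QS.mk (f j) * QS.mk (plT (s.pull (famPj M)) j)) ∈
        Id M.sp (lam i) := fun i => by
    obtain ⟨v', hv'⟩ := Sht_dom (sR i) (dR' i)
    exact frame_of_Sht (lam0 i) hv'
  have fz : ∀ i, ∃ (f0 : TR M.sp) (f : Fin 4 → TR M.sp), Lt (S := M.sp) (fun k => (M k).V i) f0 ∧
      (∀ j, Lt (S := M.sp) (fun k => (M k).V i) (f j)) ∧
      QS.mk (TR.cor (s.pull (famPj M)).P 2) - (QS.mk f0 + ∑ j ∈ ({0, 1, 2} : Finset (Fin 4)), QS.mk (f j) * QS.mk (plT (s.pull (famPj M)) j)) ∈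
        Id M.sp (eta i) := fun i => by
    obtain ⟨v', hv'⟩ := Sht_dom (sz i) (dz' i)
    exact frame_of_Sht (eta0 i) hv'
  choose r0 rj hr0 hrj hr using fR
  choose c0 cj hc0 hcj hc using fz
  refine ⟨{ M := M, q0 := q0, q1 := q1, lam1 := lam1, eta1 := eta1, qlam := qlam, slam := slam, seta := seta,
            kap := hM, nest := hn, dom := dL, Zr := Zr, VZ := hVZ, dZ := hdZ, cel := fun i => (lW_knw _ _).dom (hd i)
            r := fun i => ![r0 i, rj i 0, rj i 1], c := fun i => ![c0 i, cj i 0, cj i 1, cj i 2]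
            lr := fun i j => by
              fin_cases j
              · exact hr0 i
              · exact hrj i 0
              · exact hrj i 1
            lc := fun i j => by
              fin_cases j
              · exact hc0 i
              · exact hcj i 0
              · exact hcj i 1
              · exact hcj i 2
            hr := fun i => ?_
            hc := fun i => ?_
            full := full }⟩
  · have h5 := hr i
    rw [Finset.sum_pair (by decide)] at h5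
    have e : QS.mk (r0 i) + (QS.mk (rj i 0) * QS.mk (plT (s.pull (famPj M)) 0) + QS.mk (rj i 1) * QS.mk (plT (s.pull (famPj M)) 1)) =
        QS.mk (r0 i) + QS.mk (rj i 0) * QS.mk (TR.cor (s.pull (famPj M)).t 0) + QS.mk (rj i 1) * QS.mk (TR.cor (s.pull (famPj M)).P 0) := by
      rw [← add_assoc]
      rfl
    rw [e] at h5
    exact h5
  · have h5 := hc i
    rw [Finset.sum_insert (by decide), Finset.sum_pair (by decide)] at h5
    have e : QS.mk (c0 i) + (QS.mk (cj i 0) * QS.mk (plT (s.pull (famPj M)) 0) + (QS.mk (cj i 1) * QS.mk (plT (s.pull (famPj M)) 1) +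
        QS.mk (cj i 2) * QS.mk (plT (s.pull (famPj M)) 2))) =
        QS.mk (c0 i) + QS.mk (cj i 0) * QS.mk (TR.cor (s.pull (famPj M)).t 0) + QS.mk (cj i 1) * QS.mk (TR.cor (s.pull (famPj M)).P 0) +
        QS.mk (cj i 2) * QS.mk (TR.cor (s.pull (famPj M)).P 1) := by
      rw [← add_assoc, ← add_assoc]
      rfl
    rw [e] at h5
    exact h5

end

end Pool.Agent.Helper98.FR
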