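import Pool.Agent.Helper98.FR.Form
import Pool.Agent.Helper60.CS.Zo
import Pool.Agent.Helper40.EL.W1

/-! QS-functions in the space over a label (same depth); functions which are literally known to a label. -/

set_option autoImplicit false

namespace Pool.Agent.Helper98.FR

open Finset Filter Topology Pool.Agent.Helper69.RK Pool.Agent.Helper31.EC
open Pool.Agent.Helper82.TP Pool.Agent.Helper40.EL Pool.Agent.Helper60.CS

noncomputable section

open Sp QS Pool.Agent.Helper80.MX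

variable {S : Sp} (Z : ∀ k, Setoid (S.F k).Ω)

theorem sub_of_chg {K : ℕ → ℝ} (hK : (S.chg Z 1 one_pos).Sub K) : S.Sub K := by
  refine ⟨hK.1, ?_⟩
  refine hK.2.congr fun k => ?_
  show Real.logb 2 (K k + 2) / (1 * (S.F k).n) = Real.logb 2 (K k + 2) / (S.F k).n
  rw [one_mul]

theorem chg_dl1 (r : ℝ) (k : ℕ) : (S.chg Z 1 one_pos).dl r k = S.dl r k := by
  rw [chg_dl, one_mul]

theorem trc_ag {r : ℝ} {f g : TR S} : TR.Ag r (trc Z 1 one_pos f) (trc Z 1 one_pos g) ↔ TR.Ag r f g := by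
  constructor
  · rintro ⟨E, K, hE, hK, hh⟩
    refine ⟨E, K, hE, sub_of_chg Z hK, ?_⟩
    filter_upwards [hh] with k hk ω a b
    have h1 := hk ω a b
    rw [chg_dl1] at h1
    exact h1
  · rintro ⟨E, K, hE, hK, hh⟩
    refine ⟨E, K, hE, chg_sub Z 1 one_pos hK, ?_⟩
    filter_upwards [hh] with k hk ω a b
    rw [chg_dl1]
    exact hk ω a b

/-- tame functions to full precision over a label -/
def qc : QS S →+* QS (S.chg Z 1 one_pos) :=
  Ideal.quotientMap (TR.Idl (S.chg Z 1 one_pos)) (trc Z 1 one_pos) (fun f hf => by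
    rw [Ideal.mem_comap, TR.mem_Idl]
    rw [TR.mem_Idl] at hf
    have := (trc_ag Z).mpr hf
    rwa [map_zero] at this)

theorem qc_mk (f : TR S) : qc Z (mk f) = mk (trc Z 1 one_pos f) := rfl

theorem qc_mem_Id {f : QS S} {r : ℝ} : qc Z f ∈ Id (S.chg Z 1 one_pos) r ↔ f ∈ Id S r := by
  obtain ⟨f, rfl⟩ := mk_surj f
  rw [qc_mk, mk_mem_Id', mk_mem_Id', ← trc_ag Z, map_zero]

theorem qc_dg (f : QS S) (r : ℝ) : dg (qc Z f) r = chgL Z 1 one_pos (dg f r) := by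
  obtain ⟨f, rfl⟩ := mk_surj f
  rw [qc_mk]
  rcases le_total r 1 with hr | hr
  · rw [dg_mk _ hr, dg_mk _ hr, trc_dg, one_mul]
  · rw [dg_cut _ hr, dg_cut _ hr, dg_mk _ le_rfl, dg_mk _ le_rfl, trc_dg, one_mul]

/-- `f` is literally a function of `W` (over the base) -/
def Lt (W : ∀ k, Setoid (S.F k).Ω) (f : TR S) : Prop := ∀ᶠ k in UF, ∀ ω ω', (S.F k).μ ω ≠ 0 → (S.F k).μ ω' ≠ 0 →
  W k ω ω' → (S.F k).Z ω ω' → f.1 k ω = f.1 k ω'

theorem Lt.mono {W W' : ∀ k, Setoid (S.F k).Ω} (h : ∀ᶠ k in UF, W' k ≤ W k) {f : TR S} (hf : Lt W f) : Lt W' f := by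
  filter_upwards [h, hf] with k a b ω ω' c d e g
  exact b ω ω' c d (a e) g

theorem Lt.add {W : ∀ k, Setoid (S.F k).Ω} {f g : TR S} (hf : Lt W f) (hg : Lt W g) : Lt W (f + g) := by
  filter_upwards [hf, hg] with k a b ω ω' c d e z
  show f.1 k ω + g.1 k ω = f.1 k ω' + g.1 k ω'
  rw [a ω ω' c d e z, b ω ω' c d e z]

theorem Lt.mul {W : ∀ k, Setoid (S.F k).Ω} {f g : TR S} (hf : Lt W f) (hg : Lt W g) : Lt W (f * g) := by
  filter_upwards [hf, hg] with k a b ω ω' c d e z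
  show f.1 k ω * g.1 k ω = f.1 k ω' * g.1 k ω'
  rw [a ω ω' c d e z, b ω ω' c d e z]

theorem Lt.neg {W : ∀ k, Setoid (S.F k).Ω} {f : TR S} (hf : Lt W f) : Lt W (-f) := by
  filter_upwards [hf] with k a ω ω' c d e z
  show -f.1 k ω = -f.1 k ω'
  rw [a ω ω' c d e z]

theorem Lt.sub {W : ∀ k, Setoid (S.F k).Ω} {f g : TR S} (hf : Lt W f) (hg : Lt W g) : Lt W (f - g) := by
  rw [sub_eq_add_neg]
  exact hf.add hg.neg

/-- functions known to the new base are constants -/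
theorem Lt.dg_bot {f : TR S} (hf : Lt Z f) (e : ℝ) (he : 0 < e) (r : ℝ) : TR.dg (trc Z e he f) r = ⊥ := by
  apply le_antisymm _ bot_le
  rw [← cl_bot]
  apply TR.dg_le_cl (trc Z e he f) r Inf.bot (fun _ _ => True) Typ_true (fun _ => 0) (Sp.Sub_const _ le_rfl)
  filter_upwards [hf] with k a ω ω' c d _ _ g _
  have g1 : (Z k ⊓ (S.F k).Z) ω ω' := g
  have h1 : f.1 k ω = f.1 k ω' := a ω ω' c d g1.1 g1.2
  show |f.1 k ω - f.1 k ω'| ≤ _
  rw [h1, sub_self, abs_zero, zero_mul]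

theorem Lt.qc_bot {f : TR S} (hf : Lt Z f) (r : ℝ) : dg (qc Z (mk f)) r = ⊥ := by
  rw [qc_mk]
  rcases le_total r 1 with hr | hr
  · rw [dg_mk _ hr]
    exact hf.dg_bot Z 1 one_pos r
  · rw [dg_cut _ hr, dg_mk _ le_rfl]
    exact hf.dg_bot Z 1 one_pos 1

end

end Pool.Agent.Helper98.FR
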