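import Pool.Agent.Helper42.NS.PlZ
import Pool.Agent.Helper91.GR.Def
import Pool.Agent.Helper40.EL.D5

/-! DOMINATION of labels: projections of the spaces of labels, pointwise over the space. Joins, literal knowledge of
cells, sheets, literally nested families. -/

set_option autoImplicit false

namespace Pool.Agent.Helper98.FR

open Finset Filter Topology Pool.Agent.Helper69.RK Pool.Agent.Helper31.EC
open Pool.Agent.Helper40.EL Pool.Agent.Helper42.NS Pool.Agent.Helper91.GR
open Pool.Agent.Helper3.LF (pl)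
open Pool.Agent.Helper59.LF (ladd fadd DM_ladd fadd_info_ge)

noncomputable section

open Sp

variable {S : Sp} {m : ℕ}

/-- `l'` dominates `l`: its space projects to the space of `l`, pointwise over the space, and its partition is finer -/
def Dom (l' l : Lab S) : Prop := ∀ᶠ k in UF, ∃ r : FPj (l' k).T (l k).T,
  (l' k).V ≤ Setoid.comap r.π (l k).V ∧ ∀ ω, (l' k).T.μ ω ≠ 0 → (l' k).p.π ω = (l k).p.π (r.π ω)

theorem Dom.refl (l : Lab S) : Dom l l := Eventually.of_forall fun k => ⟨(FLab.triv (l k).T).p, le_rfl, fun _ _ => rfl⟩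

theorem Dom.trans {l l' l'' : Lab S} (h : Dom l'' l') (h' : Dom l' l) : Dom l'' l := by
  filter_upwards [h, h'] with k h h'
  obtain ⟨r, h1, h2⟩ := h
  obtain ⟨r', h1', h2'⟩ := h'
  refine ⟨r.comp r', ?_, fun ω hω => ?_⟩
  · intro a b hab
    exact h1' (h1 hab)
  · rw [h2 ω hω, h2' _ (r.supp ω hω)]
    rfl

theorem Dom.ladd (l : Lab S) (W : ∀ k, Setoid (l k).T.Ω) : Dom (ladd l W) l := Eventually.of_forall fun k =>
  ⟨(FLab.triv (l k).T).p, inf_le_left, fun _ _ => rfl⟩

theorem Dom.left (l l' : Lab S) : Dom (fun k => (l k).join (l' k)) l := Eventually.of_forall fun k =>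
  ⟨((l k).am (l' k)).p1, inf_le_left, fun _ _ => rfl⟩

theorem Dom.right (l l' : Lab S) : Dom (fun k => (l k).join (l' k)) l' := Eventually.of_forall fun k =>
  ⟨((l k).am (l' k)).p2, inf_le_right, fun w hw => (((l k).am (l' k)).supp w hw).1⟩

/-- the label knows the variable literally -/
def Knw {α : ℕ → Type} (l : Lab S) (W : ∀ k, (S.F k).Ω → α k) : Prop :=
  ∀ᶠ k in UF, ∀ ω ω', (l k).T.μ ω ≠ 0 → (l k).T.μ ω' ≠ 0 → (l k).V ω ω' → (l k).T.Z ω ω' →
    W k ((l k).p.π ω) = W k ((l k).p.π ω')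

theorem Knw.dom {α : ℕ → Type} {l l' : Lab S} {W : ∀ k, (S.F k).Ω → α k} (h : Knw l W) (hd : Dom l' l) : Knw l' W := by
  filter_upwards [h, hd] with k h hd ω ω' a b c d
  obtain ⟨r, h1, h2⟩ := hd
  rw [h2 ω a, h2 ω' b]
  exact h _ _ (r.supp ω a) (r.supp ω' b) (h1 c) ((r.hZ ω ω' a b).mp d)

theorem Knw.pair {α β : ℕ → Type} {l : Lab S} {W : ∀ k, (S.F k).Ω → α k} {W' : ∀ k, (S.F k).Ω → β k} (h : Knw l W)
    (h' : Knw l W') : Knw l (fun k ω => (W k ω, W' k ω)) := by
  filter_upwards [h, h'] with k h h' ω ω' a b c d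
  rw [h ω ω' a b c d, h' ω ω' a b c d]

theorem Knw.comp {α β : ℕ → Type} {l : Lab S} {W : ∀ k, (S.F k).Ω → α k} (h : Knw l W) (f : ∀ k, α k → β k) :
    Knw l (fun k ω => f k (W k ω)) := by
  filter_upwards [h] with k h ω ω' a b c d
  rw [h ω ω' a b c d]

/-- a label refined by a variable -/
def lW {α : ℕ → Type} (l : Lab S) (W : ∀ k, (S.F k).Ω → α k) : Lab S :=
  ladd l (fun k => Setoid.comap (l k).p.π (Setoid.ker (W k)))

theorem lW_dom {α : ℕ → Type} (l : Lab S) (W : ∀ k, (S.F k).Ω → α k) : Dom (lW l W) l := Dom.ladd _ _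

theorem lW_knw {α : ℕ → Type} (l : Lab S) (W : ∀ k, (S.F k).Ω → α k) : Knw (lW l W) W :=
  Eventually.of_forall fun _ _ _ _ _ h _ => h.2

theorem nul_W {α : ℕ → Type} {W : ∀ k, (S.F k).Ω → α k} (hW : Bdd W) (l : Lab S) {A : S.Inf} (hA : io W ≤ cl A) :
    Nul S (fun k => h (fc (Setoid.comap (l k).p.π (Setoid.ker (W k))) : FL (l k).T) ((l k).v ⊔ (l k).p.map (rpI A k))) := by
  have h1 : PLe (rpI hW.toInf) (rpI A) := PLe_rpI.mpr (by rw [← io_eq hW]; exact hA)
  apply Nul.of_le h1 (Eventually.of_forall fun k => h_nonneg _ _)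
  refine Eventually.of_forall fun k => ?_
  have h2 : (fc (Setoid.comap (l k).p.π (Setoid.ker (W k))) : FL (l k).T) = (l k).p.map (rpI hW.toInf k) := rfl
  rw [h2]
  refine (h_anti le_sup_right).trans ?_
  rw [(l k).p.h_map]

theorem lW_DM {α : ℕ → Type} {W : ∀ k, (S.F k).Ω → α k} (hW : Bdd W) {s : Sys S m} {c : ℝ} (hA : io W ≤ lA s c)
    (hB : io W ≤ lB s) {l : Lab S} (hl : DMc s c l) : DMc s c (lW l W) := by
  apply DM_ladd hl
  · apply nul_W hW l (A := Inf.sup (Inf.sup (s.Ia 1) (s.Ix 1)) (s.It c))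
    rw [cl_A]
    exact hA
  · apply nul_W hW l (A := Inf.sup (s.IP 1) (s.It 1))
    rw [cl_B]
    exact hB

theorem join_DM {s : Sys S m} {c : ℝ} {l l' : Lab S} (hl : DMc s c l) (hl' : DMc s c l') :
    DMc s c (fun k => (l k).join (l' k)) := by
  constructor
  · apply (hl.1.add hl'.1).of_le (Eventually.of_forall fun k => ((l k).join (l' k)).leak_nonneg _)
    exact Eventually.of_forall fun k => (l k).join_leak (l' k) _
  · apply (hl.2.add hl'.2).of_le (Eventually.of_forall fun k => ((l k).join (l' k)).leak_nonneg _)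
    exact Eventually.of_forall fun k => (l k).join_leak (l' k) _

/-- double Markov labels which know more than a maximal one are maximal -/
theorem kap_of_le {s : Sys S m} {c : ℝ} {l l' : Lab S} (hl : IsKap s c l) (hl' : DMc s c l')
    (h : ∀ k, (l k).info ≤ (l' k).info) : IsKap s c l' := by
  apply isKap_of_info hl'
  rw [← hl.info_eq]
  exact ul_mono (hl.dm.ub (cA_Bd s c)) (hl'.ub (cA_Bd s c))
    (Eventually.of_forall fun k => div_le_div_of_nonneg_right (h k) (S.F k).pos.le)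

theorem lW_kap {α : ℕ → Type} {W : ∀ k, (S.F k).Ω → α k} (hW : Bdd W) {s : Sys S m} {c : ℝ} (hA : io W ≤ lA s c)
    (hB : io W ≤ lB s) {l : Lab S} (hl : IsKap s c l) : IsKap s c (lW l W) :=
  kap_of_le hl (lW_DM hW hA hB hl.dm) fun k => fadd_info_ge (l k) _

theorem join_kap {s : Sys S m} {c : ℝ} {l l' : Lab S} (hl : IsKap s c l) (hl' : DMc s c l') :
    IsKap s c (fun k => (l k).join (l' k)) :=
  kap_of_le hl (join_DM hl.dm hl') fun k => (l k).join_info_ge_left (l' k)

/-! ### sheets -/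

/-- sheets are inherited by dominating labels -/
theorem Sht_dom {s : Sys S m} {i : Fin m} {J : Finset (Fin (m + 1))} {σ : ℝ} {l l' : Lab S}
    {v : ∀ k, (l k).T.Ω → Cf (m + 1)} (h : Sht s i J σ l v) (hd : Dom l' l) :
    ∃ v' : ∀ k, (l' k).T.Ω → Cf (m + 1), Sht s i J σ l' v' := by
  classical
  obtain ⟨hm, K, hK, hb, ht⟩ := h
  set P : ℕ → Prop := fun k => ∃ r : FPj (l' k).T (l k).T,
    (l' k).V ≤ Setoid.comap r.π (l k).V ∧ ∀ ω, (l' k).T.μ ω ≠ 0 → (l' k).p.π ω = (l k).p.π (r.π ω) with hP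
  have hd' : ∀ᶠ k in UF, P k := hd
  set v' : ∀ k, (l' k).T.Ω → Cf (m + 1) := fun k ω =>
    if hk : P k then v k (hk.choose.π ω) else (0, fun _ => 0) with hv'
  have ev : ∀ k (hk : P k) ω, v' k ω = v k (hk.choose.π ω) := fun k hk ω => by
    rw [hv']
    simp only
    rw [dif_pos hk]
  refine ⟨v', fun k ω ω' a b c d => ?_, K, hK, ?_, ?_⟩
  · by_cases hk : P k
    · rw [ev k hk, ev k hk]
      exact hm k _ _ (hk.choose.supp ω a) (hk.choose.supp ω' b) (hk.choose_spec.1 c) ((hk.choose.hZ ω ω' a b).mp d)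
    · rw [hv']
      simp only
      rw [dif_neg hk, dif_neg hk]
  · filter_upwards [hb, hd'] with k hb hk ω hω j
    rw [ev k hk]
    exact hb _ (hk.choose.supp ω hω) j
  · have ht' := (Typ_iff _).mp ht
    refine (Typ_iff _).mpr (ht'.congr' ?_)
    filter_upwards [hd'] with k hk
    have e1 := pb_comp hk.choose (fun ω => |dfl s i J l v k ω| ≤ K k * S.dl σ k)
    show FSp.pb (l k).T _ = FSp.pb (l' k).T _
    rw [← e1]
    apply Pool.Agent.Helper42.NS.pb_congr
    intro ω hω
    have e2 : dfl s i J l' v' k ω = dfl s i J l v k (hk.choose.π ω) := by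
      unfold dfl
      rw [ev k hk, hk.choose_spec.2 ω hω]
    show |dfl s i J l v k (hk.choose.π ω)| ≤ K k * S.dl σ k ↔ |dfl s i J l' v' k ω| ≤ K k * S.dl σ k
    rw [e2]

/-! ### nested families -/

/-- the projections of a family to the spaces of the labels, pointwise -/
theorem bld_proj' {F : FSp} (κ : ℕ → FLab F) (N i : ℕ) (hi : i < N) : ∃ r : FPj (FFam.bld κ N).T (κ i).T,
    (FFam.bld κ N).V i = Setoid.comap r.π (κ i).V ∧
    ∀ ω, (FFam.bld κ N).T.μ ω ≠ 0 → (FFam.bld κ N).p.π ω = (κ i).p.π (r.π ω) := by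
  induction N with
  | zero => exact absurd hi (Nat.not_lt_zero i)
  | succ N ih =>
    rcases Nat.lt_succ_iff_lt_or_eq.mp hi with h4 | h4
    · obtain ⟨r, hr1, hr2⟩ := ih h4
      refine ⟨(((FFam.bld κ N).labW ⊤).am (κ N)).p1.comp r, ?_, ?_⟩
      · refine (FFam.snoc_V_lt (FFam.bld κ N) (κ N) N h4).trans ?_
        rw [hr1]
        rfl
      · intro w hw
        exact hr2 _ ((((FFam.bld κ N).labW ⊤).am (κ N)).supp w hw).2.1
    · subst h4
      refine ⟨(((FFam.bld κ i).labW ⊤).am (κ i)).p2, FFam.snoc_V_self (FFam.bld κ i) (κ i) i, ?_⟩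
      intro w hw
      exact (((((FFam.bld κ i).labW ⊤).am (κ i)).supp w hw).1 :)

open Classical in
/-- LITERALLY NESTED FAMILIES of maximal double Markov labels for countably many first conditions, which dominate given
maximal labels -/
theorem exists_nested' {S : Sp} (q : ℕ → ℝ) (A : ℕ → Part S) (B : Part S)
    (hA : ∀ i j, q i ≤ q j → PLe (A i) (A j)) (hAb : ∀ i, (A i).Bd) (κ : ℕ → Lab S)
    (hκ : ∀ i, (κ i).IsMax (A i) B) :
    ∃ M : Fam S, (∀ i, (M.lab i).IsMax (A i) B) ∧ (∀ i j, q i ≤ q j → ∀ k, (M k).V j ≤ (M k).V i) ∧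
      ∀ i, Dom (M.lab i) (κ i) := by
  have hG : ∀ N : ℕ, ∀ᶠ k in UF, (∀ i ∈ range N, ∀ j ∈ range N, q i ≤ q j →
      ((κ i) k).leak (A j k) / (S.F k).n ≤ 1 / ((N : ℝ) + 1) ^ 2) ∧
      (∀ i ∈ range N, ((κ i) k).leak (B k) / (S.F k).n ≤ 1 / ((N : ℝ) + 1) ^ 2) := by
    intro N
    have hpos : (0 : ℝ) < 1 / ((N : ℝ) + 1) ^ 2 := by positivity
    apply Filter.Eventually.and
    · rw [Filter.eventually_all_finset]
      intro i _
      rw [Filter.eventually_all_finset]
      intro j _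
      by_cases hij : q i ≤ q j
      · have h1 := ((hκ i).1.mono (hA i j hij) (PLe.refl B)).1
        filter_upwards [h1.eventually (gt_mem_nhds hpos)] with k hk _ using hk.le
      · exact Eventually.of_forall fun k h => absurd h hij
    · rw [Filter.eventually_all_finset]
      intro i _
      filter_upwards [(hκ i).1.2.eventually (gt_mem_nhds hpos)] with k hk using hk.le
  obtain ⟨J, hJ, hJG⟩ := dia (fun N k => (∀ i ∈ range N, ∀ j ∈ range N, q i ≤ q j →
      ((κ i) k).leak (A j k) / (S.F k).n ≤ 1 / ((N : ℝ) + 1) ^ 2) ∧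
      (∀ i ∈ range N, ((κ i) k).leak (B k) / (S.F k).n ≤ 1 / ((N : ℝ) + 1) ^ 2)) hG
  set M : Fam S := fun k =>
    { T := (FFam.bld (fun i => κ i k) (J k)).T
      p := (FFam.bld (fun i => κ i k) (J k)).p
      hn := (FFam.bld (fun i => κ i k) (J k)).hn
      V := fun j => FFam.mt (FFam.bld (fun i => κ i k) (J k)).V (fun i => q i ≤ q j) (J k) } with hM
  have hlab : ∀ j k, (M.lab j) k = (FFam.bld (fun i => κ i k) (J k)).labW
      (FFam.mt (FFam.bld (fun i => κ i k) (J k)).V (fun i => q i ≤ q j) (J k)) := fun _ _ => rfl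
  have h0 : Tendsto (fun k => 1 / ((J k : ℝ) + 1)) UF (𝓝 0) :=
    tendsto_one_div_add_atTop_nhds_zero_nat.comp hJ
  have hsum : ∀ (N : ℕ) (f : ℕ → ℝ) (P : ℕ → Prop), (∀ i ∈ range N, P i → f i ≤ 1 / ((N : ℝ) + 1) ^ 2) →
      (∑ i ∈ range N, if P i then f i else 0) ≤ 1 / ((N : ℝ) + 1) := by
    intro N f P hf
    have h1 : (∑ i ∈ range N, if P i then f i else 0) ≤ ∑ i ∈ range N, 1 / ((N : ℝ) + 1) ^ 2 := by
      apply Finset.sum_le_sum
      intro i hi
      split_ifs with hP
      · exact hf i hi hP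
      · positivity
    refine h1.trans ?_
    rw [Finset.sum_const, card_range, nsmul_eq_mul, mul_one_div, div_le_div_iff₀ (by positivity) (by positivity)]
    nlinarith [(Nat.cast_nonneg N : (0 : ℝ) ≤ N)]
  have hleakA : ∀ j, ∀ᶠ k in UF, ((M.lab j) k).leak (A j k) / (S.F k).n ≤ 1 / ((J k : ℝ) + 1) := by
    intro j
    filter_upwards [hJG, hJ.eventually (eventually_gt_atTop j)] with k hk hkj
    have h1 := hk (J k) le_rfl
    rw [hlab]
    have h2 := FFam.bld_leak (fun i => κ i k) (fun i => q i ≤ q j) (A j k) (J k)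
    have h3 := div_le_div_of_nonneg_right h2 (S.F k).pos.le
    refine h3.trans ?_
    rw [Finset.sum_div]
    have h4 : (∑ i ∈ range (J k), (if q i ≤ q j then ((κ i) k).leak (A j k) else 0) / (S.F k).n) =
        ∑ i ∈ range (J k), if q i ≤ q j then ((κ i) k).leak (A j k) / (S.F k).n else 0 := by
      apply Finset.sum_congr rfl
      intro i _
      split_ifs
      · rfl
      · rw [zero_div]
    rw [h4]
    apply hsum
    intro i hi hP
    exact h1.1 i hi j (mem_range.mpr hkj) hP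
  have hleakB : ∀ j, ∀ᶠ k in UF, ((M.lab j) k).leak (B k) / (S.F k).n ≤ 1 / ((J k : ℝ) + 1) := by
    intro j
    filter_upwards [hJG] with k hk
    have h1 := hk (J k) le_rfl
    rw [hlab]
    have h2 := FFam.bld_leak (fun i => κ i k) (fun i => q i ≤ q j) (B k) (J k)
    have h3 := div_le_div_of_nonneg_right h2 (S.F k).pos.le
    refine h3.trans ?_
    rw [Finset.sum_div]
    have h4 : (∑ i ∈ range (J k), (if q i ≤ q j then ((κ i) k).leak (B k) else 0) / (S.F k).n) =
        ∑ i ∈ range (J k), if q i ≤ q j then ((κ i) k).leak (B k) / (S.F k).n else 0 := by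
      apply Finset.sum_congr rfl
      intro i _
      split_ifs
      · rfl
      · rw [zero_div]
    rw [h4]
    apply hsum
    intro i hi _
    exact h1.2 i hi
  have hDM : ∀ j, (M.lab j).DM (A j) B := by
    intro j
    constructor
    · refine tendsto_of_tendsto_of_tendsto_of_le_of_le' tendsto_const_nhds h0 ?_ (hleakA j)
      exact Eventually.of_forall fun k => div_nonneg (FLab.leak_nonneg _ _) (S.F k).pos.le
    · refine tendsto_of_tendsto_of_tendsto_of_le_of_le' tendsto_const_nhds h0 ?_ (hleakB j)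
      exact Eventually.of_forall fun k => div_nonneg (FLab.leak_nonneg _ _) (S.F k).pos.le
  refine ⟨M, ?_, ?_, ?_⟩
  · intro j
    refine ⟨hDM j, fun l' hl' => ((hκ j).2 l' hl').trans ?_⟩
    apply ul_mono ((hκ j).1.ub (hAb j)) ((hDM j).ub (hAb j))
    filter_upwards [hJ.eventually (eventually_gt_atTop j)] with k hk
    apply div_le_div_of_nonneg_right _ (S.F k).pos.le
    rw [hlab]
    exact FFam.bld_info (fun i => κ i k) (fun i => q i ≤ q j) (J k) j hk le_rfl
  · intro i j hij k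
    exact FFam.mt_anti _ _ (fun i' h => h.trans hij)
  · intro i
    filter_upwards [hJ.eventually (eventually_gt_atTop i)] with k hk
    obtain ⟨r, hr1, hr2⟩ := bld_proj' (fun i => κ i k) (J k) i hk
    refine ⟨r, ?_, hr2⟩
    have h1 : FFam.mt (FFam.bld (fun i => κ i k) (J k)).V (fun i' => q i' ≤ q i) (J k) ≤
        (FFam.bld (fun i => κ i k) (J k)).V i := FFam.mt_le _ hk le_rfl
    rw [hr1] at h1
    exact h1

end

end Pool.Agent.Helper98.FR
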