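import Pool.Agent.Helper98.FR.Ex
import Pool.Agent.Helper80.HCI.Trm

/-! THE CORNER AT THE WINDOW `i0`, UNIT `e`: the raw data `RD` of case B in the space over the label of the window `i0`;
labels = the raw partitions of the windows `ix s`; literal variables of the line and of the point. -/

set_option autoImplicit false

namespace Pool.Agent.Helper98.FR

open Finset Filter Topology Pool.Agent.Helper69.RK Pool.Agent.Helper31.EC
open Pool.Agent.Helper82.TP Pool.Agent.Helper40.EL Pool.Agent.Helper60.CS Pool.Agent.Helper79.NF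
open Pool.Agent.Helper31.NSB Pool.Agent.Helper80.HCI

noncomputable section

open Sp QS

variable {S : Sp}

/-- the level-1 floor of a coordinate -/
def flr {m : ℕ} (y : S.VV m) (i : Fin m) : TR S := TR.cor (y.fl 1 zero_le_one) i

theorem flr_mk {m : ℕ} (y : S.VV m) (i : Fin m) : QS.mk (flr y i) = QS.mk (TR.cor y i) := by
  have h1 := fl_mem y zero_le_one i
  rw [mem_Id_one, sub_eq_zero] at h1
  exact h1.symm

theorem flr_lit {m : ℕ} (y : S.VV m) (i : Fin m) (k : ℕ) : FLit (S.F k) (y.cellv 1 k) ((flr y i).1 k) := by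
  intro ω ω' _ _ _ e
  show (⌊y.v k ω i / S.dl 1 k⌋ : ℝ) * S.dl 1 k = (⌊y.v k ω' i / S.dl 1 k⌋ : ℝ) * S.dl 1 k
  have h2 : ⌊y.v k ω i / S.dl 1 k⌋ = ⌊y.v k ω' i / S.dl 1 k⌋ := congrFun e i
  rw [h2]

theorem io_vec {m : ℕ} (y : Fin m → TR S) : io ((TR.vec y).cellv 1) = Finset.univ.sup fun i => dg (QS.mk (y i)) 1 := by
  have h1 : io ((TR.vec y).cellv 1) = (TR.vec y).dg 1 := rfl
  rw [h1, TR.vec_dg_eq]
  congr 1
  funext i
  rw [dg_mk _ le_rfl]

/-- the number of cells of a vector variable, with an explicit constant -/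
theorem nv_cell_le' {m : ℕ} (y : S.VV m) (r : ℝ) : ∀ᶠ k in UF, ∀ ω, (S.F k).μ ω ≠ 0 →
    (nv (S.F k) (Setoid.ker (y.cellv r k)) ω : ℝ) ≤ 2 ^ ((m * (max r 0 + 1)) * (S.F k).n) := by
  obtain ⟨C, hCs, hC⟩ := y.bd
  have hs : S.Sub (fun k => 2 * C k + 3) :=
    ((S.Sub_const (show (0 : ℝ) ≤ 2 by norm_num)).mul hCs).add (S.Sub_const (show (0 : ℝ) ≤ 3 by norm_num))
  filter_upwards [hC, hCs.1, hs.eventually_le one_pos] with k hk hC0 hk' ω hω
  rw [nv_ker]
  have hd := S.dl_pos r k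
  have e0 : (1 : ℝ) ≤ 2 ^ (max r 0 * (S.F k).n) := by
    apply Real.one_le_rpow (by norm_num)
    have := (S.F k).pos
    positivity
  obtain ⟨M, hM⟩ : ∃ M, M = C k * 2 ^ (max r 0 * (S.F k).n) + 1 := ⟨_, rfl⟩
  have hM0 : 0 ≤ M := by rw [hM]; positivity
  have h1 : ∀ ω, (S.F k).μ ω ≠ 0 → ∀ i, |(y.cellv r k ω i : ℝ)| ≤ M := by
    intro ω hω i
    have h1 := hk ω hω i
    have h2 : |y.v k ω i / S.dl r k| ≤ C k * 2 ^ (max r 0 * (S.F k).n) := by
      rw [abs_div, abs_of_pos hd, div_eq_mul_one_div]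
      exact mul_le_mul h1 (S.one_div_dl_le r k) (by positivity) hC0
    have h3 := Int.floor_le (y.v k ω i / S.dl r k)
    have h4 := Int.lt_floor_add_one (y.v k ω i / S.dl r k)
    show |(⌊y.v k ω i / S.dl r k⌋ : ℝ)| ≤ _
    rw [abs_le] at h2 ⊢
    constructor <;> linarith [h2.1, h2.2]
  have h3 : (nvf (S.F k).μ (y.cellv r k) (Quotient.mk (S.F k).Z) ω : ℝ) ≤ (2 * M + 1) ^ m := by
    apply nvf_box _ _ _ _ (2 * M) (by linarith)
    intro ω₁ ω₂ h₁ h₂ i
    have e1 := abs_le.mp (h1 ω₁ h₁ i)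
    have e2 := abs_le.mp (h1 ω₂ h₂ i)
    rw [abs_le]
    constructor <;> linarith [e1.1, e1.2, e2.1, e2.2]
  refine h3.trans ?_
  have e1 : (2 : ℝ) ^ ((max r 0 + 1) * (S.F k).n) = 2 ^ (max r 0 * (S.F k).n) * 2 ^ (1 * (S.F k).n) := by
    rw [← Real.rpow_add (by norm_num : (0 : ℝ) < 2)]
    congr 1; ring
  have e2 : (2 : ℝ) ^ (max r 0 * (S.F k).n) * (2 * C k + 3 + 2) ≤ 2 ^ (max r 0 * (S.F k).n) * 2 ^ (1 * (S.F k).n) :=
    mul_le_mul_of_nonneg_left hk' (by positivity)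
  have e3 : 2 * M + 1 ≤ 2 ^ ((max r 0 + 1) * (S.F k).n) := by
    rw [e1, hM]
    nlinarith
  have e4 : (2 : ℝ) ^ ((m * (max r 0 + 1)) * (S.F k).n) = (2 ^ ((max r 0 + 1) * (S.F k).n)) ^ m := by
    rw [← Real.rpow_natCast, ← Real.rpow_mul (by norm_num)]
    congr 1; ring
  rw [e4]
  exact pow_le_pow_left₀ (by positivity) e3 m

namespace LD

variable {B : BD S} (D : LD B) (i0 : ℕ) (e : ℝ) (he : 0 < e) (ηn : ℝ) (hη : ηn ≤ B.eta i0) (ix : ℝ → ℕ)

/-- the point functions `t y R z` -/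
def pf : Fin 4 → TR (B.Sj i0 e he) := ![B.tT i0 e he, B.yT i0 e he, B.RT i0 e he, B.zT i0 e he ηn hη]

/-- the line functions `x F v a cR az` -/
def lf : Fin 6 → TR (B.Sj i0 e he) :=
  ![D.xT i0 e he, D.vrT i0 e he, D.vzT i0 e he ηn hη, D.iyT i0 e he, D.irT i0 e he, D.izT i0 e he ηn hη]

/-- THE CORNER at the window `i0`, unit `e`, normalisation `ηn` of `z`; the label `K s` is the partition of the window
`ix s` -/
def rd : RD (B.Sj i0 e he) where
  t := QS.mk (B.tT i0 e he)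
  x := QS.mk (D.xT i0 e he)
  y := QS.mk (B.yT i0 e he)
  R := QS.mk (B.RT i0 e he)
  F := QS.mk (D.vrT i0 e he)
  z := QS.mk (B.zT i0 e he ηn hη)
  v := QS.mk (D.vzT i0 e he ηn hη)
  β := fun s k => Quotient (B.V (ix s) k)
  K := fun s k ω => Quotient.mk (B.V (ix s) k) ω
  α := fun _ => Fin 6 → ℤ
  VA := (TR.vec (D.lf i0 e he ηn hη)).cellv 1
  γ := fun _ => Fin 4 → ℤ
  VB := (TR.vec (pf (B := B) i0 e he ηn hη)).cellv 1

theorem rd_a : (D.rd i0 e he ηn hη ix).a = QS.mk (D.iyT i0 e he) := by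
  show QS.mk (B.yT i0 e he) - QS.mk (B.tT i0 e he) * QS.mk (D.xT i0 e he) = _
  rw [D.yT_eq, add_sub_cancel_right]

theorem rd_cR : (D.rd i0 e he ηn hη ix).cR = QS.mk (D.irT i0 e he) := by
  show QS.mk (B.RT i0 e he) - QS.mk (B.tT i0 e he) * QS.mk (D.vrT i0 e he) = _
  rw [D.RT_eq, add_sub_cancel_right]

theorem rd_az : (D.rd i0 e he ηn hη ix).az = QS.mk (D.izT i0 e he ηn hη) := by
  show QS.mk (B.zT i0 e he ηn hη) - QS.mk (B.tT i0 e he) * QS.mk (D.vzT i0 e he ηn hη) = _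
  rw [D.zT_eq, add_sub_cancel_right]

/-- literal representatives of the functions -/
def r10 : Fin 10 → TR (B.Sj i0 e he) :=
  ![flr (TR.vec (pf (B := B) i0 e he ηn hη)) 0, flr (TR.vec (pf (B := B) i0 e he ηn hη)) 1,
    flr (TR.vec (pf (B := B) i0 e he ηn hη)) 2, flr (TR.vec (pf (B := B) i0 e he ηn hη)) 3,
    flr (TR.vec (D.lf i0 e he ηn hη)) 0, flr (TR.vec (D.lf i0 e he ηn hη)) 1, flr (TR.vec (D.lf i0 e he ηn hη)) 2,
    flr (TR.vec (D.lf i0 e he ηn hη)) 3, flr (TR.vec (D.lf i0 e he ηn hη)) 4, flr (TR.vec (D.lf i0 e he ηn hη)) 5]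

theorem r10_mk (i : Fin 10) : QS.mk (D.r10 i0 e he ηn hη i) = b10 (D.rd i0 e he ηn hη ix) i := by
  have hp : ∀ j, QS.mk (flr (TR.vec (pf (B := B) i0 e he ηn hη)) j) = QS.mk (pf (B := B) i0 e he ηn hη j) := fun j =>
    flr_mk _ j
  have hl : ∀ j, QS.mk (flr (TR.vec (D.lf i0 e he ηn hη)) j) = QS.mk (D.lf i0 e he ηn hη j) := fun j => flr_mk _ j
  fin_cases i
  · exact hp 0
  · exact hp 1
  · exact hp 2
  · exact hp 3
  · exact hl 0
  · exact hl 1
  · exact hl 2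
  · exact (hl 3).trans (D.rd_a i0 e he ηn hη ix).symm
  · exact (hl 4).trans (D.rd_cR i0 e he ηn hη ix).symm
  · exact (hl 5).trans (D.rd_az i0 e he ηn hη ix).symm

theorem r10_litB (i : Fin 10) (hi : (i : ℕ) < 4) (k : ℕ) :
    FLit ((B.Sj i0 e he).F k) ((D.rd i0 e he ηn hη ix).VB k) ((D.r10 i0 e he ηn hη i).1 k) := by
  have hp : ∀ j, FLit ((B.Sj i0 e he).F k) ((D.rd i0 e he ηn hη ix).VB k)
      ((flr (TR.vec (pf (B := B) i0 e he ηn hη)) j).1 k) := fun j => flr_lit _ j k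
  fin_cases i
  · exact hp 0
  · exact hp 1
  · exact hp 2
  · exact hp 3
  all_goals exact absurd hi (by decide)

theorem r10_litA (i : Fin 10) (hi : ¬ (i : ℕ) < 4) (k : ℕ) :
    FLit ((B.Sj i0 e he).F k) ((D.rd i0 e he ηn hη ix).VA k) ((D.r10 i0 e he ηn hη i).1 k) := by
  have hp : ∀ j, FLit ((B.Sj i0 e he).F k) ((D.rd i0 e he ηn hη ix).VA k)
      ((flr (TR.vec (D.lf i0 e he ηn hη)) j).1 k) := fun j => flr_lit _ j k
  fin_cases i
  · exact absurd (by decide) hi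
  · exact absurd (by decide) hi
  · exact absurd (by decide) hi
  · exact absurd (by decide) hi
  · exact hp 0
  · exact hp 1
  · exact hp 2
  · exact hp 3
  · exact hp 4
  · exact hp 5

/-- the literal variable of the point -/
theorem iB : io (D.rd i0 e he ηn hη ix).VB = (D.rd i0 e he ηn hη ix).B := by
  refine (io_vec (pf (B := B) i0 e he ηn hη)).trans ?_
  apply le_antisymm
  · refine Finset.sup_le fun i _ => ?_
    fin_cases i
    · exact le_sup_left.trans (le_sup_left.trans le_sup_left)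
    · exact le_sup_right.trans (le_sup_left.trans le_sup_left)
    · exact le_sup_right.trans le_sup_left
    · exact le_sup_right
  · have h1 : ∀ i : Fin 4, dg (QS.mk (pf (B := B) i0 e he ηn hη i)) 1 ≤
        Finset.univ.sup fun i => dg (QS.mk (pf (B := B) i0 e he ηn hη i)) 1 := fun i =>
      Finset.le_sup (f := fun i => dg (QS.mk (pf (B := B) i0 e he ηn hη i)) 1) (Finset.mem_univ i)
    exact sup_le (sup_le (sup_le (h1 0) (h1 1)) (h1 2)) (h1 3)

/-- the literal variable of the line -/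
theorem iA : io (D.rd i0 e he ηn hη ix).VA = (D.rd i0 e he ηn hη ix).L := by
  refine (io_vec (D.lf i0 e he ηn hη)).trans ?_
  have e1 : (D.rd i0 e he ηn hη ix).L = dg (QS.mk (D.xT i0 e he)) 1 ⊔ dg (QS.mk (D.iyT i0 e he)) 1 ⊔
      (dg (QS.mk (D.vrT i0 e he)) 1 ⊔ dg (QS.mk (D.irT i0 e he)) 1) ⊔
      (dg (QS.mk (D.vzT i0 e he ηn hη)) 1 ⊔ dg (QS.mk (D.izT i0 e he ηn hη)) 1) := by
    rw [← D.rd_a i0 e he ηn hη ix, ← D.rd_cR i0 e he ηn hη ix, ← D.rd_az i0 e he ηn hη ix]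
    rfl
  rw [e1]
  apply le_antisymm
  · refine Finset.sup_le fun i _ => ?_
    fin_cases i
    · exact le_sup_left.trans (le_sup_left.trans le_sup_left)
    · exact le_sup_left.trans (le_sup_right.trans le_sup_left)
    · exact le_sup_left.trans le_sup_right
    · exact le_sup_right.trans (le_sup_left.trans le_sup_left)
    · exact le_sup_right.trans (le_sup_right.trans le_sup_left)
    · exact le_sup_right.trans le_sup_right
  · have h1 : ∀ i : Fin 6, dg (QS.mk (D.lf i0 e he ηn hη i)) 1 ≤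
        Finset.univ.sup fun i => dg (QS.mk (D.lf i0 e he ηn hη i)) 1 := fun i =>
      Finset.le_sup (f := fun i => dg (QS.mk (D.lf i0 e he ηn hη i)) 1) (Finset.mem_univ i)
    exact sup_le (sup_le (sup_le (h1 0) (h1 3)) (sup_le (h1 1) (h1 4))) (sup_le (h1 2) (h1 5))


/-- the literal variable of the line has few values -/
theorem nvA : ∀ᶠ k in UF, ∀ ω, ((B.Sj i0 e he).F k).μ ω ≠ 0 →
    (nv ((B.Sj i0 e he).F k) (Setoid.ker ((D.rd i0 e he ηn hη ix).VA k)) ω : ℝ) ≤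
      2 ^ ((6 : ℕ) * (max 1 0 + 1) * ((B.Sj i0 e he).F k).n : ℝ) :=
  nv_cell_le' (TR.vec (D.lf i0 e he ηn hη)) 1

/-- the literal variable of the point has few values -/
theorem nvB : ∀ᶠ k in UF, ∀ ω, ((B.Sj i0 e he).F k).μ ω ≠ 0 →
    (nv ((B.Sj i0 e he).F k) (Setoid.ker ((D.rd i0 e he ηn hη ix).VB k)) ω : ℝ) ≤
      2 ^ ((4 : ℕ) * (max 1 0 + 1) * ((B.Sj i0 e he).F k).n : ℝ) :=
  nv_cell_le' (TR.vec (pf (B := B) i0 e he ηn hη)) 1

/-- the labels are literally nested -/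
theorem lnest {Sc : Set ℝ} (hq : ∀ s ∈ Sc, ∀ s' ∈ Sc, s ≤ s' → B.q (ix s) ≤ B.q (ix s')) :
    LNest (D.rd i0 e he ηn hη ix) Sc := by
  intro s hs s' hs' hss
  filter_upwards [B.nest _ _ (hq s hs s' hs' hss)] with k hk ω ω' _ _ _ h
  exact Quotient.sound (hk (Quotient.exact h))

end LD

end

end Pool.Agent.Helper98.FR
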