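import Pool.Agent.Helper98.FR.Ex

/-! PULLBACK OF FUNCTIONS along the domination of labels; replacement of the frame of the base window of a box. -/

set_option autoImplicit false

namespace Pool.Agent.Helper98.FR

open Finset Filter Topology Pool.Agent.Helper69.RK Pool.Agent.Helper31.EC
open Pool.Agent.Helper82.TP Pool.Agent.Helper40.EL Pool.Agent.Helper60.CS
open Pool.Agent.Helper42.NS (pb_comp)

noncomputable section

open Sp QS

theorem exists_pt (F : FSp) : ∃ ω, F.μ ω ≠ 0 := by
  by_contra h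
  push Not at h
  have h1 : ∑ ω, F.μ ω = 1 := F.ms
  rw [Finset.sum_eq_zero fun ω _ => h ω] at h1
  exact zero_ne_one h1

namespace Dom

variable {S : Sp} (l' l : Lab S)

/-- there is a projection at `k` -/
def Pr (k : ℕ) : Prop := ∃ r : FPj (l' k).T (l k).T,
  (l' k).V ≤ Setoid.comap r.π (l k).V ∧ ∀ ω, (l' k).T.μ ω ≠ 0 → (l' k).p.π ω = (l k).p.π (r.π ω)

open Classical in
/-- the total map of spaces -/
def phi (k : ℕ) : (l' k).T.Ω → (l k).T.Ω := if h : Pr l' l k then h.choose.π else fun _ => (exists_pt (l k).T).choose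

theorem phi_eq {k : ℕ} (h : Pr l' l k) : ∃ r : FPj (l' k).T (l k).T, phi l' l k = r.π ∧
    (l' k).V ≤ Setoid.comap r.π (l k).V ∧ ∀ ω, (l' k).T.μ ω ≠ 0 → (l' k).p.π ω = (l k).p.π (r.π ω) :=
  ⟨h.choose, dif_pos h, h.choose_spec.1, h.choose_spec.2⟩

theorem phi_supp (k : ℕ) {ω : (l' k).T.Ω} (h : (l' k).T.μ ω ≠ 0) : (l k).T.μ (phi l' l k ω) ≠ 0 := by
  by_cases hp : Pr l' l k
  · obtain ⟨r, h1, -⟩ := phi_eq l' l hp
    rw [h1]
    exact r.supp ω h
  · have h1 : phi l' l k = fun _ => (exists_pt (l k).T).choose := dif_neg hp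
    rw [h1]
    exact (exists_pt (l k).T).choose_spec

/-- pullback of functions -/
def tr : TR l.sp →+* TR l'.sp where
  toFun f := ⟨fun k ω => f.1 k (phi l' l k ω), by
    obtain ⟨K, hK, h⟩ := f.2
    refine ⟨K, ⟨hK.1, ?_⟩, ?_⟩
    · have h1 := hK.2
      refine h1.congr fun k => ?_
      have e : (l.sp.F k).n = (l'.sp.F k).n := ((l k).hn).trans ((l' k).hn).symm
      rw [e]
    · filter_upwards [h] with k hk ω hω
      exact hk _ (phi_supp l' l k hω)⟩
  map_one' := rfl
  map_mul' _ _ := rfl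
  map_zero' := rfl
  map_add' _ _ := rfl

theorem sub_iff {K : ℕ → ℝ} : l.sp.Sub K ↔ l'.sp.Sub K := by
  have e : ∀ k, (l.sp.F k).n = (l'.sp.F k).n := fun k => ((l k).hn).trans ((l' k).hn).symm
  unfold Sp.Sub
  simp only [e]

variable {l' l}

/-- typical events -/
theorem typ (h : Dom l' l) {E : ∀ k, (l.sp.F k).Ω → Prop} (hE : Typ E) :
    Typ (S := l'.sp) fun k ω => E k (phi l' l k ω) := by
  have h1 := (Typ_iff _).mp hE
  refine (Typ_iff _).mpr (h1.congr' ?_)
  filter_upwards [h] with k hk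
  obtain ⟨r, h2, -⟩ := phi_eq l' l hk
  show (l k).T.pb (E k) = (l' k).T.pb fun ω => E k (phi l' l k ω)
  rw [h2, ← pb_comp r (E k)]

theorem tr_ag (h : Dom l' l) {r : ℝ} {f g : TR l.sp} (hf : TR.Ag r f g) : TR.Ag r (tr l' l f) (tr l' l g) := by
  obtain ⟨E, K, hE, hK, hh⟩ := hf
  refine ⟨_, K, h.typ hE, (sub_iff l' l).mp hK, ?_⟩
  filter_upwards [hh] with k hk ω hω he
  have h1 := hk _ (phi_supp l' l k hω) he
  have e : l.sp.dl r k = l'.sp.dl r k := by
    unfold Sp.dl
    rw [show (l.sp.F k).n = (l'.sp.F k).n from ((l k).hn).trans ((l' k).hn).symm]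
  rw [← e]
  exact h1

/-- pullback of exact functions -/
def qs (h : Dom l' l) : QS l.sp →+* QS l'.sp :=
  Ideal.quotientMap (TR.Idl l'.sp) (tr l' l) (fun f hf => by
    rw [Ideal.mem_comap, TR.mem_Idl]
    rw [TR.mem_Idl] at hf
    have := h.tr_ag hf
    rwa [map_zero] at this)

theorem qs_mk (h : Dom l' l) (f : TR l.sp) : h.qs (QS.mk f) = QS.mk (tr l' l f) := rfl

theorem qs_mem_Id (h : Dom l' l) {f : QS l.sp} {r : ℝ} (hf : f ∈ Id l.sp r) : h.qs f ∈ Id l'.sp r := by
  obtain ⟨f, rfl⟩ := mk_surj f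
  rw [qs_mk, mk_mem_Id']
  rw [mk_mem_Id'] at hf
  have := h.tr_ag hf
  rwa [map_zero] at this

/-- literal functions of the label -/
theorem tr_lt (h : Dom l' l) {f : TR l.sp} (hf : Lt (S := l.sp) (fun k => (l k).V) f) :
    Lt (S := l'.sp) (fun k => (l' k).V) (tr l' l f) := by
  filter_upwards [h, hf] with k hk hf ω ω' a b c d
  obtain ⟨r, h2, h3, -⟩ := phi_eq l' l hk
  show f.1 k (phi l' l k ω) = f.1 k (phi l' l k ω')
  rw [h2]
  exact hf _ _ (r.supp ω a) (r.supp ω' b) (h3 c) ((r.hZ ω ω' a b).mp d)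

/-- functions of the space -/
theorem qs_pj (h : Dom l' l) (f : TR S) : h.qs (QS.mk (l.pj.tr f)) = QS.mk (l'.pj.tr f) := by
  rw [qs_mk, mk_eq]
  refine TR.Te.ag ⟨fun _ _ => True, Typ_true, ?_⟩ 1
  filter_upwards [h] with k hk ω hω _
  obtain ⟨r, h2, -, h4⟩ := phi_eq l' l hk
  show f.1 k ((l k).p.π (phi l' l k ω)) = f.1 k ((l' k).p.π ω)
  rw [h2, h4 ω hω]

end Dom

namespace BD

variable {S : Sp} (B : BD S)

/-- REPLACEMENT of the frame of `z` of the window `i0`, the smallest window of the family -/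
def setc (i0 : ℕ) (f : Fin 4 → TR S) (η : ℝ) (hf : ∀ a, Lt (B.V i0) (f a)) (hη : η ≤ B.eta i0)
    (hz : QS.mk B.z - (QS.mk (f 0) + QS.mk (f 1) * QS.mk B.t + QS.mk (f 2) * QS.mk B.y + QS.mk (f 3) * QS.mk B.R) ∈ Id S η)
    (hq : ∀ i, i ≠ i0 → B.q i0 < B.q i) : BD S :=
  { B with
    c := Function.update B.c i0 f
    eta := Function.update B.eta i0 η
    eta1 := fun i => by
      by_cases h : i = i0
      · subst h
        rw [Function.update_self]
        exact hη.trans (B.eta1 _)
      · rw [Function.update_of_ne h]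
        exact B.eta1 i
    lc := fun i a => by
      by_cases h : i = i0
      · subst h
        rw [Function.update_self]
        exact hf a
      · rw [Function.update_of_ne h]
        exact B.lc i a
    hc := fun i => by
      by_cases h : i = i0
      · subst h
        rw [Function.update_self, Function.update_self]
        exact hz
      · rw [Function.update_of_ne h, Function.update_of_ne h]
        exact B.hc i
    seta := fun i j hij => by
      by_cases h : i = i0
      · subst h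
        by_cases h' : j = i
        · subst h'
          exact le_rfl
        · rw [Function.update_self, Function.update_of_ne h']
          have := B.seta i j hij
          linarith
      · by_cases h' : j = i0
        · subst h'
          exact absurd hij (not_le.mpr (hq i h))
        · rw [Function.update_of_ne h, Function.update_of_ne h']
          exact B.seta i j hij }

variable {i0 : ℕ} {f : Fin 4 → TR S} {η : ℝ} {hf : ∀ a, Lt (B.V i0) (f a)} {hη : η ≤ B.eta i0}
    {hz : QS.mk B.z - (QS.mk (f 0) + QS.mk (f 1) * QS.mk B.t + QS.mk (f 2) * QS.mk B.y + QS.mk (f 3) * QS.mk B.R) ∈ Id S η}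
    {hq : ∀ i, i ≠ i0 → B.q i0 < B.q i}

theorem setc_eta : (B.setc i0 f η hf hη hz hq).eta i0 = η := Function.update_self ..
theorem setc_eta' {i : ℕ} (h : i ≠ i0) : (B.setc i0 f η hf hη hz hq).eta i = B.eta i := Function.update_of_ne h ..
theorem setc_c : (B.setc i0 f η hf hη hz hq).c i0 = f := Function.update_self ..
theorem setc_c' {i : ℕ} (h : i ≠ i0) : (B.setc i0 f η hf hη hz hq).c i = B.c i := Function.update_of_ne h ..

end BD

/-- line data after the replacement of the frame -/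
def LD.setc {S : Sp} {B : BD S} (D : LD B) {i0 : ℕ} {f : Fin 4 → TR S} {η : ℝ} {hf : ∀ a, Lt (B.V i0) (f a)}
    {hη : η ≤ B.eta i0}
    {hz : QS.mk B.z - (QS.mk (f 0) + QS.mk (f 1) * QS.mk B.t + QS.mk (f 2) * QS.mk B.y + QS.mk (f 3) * QS.mk B.R) ∈ Id S η}
    {hq : ∀ i, i ≠ i0 → B.q i0 < B.q i} : LD (B.setc i0 f η hf hη hz hq) where
  a := D.a
  x := D.x
  hy := D.hy
  hR := D.hR
  hz := D.hz
  L := D.L
  aL := D.aL
  xL := D.xL
  real := D.real

end

end Pool.Agent.Helper98.FR
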