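import Pool.Agent.Helper42.FR.Stmts

set_option autoImplicit false

namespace Pool.Agent.Helper98.FR

open Matrix Pool.Agent.Helper81.Fmr Pool.Agent.Helper42.FR

universe u

theorem rank_sum_le' {F : Type u} [Field F] {I J ι : Type} [Fintype I] [Fintype J]
    (s : Finset ι) (A : ι → Matrix I J F) : (∑ k ∈ s, A k).rank ≤ ∑ k ∈ s, (A k).rank := by
  classical
  induction s using Finset.induction_on with
  | empty => simp
  | insert a s ha ih =>
    rw [Finset.sum_insert ha, Finset.sum_insert ha]
    exact (rank_add_le' _ _).trans (Nat.add_le_add_left ih _)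

/-- the matrix `N` pulled back along partial maps -/
def pull {F : Type u} [Field F] {I J I₀ J₀ : Type} (N : Matrix I₀ J₀ F) (f : I → Option I₀)
    (g : J → Option J₀) : Matrix I J F :=
  Matrix.of fun i j => (f i).elim 0 (fun i₀ => (g j).elim 0 (fun j₀ => N i₀ j₀))

theorem rank_pull {F : Type u} [Field F] {I J I₀ J₀ : Type} [Fintype I] [Fintype J]
    [Fintype I₀] [Fintype J₀] [DecidableEq I₀] [DecidableEq J₀]
    (N : Matrix I₀ J₀ F) (f : I → Option I₀) (g : J → Option J₀) :
    (pull N f g).rank ≤ N.rank := by
  have h : pull N f g = (Matrix.of fun i i₀ => if f i = some i₀ then (1 : F) else 0) *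
      (N * (Matrix.of fun j₀ j => if g j = some j₀ then (1 : F) else 0)) := by
    ext i j
    simp only [pull, Matrix.of_apply, Matrix.mul_apply]
    cases hf : f i with
    | none => simp
    | some i₀ =>
      cases hg : g j with
      | none => simp
      | some j₀ => simp
  rw [h]
  exact (rank_mul_le_right _ _).trans (rank_mul_le_left _ _)

theorem st_HI (F : Type u) [Field F] : ST_HI F := by
  intro V μ _ _ _ S v K b N hN
  classical
  set z := blk N (Sum.inr (some (v, 1))) (Sum.inl 2) with hz
  let f : Fin K → (Fin K × (Fin 3 ⊕ Option (V × Fin 3))) × Fin b →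
      Option ((Fin 3 ⊕ Option (V × Fin 3)) × Fin b) :=
    fun k r => if r.1.1 = k then some (r.1.2, r.2) else none
  let g : Fin K → (Option (Fin K × (Fin 3 ⊕ ((V × Bool) ⊕ μ)))) × Fin b →
      Option ((Fin 3 ⊕ ((V × Bool) ⊕ μ)) × Fin b) :=
    fun k c => match c.1 with
      | none => some (Sum.inl 2, c.2)
      | some (l, j) => if l = k then some (j, c.2) else none
  let fB : (Fin K × (Fin 3 ⊕ Option (V × Fin 3))) × Fin b → Option (Fin b) :=
    fun r => if r.1.2 = Sum.inr (some (v, 1)) then some r.2 else none
  let gB : (Option (Fin K × (Fin 3 ⊕ ((V × Bool) ⊕ μ)))) × Fin b → Option (Fin b) :=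
    fun c => match c.1 with
      | none => some c.2
      | some _ => none
  let M : Matrix ((Fin K × (Fin 3 ⊕ Option (V × Fin 3))) × Fin b)
      ((Option (Fin K × (Fin 3 ⊕ ((V × Bool) ⊕ μ)))) × Fin b) F :=
    (∑ k, pull N (f k) (g k)) + pull (-z) fB gB
  have hMs : ∀ (k l : Fin K) i j x y, M ((k, i), x) (some (l, j), y) =
      if k = l then N (i, x) (j, y) else 0 := by
    intro k l i j x y
    have h1 : ∀ k' : Fin K, pull N (f k') (g k') ((k, i), x) (some (l, j), y) =
        if k = k' then (if l = k' then N (i, x) (j, y) else 0) else 0 := by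
      intro k'
      simp only [pull, Matrix.of_apply, f, g]
      by_cases hk : k = k'
      · by_cases hl : l = k' <;> simp [hk, hl]
      · simp [hk]
    have h2 : pull (-z) fB gB ((k, i), x) (some (l, j), y) = 0 := by
      simp only [pull, Matrix.of_apply, fB, gB]
      split_ifs <;> rfl
    simp only [M, Matrix.add_apply, Matrix.sum_apply, h1, h2, add_zero, Finset.sum_ite_eq,
      Finset.mem_univ, if_true]
    simp only [eq_comm]
  have hMn : ∀ (k : Fin K) i x y, M ((k, i), x) (none, y) =
      N (i, x) (Sum.inl 2, y) - (if i = Sum.inr (some (v, 1)) then z x y else 0) := by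
    intro k i x y
    have h1 : ∀ k' : Fin K, pull N (f k') (g k') ((k, i), x) (none, y) =
        if k = k' then N (i, x) (Sum.inl 2, y) else 0 := by
      intro k'
      simp only [pull, Matrix.of_apply, f, g]
      by_cases hk : k = k' <;> simp [hk]
    have h2 : pull (-z) fB gB ((k, i), x) (none, y) =
        - (if i = Sum.inr (some (v, 1)) then z x y else 0) := by
      simp only [pull, Matrix.of_apply, fB, gB]
      split_ifs <;> simp
    simp only [M, Matrix.add_apply, Matrix.sum_apply, h1, h2, Finset.sum_ite_eq,
      Finset.mem_univ, if_true]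
    ring
  have hM : IsCompletion (tot K S v) b M := by
    rintro ⟨k, i⟩ j a ha x y
    cases j with
    | some lj =>
      obtain ⟨l, j⟩ := lj
      rw [hMs]
      simp only [tot] at ha
      by_cases hkl : k = l
      · rw [if_pos hkl] at ha ⊢
        exact hN i j a ha x y
      · rw [if_neg hkl] at ha ⊢
        have : a = 0 := by simpa using ha.symm
        simp [this]
    | none =>
      rw [hMn]
      rcases i with a₀ | i
      · simp only [tot, Option.some.injEq] at ha
        subst ha
        rw [hN (Sum.inl a₀) (Sum.inl 2) (if a₀ = 2 then 1 else 0) rfl x y]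
        simp
      · rcases i with _ | ⟨w, i⟩
        · simp [tot] at ha
        · fin_cases i
          · simp [tot] at ha
          · by_cases hw : w = v
            · subst hw
              have ha0 : a = 0 := by
                have h0 : tot K S w (k, Sum.inr (some (w, 1))) none = some 0 := by
                  simp [tot]
                have h1 : (some a : Option F) = some 0 := ha.symm.trans h0
                simpa using h1
              subst ha0
              simp [hz, blk]
            · exfalso
              have h0 : tot K S v (k, Sum.inr (some (w, 1))) none = none := by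
                simp [tot, hw]
              have h1 : (some a : Option F) = none := ha.symm.trans h0
              simp at h1
          · simp [tot] at ha
  have hr : M.rank ≤ K * N.rank + z.rank := by
    refine (rank_add_le' _ _).trans (add_le_add ?_ ?_)
    · refine (rank_sum_le' _ _).trans ?_
      refine (Finset.sum_le_sum (fun k _ => rank_pull N (f k) (g k))).trans ?_
      simp
    · refine (rank_pull _ _ _).trans ?_
      have : (-z) = (-1 : Matrix (Fin b) (Fin b) F) * z := by simp
      rw [this]
      exact rank_mul_le_right _ _
  have hmr : mr (tot K S v) b ≤ M.rank := by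
    unfold mr
    exact Nat.sInf_le ⟨M, hM, rfl⟩
  exact hmr.trans hr

end Pool.Agent.Helper98.FR
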