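import Pool.Agent.Helper98.FR.Rel

/-! VELOCITIES AND INTERCEPTS in the box of the window `i0`. The slab and the sheet contain the line (planar bush), so
the velocities relative to them are bounded. -/

set_option autoImplicit false

namespace Pool.Agent.Helper98.FR

open Finset Filter Topology Pool.Agent.Helper69.RK Pool.Agent.Helper31.EC
open Pool.Agent.Helper82.TP Pool.Agent.Helper40.EL Pool.Agent.Helper60.CS

noncomputable section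

open Sp QS Pool.Agent.Helper80.MX

variable {S : Sp}

theorem Lt.chg_bot {Z : ∀ k, Setoid (S.F k).Ω} {f : TR S} (hf : Lt Z f) (e : ℝ) (he : 0 < e) (r : ℝ) :
    chgL Z e he (TR.dg f r) = ⊥ := by
  have h1 := hf.dg_bot Z e he (r / e)
  rw [trc_dg] at h1
  have h2 : e * (r / e) = r := by field_simp
  rwa [h2] at h1

/-- line data: the point moves on a straight line with `t` real -/
structure LD (B : BD S) where
  a : Fin 3 → TR S
  x : Fin 3 → TR S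
  hy : B.y = a 0 + B.t * x 0
  hR : B.R = a 1 + B.t * x 1
  hz : B.z = a 2 + B.t * x 2
  L : S.L
  aL : ∀ j, TR.dg (a j) 1 ≤ L
  xL : ∀ j, TR.dg (x j) 1 ≤ L
  real : ∀ i, 1 - B.q i ≤ h (dg (qc (B.V i) (QS.mk B.t)) 1) (chgL (B.V i) 1 one_pos L)

theorem ring_v0 {A : Type*} [CommRing A] (a0 x0 yc t tc : A) :
    a0 + t * x0 - yc = a0 + tc * x0 - yc + x0 * (t - tc) := by ring

theorem ring_v1 {A : Type*} [CommRing A] (a1 x1 r0 r1 r2 a0 x0 t tc : A) :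
    a1 + t * x1 - (r0 + r1 * t + r2 * (a0 + t * x0)) =
      (a1 + tc * x1 - (r0 + r1 * tc + r2 * (a0 + tc * x0))) + (x1 - (r1 + r2 * x0)) * (t - tc) := by ring

theorem ring_v2 {A : Type*} [CommRing A] (a2 x2 c0 c1 c2 c3 a0 x0 a1 x1 t tc : A) :
    a2 + t * x2 - (c0 + c1 * t + c2 * (a0 + t * x0) + c3 * (a1 + t * x1)) =
      (a2 + tc * x2 - (c0 + c1 * tc + c2 * (a0 + tc * x0) + c3 * (a1 + tc * x1))) +
      (x2 - (c1 + c2 * x0 + c3 * x1)) * (t - tc) := by ring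

namespace LD

variable {B : BD S} (D : LD B)

/-- the velocity relative to the slab -/
def vr (i : ℕ) : TR S := D.x 1 - (B.r i 1 + B.r i 2 * D.x 0)
/-- the velocity relative to the sheet -/
def vz (i : ℕ) : TR S := D.x 2 - (B.c i 1 + B.c i 2 * D.x 0 + B.c i 3 * D.x 1)
/-- intercepts -/
def iy (i : ℕ) : TR S := D.a 0 + B.tc i * D.x 0 - B.yc i
def ir (i : ℕ) : TR S := D.a 1 + B.tc i * D.x 1 - (B.r i 0 + B.r i 1 * B.tc i + B.r i 2 * (D.a 0 + B.tc i * D.x 0))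
def iz (i : ℕ) : TR S := D.a 2 + B.tc i * D.x 2 - (B.c i 0 + B.c i 1 * B.tc i + B.c i 2 * (D.a 0 + B.tc i * D.x 0) +
  B.c i 3 * (D.a 1 + B.tc i * D.x 1))

theorem y_eq (i : ℕ) : B.y - B.yc i = D.iy i + D.x 0 * (B.t - B.tc i) := by
  unfold iy
  rw [D.hy]
  exact ring_v0 _ _ _ _ _

theorem Rr_eq (i : ℕ) : B.Rr i = D.ir i + D.vr i * (B.t - B.tc i) := by
  unfold BD.Rr ir vr
  rw [D.hR, D.hy]
  exact ring_v1 _ _ _ _ _ _ _ _ _

theorem Zr_eq (i : ℕ) : B.Zr i = D.iz i + D.vz i * (B.t - B.tc i) := by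
  unfold BD.Zr iz vz
  rw [D.hz, D.hR, D.hy]
  exact ring_v2 _ _ _ _ _ _ _ _ _ _ _ _

/-- what is known to the line over a label -/
def Kw (i : ℕ) (f : TR S) : Prop := ∀ r ≤ (1 : ℝ), chgL (B.V i) 1 one_pos (TR.dg f r) ≤ chgL (B.V i) 1 one_pos D.L

theorem kw_of_Lt {i : ℕ} {f : TR S} (hf : Lt (B.V i) f) : D.Kw i f := fun r _ => by
  rw [hf.chg_bot 1 one_pos r]
  exact bot_le

theorem kw_a (i : ℕ) (j : Fin 3) : D.Kw i (D.a j) := fun _ hr => chgL_mono _ _ _ ((TR.dg_mono _ hr).trans (D.aL j))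
theorem kw_x (i : ℕ) (j : Fin 3) : D.Kw i (D.x j) := fun _ hr => chgL_mono _ _ _ ((TR.dg_mono _ hr).trans (D.xL j))

theorem Kw.add {D : LD B} {i : ℕ} {f g : TR S} (hf : D.Kw i f) (hg : D.Kw i g) : D.Kw i (f + g) := fun r hr =>
  (chgL_mono _ _ _ (TR.add_dg_le f g r)).trans (by rw [chgL_sup]; exact sup_le (hf r hr) (hg r hr))

theorem Kw.mul {D : LD B} {i : ℕ} {f g : TR S} (hf : D.Kw i f) (hg : D.Kw i g) : D.Kw i (f * g) := fun r hr =>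
  (chgL_mono _ _ _ (TR.mul_dg_le f g r)).trans (by rw [chgL_sup]; exact sup_le (hf r hr) (hg r hr))

theorem Kw.sub {D : LD B} {i : ℕ} {f g : TR S} (hf : D.Kw i f) (hg : D.Kw i g) : D.Kw i (f - g) := fun r hr => by
  rw [sub_eq_add_neg]
  refine (chgL_mono _ _ _ (TR.add_dg_le f (-g) r)).trans ?_
  rw [chgL_sup]
  exact sup_le (hf r hr) ((chgL_mono _ _ _ (TR.neg_dg_le g r)).trans (hg r hr))

theorem kw_vr (i : ℕ) : D.Kw i (D.vr i) :=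
  (D.kw_x i 1).sub ((D.kw_of_Lt (B.lr i 1)).add ((D.kw_of_Lt (B.lr i 2)).mul (D.kw_x i 0)))
theorem kw_vz (i : ℕ) : D.Kw i (D.vz i) :=
  (D.kw_x i 2).sub (((D.kw_of_Lt (B.lc i 1)).add ((D.kw_of_Lt (B.lc i 2)).mul (D.kw_x i 0))).add
    ((D.kw_of_Lt (B.lc i 3)).mul (D.kw_x i 1)))
theorem kw_at (i : ℕ) (j : Fin 3) : D.Kw i (D.a j + B.tc i * D.x j) :=
  (D.kw_a i j).add ((D.kw_of_Lt (B.lt i)).mul (D.kw_x i j))
theorem kw_iy (i : ℕ) : D.Kw i (D.iy i) := (D.kw_at i 0).sub (D.kw_of_Lt (B.ly i))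
theorem kw_ir (i : ℕ) : D.Kw i (D.ir i) :=
  (D.kw_at i 1).sub (((D.kw_of_Lt (B.lr i 0)).add ((D.kw_of_Lt (B.lr i 1)).mul (D.kw_of_Lt (B.lt i)))).add
    ((D.kw_of_Lt (B.lr i 2)).mul (D.kw_at i 0)))
theorem kw_iz (i : ℕ) : D.Kw i (D.iz i) :=
  (D.kw_at i 2).sub ((((D.kw_of_Lt (B.lc i 0)).add ((D.kw_of_Lt (B.lc i 1)).mul (D.kw_of_Lt (B.lt i)))).add
    ((D.kw_of_Lt (B.lc i 2)).mul (D.kw_at i 0))).add ((D.kw_of_Lt (B.lc i 3)).mul (D.kw_at i 1)))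

/-- a function which is affine in `t` and small has a small velocity and a small intercept -/
theorem vel {i : ℕ} {f α β : TR S} {b : ℝ} (hf : f = α + β * (B.t - B.tc i)) (hm : QS.mk f ∈ Id S b) (hb : b ≤ 1)
    (hα : D.Kw i α) (hβ : D.Kw i β) : QS.mk β ∈ Id S (b - B.q i) ∧ QS.mk α ∈ Id S b := by
  rw [hf, ← qc_mem_Id (B.V i)] at hm
  simp only [map_add, map_mul] at hm
  have hT := (qc_mem_Id (B.V i)).mpr (B.T_mem i)
  have e1 : ∀ g : TR S, dg (qc (B.V i) (QS.mk g)) 1 = chgL (B.V i) 1 one_pos (TR.dg g 1) := by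
    intro g
    rw [qc_dg, dg_mk _ le_rfl]
  have hr : 1 - B.q i ≤ h (dg (qc (B.V i) (QS.mk (B.t - B.tc i))) 1)
      (dg (qc (B.V i) (QS.mk α)) 1 ⊔ dg (qc (B.V i) (QS.mk β)) 1) := by
    refine (D.real i).trans ?_
    have h1 : dg (qc (B.V i) (QS.mk B.t)) 1 ≤ dg (qc (B.V i) (QS.mk (B.t - B.tc i))) 1 := by
      have h2 : qc (B.V i) (QS.mk B.t) = qc (B.V i) (QS.mk (B.t - B.tc i)) + qc (B.V i) (QS.mk (B.tc i)) := by
        rw [← map_add, ← map_add, sub_add_cancel]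
      rw [h2]
      refine (dg_add_le _ _ le_rfl).trans ?_
      rw [(B.lt i).qc_bot (B.V i) 1, sup_bot_eq]
    refine (h_mono h1).trans (h_anti (sup_le ?_ ?_))
    · rw [e1]; exact hα 1 le_rfl
    · rw [e1]; exact hβ 1 le_rfl
  obtain ⟨c1, c2⟩ := lin_small (B.q0 i) (B.q1 i) hT hr hb hm
  exact ⟨(qc_mem_Id (B.V i)).mp c1, (qc_mem_Id (B.V i)).mp c2⟩

theorem iy_mem (i : ℕ) : QS.mk (D.iy i) ∈ Id S (B.q i) :=
  (D.vel (D.y_eq i) (B.Y_mem i) (B.q1 i) (D.kw_iy i) (D.kw_x i 0)).2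
theorem vr_mem (i : ℕ) : QS.mk (D.vr i) ∈ Id S (B.lam i - B.q i) :=
  (D.vel (D.Rr_eq i) (B.Rr_mem i) (B.lam1 i) (D.kw_ir i) (D.kw_vr i)).1
theorem ir_mem (i : ℕ) : QS.mk (D.ir i) ∈ Id S (B.lam i) :=
  (D.vel (D.Rr_eq i) (B.Rr_mem i) (B.lam1 i) (D.kw_ir i) (D.kw_vr i)).2
theorem vz_mem (i : ℕ) {ηn : ℝ} (h : ηn ≤ B.eta i) : QS.mk (D.vz i) ∈ Id S (ηn - B.q i) :=
  (D.vel (D.Zr_eq i) (Id_anti h (B.Zr_mem i)) (h.trans (B.eta1 i)) (D.kw_iz i) (D.kw_vz i)).1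
theorem iz_mem (i : ℕ) {ηn : ℝ} (h : ηn ≤ B.eta i) : QS.mk (D.iz i) ∈ Id S ηn :=
  (D.vel (D.Zr_eq i) (Id_anti h (B.Zr_mem i)) (h.trans (B.eta1 i)) (D.kw_iz i) (D.kw_vz i)).2

variable (i0 : ℕ) (e : ℝ) (he : 0 < e)

/-- velocities and intercepts in the box -/
def xT : TR (B.Sj i0 e he) := trc (B.V i0) e he (D.x 0)
def vrT : TR (B.Sj i0 e he) := nf (B.V i0) e he (D.vr i0) (B.lam i0 - B.q i0)
  (by have := B.lam1 i0; have := B.q0 i0; linarith) (D.vr_mem i0)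
def vzT (ηn : ℝ) (h : ηn ≤ B.eta i0) : TR (B.Sj i0 e he) := nf (B.V i0) e he (D.vz i0) (ηn - B.q i0)
  (by have := B.eta1 i0; have := B.q0 i0; linarith) (D.vz_mem i0 h)
def iyT : TR (B.Sj i0 e he) := nf (B.V i0) e he (D.iy i0) (B.q i0) (B.q1 i0) (D.iy_mem i0)
def irT : TR (B.Sj i0 e he) := nf (B.V i0) e he (D.ir i0) (B.lam i0) (B.lam1 i0) (D.ir_mem i0)
def izT (ηn : ℝ) (h : ηn ≤ B.eta i0) : TR (B.Sj i0 e he) :=
  nf (B.V i0) e he (D.iz i0) ηn (h.trans (B.eta1 i0)) (D.iz_mem i0 h)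

variable {i0 e he}

theorem typ_te {f g : TR (B.Sj i0 e he)} {r : ℝ}
    (h : Typ (S := S) (fun k ω => S.dl r k * f.1 k ω = S.dl r k * g.1 k ω)) : QS.mk f = QS.mk g := by
  rw [mk_eq]
  refine TR.Te.ag ?_ 1
  refine ⟨_, typ_chg (B.V i0) e he h, Eventually.of_forall fun k ω _ h1 => ?_⟩
  exact mul_left_cancel₀ (S.dl_pos r k).ne' h1

/-- the point moves on a straight line -/
theorem yT_eq : QS.mk (B.yT i0 e he) = QS.mk (D.iyT i0 e he) + QS.mk (B.tT i0 e he) * QS.mk (D.xT i0 e he) := by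
  rw [← map_mul, ← map_add]
  apply typ_te (r := B.q i0)
  refine (((nf_typ (hr := B.q1 i0) (hf := B.Y_mem i0) (Z := B.V i0) (e := e) (he := he)).and
    (nf_typ (hr := B.q1 i0) (hf := D.iy_mem i0) (Z := B.V i0) (e := e) (he := he))).and
    (nf_typ (hr := B.q1 i0) (hf := B.T_mem i0) (Z := B.V i0) (e := e) (he := he))).mono
    (Eventually.of_forall fun k ω _ hh => ?_)
  obtain ⟨⟨h1, h2⟩, h3⟩ := hh
  have e0 : (B.y - B.yc i0).1 k ω = (D.iy i0).1 k ω + (D.x 0).1 k ω * (B.t - B.tc i0).1 k ω :=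
    congrFun (congrFun (congrArg Subtype.val (D.y_eq i0)) k) ω
  rw [h1, h2, h3] at e0
  show S.dl (B.q i0) k * (B.yT i0 e he).1 k ω = S.dl (B.q i0) k * ((D.iyT i0 e he).1 k ω +
    (B.tT i0 e he).1 k ω * (D.x 0).1 k ω)
  have e1 : S.dl (B.q i0) k * (B.yT i0 e he).1 k ω = S.dl (B.q i0) k * (D.iyT i0 e he).1 k ω +
    (D.x 0).1 k ω * (S.dl (B.q i0) k * (B.tT i0 e he).1 k ω) := e0
  rw [e1]
  ring

theorem RT_eq : QS.mk (B.RT i0 e he) = QS.mk (D.irT i0 e he) + QS.mk (B.tT i0 e he) * QS.mk (D.vrT i0 e he) := by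
  rw [← map_mul, ← map_add]
  apply typ_te (r := B.lam i0)
  have hr1 : B.lam i0 - B.q i0 ≤ 1 := by have := B.lam1 i0; have := B.q0 i0; linarith
  refine ((((nf_typ (hr := B.lam1 i0) (hf := B.Rr_mem i0) (Z := B.V i0) (e := e) (he := he)).and
    (nf_typ (hr := B.lam1 i0) (hf := D.ir_mem i0) (Z := B.V i0) (e := e) (he := he))).and
    (nf_typ (hr := hr1) (hf := D.vr_mem i0) (Z := B.V i0) (e := e) (he := he))).and
    (nf_typ (hr := B.q1 i0) (hf := B.T_mem i0) (Z := B.V i0) (e := e) (he := he))).mono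
    (Eventually.of_forall fun k ω _ hh => ?_)
  obtain ⟨⟨⟨h1, h2⟩, h4⟩, h3⟩ := hh
  have e0 : (B.Rr i0).1 k ω = (D.ir i0).1 k ω + (D.vr i0).1 k ω * (B.t - B.tc i0).1 k ω :=
    congrFun (congrFun (congrArg Subtype.val (D.Rr_eq i0)) k) ω
  rw [h1, h2, h3, h4] at e0
  have l1 : S.dl (B.lam i0 - B.q i0) k * S.dl (B.q i0) k = S.dl (B.lam i0) k := by
    rw [← dl_add]
    congr 1
    ring
  show S.dl (B.lam i0) k * (B.RT i0 e he).1 k ω = S.dl (B.lam i0) k * ((D.irT i0 e he).1 k ω +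
    (B.tT i0 e he).1 k ω * (D.vrT i0 e he).1 k ω)
  have e1 : S.dl (B.lam i0) k * (B.RT i0 e he).1 k ω = S.dl (B.lam i0) k * (D.irT i0 e he).1 k ω +
    (S.dl (B.lam i0 - B.q i0) k * (D.vrT i0 e he).1 k ω) * (S.dl (B.q i0) k * (B.tT i0 e he).1 k ω) := e0
  rw [e1, mul_add, ← l1]
  ring

theorem zT_eq {ηn : ℝ} (hη : ηn ≤ B.eta i0) : QS.mk (B.zT i0 e he ηn hη) = QS.mk (D.izT i0 e he ηn hη) +
    QS.mk (B.tT i0 e he) * QS.mk (D.vzT i0 e he ηn hη) := by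
  rw [← map_mul, ← map_add]
  apply typ_te (r := ηn)
  have hr1 : ηn - B.q i0 ≤ 1 := by have := B.eta1 i0; have := B.q0 i0; linarith
  refine ((((nf_typ (hr := hη.trans (B.eta1 i0)) (hf := Id_anti hη (B.Zr_mem i0)) (Z := B.V i0) (e := e) (he := he)).and
    (nf_typ (hr := hη.trans (B.eta1 i0)) (hf := D.iz_mem i0 hη) (Z := B.V i0) (e := e) (he := he))).and
    (nf_typ (hr := hr1) (hf := D.vz_mem i0 hη) (Z := B.V i0) (e := e) (he := he))).and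
    (nf_typ (hr := B.q1 i0) (hf := B.T_mem i0) (Z := B.V i0) (e := e) (he := he))).mono
    (Eventually.of_forall fun k ω _ hh => ?_)
  obtain ⟨⟨⟨h1, h2⟩, h4⟩, h3⟩ := hh
  have e0 : (B.Zr i0).1 k ω = (D.iz i0).1 k ω + (D.vz i0).1 k ω * (B.t - B.tc i0).1 k ω :=
    congrFun (congrFun (congrArg Subtype.val (D.Zr_eq i0)) k) ω
  rw [h1, h2, h3, h4] at e0
  have l1 : S.dl (ηn - B.q i0) k * S.dl (B.q i0) k = S.dl ηn k := by
    rw [← dl_add]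
    congr 1
    ring
  show S.dl ηn k * (B.zT i0 e he ηn hη).1 k ω = S.dl ηn k * ((D.izT i0 e he ηn hη).1 k ω +
    (B.tT i0 e he).1 k ω * (D.vzT i0 e he ηn hη).1 k ω)
  have e1 : S.dl ηn k * (B.zT i0 e he ηn hη).1 k ω = S.dl ηn k * (D.izT i0 e he ηn hη).1 k ω +
    (S.dl (ηn - B.q i0) k * (D.vzT i0 e he ηn hη).1 k ω) * (S.dl (B.q i0) k * (B.tT i0 e he).1 k ω) := e0
  rw [e1, mul_add, ← l1]
  ring

end LD

end

end Pool.Agent.Helper98.FR
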