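import Pool.Agent.Helper98.FR.Win
import Pool.Agent.Helper98.FR.Tr
import Pool.Agent.Helper80.HCI.Cce

/-! THE INPUT OF THE DIAGONAL of the corners at a window, from the box of a system; the common fields from their parts. -/

set_option autoImplicit false

namespace Pool.Agent.Helper98.FR

open Finset Filter Topology Pool.Agent.Helper69.RK Pool.Agent.Helper31.EC
open Pool.Agent.Helper82.TP Pool.Agent.Helper40.EL Pool.Agent.Helper60.CS Pool.Agent.Helper79.NF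
open Pool.Agent.Helper31.NSB Pool.Agent.Helper80.HCI Pool.Agent.Helper52.KP

noncomputable section

open Sp QS

/-- THE COMMON FIELDS of the trimmed corner from the frame fields and the information fields -/
theorem cce_of {Sc : Set ℝ} (I : RIn Sc) (j : ℕ) {w1 w g ε : ℝ} (hε : 0 ≤ ε)
    (fe : FrE (I.H j) (I.f j) w1 w Sc ε) (h0 : (0 : ℝ) ∈ Sc)
    (k0 : ∀ᶠ k in UF, ∀ ω ω', ((I.S j).F k).μ ω ≠ 0 → ((I.S j).F k).μ ω' ≠ 0 → ((I.S j).F k).Z ω ω' →
      (I.H j).K 0 k ω = (I.H j).K 0 k ω')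
    (time : 1 - ε ≤ h (dg (I.H j).t 1) (I.H j).L)
    (leakA : ∀ s ∈ Sc, Helper31.EC.I ((I.inp.H j).κ s) (dg (I.H j).t 1) ((I.H j).L ⊔ dg (I.H j).t s) ≤ ε)
    (T1 : ∀ s ∈ Sc, Helper31.EC.I (dg (I.H j).x 1) ((I.inp.H j).κ s ⊔ (I.H j).B) ⊥ ≤ ε)
    (rich : ∀ q : ℚ, 0 < q → q ≤ 1 → Slow.RobGe (dg (I.H j).x q) (I.H j).B (g * q - ε))
    (full : ∀ s ∈ Sc, w1 * s ≤ 1 → Slow.RobGe (I.H j).M ((I.inp.H j).κ s) (3 - (2 + w1) * s - ε))
    (agr : ∀ s ∈ Sc, ∀ s' ∈ Sc, s ≤ s' → AgW (I.H j) s s') : CCe (I.inp.H j) (I.inp.f j) w1 w g Sc ε where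
  κ0 := by
    have h1 : (I.inp.H j).κ 0 = ⊥ := io_trm_bot (I.bdd h0 j) k0
    rw [h1, h_eq_zero_iff.mpr le_rfl]
    exact hε
  nest := I.nest fe.nest
  iA := by
    have h1 : h (io (I.H j).VA) (I.H j).L = 0 := h_eq_zero_iff.mpr fe.iA.le
    exact h1.le.trans hε
  iA' := by
    have h1 : h (I.H j).L (io (I.H j).VA) = 0 := h_eq_zero_iff.mpr fe.iA.ge
    exact h1.le.trans hε
  iB := by
    have h1 : h (io (I.H j).VB) (I.H j).B = 0 := h_eq_zero_iff.mpr fe.iB.le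
    exact h1.le.trans hε
  iB' := by
    have h1 : h (I.H j).B (io (I.H j).VB) = 0 := h_eq_zero_iff.mpr fe.iB.ge
    exact h1.le.trans hε
  time := time
  leakA := leakA
  T1 := T1
  rich := rich
  ft := fun s hs => Id_anti (by linarith) (fe.ft s hs).1
  ft' := fun s hs => by
    have h1 : h (dg ((I.f j).t0 s) 1) (dg (I.H j).t s) = 0 := h_eq_zero_iff.mpr (fe.ft s hs).2
    exact h1.le.trans hε
  fy := fun s hs => Id_anti (by linarith) (fe.fy s hs).1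
  fy' := fun s hs => by
    have h1 : h (dg ((I.f j).y0 s) 1) (dg (I.H j).y s) = 0 := h_eq_zero_iff.mpr (fe.fy s hs).2
    exact h1.le.trans hε
  frR := fe.frR
  frZ := fe.frZ
  full := full
  agr := fun s hs s' hs' h => I.agw hs hs' (agr s hs s' hs' h)

/-- THE INPUT OF THE DIAGONAL: corners of boxes `B j` at the windows `i0 j`, units `e j`, normalisations `ηn j`, windows
`ix j r`, frames `g j`; the window `ix j σ` is the deepest one -/
def rinG (T : ℕ → Sp) (B : ∀ j, BD (T j)) (D : ∀ j, LD (B j)) (i0 : ℕ → ℕ) (e : ℕ → ℝ) (he : ∀ j, 0 < e j)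
    (ηn : ℕ → ℝ) (hη : ∀ j, ηn j ≤ (B j).eta (i0 j)) (ix : ℕ → ℝ → ℕ) {Sc : Set ℝ} {σ : ℝ} {C : ℝ}
    (hix : ∀ j, ∀ r ∈ Sc, (B j).q (ix j r) ≤ (B j).q (ix j σ))
    (hT : ∀ j, Typ (S := (B j).Sj (i0 j) (e j) (he j)) (Lgc (S := (B j).Sj (i0 j) (e j) (he j)) ((B j).V (ix j σ)) C))
    (g : ∀ j, Fin 9 → Sc → TR ((B j).Sj (i0 j) (e j) (he j)))
    (hg : ∀ (i : Fin 9) (r : Sc) (j : ℕ), ∀ᶠ k in UF, FLit (((B j).Sj (i0 j) (e j) (he j)).F k)
      (((D j).rd (i0 j) (e j) (he j) (ηn j) (hη j) (ix j)).K r k) ((g j i r).1 k)) : RIn Sc where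
  S := fun j => (B j).Sj (i0 j) (e j) (he j)
  H := fun j => (D j).rd (i0 j) (e j) (he j) (ηn j) (hη j) (ix j)
  f := fun j => frOf (g j)
  E := fun j => Lgc (S := (B j).Sj (i0 j) (e j) (he j)) ((B j).V (ix j σ)) C
  hE := hT
  fw := fun r hr' => ⟨C, fun j => by
    have h3 : ∀ᶠ k in UF, ∀ ω, (((B j).Sj (i0 j) (e j) (he j)).F k).μ ω ≠ 0 →
        Lgc (S := (B j).Sj (i0 j) (e j) (he j)) ((B j).V (ix j σ)) C k ω →
        Lgc (S := (B j).Sj (i0 j) (e j) (he j)) ((B j).V (ix j σ)) C k ω := Eventually.of_forall fun k ω _ h => h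
    have h4 : ∀ᶠ k in UF, ∀ ω ω', (((B j).Sj (i0 j) (e j) (he j)).F k).μ ω ≠ 0 →
        (((B j).Sj (i0 j) (e j) (he j)).F k).μ ω' ≠ 0 → (((B j).Sj (i0 j) (e j) (he j)).F k).Z ω ω' →
        (B j).V (ix j σ) k ω ω' → ((D j).rd (i0 j) (e j) (he j) (ηn j) (hη j) (ix j)).K r k ω =
          ((D j).rd (i0 j) (e j) (he j) (ηn j) (hη j) (ix j)).K r k ω' := by
      filter_upwards [(B j).nest _ _ (hix j r hr')] with k hk ω ω' _ _ _ h
      exact Quotient.sound (hk h)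
    exact FewV.of_large h3 h4⟩
  bA := ⟨(6 : ℕ) * (max 1 0 + 1), fun j => (D j).nvA (i0 j) (e j) (he j) (ηn j) (hη j) (ix j)⟩
  bB := ⟨(4 : ℕ) * (max 1 0 + 1), fun j => (D j).nvB (i0 j) (e j) (he j) (ηn j) (hη j) (ix j)⟩
  r10 := fun i j => (D j).r10 (i0 j) (e j) (he j) (ηn j) (hη j) i
  r10_mk := fun i j => (D j).r10_mk (i0 j) (e j) (he j) (ηn j) (hη j) (ix j) i
  r10_litB := fun i hi j => Eventually.of_forall fun k =>
    (D j).r10_litB (i0 j) (e j) (he j) (ηn j) (hη j) (ix j) i hi k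
  r10_litA := fun i hi j => Eventually.of_forall fun k =>
    (D j).r10_litA (i0 j) (e j) (he j) (ηn j) (hη j) (ix j) i hi k
  r9 := fun i r j => g j i r
  r9_mk := fun i r j => frOf_f9 (g j) i r
  r9_lit := hg

/-- the label of the window `0` is the base -/
theorem LD.k0 {S : Sp} {B : BD S} (D : LD B) (i0 : ℕ) (e : ℝ) (he : 0 < e) (ηn : ℝ) (hη : ηn ≤ B.eta i0) (ix : ℝ → ℕ)
    (h : ix 0 = i0) : ∀ᶠ k in UF, ∀ ω ω', ((B.Sj i0 e he).F k).μ ω ≠ 0 → ((B.Sj i0 e he).F k).μ ω' ≠ 0 →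
      ((B.Sj i0 e he).F k).Z ω ω' → (D.rd i0 e he ηn hη ix).K 0 k ω = (D.rd i0 e he ηn hη ix).K 0 k ω' := by
  subst h
  refine Eventually.of_forall fun k ω ω' _ _ h => Quotient.sound ?_
  exact h.1

namespace Bx

variable {S : Sp} {s : Sys S 3} {q lam eta : ℕ → ℝ} {L : ℕ → Lab S} (b : Bx s q lam eta L)

/-- the box has the windows of the data -/
theorem wnd {lamf etaf : ℝ → ℝ} (hl : ∀ i, lam i = lamf (q i)) (he : ∀ i, eta i = etaf (q i)) {i0 : ℕ} {c σ e tol : ℝ}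
    (ht : 0 ≤ tol) (h0 : q i0 = c) (hd : ∀ a a', c ≤ a → a < a' → a' ≤ c + e * σ → ∃ j, a < q j ∧ q j < a')
    {ix : ℝ → ℕ} {Sc : Set ℝ} (hix : ∀ r ∈ Sc, q (ix r) = c + e * r) (hnn : ∀ r ∈ Sc, 0 ≤ r) (hle : ∀ r ∈ Sc, r ≤ σ) :
    Wnd b.bd i0 ix Sc lamf etaf c σ e tol where
  q0 := h0
  lam := hl
  eta := fun i => by
    have h1 : b.bd.eta i = etaf (b.bd.q i) := he i
    linarith
  dn := fun a a' h1 h2 h3 => hd a a' (by rw [← h0]; exact h1) h2 h3
  ix := hix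
  nn := hnn
  le := hle
  tc := b.tc_dg
  yc := b.yc_dg

end Bx

namespace Bx

variable {S : Sp} {s : Sys S 3} {q lam eta : ℕ → ℝ} {L : ℕ → Lab S} (b : Bx s q lam eta L)

/-- THE INPUT OF THE DIAGONAL, one box: corners at the window `i0`, units `e j`, normalisations `ηn j`, windows `ix j r`,
frames `g j` -/
def rin (hr : RobustI s) (i0 : ℕ) (e : ℕ → ℝ) (he : ∀ j, 0 < e j) (ηn : ℕ → ℝ) (hη : ∀ j, ηn j ≤ b.bd.eta i0)
    (ix : ℕ → ℝ → ℕ) {Sc : Set ℝ} {σ : ℝ} (hix : ∀ j, ∀ r ∈ Sc, q (ix j r) ≤ q (ix j σ)) (h0 : ∀ j, q i0 ≤ q (ix j σ))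
    (C : ℝ) (hC : ∀ j, (Helper40.EL.ic s (q (ix j σ)) + q (ix j σ)) - (Helper40.EL.ic s (q i0) + q i0) ≤ C * e j)
    (g : ∀ j, Fin 9 → Sc → TR (b.bd.Sj i0 (e j) (he j)))
    (hg : ∀ (i : Fin 9) (r : Sc) (j : ℕ), ∀ᶠ k in UF, FLit ((b.bd.Sj i0 (e j) (he j)).F k)
      ((b.ld.rd i0 (e j) (he j) (ηn j) (hη j) (ix j)).K r k) ((g j i r).1 k)) : RIn Sc where
  S := fun j => b.bd.Sj i0 (e j) (he j)
  H := fun j => b.ld.rd i0 (e j) (he j) (ηn j) (hη j) (ix j)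
  f := fun j => frOf (g j)
  E := fun j => Lgc (S := b.bd.Sj i0 (e j) (he j)) (b.bd.V (ix j σ)) (C + 1)
  hE := fun j => b.typ_large hr (h0 j) (e j) (he j) one_pos (hC j)
  fw := fun r hr' => ⟨C + 1, fun j => b.fewv b.ld (e j) (he j) (ηn j) (hη j) (ix j) r (hix j r hr')⟩
  bA := ⟨(6 : ℕ) * (max 1 0 + 1), fun j => b.ld.nvA i0 (e j) (he j) (ηn j) (hη j) (ix j)⟩
  bB := ⟨(4 : ℕ) * (max 1 0 + 1), fun j => b.ld.nvB i0 (e j) (he j) (ηn j) (hη j) (ix j)⟩
  r10 := fun i j => b.ld.r10 i0 (e j) (he j) (ηn j) (hη j) i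
  r10_mk := fun i j => b.ld.r10_mk i0 (e j) (he j) (ηn j) (hη j) (ix j) i
  r10_litB := fun i hi j => Eventually.of_forall fun k =>
    b.ld.r10_litB i0 (e j) (he j) (ηn j) (hη j) (ix j) i hi k
  r10_litA := fun i hi j => Eventually.of_forall fun k =>
    b.ld.r10_litA i0 (e j) (he j) (ηn j) (hη j) (ix j) i hi k
  r9 := fun i r j => g j i r
  r9_mk := fun i r j => frOf_f9 (g j) i r
  r9_lit := hg

/-- the label of the window `0` is the base -/
theorem k0 (D : LD b.bd) (i0 : ℕ) (e : ℝ) (he : 0 < e) (ηn : ℝ) (hη : ηn ≤ b.bd.eta i0) (ix : ℝ → ℕ) (h : ix 0 = i0) :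
    ∀ᶠ k in UF, ∀ ω ω', ((b.bd.Sj i0 e he).F k).μ ω ≠ 0 → ((b.bd.Sj i0 e he).F k).μ ω' ≠ 0 →
      ((b.bd.Sj i0 e he).F k).Z ω ω' → (D.rd i0 e he ηn hη ix).K 0 k ω = (D.rd i0 e he ηn hη ix).K 0 k ω' :=
  D.k0 i0 e he ηn hη ix h

/-- REPLACEMENT of the frame of `z` of the window `i0`, the smallest window, in the box of a system -/
def setc (i0 : ℕ) (f : Fin 4 → TR b.M.sp) (η : ℝ) (hf : ∀ a, Lt (b.bd.V i0) (f a)) (hη : η ≤ eta i0)
    (hz : QS.mk b.bd.z - (QS.mk (f 0) + QS.mk (f 1) * QS.mk b.bd.t + QS.mk (f 2) * QS.mk b.bd.y +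
      QS.mk (f 3) * QS.mk b.bd.R) ∈ Id b.M.sp η)
    (hq : ∀ i, i ≠ i0 → q i0 < q i) : Bx s q lam (Function.update eta i0 η) L :=
  { b with
    c := Function.update b.c i0 f
    eta1 := fun i => by
      by_cases h : i = i0
      · subst h
        rw [Function.update_self]
        exact hη.trans (b.eta1 _)
      · rw [Function.update_of_ne h]
        exact b.eta1 i
    lc := fun i a => by
      by_cases h : i = i0
      · subst h
        rw [Function.update_self]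
        exact hf a
      · rw [Function.update_of_ne h]
        exact b.lc i a
    hc := fun i => by
      by_cases h : i = i0
      · subst h
        rw [Function.update_self, Function.update_self]
        exact hz
      · rw [Function.update_of_ne h, Function.update_of_ne h]
        exact b.hc i
    seta := fun i j hij => by
      by_cases h : i = i0
      · subst h
        by_cases h' : j = i
        · subst h'
          exact le_rfl
        · rw [Function.update_self, Function.update_of_ne h']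
          have := b.seta i j hij
          linarith
      · by_cases h' : j = i0
        · subst h'
          exact absurd hij (not_le.mpr (hq i h))
        · rw [Function.update_of_ne h, Function.update_of_ne h']
          exact b.seta i j hij }

variable {i0 : ℕ} {f : Fin 4 → TR b.M.sp} {η : ℝ} {hf : ∀ a, Lt (b.bd.V i0) (f a)} {hη : η ≤ eta i0}
    {hz : QS.mk b.bd.z - (QS.mk (f 0) + QS.mk (f 1) * QS.mk b.bd.t + QS.mk (f 2) * QS.mk b.bd.y +
      QS.mk (f 3) * QS.mk b.bd.R) ∈ Id b.M.sp η}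
    {hq : ∀ i, i ≠ i0 → q i0 < q i}

theorem setc_M : (b.setc i0 f η hf hη hz hq).M = b.M := rfl
theorem setc_c : (b.setc i0 f η hf hη hz hq).c i0 = f := Function.update_self ..
theorem setc_c' {i : ℕ} (h : i ≠ i0) : (b.setc i0 f η hf hη hz hq).c i = b.c i := Function.update_of_ne h ..

/-- the box after the replacement has the windows of the data, up to the tolerance -/
theorem wnd' {lamf etaf : ℝ → ℝ} (hl : ∀ i, lam i = lamf (q i)) (he : ∀ i, eta i = etaf (q i)) {c σ e tol : ℝ}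
    (ht : 0 ≤ tol) (h0 : q i0 = c) (h : etaf c - tol ≤ η)
    (hd : ∀ a a', c ≤ a → a < a' → a' ≤ c + e * σ → ∃ j, a < q j ∧ q j < a')
    {ix : ℝ → ℕ} {Sc : Set ℝ} (hix : ∀ r ∈ Sc, q (ix r) = c + e * r) (hnn : ∀ r ∈ Sc, 0 ≤ r) (hle : ∀ r ∈ Sc, r ≤ σ) :
    Wnd (b.setc i0 f η hf hη hz hq).bd i0 ix Sc lamf etaf c σ e tol where
  q0 := h0
  lam := hl
  eta := fun i => by
    show etaf (q i) - tol ≤ Function.update eta i0 η i
    by_cases hi : i = i0
    · subst hi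
      rw [Function.update_self, h0]
      exact h
    · rw [Function.update_of_ne hi, he i]
      linarith
  dn := fun a a' h1 h2 h3 => hd a a' (by rw [← h0]; exact h1) h2 h3
  ix := hix
  nn := hnn
  le := hle
  tc := (b.setc i0 f η hf hη hz hq).tc_dg
  yc := (b.setc i0 f η hf hη hz hq).yc_dg

end Bx

/-- the windows after the replacement of the frame of the base window -/
theorem Wnd.setc {S : Sp} {B : BD S} {i0 : ℕ} {ix : ℝ → ℕ} {Sc : Set ℝ} {lamf etaf : ℝ → ℝ} {c σ e tol : ℝ}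
    (W : Wnd B i0 ix Sc lamf etaf c σ e tol) {f : Fin 4 → TR S} {η : ℝ} {hf : ∀ a, Lt (B.V i0) (f a)}
    {hη : η ≤ B.eta i0}
    {hz : QS.mk B.z - (QS.mk (f 0) + QS.mk (f 1) * QS.mk B.t + QS.mk (f 2) * QS.mk B.y + QS.mk (f 3) * QS.mk B.R) ∈ Id S η}
    {hq : ∀ i, i ≠ i0 → B.q i0 < B.q i} (h : etaf c - tol ≤ η) :
    Wnd (B.setc i0 f η hf hη hz hq) i0 ix Sc lamf etaf c σ e tol where
  q0 := W.q0
  lam := W.lam
  eta := fun i => by
    by_cases hi : i = i0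
    · subst hi
      rw [B.setc_eta]
      have h1 : (B.setc i f η hf hη hz hq).q i = c := W.q0
      rw [h1]
      exact h
    · rw [B.setc_eta' hi]
      exact W.eta i
  dn := W.dn
  ix := W.ix
  nn := W.nn
  le := W.le
  tc := W.tc
  yc := W.yc

end

end Pool.Agent.Helper98.FR
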