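import Pool.Agent.Helper98.FR.Frm
import Pool.Agent.Helper30.UNS.Rl

/-! THE FRAME FIELDS near a window `c` at which `lam` and `eta` are differentiable. -/

set_option autoImplicit false

namespace Pool.Agent.Helper98.FR

open Finset Filter Topology Pool.Agent.Helper69.RK Pool.Agent.Helper31.EC
open Pool.Agent.Helper82.TP Pool.Agent.Helper40.EL Pool.Agent.Helper60.CS Pool.Agent.Helper79.NF
open Pool.Agent.Helper31.NSB Pool.Agent.Helper80.HCI Pool.Agent.Helper30.UNS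

noncomputable section

open Sp QS

/-- mesh of the windows used at the scale `e` -/
def msh (w1 w ε e : ℝ) : ℝ := ε * e / (4 * (w1 + w))

/-- real analysis at a window of differentiability -/
theorem real_win {lamf etaf : ℝ → ℝ} {c w1 w σ ε : ℝ} (hl : HasDerivAt lamf w1 c) (hh : HasDerivAt etaf w c)
    (hw1 : 1 ≤ w1) (hw : 1 ≤ w) (hσ : 0 ≤ σ) (hε : 0 < ε) :
    ∃ e0 : ℝ, 0 < e0 ∧ ∀ e : ℝ, 0 < e → e ≤ e0 →
      (∀ r, 0 ≤ r → r ≤ σ → w1 * r * e - ε / 4 * e ≤ lamf (c + e * r) - lamf c ∧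
        w * r * e - ε / 4 * e ≤ etaf (c + e * r) - etaf c) ∧
      ∀ r, 0 ≤ r → r ≤ σ → ∀ x x', c ≤ x → x ≤ x' → x' ≤ c + e * r → x' ≤ x + msh w1 w ε e →
        etaf c - lamf c - max (w1 - w) 0 * r * e - 3 / 4 * ε * e ≤ etaf x - lamf x' := by
  obtain ⟨e1, he1, h1⟩ := incr_e hl hσ (show 0 < ε / 4 by positivity)
  obtain ⟨e2, he2, h2⟩ := incr_e hh hσ (show 0 < ε / 4 by positivity)
  refine ⟨min e1 e2, lt_min he1 he2, fun e he hee => ?_⟩
  have k1 := hee.trans (min_le_left _ _)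
  have k2 := hee.trans (min_le_right _ _)
  have key1 : ∀ r, 0 ≤ r → r ≤ σ → |lamf (c + e * r) - lamf c - w1 * r * e| ≤ ε / 4 * e := fun r h0 hr => by
    have := h1 e he k1 r (by rw [abs_of_nonneg h0]; exact hr)
    rwa [mul_comm r e] at this
  have key2 : ∀ r, 0 ≤ r → r ≤ σ → |etaf (c + e * r) - etaf c - w * r * e| ≤ ε / 4 * e := fun r h0 hr => by
    have := h2 e he k2 r (by rw [abs_of_nonneg h0]; exact hr)
    rwa [mul_comm r e] at this
  refine ⟨fun r h0 hr => ?_, fun r h0 hr x x' hx hxx hx' hm => ?_⟩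
  · have a1 := abs_le.1 (key1 r h0 hr)
    have a2 := abs_le.1 (key2 r h0 hr)
    constructor <;> linarith [a1.1, a2.1]
  · obtain ⟨u, hu⟩ : ∃ u, u = (x - c) / e := ⟨_, rfl⟩
    obtain ⟨u', hu'⟩ : ∃ u', u' = (x' - c) / e := ⟨_, rfl⟩
    have ex : x = c + e * u := by rw [hu]; field_simp; ring
    have ex' : x' = c + e * u' := by rw [hu']; field_simp; ring
    have u0 : 0 ≤ u := by rw [hu]; exact div_nonneg (by linarith) he.le
    have huu : u ≤ u' := by rw [hu, hu']; exact div_le_div_of_nonneg_right (by linarith) he.le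
    have hur : u' ≤ r := by
      rw [hu', div_le_iff₀ he]
      linarith
    have a1 := abs_le.1 (key1 u' (u0.trans huu) (hur.trans hr))
    have a2 := abs_le.1 (key2 u u0 ((huu.trans hur).trans hr))
    rw [ex, ex']
    have hww : 0 < w1 + w := by linarith
    have hm' : (w1 + w) * (e * (u' - u)) ≤ ε / 4 * e := by
      have h3 : e * (u' - u) ≤ msh w1 w ε e := by
        rw [ex, ex'] at hm
        linarith
      calc (w1 + w) * (e * (u' - u)) ≤ (w1 + w) * msh w1 w ε e := mul_le_mul_of_nonneg_left h3 hww.le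
        _ = ε / 4 * e := by
          unfold msh
          field_simp
    have hd : 0 ≤ e * (u' - u) := mul_nonneg he.le (by linarith)
    have hm1 : w * (e * (u' - u)) ≤ ε / 4 * e := by nlinarith
    have hm2 : w1 * (e * (u' - u)) ≤ ε / 4 * e := by nlinarith
    rcases le_total w1 w with hc | hc
    · rw [max_eq_right (by linarith)]
      have h4 : w1 * (e * u) ≤ w * (e * u) := mul_le_mul_of_nonneg_right hc (by positivity)
      nlinarith [a1.2, a2.1]
    · rw [max_eq_left (by linarith)]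
      have h4 : (w1 - w) * (e * u') ≤ (w1 - w) * (e * r) := mul_le_mul_of_nonneg_left
        (mul_le_mul_of_nonneg_left hur he.le) (by linarith)
      nlinarith [a1.2, a2.1]

section

variable {S : Sp} {B : BD S} (D : LD B) {i0 : ℕ} {ix : ℝ → ℕ} {Sc : Set ℝ}

/-- `B` is a box with the windows of the data `lamf`, `etaf` (tolerance `tol` for `eta`), scales `Sc` at `c`, unit `e` -/
structure Wnd {S : Sp} (B : BD S) (i0 : ℕ) (ix : ℝ → ℕ) (Sc : Set ℝ) (lamf etaf : ℝ → ℝ) (c σ e tol : ℝ) : Prop where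
  q0 : B.q i0 = c
  lam : ∀ i, B.lam i = lamf (B.q i)
  eta : ∀ i, etaf (B.q i) - tol ≤ B.eta i
  dn : B.Dn i0 (c + e * σ)
  ix : ∀ r ∈ Sc, B.q (ix r) = c + e * r
  nn : ∀ r ∈ Sc, 0 ≤ r
  le : ∀ r ∈ Sc, r ≤ σ
  tc : ∀ i r, TR.dg (B.tc i) r ≤ TR.dg B.t (B.q i)
  yc : ∀ i r, TR.dg (B.yc i) r ≤ TR.dg B.y (B.q i)

/-- the level of normalisation of `z` -/
def lvt (etaf : ℝ → ℝ) (c ε e : ℝ) : ℝ := etaf c - ε * e
/-- the auxiliary level for the untilted frames -/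
def lvu (etaf : ℝ → ℝ) (c w1 w σ ε e : ℝ) : ℝ := etaf c - max (w1 - w) 0 * σ * e - ε * e

/-- the slabs and the sheets are controlled near `c` (general) -/
theorem ok_win {lamf etaf : ℝ → ℝ} {c w1 w σ ε e : ℝ} (hw1 : 1 ≤ w1) (hw : 1 ≤ w) (hσ : 0 ≤ σ) (hε : 0 < ε)
    (he : 0 < e) (W : Wnd B i0 ix Sc lamf etaf c σ e (ε * e / 8))
    (h2 : ∀ r, 0 ≤ r → r ≤ σ → ∀ x x', c ≤ x → x ≤ x' → x' ≤ c + e * r → x' ≤ x + msh w1 w ε e →
        etaf c - lamf c - max (w1 - w) 0 * r * e - 3 / 4 * ε * e ≤ etaf x - lamf x') :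
    ∀ r ∈ Sc, B.Ok i0 (ix r) (c + e * σ) (lvu etaf c w1 w σ ε e) (msh w1 w ε e) := by
  intro r hr
  have hm : 0 ≤ max (w1 - w) 0 * σ * e := by positivity
  have he' : 0 < ε * e := by positivity
  have hq : B.q i0 ≤ B.q (ix r) := by
    rw [W.q0, W.ix r hr]
    have := mul_nonneg he.le (W.nn r hr)
    linarith
  refine ⟨W.dn, hq, ?_, ?_, ?_, ?_⟩
  · rw [W.ix r hr]
    have := mul_le_mul_of_nonneg_left (W.le r hr) he.le
    linarith
  · unfold msh
    have : 0 < w1 + w := by linarith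
    positivity
  · have h4 := W.eta i0
    rw [W.q0] at h4
    unfold lvu
    linarith
  · intro j j' a1 a2 a3 a4
    have h3 := h2 σ hσ le_rfl (B.q j) (B.q j') (by rw [← W.q0]; exact a1) a2 a3 a4
    have h4 := W.eta j
    rw [W.lam, W.lam, W.q0]
    unfold lvu
    linarith

/-- TILTED FRAMES near `c` (`w1 ≤ w`) -/
theorem exists_fret {lamf etaf : ℝ → ℝ} {c w1 w σ ε : ℝ} (hl : HasDerivAt lamf w1 c) (hh : HasDerivAt etaf w c)
    (hw1 : 1 ≤ w1) (hle : w1 ≤ w) (hσ : 0 ≤ σ) (hwσ : w * σ ≤ 1) (hε : 0 < ε) :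
    ∃ e0 : ℝ, 0 < e0 ∧ ∀ (e : ℝ) (he : 0 < e), e ≤ e0 → ∀ (S : Sp) (B : BD S) (D : LD B) (i0 : ℕ) (ix : ℝ → ℕ)
      (Sc : Set ℝ), Wnd B i0 ix Sc lamf etaf c σ e (ε * e / 8) →
      ∃ (ok : ∀ r ∈ Sc, B.Ok i0 (ix r) (c + e * σ) (lvt etaf c ε e) (msh w1 w ε e)) (hη : lvt etaf c ε e ≤ B.eta i0),
        FrE (D.rd i0 e he (lvt etaf c ε e) hη ix) (frOf (B.r9t i0 e he ok)) w1 w Sc ε := by
  have hw : 1 ≤ w := hw1.trans hle
  obtain ⟨e0, he0, h⟩ := real_win hl hh hw1 hw hσ hε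
  refine ⟨e0, he0, fun e he hee S B D i0 ix Sc W => ?_⟩
  obtain ⟨h1, h2⟩ := h e he hee
  have ok := ok_win hw1 hw hσ hε he W h2
  have e1 : lvu etaf c w1 w σ ε e = lvt etaf c ε e := by
    unfold lvu lvt
    rw [max_eq_right (by linarith)]
    ring
  rw [e1] at ok
  have hη : lvt etaf c ε e ≤ B.eta i0 := by
    have h4 := W.eta i0
    rw [W.q0] at h4
    unfold lvt
    have : 0 < ε * e := by positivity
    linarith
  have hs : ∀ r ∈ Sc, w1 * r ≤ 1 ∧ w * r ≤ 1 ∧ r ≤ 1 := fun r hr => by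
    have a1 := W.nn r hr
    have a2 := W.le r hr
    have a3 : w * r ≤ w * σ := mul_le_mul_of_nonneg_left a2 (by linarith)
    have a4 : w1 * r ≤ w * r := mul_le_mul_of_nonneg_right hle a1
    refine ⟨by linarith, by linarith, ?_⟩
    nlinarith
  refine ⟨ok, hη, D.fret W.tc W.yc ok hη (fun r hr => by rw [W.q0]; exact W.ix r hr) (fun r hr => (hs r hr).2.2)
    (fun r hr => by linarith [(hs r hr).1]) (fun r hr => by linarith [(hs r hr).2.1]) (fun r hr => ?_) fun r hr => ?_⟩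
  · rw [le_div_iff₀ he, W.lam, W.lam, W.q0, W.ix r hr]
    have h3 := (h1 r (W.nn r hr) (W.le r hr)).1
    have : 0 < ε * e := by positivity
    linarith
  · have h4 := W.eta (ix r)
    rw [W.ix r hr] at h4
    rw [le_div_iff₀ he]
    have h3 := (h1 r (W.nn r hr) (W.le r hr)).2
    unfold lvt
    have : 0 < ε * e := by positivity
    linarith

/-- UNTILTED FRAMES near `c` (`w ≤ w1`) -/
theorem exists_freu {lamf etaf : ℝ → ℝ} {c w1 w σ ε : ℝ} (hl : HasDerivAt lamf w1 c) (hh : HasDerivAt etaf w c)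
    (hw : 1 ≤ w) (hle : w ≤ w1) (hσ : 0 ≤ σ) (hwσ : w1 * σ ≤ 1) (hε : 0 < ε) :
    ∃ e0 : ℝ, 0 < e0 ∧ ∀ (e : ℝ) (he : 0 < e), e ≤ e0 → ∀ (S : Sp) (B : BD S) (D : LD B) (i0 : ℕ) (ix : ℝ → ℕ)
      (Sc : Set ℝ), Wnd B i0 ix Sc lamf etaf c σ e (ε * e / 8) →
      ∃ (ok : ∀ r ∈ Sc, B.Ok i0 (ix r) (c + e * σ) (lvu etaf c w1 w σ ε e) (msh w1 w ε e)) (hη : lvt etaf c ε e ≤ B.eta i0),
        FrE (D.rd i0 e he (lvt etaf c ε e) hη ix) (frOf (B.r9u i0 e he ok (lvt etaf c ε e) hη)) w1 w Sc ε := by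
  have hw1 : 1 ≤ w1 := hw.trans hle
  obtain ⟨e0, he0, h⟩ := real_win hl hh hw1 hw hσ hε
  refine ⟨e0, he0, fun e he hee S B D i0 ix Sc W => ?_⟩
  obtain ⟨h1, h2⟩ := h e he hee
  have ok := ok_win hw1 hw hσ hε he W h2
  have hη : lvt etaf c ε e ≤ B.eta i0 := by
    have h4 := W.eta i0
    rw [W.q0] at h4
    unfold lvt
    have : 0 < ε * e := by positivity
    linarith
  have hs : ∀ r ∈ Sc, w1 * r ≤ 1 ∧ w * r ≤ 1 ∧ r ≤ 1 := fun r hr => by
    have a1 := W.nn r hr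
    have a2 := W.le r hr
    have a3 : w1 * r ≤ w1 * σ := mul_le_mul_of_nonneg_left a2 (by linarith)
    have a4 : w * r ≤ w1 * r := mul_le_mul_of_nonneg_right hle a1
    refine ⟨by linarith, by linarith, ?_⟩
    nlinarith
  refine ⟨ok, hη, D.freu W.tc W.yc ok hη (fun r hr => by rw [W.q0]; exact W.ix r hr) (fun r hr => (hs r hr).2.2)
    (fun r hr => by linarith [(hs r hr).1]) (fun r hr => by linarith [(hs r hr).2.1]) (fun r hr => ?_)
    (th := fun r => etaf c - lamf c - max (w1 - w) 0 * r * e - 3 / 4 * ε * e - ε * e / 8) (fun r hr => ⟨?_, ?_⟩)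
    fun r hr => ⟨?_, ?_⟩⟩
  · rw [le_div_iff₀ he, W.lam, W.lam, W.q0, W.ix r hr]
    have h3 := (h1 r (W.nn r hr) (W.le r hr)).1
    have : 0 < ε * e := by positivity
    linarith
  · have a1 := B.eta1 i0
    have a2 := B.lam0 i0
    have a4 := W.eta i0
    rw [W.q0] at a4
    rw [W.lam, W.q0] at a2
    have a3 : 0 ≤ max (w1 - w) 0 * r * e := mul_nonneg (mul_nonneg (le_max_right _ _) (W.nn r hr)) he.le
    have : 0 < ε * e := by positivity
    show etaf c - lamf c - max (w1 - w) 0 * r * e - 3 / 4 * ε * e - ε * e / 8 ≤ 1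
    linarith
  · intro j j' a1 a2 a3 a4
    have a5 := W.eta j
    have a6 := h2 r (W.nn r hr) (W.le r hr) (B.q j) (B.q j') (by rw [← W.q0]; exact a1) a2
      (by rw [← W.ix r hr]; exact a3) a4
    show etaf c - lamf c - max (w1 - w) 0 * r * e - 3 / 4 * ε * e - ε * e / 8 ≤ B.eta j - B.lam j'
    rw [W.lam]
    linarith
  · have h4 := W.eta (ix r)
    rw [W.ix r hr] at h4
    rw [le_div_iff₀ he]
    have h3 := (h1 r (W.nn r hr) (W.le r hr)).2
    have : 0 < ε * e := by positivity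
    unfold lvt
    linarith
  · rw [le_div_iff₀ he, W.lam, W.ix r hr]
    have h3 := (h1 r (W.nn r hr) (W.le r hr)).1
    have e4 : max (w1 - w) 0 = w1 - w := max_eq_left (by linarith)
    have : 0 < ε * e := by positivity
    show (w * r - ε) * e ≤ etaf c - lamf c - max (w1 - w) 0 * r * e - 3 / 4 * ε * e - ε * e / 8 + lamf (c + e * r) -
      lvt etaf c ε e
    unfold lvt
    rw [e4]
    linarith

end

end

end Pool.Agent.Helper98.FR
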