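import Pool.Agent.Helper80.MX.Span
import Pool.Agent.Helper82.TP.Base

/-! SMALL AFFINE FORMS ON BOXES: an affine function which is small on a full box has small coefficients. -/

set_option autoImplicit false

namespace Pool.Agent.Helper98.FR

open Finset Filter Topology Pool.Agent.Helper69.RK Pool.Agent.Helper31.EC
open Pool.Agent.Helper82.TP

noncomputable section

open Sp QS Pool.Agent.Helper80.MX

variable {S : Sp}

/-- one variable -/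
theorem lin_small {α β T : QS S} {a b : ℝ} (ha0 : 0 ≤ a) (ha : a ≤ 1) (hT : T ∈ Id S a)
    (hr : 1 - a ≤ h (dg T 1) (dg α 1 ⊔ dg β 1)) (hb : b ≤ 1) (hm : α + β * T ∈ Id S b) :
    β ∈ Id S (b - a) ∧ α ∈ Id S b := by
  have hab : b - a ≤ 1 := by linarith
  have h1 : β ∈ Id S (b - a) := by
    obtain ⟨C⟩ := exists_CQ (![α, β] : Fin 2 → QS S) 1
    have hv : vd (![α, β] : Fin 2 → QS S) 1 = dg α 1 ⊔ dg β 1 := by
      apply le_antisymm
      · rw [vd_le]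
        intro i
        fin_cases i
        · exact le_sup_left
        · exact le_sup_right
      · exact sup_le (dg_le_vd (![α, β] : Fin 2 → QS S) 1 0) (dg_le_vd (![α, β] : Fin 2 → QS S) 1 1)
    have e0 : (C.p 1).qs α = (C.p 0).qs α := C.com 1 0 0
    have e1 : (C.p 1).qs β = (C.p 0).qs β := C.com 1 0 1
    have m0 := Pj_mem_Id (C.p 0) hm
    have m1 := Pj_mem_Id (C.p 1) hm
    rw [map_add, map_mul] at m0 m1
    rw [e0, e1] at m1
    have m2 : ((C.p 0).qs T - (C.p 1).qs T) * (C.p 0).qs β ∈ Id C.W b := by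
      have := (Id C.W b).sub_mem m0 m1
      have e2 : (C.p 0).qs α + (C.p 0).qs β * (C.p 0).qs T - ((C.p 0).qs α + (C.p 0).qs β * (C.p 1).qs T) =
          ((C.p 0).qs T - (C.p 1).qs T) * (C.p 0).qs β := by ring
      rwa [e2] at this
    have hd : (C.p 0).qs T - (C.p 1).qs T ∈ Id C.W a := (Id C.W a).sub_mem (Pj_mem_Id _ hT) (Pj_mem_Id _ hT)
    have hr2 : 1 - a ≤ h (dg ((C.p 0).qs T - (C.p 1).qs T) 1) (C.v ⊔ dg ((C.p 1).qs T) 1) := by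
      have i0 := C.I_two (show (0 : Fin 2) ≠ 1 by decide) (dg T 1) (dg T 1)
      have i1 : h ((C.p 0).map (dg T 1)) (C.v ⊔ dg ((C.p 1).qs T) 1) = h (dg T 1) (vd (![α, β] : Fin 2 → QS S) 1) := by
        rw [I_zero_iff_h] at i0
        rw [(C.p 1).qs_dg, sup_comm, i0]
        exact C.h_map_v 0 (dg T 1)
      rw [hv] at i1
      rw [← i1] at hr
      refine hr.trans ?_
      rw [← (C.p 0).qs_dg]
      have e3 : dg ((C.p 0).qs T) 1 ≤ dg ((C.p 0).qs T - (C.p 1).qs T) 1 ⊔ (C.v ⊔ dg ((C.p 1).qs T) 1) := by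
        have e4 : (C.p 0).qs T = ((C.p 0).qs T - (C.p 1).qs T) + (C.p 1).qs T := by ring
        calc dg ((C.p 0).qs T) 1 = dg (((C.p 0).qs T - (C.p 1).qs T) + (C.p 1).qs T) 1 := by rw [← e4]
          _ ≤ _ := (dg_add_le _ _ le_rfl).trans (sup_le le_sup_left (le_sup_right.trans le_sup_right))
      calc h (dg ((C.p 0).qs T) 1) (C.v ⊔ dg ((C.p 1).qs T) 1)
          ≤ h (dg ((C.p 0).qs T - (C.p 1).qs T) 1 ⊔ (C.v ⊔ dg ((C.p 1).qs T) 1)) (C.v ⊔ dg ((C.p 1).qs T) 1) := h_mono e3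
        _ = _ := h_sup_right_of_le le_rfl
    have h3 := div_small ha hd hr2 hb m2
    exact ((C.p 0).qs_mem_Id hab).mp h3
  refine ⟨h1, ?_⟩
  have h2 := Id_mul hab ha h1 hT
  rw [sub_add_cancel] at h2
  have h3 := (Id S b).sub_mem hm h2
  rwa [add_sub_cancel_right] at h3

/-- two variables -/
theorem lin_small2 {α β γ T Y : QS S} {A : S.L} {a a' b : ℝ} (ha0 : 0 ≤ a) (ha : a ≤ 1) (ha0' : 0 ≤ a') (ha' : a' ≤ 1)
    (hT : T ∈ Id S a) (hY : Y ∈ Id S a') (hα : dg α 1 ≤ A) (hβ : dg β 1 ≤ A) (hγ : dg γ 1 ≤ A)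
    (hr : (1 - a) + (1 - a') ≤ h (dg T 1 ⊔ dg Y 1) A) (hb : b ≤ 1) (hm : α + β * T + γ * Y ∈ Id S b) :
    β ∈ Id S (b - a) ∧ γ ∈ Id S (b - a') ∧ α ∈ Id S b := by
  have hTH : H (dg T 1) ≤ 1 - a := H_dg_of_mem ha hT
  have hYH : H (dg Y 1) ≤ 1 - a' := H_dg_of_mem ha' hY
  have h1 : 1 - a' ≤ h (dg Y 1) (dg T 1 ⊔ A) := by
    have e1 := h_chain (dg T 1) (dg Y 1) A
    have e2 : h (dg T 1) A ≤ H (dg T 1) := h_le_H _ _
    linarith
  have h2 := lin_small (α := α + β * T) (β := γ) (T := Y) ha0' ha' hY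
    (h1.trans (h_anti (sup_le (((dg_add_le _ _ le_rfl).trans (sup_le (hα.trans le_sup_right)
      ((dg_mul_le _ _ le_rfl).trans (sup_le (hβ.trans le_sup_right) le_sup_left))))) (hγ.trans le_sup_right)))) hb hm
  have h3 : 1 - a ≤ h (dg T 1) (dg α 1 ⊔ dg β 1) := by
    have e1 := h_chain (dg Y 1) (dg T 1) A
    have e2 : h (dg Y 1) A ≤ H (dg Y 1) := h_le_H _ _
    have e3 : h (dg T 1) (dg Y 1 ⊔ A) ≤ h (dg T 1) (dg α 1 ⊔ dg β 1) := h_anti (sup_le (hα.trans le_sup_right) (hβ.trans le_sup_right))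
    rw [sup_comm] at hr
    linarith
  have h4 := lin_small (α := α) (β := β) (T := T) ha0 ha hT h3 hb h2.2
  exact ⟨h4.1, h2.1, h4.2⟩

/-- three variables -/
theorem lin_small3 {α β γ δ T Y R : QS S} {A : S.L} {a a' a'' b : ℝ} (ha0 : 0 ≤ a) (ha : a ≤ 1) (ha0' : 0 ≤ a')
    (ha' : a' ≤ 1) (ha0'' : 0 ≤ a'') (ha'' : a'' ≤ 1)
    (hT : T ∈ Id S a) (hY : Y ∈ Id S a') (hR : R ∈ Id S a'') (hα : dg α 1 ≤ A) (hβ : dg β 1 ≤ A) (hγ : dg γ 1 ≤ A)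
    (hδ : dg δ 1 ≤ A) (hr : (1 - a) + (1 - a') + (1 - a'') ≤ h (dg T 1 ⊔ dg Y 1 ⊔ dg R 1) A) (hb : b ≤ 1)
    (hm : α + β * T + γ * Y + δ * R ∈ Id S b) :
    β ∈ Id S (b - a) ∧ γ ∈ Id S (b - a') ∧ δ ∈ Id S (b - a'') ∧ α ∈ Id S b := by
  have hTH : H (dg T 1) ≤ 1 - a := H_dg_of_mem ha hT
  have hYH : H (dg Y 1) ≤ 1 - a' := H_dg_of_mem ha' hY
  have hRH : H (dg R 1) ≤ 1 - a'' := H_dg_of_mem ha'' hR
  have h1 : 1 - a'' ≤ h (dg R 1) (dg T 1 ⊔ dg Y 1 ⊔ A) := by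
    have e1 := h_chain (dg T 1 ⊔ dg Y 1) (dg R 1) A
    have e2 : h (dg T 1 ⊔ dg Y 1) A ≤ h (dg T 1) A + h (dg Y 1) A := h_sup_le _ _ _
    have e3 : h (dg T 1) A ≤ H (dg T 1) := h_le_H _ _
    have e4 : h (dg Y 1) A ≤ H (dg Y 1) := h_le_H _ _
    linarith
  have hin : dg (α + β * T + γ * Y) 1 ⊔ dg δ 1 ≤ dg T 1 ⊔ dg Y 1 ⊔ A := by
    refine sup_le ?_ (hδ.trans le_sup_right)
    refine (dg_add_le _ _ le_rfl).trans (sup_le ((dg_add_le _ _ le_rfl).trans (sup_le (hα.trans le_sup_right)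
      ((dg_mul_le _ _ le_rfl).trans (sup_le (hβ.trans le_sup_right) (le_sup_left.trans le_sup_left)))))
      ((dg_mul_le _ _ le_rfl).trans (sup_le (hγ.trans le_sup_right) (le_sup_right.trans le_sup_left))))
  have h2 := lin_small (α := α + β * T + γ * Y) (β := δ) (T := R) ha0'' ha'' hR (h1.trans (h_anti hin)) hb hm
  have h3 : (1 - a) + (1 - a') ≤ h (dg T 1 ⊔ dg Y 1) A := by
    have e1 := h_chain (dg T 1 ⊔ dg Y 1) (dg R 1) A
    have e2 : h (dg R 1) (dg T 1 ⊔ dg Y 1 ⊔ A) ≤ H (dg R 1) := h_le_H _ _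
    linarith
  obtain ⟨e1, e2, e3⟩ := lin_small2 ha0 ha ha0' ha' hT hY hα hβ hγ h3 hb h2.2
  exact ⟨e1, e2, h2.1, e3⟩

end

end Pool.Agent.Helper98.FR
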