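import Pool.Agent.Helper98.FR.Step

/-! BOX DATA of a nested family of labels, and the chain over the windows. -/

set_option autoImplicit false

namespace Pool.Agent.Helper98.FR

open Finset Filter Topology Pool.Agent.Helper69.RK Pool.Agent.Helper31.EC
open Pool.Agent.Helper82.TP Pool.Agent.Helper40.EL Pool.Agent.Helper60.CS

noncomputable section

open Sp QS Pool.Agent.Helper80.MX

/-- BOX DATA: a literally nested family of partitions (labels of the windows `q i`), which know the cells of `t` and `y`, a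
slab for `R` over `(t, y)` of depth `lam i` and a sheet for `z` over `(t, y, R)` of depth `eta i`; `(t, y, R)` is full in
the box. -/
structure BD (S : Sp) where
  V : ℕ → ∀ k, Setoid (S.F k).Ω
  q : ℕ → ℝ
  lam : ℕ → ℝ
  eta : ℕ → ℝ
  t : TR S
  y : TR S
  R : TR S
  z : TR S
  tc : ℕ → TR S
  yc : ℕ → TR S
  r : ℕ → Fin 3 → TR S
  c : ℕ → Fin 4 → TR S
  nest : ∀ i j, q i ≤ q j → ∀ᶠ k in UF, V j k ≤ V i k
  q0 : ∀ i, 0 ≤ q i
  q1 : ∀ i, q i ≤ 1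
  lam1 : ∀ i, lam i ≤ 1
  eta1 : ∀ i, eta i ≤ 1
  qlam : ∀ i, q i ≤ lam i
  lt : ∀ i, Lt (V i) (tc i)
  ly : ∀ i, Lt (V i) (yc i)
  lr : ∀ i j, Lt (V i) (r i j)
  lc : ∀ i j, Lt (V i) (c i j)
  ht : ∀ i, mk t - mk (tc i) ∈ Id S (q i)
  hy : ∀ i, mk y - mk (yc i) ∈ Id S (q i)
  hr : ∀ i, mk R - (mk (r i 0) + mk (r i 1) * mk t + mk (r i 2) * mk y) ∈ Id S (lam i)
  hc : ∀ i, mk z - (mk (c i 0) + mk (c i 1) * mk t + mk (c i 2) * mk y + mk (c i 3) * mk R) ∈ Id S (eta i)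
  full : ∀ i, (1 - q i) + (1 - q i) + (1 - lam i) ≤
    H (dg (qc (V i) (mk t)) 1 ⊔ dg (qc (V i) (mk y)) 1 ⊔ dg (qc (V i) (mk R)) 1)
  slam : ∀ i j, q i ≤ q j → lam i - q i ≤ lam j - q j
  seta : ∀ i j, q i ≤ q j → eta i - q i ≤ eta j - q j

namespace BD

variable {S : Sp} (B : BD S)

theorem lam0 (i : ℕ) : 0 ≤ B.lam i := (B.q0 i).trans (B.qlam i)

theorem lmono {i j : ℕ} (h : B.q i ≤ B.q j) : B.lam i ≤ B.lam j := by
  have := B.slam i j h
  linarith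

theorem emono {i j : ℕ} (h : B.q i ≤ B.q j) : B.eta i ≤ B.eta j := by
  have := B.seta i j h
  linarith

/-- the slab of the coarse window and the slab of the fine one -/
theorem step_r {i j : ℕ} (h : B.q i ≤ B.q j) :
    QS.mk (B.r j 1) - QS.mk (B.r i 1) ∈ Id S (B.lam i - B.q j) ∧ QS.mk (B.r j 2) - QS.mk (B.r i 2) ∈ Id S (B.lam i - B.q j) := by
  have l : ∀ a, Lt (B.V j) (B.r i a) := fun a => (B.lr i a).mono (B.nest i j h)
  have hm : QS.mk (B.r j 0 - B.r i 0) + QS.mk (B.r j 1 - B.r i 1) * QS.mk B.t + QS.mk (B.r j 2 - B.r i 2) * QS.mk B.y +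
      QS.mk (0 : TR S) * QS.mk B.R ∈ Id S (B.lam i) := by
    have h1 := (Id S (B.lam i)).sub_mem (B.hr i) (Id_anti (B.lmono h) (B.hr j))
    have e : QS.mk B.R - (QS.mk (B.r i 0) + QS.mk (B.r i 1) * QS.mk B.t + QS.mk (B.r i 2) * QS.mk B.y) -
        (QS.mk B.R - (QS.mk (B.r j 0) + QS.mk (B.r j 1) * QS.mk B.t + QS.mk (B.r j 2) * QS.mk B.y)) =
        QS.mk (B.r j 0 - B.r i 0) + QS.mk (B.r j 1 - B.r i 1) * QS.mk B.t + QS.mk (B.r j 2 - B.r i 2) * QS.mk B.y +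
        QS.mk (0 : TR S) * QS.mk B.R := by
      simp only [map_sub, map_zero]; ring
    rwa [e] at h1
  have l0 : Lt (B.V j) (0 : TR S) := Eventually.of_forall fun k ω ω' _ _ _ _ => rfl
  obtain ⟨-, h2, h3, -⟩ := box_small (B.V j) (B.lt j) (B.ly j) (B.lr j 0) (B.lr j 1) (B.lr j 2) (B.q0 j) (B.q1 j)
    (B.lam0 j) (B.lam1 j) (B.ht j) (B.hy j) (B.hr j) (B.full j) ((B.lr j 0).sub (l 0)) ((B.lr j 1).sub (l 1))
    ((B.lr j 2).sub (l 2)) l0 (B.lam1 i) hm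
  rw [map_zero, zero_mul, add_zero, map_sub] at h2 h3
  exact ⟨h2, h3⟩

/-- the sheet of the coarse window and the sheet of the fine one -/
theorem step_c {i j : ℕ} (h : B.q i ≤ B.q j) :
    QS.mk (B.c j 3) - QS.mk (B.c i 3) ∈ Id S (B.eta i - B.lam j) ∧
    (QS.mk (B.c j 1) - QS.mk (B.c i 1)) + (QS.mk (B.c j 3) - QS.mk (B.c i 3)) * QS.mk (B.r j 1) ∈ Id S (B.eta i - B.q j) ∧
    (QS.mk (B.c j 2) - QS.mk (B.c i 2)) + (QS.mk (B.c j 3) - QS.mk (B.c i 3)) * QS.mk (B.r j 2) ∈ Id S (B.eta i - B.q j) := by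
  have l : ∀ a, Lt (B.V j) (B.c i a) := fun a => (B.lc i a).mono (B.nest i j h)
  have hm : QS.mk (B.c j 0 - B.c i 0) + QS.mk (B.c j 1 - B.c i 1) * QS.mk B.t + QS.mk (B.c j 2 - B.c i 2) * QS.mk B.y +
      QS.mk (B.c j 3 - B.c i 3) * QS.mk B.R ∈ Id S (B.eta i) := by
    have h1 := (Id S (B.eta i)).sub_mem (B.hc i) (Id_anti (B.emono h) (B.hc j))
    have e : QS.mk B.z - (QS.mk (B.c i 0) + QS.mk (B.c i 1) * QS.mk B.t + QS.mk (B.c i 2) * QS.mk B.y + QS.mk (B.c i 3) * QS.mk B.R) -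
        (QS.mk B.z - (QS.mk (B.c j 0) + QS.mk (B.c j 1) * QS.mk B.t + QS.mk (B.c j 2) * QS.mk B.y + QS.mk (B.c j 3) * QS.mk B.R)) =
        QS.mk (B.c j 0 - B.c i 0) + QS.mk (B.c j 1 - B.c i 1) * QS.mk B.t + QS.mk (B.c j 2 - B.c i 2) * QS.mk B.y +
        QS.mk (B.c j 3 - B.c i 3) * QS.mk B.R := by
      simp only [map_sub]; ring
    rwa [e] at h1
  obtain ⟨h1, h2, h3, -⟩ := box_small (B.V j) (B.lt j) (B.ly j) (B.lr j 0) (B.lr j 1) (B.lr j 2) (B.q0 j) (B.q1 j)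
    (B.lam0 j) (B.lam1 j) (B.ht j) (B.hy j) (B.hr j) (B.full j) ((B.lc j 0).sub (l 0)) ((B.lc j 1).sub (l 1))
    ((B.lc j 2).sub (l 2)) ((B.lc j 3).sub (l 3)) (B.eta1 i) hm
  rw [map_sub] at h1
  rw [map_sub, map_sub] at h2 h3
  exact ⟨h1, h2, h3⟩

/-- the windows are dense beyond `i0`, up to the window `b` -/
def Dn (i0 : ℕ) (b : ℝ) : Prop := ∀ a a', B.q i0 ≤ a → a < a' → a' ≤ b → ∃ j, a < B.q j ∧ B.q j < a'

/-- SLOPES OF THE SLABS: nested windows, sharp -/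
theorem slab {i0 i : ℕ} {b : ℝ} (hd : B.Dn i0 b) (h : B.q i0 ≤ B.q i) (hb : B.q i ≤ b) (a : Fin 3) (ha : a ≠ 0) :
    QS.mk (B.r i a) - QS.mk (B.r i0 a) ∈ Id S (B.lam i0 - B.q i0) := by
  apply mem_Id_of_forall
  intro ε hε
  revert i
  have := chain (q := B.q) (i0 := i0) (b := b) hε hd
    (fun i => QS.mk (B.r i a) - QS.mk (B.r i0 a) ∈ Id S (B.lam i0 - B.q i0 - ε))
    (by rw [sub_self]; exact (Id S _).zero_mem) ?_
  · intro i h1 h2
    exact this i h1 h2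
  · intro j i h1 h2 h3 h4 h5
    obtain ⟨g1, g2⟩ := B.step_r h2
    have h6 := B.slam i0 j h1
    have h7 : QS.mk (B.r i a) - QS.mk (B.r j a) ∈ Id S (B.lam i0 - B.q i0 - ε) := by
      apply Id_anti (show B.lam i0 - B.q i0 - ε ≤ B.lam j - B.q i by linarith)
      fin_cases a
      · exact absurd rfl ha
      · exact g1
      · exact g2
    have h8 := (Id S _).add_mem h7 h5
    have e : QS.mk (B.r i a) - QS.mk (B.r j a) + (QS.mk (B.r j a) - QS.mk (B.r i0 a)) = QS.mk (B.r i a) - QS.mk (B.r i0 a) := by ring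
    rwa [e] at h8

/-- SLOPES OF THE SHEETS: `th` is a lower bound of `eta - lam` along the windows -/
theorem sheet {i0 i : ℕ} {b th δ : ℝ} (hd : B.Dn i0 b) (h : B.q i0 ≤ B.q i) (hb : B.q i ≤ b) (hδ : 0 < δ) (hth : th ≤ 1)
    (hE : ∀ j j', B.q i0 ≤ B.q j → B.q j ≤ B.q j' → B.q j' ≤ b → B.q j' ≤ B.q j + δ → th ≤ B.eta j - B.lam j') :
    QS.mk (B.c i 3) - QS.mk (B.c i0 3) ∈ Id S th ∧ ∀ a : Fin 3, a ≠ 0 →
    (QS.mk (B.c i a.castSucc) - QS.mk (B.c i0 a.castSucc)) + (QS.mk (B.c i 3) - QS.mk (B.c i0 3)) * QS.mk (B.r i0 a) ∈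
      Id S (min (B.eta i0 - B.q i0) (th + (B.lam i0 - B.q i0))) := by
  have h3 : ∀ i, B.q i0 ≤ B.q i → B.q i ≤ b → QS.mk (B.c i 3) - QS.mk (B.c i0 3) ∈ Id S th := by
    apply chain (q := B.q) (i0 := i0) (b := b) hδ hd
    · rw [sub_self]; exact (Id S _).zero_mem
    · intro j i h1 h2 h3 h4 h5
      obtain ⟨g1, -, -⟩ := B.step_c h2
      have h8 := (Id S _).add_mem (Id_anti (hE j i h1 h2 h3 h4) g1) h5
      have e : QS.mk (B.c i 3) - QS.mk (B.c j 3) + (QS.mk (B.c j 3) - QS.mk (B.c i0 3)) = QS.mk (B.c i 3) - QS.mk (B.c i0 3) := by ring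
      rwa [e] at h8
  refine ⟨h3 i h hb, fun a ha => ?_⟩
  apply mem_Id_of_forall
  intro ε hε
  revert i
  have := chain (q := B.q) (i0 := i0) (b := b) (ε := min ε δ) (lt_min hε hδ) hd
    (fun i => (QS.mk (B.c i a.castSucc) - QS.mk (B.c i0 a.castSucc)) + (QS.mk (B.c i 3) - QS.mk (B.c i0 3)) * QS.mk (B.r i0 a) ∈
      Id S (min (B.eta i0 - B.q i0) (th + (B.lam i0 - B.q i0)) - ε))
    (by rw [sub_self, sub_self, zero_mul, add_zero]; exact (Id S _).zero_mem) ?_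
  · intro i h1 h2
    exact this i h1 h2
  · intro j i h1 h2 h3' h4 h5
    have hq := h1.trans h2
    obtain ⟨g1, g2, g3⟩ := B.step_c h2
    have h6 := B.seta i0 j h1
    have h4' : B.q i ≤ B.q j + ε := h4.trans (by linarith [min_le_left ε δ])
    have h4'' : B.q i ≤ B.q j + δ := h4.trans (by linarith [min_le_right ε δ])
    have h7 : (QS.mk (B.c i a.castSucc) - QS.mk (B.c j a.castSucc)) + (QS.mk (B.c i 3) - QS.mk (B.c j 3)) * QS.mk (B.r i a) ∈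
        Id S (min (B.eta i0 - B.q i0) (th + (B.lam i0 - B.q i0)) - ε) := by
      apply Id_anti (show min (B.eta i0 - B.q i0) (th + (B.lam i0 - B.q i0)) - ε ≤ B.eta j - B.q i by
        have := min_le_left (B.eta i0 - B.q i0) (th + (B.lam i0 - B.q i0))
        linarith)
      fin_cases a
      · exact absurd rfl ha
      · exact g2
      · exact g3
    have h8 : (QS.mk (B.c i 3) - QS.mk (B.c j 3)) * (QS.mk (B.r i a) - QS.mk (B.r i0 a)) ∈
        Id S (min (B.eta i0 - B.q i0) (th + (B.lam i0 - B.q i0)) - ε) := by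
      have k1 := Id_anti (hE j i h1 h2 h3' h4'') g1
      have k2 := B.slab hd hq h3' a ha
      have k3 : B.lam i0 - B.q i0 ≤ 1 := by
        have := B.lam1 i0
        have := B.q0 i0
        linarith
      have k4 := Id_mul hth k3 k1 k2
      apply Id_anti _ k4
      have := min_le_right (B.eta i0 - B.q i0) (th + (B.lam i0 - B.q i0))
      linarith
    have h9 := (Id S _).add_mem ((Id S _).sub_mem h7 h8) h5
    have e : QS.mk (B.c i a.castSucc) - QS.mk (B.c j a.castSucc) + (QS.mk (B.c i 3) - QS.mk (B.c j 3)) * QS.mk (B.r i a) -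
        (QS.mk (B.c i 3) - QS.mk (B.c j 3)) * (QS.mk (B.r i a) - QS.mk (B.r i0 a)) +
        ((QS.mk (B.c j a.castSucc) - QS.mk (B.c i0 a.castSucc)) + (QS.mk (B.c j 3) - QS.mk (B.c i0 3)) * QS.mk (B.r i0 a)) =
        (QS.mk (B.c i a.castSucc) - QS.mk (B.c i0 a.castSucc)) + (QS.mk (B.c i 3) - QS.mk (B.c i0 3)) * QS.mk (B.r i0 a) := by ring
    rwa [e] at h9

end BD

end

end Pool.Agent.Helper98.FR
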