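import Pool.Agent.Helper98.FR.Dat
import Pool.Agent.Helper80.HCI.Ov
import Pool.Agent.Helper52.KP.RobI

/-! FEW CELLS: over the label of the window `i0` the label of the window `i` has few cells, on a typical event. -/

set_option autoImplicit false

namespace Pool.Agent.Helper98.FR

open Finset Filter Topology Pool.Agent.Helper69.RK Pool.Agent.Helper31.EC
open Pool.Agent.Helper82.TP Pool.Agent.Helper40.EL Pool.Agent.Helper60.CS Pool.Agent.Helper79.NF
open Pool.Agent.Helper31.NSB Pool.Agent.Helper80.HCI Pool.Agent.Helper52.KP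

noncomputable section

open Sp QS

variable {S : Sp}


/-- lattice identity -/
theorem lat_det {L : Type*} [PM L] {v w t : L} (h1 : w ≤ v) (h2 : v ≤ w ⊔ t) :
    h v w = I v t ⊥ - I w t ⊥ := by
  have e1 : v ⊔ w = v := sup_eq_left.mpr h1
  have e2 : v ⊔ t = w ⊔ t := le_antisymm (sup_le h2 le_sup_right) (sup_le_sup_right h1 t)
  unfold h I
  rw [e1, sup_bot_eq, sup_bot_eq, sup_bot_eq, sup_bot_eq, sup_bot_eq, e2]
  ring

namespace Bx

variable {s : Sys S 3} {q lam eta : ℕ → ℝ} {L : ℕ → Lab S} (b : Bx s q lam eta L)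

/-- entropy of the label of the window `i` over the label of the window `i0`, on an event: difference of informations -/
theorem e_rest {i0 i : ℕ} (hi : q i0 ≤ q i) (k : ℕ) (E : (b.M k).T.Ω → Prop) :
    ((b.M k).T.rest E).e ((b.M k).V i) ((b.M k).V i0 ⊓ (b.M k).T.Z) =
      ((b.M.lab i k).im E).info - ((b.M.lab i0 k).im E).info := by
  have h1 := h_fc (F := (b.M k).T.rest E) ((b.M k).V i) ((b.M k).V i0)
  have h2 : ((b.M k).T.rest E).e ((b.M k).V i) ((b.M k).V i0 ⊓ (b.M k).T.Z) =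
      h (fc (F := (b.M k).T.rest E) ((b.M k).V i)) (fc (F := (b.M k).T.rest E) ((b.M k).V i0)) := h1.symm
  rw [h2]
  have h3 := lat_det (v := fc (F := (b.M k).T.rest E) ((b.M k).V i)) (w := fc (F := (b.M k).T.rest E) ((b.M k).V i0))
    (t := ((b.M.lab i k).im E).p.top) (fc_le fun ω ω' _ _ _ h => b.nest i0 i hi k h) ?_
  · exact h3
  · have h4 : fc (F := (b.M k).T.rest E) ((b.M k).V i0) ⊔ ((b.M.lab i k).im E).p.top =
        fc (F := (b.M k).T.rest E) ((b.M k).V i0 ⊓ Setoid.ker (b.M k).p.π) := rfl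
    rw [h4]
    apply fc_le
    intro ω ω' h h' _ e
    exact b.det i0 i k ((b.M k).T.rest_supp E ω h).1 ((b.M k).T.rest_supp E ω' h').1 e.2 e.1

/-- informations of the labels of the family on events -/
theorem info_im (hr : RobustI s) (i : ℕ) (E : ∀ k, (b.M.sp.F k).Ω → Prop) (hE : 0 < ul (b.M.sp.pr E)) :
    UB (fun k => ((b.M.lab i k).im (E k)).info / (S.F k).n) ∧
    ul (fun k => ((b.M.lab i k).im (E k)).info / (S.F k).n) = Helper40.EL.ic s (q i) + q i := by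
  have h1 : IsKap (s.im (b.M.lab i).pj E hE) (q i) ((b.M.lab i).im E) :=
    Lab.IsMax.im_max (b.kap i) E hE (cA_Bd s (q i)) (cA_im_Bd s (q i) (b.M.lab i).pj (fun k ω => ¬ E k ω))
  have h2 := h1.info_eq
  have h3 : Helper40.EL.ic (s.im (b.M.lab i).pj E hE) (q i) = Helper40.EL.ic s (q i) :=
    hr (q i) (b.q0 i) (b.q1 i) _ (b.M.lab i).pj E hE
  rw [h3] at h2
  exact ⟨h1.1.ub (cA_Bd _ _), h2⟩

/-- FEW CELLS: on a typical event the label of the window `i` has large conditional probability over the label of `i0` -/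
theorem typ_large (hr : RobustI s) {i0 i : ℕ} (hi : q i0 ≤ q i) (e : ℝ) (he : 0 < e) {C ε : ℝ} (hε : 0 < ε)
    (hC : (Helper40.EL.ic s (q i) + q i) - (Helper40.EL.ic s (q i0) + q i0) ≤ C * e) :
    Typ (S := b.bd.Sj i0 e he) (Lgc (S := b.bd.Sj i0 e he) (b.bd.V i) (C + ε)) := by
  classical
  obtain ⟨T, hT⟩ : ∃ T, T = b.bd.Sj i0 e he := ⟨_, rfl⟩
  rcases typ_or (S := b.bd.Sj i0 e he) (Lgc (S := b.bd.Sj i0 e he) (b.bd.V i) (C + ε)) with h1 | hB
  · exact h1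
  exfalso
  obtain ⟨E, hE⟩ : ∃ E : ∀ k, (b.M.sp.F k).Ω → Prop,
    E = fun k ω => ¬ Lgc (S := b.bd.Sj i0 e he) (b.bd.V i) (C + ε) k ω := ⟨_, rfl⟩
  have hp : 0 < ul (b.M.sp.pr E) := by rw [hE]; exact hB
  obtain ⟨u1, l1⟩ := b.info_im hr i E hp
  obtain ⟨u0, l0⟩ := b.info_im hr i0 E hp
  have h4 : Tendsto (fun k => 4 / ul (b.M.sp.pr E) / (S.F k).n) UF (𝓝 0) := S.div_n_tendsto _
  have key : ∀ᶠ k in UF, (C + ε / 2) * e ≤
      ((b.M.lab i k).im (E k)).info / (S.F k).n - ((b.M.lab i0 k).im (E k)).info / (S.F k).n := by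
    filter_upwards [pr_half' hp, h4.eventually (gt_mem_nhds (show 0 < ε / 2 * e by positivity))] with k hk hk'
    have hn := (S.F k).pos
    have hn' : (b.M k).T.n = (S.F k).n := (b.M k).hn
    have hpk : 0 < b.M.sp.pr E k := (half_pos hp).trans_le hk
    have e1 := CH_res_ge (b.M k).T.nn (b.M k).T.ms (E k) (Quotient.mk ((b.M k).V i))
      (Quotient.mk ((b.M k).V i0 ⊓ (b.M k).T.Z)) ((C + ε) * (e * (b.M k).T.n)) (by
        intro ω _ hω
        rw [hE] at hω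
        unfold Lgc at hω
        push Not at hω
        exact hω.le)
    have e0 : CH (res (b.M k).T.μ (E k)) (Quotient.mk ((b.M k).V i)) (Quotient.mk ((b.M k).V i0 ⊓ (b.M k).T.Z)) =
        (b.M k).T.pb (E k) * CH ((b.M k).T.rest (E k)).μ (Quotient.mk ((b.M k).V i))
          (Quotient.mk ((b.M k).V i0 ⊓ (b.M k).T.Z)) := (b.M k).T.CH_res (E k) _ _
    rw [e0] at e1
    have e2 : CH ((b.M k).T.rest (E k)).μ (Quotient.mk ((b.M k).V i)) (Quotient.mk ((b.M k).V i0 ⊓ (b.M k).T.Z)) =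
        ((b.M.lab i k).im (E k)).info - ((b.M.lab i0 k).im (E k)).info := b.e_rest hi k (E k)
    rw [e2] at e1
    obtain ⟨X, hX⟩ : ∃ X, X = ((b.M.lab i k).im (E k)).info - ((b.M.lab i0 k).im (E k)).info := ⟨_, rfl⟩
    have e3 : b.M.sp.pr E k = (b.M k).T.pb (E k) := rfl
    have e4 : mass (res (b.M k).T.μ (E k)) = (b.M k).T.pb (E k) := rfl
    rw [e3] at hk hpk
    rw [e4, ← hX] at e1
    rw [← sub_div, ← hX, le_div_iff₀ hn]
    obtain ⟨p, hp'⟩ : ∃ p, p = (b.M k).T.pb (E k) := ⟨_, rfl⟩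
    obtain ⟨r, hr'⟩ : ∃ r, r = ul (b.M.sp.pr E) := ⟨_, rfl⟩
    rw [← hp'] at hk hpk e1
    rw [← hr'] at hk hk' hp
    rw [hn'] at e1
    rw [div_lt_iff₀ hn, div_lt_iff₀ hp] at hk'
    have e5 : (C + ε) * (e * (S.F k).n) - X ≤ 2 / p := by
      rw [le_div_iff₀ hpk]
      linarith
    have e6 : 2 / p ≤ 4 / r := by
      rw [div_le_div_iff₀ hpk hp]
      linarith
    have e7 : 4 / r ≤ ε / 2 * e * (S.F k).n := by
      rw [div_le_iff₀ hp]
      exact hk'.le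
    nlinarith
  have h5 := le_of_tendsto_of_tendsto tendsto_const_nhds ((ul_tendsto u1).sub (ul_tendsto u0)) key
  rw [l1, l0] at h5
  have h6 : 0 < ε / 2 * e := by positivity
  nlinarith

/-- the labels of the windows between `i0` and `i` have few cells on ONE typical event -/
theorem fewv (D : LD b.bd) {i0 i : ℕ} (e : ℝ) (he : 0 < e) {C ε : ℝ} (ηn : ℝ) (hη : ηn ≤ b.bd.eta i0)
    (ix : ℝ → ℕ) (r : ℝ) (h2 : q (ix r) ≤ q i) :
    FewV (S := b.bd.Sj i0 e he) (Lgc (S := b.bd.Sj i0 e he) (b.bd.V i) (C + ε)) ((D.rd i0 e he ηn hη ix).K r)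
      (C + ε) := by
  have h3 : ∀ᶠ k in UF, ∀ ω, ((b.bd.Sj i0 e he).F k).μ ω ≠ 0 → Lgc (S := b.bd.Sj i0 e he) (b.bd.V i) (C + ε) k ω →
      Lgc (S := b.bd.Sj i0 e he) (b.bd.V i) (C + ε) k ω := Eventually.of_forall fun k ω _ h => h
  have h4 : ∀ᶠ k in UF, ∀ ω ω', ((b.bd.Sj i0 e he).F k).μ ω ≠ 0 → ((b.bd.Sj i0 e he).F k).μ ω' ≠ 0 →
      ((b.bd.Sj i0 e he).F k).Z ω ω' → b.bd.V i k ω ω' →
      (D.rd i0 e he ηn hη ix).K r k ω = (D.rd i0 e he ηn hη ix).K r k ω' :=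
    Eventually.of_forall fun k ω ω' _ _ _ h => Quotient.sound (b.nest (ix r) i h2 k h)
  exact FewV.of_large h3 h4

end Bx

end

end Pool.Agent.Helper98.FR
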