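import Pool.Agent.Helper98.FR.Vel

/-! UNTILTED FRAMES: the sheet of the window `i` in the box of `i0`, with `R` replaced by its slab. -/

set_option autoImplicit false

namespace Pool.Agent.Helper98.FR

open Finset Filter Topology Pool.Agent.Helper69.RK Pool.Agent.Helper31.EC
open Pool.Agent.Helper82.TP Pool.Agent.Helper40.EL Pool.Agent.Helper60.CS

noncomputable section

open Sp QS Pool.Agent.Helper80.MX

variable {S : Sp}

theorem ring_u0 {A : Type*} [CommRing A] {Z0 Zi R0 Ri z0 z1 z2 z3 r0 r1 r2 t y : A}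
    (h : Z0 = Zi + (z0 + z1 * t + z2 * y + z3 * R0)) (h' : R0 = Ri + (r0 + r1 * t + r2 * y)) :
    Z0 = (Zi + z3 * Ri) + ((z0 + z3 * r0) + (z1 + z3 * r1) * t + (z2 + z3 * r2) * y) := by
  rw [h, h']; ring

theorem ring_u1 {A : Type*} [CommRing A] (ci cj c0 di dj d0 ri rj : A) :
    (ci - c0) + (di - d0) * ri = ((ci - cj) + (di - dj) * ri) + (dj - d0) * (ri - rj) + ((cj - c0) + (dj - d0) * rj) := by
  ring

theorem ring_u2 {A : Type*} [CommRing A] (ci c0 di d0 ri r0 : A) :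
    (ci - c0) + (di - d0) * r0 + (di - d0) * (ri - r0) = (ci - c0) + (di - d0) * ri := by ring

namespace BD

variable (B : BD S) (i0 : ℕ)

/-- coefficients of the untilted sheet -/
def υ (i : ℕ) (a : Fin 3) : TR S := B.ζ i0 i a.castSucc + B.ζ i0 i 3 * B.ρ i0 i a

theorem Zr_eq' (i : ℕ) : B.Zr i0 = (B.Zr i + B.ζ i0 i 3 * B.Rr i) +
    (B.υ i0 i 0 + B.υ i0 i 1 * (B.t - B.tc i0) + B.υ i0 i 2 * (B.y - B.yc i0)) :=
  ring_u0 (B.Zr_eq i0 i) (B.Rr_eq i0 i)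

theorem υ_lt (i : ℕ) (h : B.q i0 ≤ B.q i) (a : Fin 3) : Lt (B.V i) (B.υ i0 i a) :=
  (B.ζ_lt i0 i h _).add ((B.ζ_lt i0 i h 3).mul (B.ρ_lt i0 i h a))

variable {B i0} {i : ℕ} {b : ℝ}

/-- THE TILT, no assumption on `eta - lam` -/
theorem tilt (hd : B.Dn i0 b) (h : B.q i0 ≤ B.q i) (hb : B.q i ≤ b) :
    QS.mk (B.c i 3) - QS.mk (B.c i0 3) ∈ Id S (B.eta i0 - B.q i0 - (B.lam i - B.q i)) := by
  apply mem_Id_of_forall
  intro δ hδ
  have hd' : B.Dn i0 (B.q i) := fun a a' h1 h2 h3 => hd a a' h1 h2 (h3.trans hb)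
  have hth : B.eta i0 - B.q i0 - (B.lam i - B.q i) - δ ≤ 1 := by
    have := B.eta1 i0
    have := B.q0 i0
    have := B.qlam i
    linarith
  refine (B.sheet hd' h le_rfl hδ hth ?_).1
  intro j j' h1 h2 h3 h4
  have a1 := B.seta i0 j h1
  have a2 := B.slam j' i h3
  linarith

/-- SLOPES OF THE UNTILTED SHEETS -/
theorem uslope (hd : B.Dn i0 b) (h : B.q i0 ≤ B.q i) (hb : B.q i ≤ b) (a : Fin 3) (ha : a ≠ 0) :
    (QS.mk (B.c i a.castSucc) - QS.mk (B.c i0 a.castSucc)) + (QS.mk (B.c i 3) - QS.mk (B.c i0 3)) * QS.mk (B.r i a) ∈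
      Id S (B.eta i0 - B.q i0) := by
  apply mem_Id_of_forall
  intro ε hε
  revert i
  have := chain (q := B.q) (i0 := i0) (b := b) hε hd
    (fun i => (QS.mk (B.c i a.castSucc) - QS.mk (B.c i0 a.castSucc)) +
      (QS.mk (B.c i 3) - QS.mk (B.c i0 3)) * QS.mk (B.r i a) ∈ Id S (B.eta i0 - B.q i0 - ε))
    (by rw [sub_self, sub_self, zero_mul, add_zero]; exact (Id S _).zero_mem) ?_
  · intro i h1 h2
    exact this i h1 h2
  · intro j i h1 h2 h3 h4 h5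
    obtain ⟨-, g2, g3⟩ := B.step_c h2
    have h6 := B.seta i0 j h1
    have h7 : (QS.mk (B.c i a.castSucc) - QS.mk (B.c j a.castSucc)) + (QS.mk (B.c i 3) - QS.mk (B.c j 3)) * QS.mk (B.r i a) ∈
        Id S (B.eta i0 - B.q i0 - ε) := by
      apply Id_anti (show B.eta i0 - B.q i0 - ε ≤ B.eta j - B.q i by linarith)
      fin_cases a
      · exact absurd rfl ha
      · exact g2
      · exact g3
    have h8 : (QS.mk (B.c j 3) - QS.mk (B.c i0 3)) * (QS.mk (B.r i a) - QS.mk (B.r j a)) ∈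
        Id S (B.eta i0 - B.q i0 - ε) := by
      have k1 := B.tilt hd h1 (h2.trans h3)
      obtain ⟨r1, r2⟩ := B.step_r h2
      have k2 : QS.mk (B.r i a) - QS.mk (B.r j a) ∈ Id S (B.lam j - B.q i) := by
        fin_cases a
        · exact absurd rfl ha
        · exact r1
        · exact r2
      have k3 : B.eta i0 - B.q i0 - (B.lam j - B.q j) ≤ 1 := by
        have := B.eta1 i0
        have := B.q0 i0
        have := B.qlam j
        linarith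
      have k4 : B.lam j - B.q i ≤ 1 := by
        have := B.lam1 j
        have := B.q0 i
        linarith
      apply Id_anti _ (Id_mul k3 k4 k1 k2)
      linarith
    rw [ring_u1 (QS.mk (B.c i a.castSucc)) (QS.mk (B.c j a.castSucc)) (QS.mk (B.c i0 a.castSucc)) (QS.mk (B.c i 3))
      (QS.mk (B.c j 3)) (QS.mk (B.c i0 3)) (QS.mk (B.r i a)) (QS.mk (B.r j a))]
    exact (Id S _).add_mem ((Id S _).add_mem h7 h8) h5

/-- levels of the untilted frames -/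
def υl (B : BD S) (i0 : ℕ) (ηn : ℝ) (a : Fin 3) : ℝ := if a = 0 then ηn else ηn - B.q i0

theorem υl_le {ηn : ℝ} (hη : ηn ≤ B.eta i0) (a : Fin 3) : B.υl i0 ηn a ≤ 1 := by
  unfold υl
  have := B.eta1 i0
  have := B.q0 i0
  split_ifs <;> linarith

theorem υ_mem (hd : B.Dn i0 b) (h : B.q i0 ≤ B.q i) (hb : B.q i ≤ b) {ηn : ℝ} (hη : ηn ≤ B.eta i0) (a : Fin 3) :
    QS.mk (B.υ i0 i a) ∈ Id S (B.υl i0 ηn a) := by
  have key : ∀ a : Fin 3, a ≠ 0 → QS.mk (B.υ i0 i a) ∈ Id S (ηn - B.q i0) := by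
    intro a ha
    have h1 := Id_anti (show ηn - B.q i0 ≤ B.eta i0 - B.q i0 by linarith) (B.uslope hd h hb a ha)
    have h2 : B.υ i0 i a = (B.c i a.castSucc - B.c i0 a.castSucc) + (B.c i 3 - B.c i0 3) * B.r i a := by
      unfold υ
      fin_cases a
      · exact absurd rfl ha
      · show B.ζ i0 i 1 + B.ζ i0 i 3 * B.ρ i0 i 1 = _
        rw [B.ζ1, B.ζ3, B.ρ1]
        exact ring_u2 _ _ _ _ _ _
      · show B.ζ i0 i 2 + B.ζ i0 i 3 * B.ρ i0 i 2 = _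
        rw [B.ζ2, B.ζ3, B.ρ2]
        exact ring_u2 _ _ _ _ _ _
    rw [h2]
    simp only [map_sub, map_add, map_mul]
    exact h1
  by_cases ha : a = 0
  · subst ha
    unfold υl
    rw [if_pos rfl]
    have e1 := congrArg QS.mk (B.Zr_eq' i0 i)
    simp only [map_add, map_mul] at e1
    rw [ring_3 e1]
    have hq : ηn - B.q i0 ≤ 1 := by
      have := B.eta1 i0
      have := B.q0 i0
      linarith
    have m1 := Id_mul hq (B.q1 i0) (key 1 (by decide)) (B.T_mem i0)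
    have m2 := Id_mul hq (B.q1 i0) (key 2 (by decide)) (B.Y_mem i0)
    rw [sub_add_cancel] at m1 m2
    have t1 : QS.mk (B.ζ i0 i 3) ∈ Id S (B.eta i0 - B.q i0 - (B.lam i - B.q i)) := by
      rw [B.ζ3, map_sub]
      exact B.tilt hd h hb
    have k3 : B.eta i0 - B.q i0 - (B.lam i - B.q i) ≤ 1 := by
      have := B.eta1 i0
      have := B.q0 i0
      have := B.qlam i
      linarith
    have m3 := Id_anti (show ηn ≤ B.eta i0 - B.q i0 - (B.lam i - B.q i) + B.lam i by linarith)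
      (Id_mul k3 (B.lam1 i) t1 (B.Rr_mem i))
    exact (Id S _).sub_mem ((Id S _).sub_mem ((Id S _).sub_mem (Id_anti hη (B.Zr_mem i0))
      ((Id S _).add_mem (Id_anti (hη.trans (B.emono h)) (B.Zr_mem i)) m3)) m1) m2
  · unfold υl
    rw [if_neg ha]
    exact key a ha

variable (B i0) (e : ℝ) (he : 0 < e)

/-- coefficients of the untilted sheet of `i`, in the box -/
def uT (hd : B.Dn i0 b) (h : B.q i0 ≤ B.q i) (hb : B.q i ≤ b) (ηn : ℝ) (hη : ηn ≤ B.eta i0) (a : Fin 3) :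
    TR (B.Sj i0 e he) :=
  nf (B.V i0) e he (B.υ i0 i a) (B.υl i0 ηn a) (B.υl_le hη a) (B.υ_mem hd h hb hη a)

variable {B i0 e he}

theorem uT_lt (hd : B.Dn i0 b) (h : B.q i0 ≤ B.q i) (hb : B.q i ≤ b) (ηn : ℝ) (hη : ηn ≤ B.eta i0) (a : Fin 3) :
    ∀ᶠ k in UF, ∀ ω ω', (S.F k).μ ω ≠ 0 → (S.F k).μ ω' ≠ 0 → B.V i k ω ω' → (S.F k).Z ω ω' →
      (B.uT i0 e he hd h hb ηn hη a).1 k ω = (B.uT i0 e he hd h hb ηn hη a).1 k ω' :=
  nf_lt (B.υ_lt i0 i h a)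

/-- THE UNTILTED SHEET of the window `i` in the box of `i0` -/
theorem u_frame (hd : B.Dn i0 b) (h : B.q i0 ≤ B.q i) (hb : B.q i ≤ b) {ηn : ℝ} (hη : ηn ≤ B.eta i0) {th θ : ℝ}
    (hth : QS.mk (B.c i 3) - QS.mk (B.c i0 3) ∈ Id S th) (hth1 : th ≤ 1) (h1 : θ ≤ B.eta i) (h2 : θ ≤ th + B.lam i) :
    TR.Ag ((θ - ηn) / e) (B.zT i0 e he ηn hη)
      (B.uT i0 e he hd h hb ηn hη 0 + B.uT i0 e he hd h hb ηn hη 1 * B.tT i0 e he +
        B.uT i0 e he hd h hb ηn hη 2 * B.yT i0 e he) := by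
  have hres : QS.mk (B.Zr i + B.ζ i0 i 3 * B.Rr i) ∈ Id S θ := by
    rw [map_add, map_mul]
    refine (Id S _).add_mem (Id_anti h1 (B.Zr_mem i)) (Id_anti h2 (Id_mul hth1 (B.lam1 i) ?_ (B.Rr_mem i)))
    rw [B.ζ3, map_sub]
    exact hth
  apply nf_rel hres (h1.trans (B.eta1 i))
  refine ((((nf_typ (hr := hη.trans (B.eta1 i0)) (hf := Id_anti hη (B.Zr_mem i0)) (Z := B.V i0) (e := e)
    (he := he)).and
    (nf_typ (hr := B.υl_le hη 0) (hf := B.υ_mem hd h hb hη 0) (Z := B.V i0) (e := e) (he := he))).and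
    ((nf_typ (hr := B.υl_le hη 1) (hf := B.υ_mem hd h hb hη 1) (Z := B.V i0) (e := e) (he := he)).and
    (nf_typ (hr := B.υl_le hη 2) (hf := B.υ_mem hd h hb hη 2) (Z := B.V i0) (e := e) (he := he)))).and
    ((nf_typ (hr := B.q1 i0) (hf := B.T_mem i0) (Z := B.V i0) (e := e) (he := he)).and
    (nf_typ (hr := B.q1 i0) (hf := B.Y_mem i0) (Z := B.V i0) (e := e) (he := he)))).mono
    (Eventually.of_forall fun k ω _ h => ?_)
  obtain ⟨⟨⟨g1, g2⟩, g3, g4⟩, g6, g7⟩ := h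
  have e0 := congrFun (congrFun (congrArg Subtype.val (B.Zr_eq' i0 i)) k) ω
  have e0' : (B.Zr i0).1 k ω = (B.Zr i + B.ζ i0 i 3 * B.Rr i).1 k ω + ((B.υ i0 i 0).1 k ω +
    (B.υ i0 i 1).1 k ω * (B.t - B.tc i0).1 k ω + (B.υ i0 i 2).1 k ω * (B.y - B.yc i0).1 k ω) := e0
  rw [g1, g2, g3, g4, g6, g7] at e0'
  have l0 : S.dl (B.υl i0 ηn 0) k = S.dl ηn k := rfl
  have l1 : S.dl (B.υl i0 ηn 1) k * S.dl (B.q i0) k = S.dl ηn k := by
    rw [← dl_add]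
    congr 1
    show (if (1 : Fin 3) = 0 then _ else _) + _ = _
    rw [if_neg (by decide)]
    ring
  have l2 : S.dl (B.υl i0 ηn 2) k * S.dl (B.q i0) k = S.dl ηn k := by
    rw [← dl_add]
    congr 1
    show (if (2 : Fin 3) = 0 then _ else _) + _ = _
    rw [if_neg (by decide)]
    ring
  rw [l0] at e0'
  obtain ⟨u0, hu0⟩ : ∃ u, u = (B.uT i0 e he hd ‹_› hb ηn hη 0).1 k ω := ⟨_, rfl⟩
  obtain ⟨u1, hu1⟩ : ∃ u, u = (B.uT i0 e he hd ‹_› hb ηn hη 1).1 k ω := ⟨_, rfl⟩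
  obtain ⟨u2, hu2⟩ : ∃ u, u = (B.uT i0 e he hd ‹_› hb ηn hη 2).1 k ω := ⟨_, rfl⟩
  have e1 : S.dl ηn k * (B.zT i0 e he ηn hη).1 k ω = (B.Zr i + B.ζ i0 i 3 * B.Rr i).1 k ω + (S.dl ηn k * u0 +
    S.dl (B.υl i0 ηn 1) k * u1 * (S.dl (B.q i0) k * (B.tT i0 e he).1 k ω) +
    S.dl (B.υl i0 ηn 2) k * u2 * (S.dl (B.q i0) k * (B.yT i0 e he).1 k ω)) := by
    rw [hu0, hu1, hu2]
    exact e0'
  show S.dl ηn k * ((B.zT i0 e he ηn hη).1 k ω - ((B.uT i0 e he hd _ hb ηn hη 0).1 k ω +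
    (B.uT i0 e he hd _ hb ηn hη 1).1 k ω * (B.tT i0 e he).1 k ω +
    (B.uT i0 e he hd _ hb ηn hη 2).1 k ω * (B.yT i0 e he).1 k ω)) = (B.Zr i + B.ζ i0 i 3 * B.Rr i).1 k ω
  rw [← hu0, ← hu1, ← hu2]
  have e2 : S.dl (B.υl i0 ηn 1) k * u1 * (S.dl (B.q i0) k * (B.tT i0 e he).1 k ω) =
      S.dl ηn k * (u1 * (B.tT i0 e he).1 k ω) := by rw [← l1]; ring
  have e3 : S.dl (B.υl i0 ηn 2) k * u2 * (S.dl (B.q i0) k * (B.yT i0 e he).1 k ω) =
      S.dl ηn k * (u2 * (B.yT i0 e he).1 k ω) := by rw [← l2]; ring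
  rw [e2, e3] at e1
  rw [mul_sub, e1]
  ring

end BD

end

end Pool.Agent.Helper98.FR
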