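import Pool.Agent.Helper98.FR.Few
import Pool.Agent.Helper98.FR.Unt

/-! THE FRAMES of the corner at `i0`: tilted frames (`w1 ≤ w`) and untilted frames (`w < w1`), with literal
representatives, and the frame fields of the common fields. -/

set_option autoImplicit false

namespace Pool.Agent.Helper98.FR

open Finset Filter Topology Pool.Agent.Helper69.RK Pool.Agent.Helper31.EC
open Pool.Agent.Helper82.TP Pool.Agent.Helper40.EL Pool.Agent.Helper60.CS Pool.Agent.Helper79.NF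
open Pool.Agent.Helper31.NSB Pool.Agent.Helper80.HCI

noncomputable section

open Sp QS

variable {S : Sp}

theorem id_of_ag {f g : TR S} {r r' : ℝ} (h : TR.Ag r f g) (hr : r' ≤ r) (h1 : r' ≤ 1) :
    QS.mk f - QS.mk g ∈ Id S r' := by
  rw [← map_sub, mk_mem_Id h1]
  have h2 := (h.anti hr).sub (TR.Ag.refl r' g)
  rwa [sub_self] at h2

/-- frames given by representatives -/
def frOf {Sc : Set ℝ} (g : Fin 9 → Sc → TR S) : FR S :=
  haveI := Classical.dec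
  { t0 := fun r => if h : r ∈ Sc then QS.mk (g 0 ⟨r, h⟩) else 0
    y0 := fun r => if h : r ∈ Sc then QS.mk (g 1 ⟨r, h⟩) else 0
    r0 := fun r => if h : r ∈ Sc then QS.mk (g 2 ⟨r, h⟩) else 0
    rt := fun r => if h : r ∈ Sc then QS.mk (g 3 ⟨r, h⟩) else 0
    ry := fun r => if h : r ∈ Sc then QS.mk (g 4 ⟨r, h⟩) else 0
    z0 := fun r => if h : r ∈ Sc then QS.mk (g 5 ⟨r, h⟩) else 0
    k0 := fun r => if h : r ∈ Sc then QS.mk (g 6 ⟨r, h⟩) else 0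
    k1 := fun r => if h : r ∈ Sc then QS.mk (g 7 ⟨r, h⟩) else 0
    c := fun r => if h : r ∈ Sc then QS.mk (g 8 ⟨r, h⟩) else 0 }

theorem frOf_f9 {Sc : Set ℝ} (g : Fin 9 → Sc → TR S) (i : Fin 9) (r : Sc) : QS.mk (g i r) = f9 (frOf g) r i := by
  have key : ∀ j : Fin 9, (haveI := Classical.dec; if h : (r : ℝ) ∈ Sc then QS.mk (g j ⟨r, h⟩) else 0) = QS.mk (g j r) :=
    fun j => dif_pos r.2
  fin_cases i
  · exact (key 0).symm
  · exact (key 1).symm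
  · exact (key 2).symm
  · exact (key 3).symm
  · exact (key 4).symm
  · exact (key 5).symm
  · exact (key 6).symm
  · exact (key 7).symm
  · exact (key 8).symm

namespace BD

variable {B : BD S} {i0 : ℕ} {e : ℝ} {he : 0 < e}

/-- centres are functions of the digits -/
theorem tcT_dg (htc : ∀ i r, TR.dg (B.tc i) r ≤ TR.dg B.t (B.q i)) {i : ℕ} (h : B.q i0 ≤ B.q i) {r u : ℝ}
    (hu : B.q i = B.q i0 + e * u) : TR.dg (B.tcT i0 e he h) r ≤ TR.dg (B.tT i0 e he) u := by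
  have h1 : TR.dg (B.tcT i0 e he h) r = chgL (B.V i0) e he (TR.dg (B.tc i - B.tc i0) (B.q i0 + e * r)) := nf_dg r
  rw [h1, BD.tT_dg, ← hu]
  have h2 : chgL (B.V i0) e he (TR.dg (B.tc i - B.tc i0) (B.q i0 + e * r)) ≤
      chgL (B.V i0) e he (TR.dg (B.tc i) (B.q i0 + e * r)) := by
    rw [sub_eq_add_neg]
    refine (chgL_mono _ _ _ (TR.add_dg_le _ _ _)).trans ?_
    rw [chgL_sup]
    refine sup_le le_rfl ?_
    refine (chgL_mono _ _ _ (TR.neg_dg_le _ _)).trans ?_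
    rw [(B.lt i0).chg_bot e he]
    exact bot_le
  refine h2.trans ((chgL_mono _ _ _ (htc i _)).trans ?_)
  have h3 : B.t = (B.t - B.tc i0) + B.tc i0 := (sub_add_cancel _ _).symm
  have h4 : TR.dg B.t (B.q i) ≤ TR.dg (B.t - B.tc i0) (B.q i) ⊔ TR.dg (B.tc i0) (B.q i) := by
    conv_lhs => rw [h3]
    exact TR.add_dg_le _ _ _
  refine (chgL_mono _ _ _ h4).trans ?_
  rw [chgL_sup, (B.lt i0).chg_bot e he, sup_bot_eq]

theorem ycT_dg (hyc : ∀ i r, TR.dg (B.yc i) r ≤ TR.dg B.y (B.q i)) {i : ℕ} (h : B.q i0 ≤ B.q i) {r u : ℝ}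
    (hu : B.q i = B.q i0 + e * u) : TR.dg (B.ycT i0 e he h) r ≤ TR.dg (B.yT i0 e he) u := by
  have h1 : TR.dg (B.ycT i0 e he h) r = chgL (B.V i0) e he (TR.dg (B.yc i - B.yc i0) (B.q i0 + e * r)) := nf_dg r
  rw [h1, BD.yT_dg, ← hu]
  have h2 : chgL (B.V i0) e he (TR.dg (B.yc i - B.yc i0) (B.q i0 + e * r)) ≤
      chgL (B.V i0) e he (TR.dg (B.yc i) (B.q i0 + e * r)) := by
    rw [sub_eq_add_neg]
    refine (chgL_mono _ _ _ (TR.add_dg_le _ _ _)).trans ?_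
    rw [chgL_sup]
    refine sup_le le_rfl ?_
    refine (chgL_mono _ _ _ (TR.neg_dg_le _ _)).trans ?_
    rw [(B.ly i0).chg_bot e he]
    exact bot_le
  refine h2.trans ((chgL_mono _ _ _ (hyc i _)).trans ?_)
  have h3 : B.y = (B.y - B.yc i0) + B.yc i0 := (sub_add_cancel _ _).symm
  have h4 : TR.dg B.y (B.q i) ≤ TR.dg (B.y - B.yc i0) (B.q i) ⊔ TR.dg (B.yc i0) (B.q i) := by
    conv_lhs => rw [h3]
    exact TR.add_dg_le _ _ _
  refine (chgL_mono _ _ _ h4).trans ?_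
  rw [chgL_sup, (B.ly i0).chg_bot e he, sup_bot_eq]

variable (B i0 e he) {ix : ℝ → ℕ} {Sc : Set ℝ} {bb ηm δ : ℝ}

/-- representatives of the tilted frames (normalisation `ηm` of `z`) -/
def r9t (ok : ∀ r ∈ Sc, B.Ok i0 (ix r) bb ηm δ) (a : Fin 9) (r : Sc) : TR (B.Sj i0 e he) :=
  (![B.tcT i0 e he (ok r r.2).h, B.ycT i0 e he (ok r r.2).h, B.rT i0 e he (ok r r.2) 0, B.rT i0 e he (ok r r.2) 1,
    B.rT i0 e he (ok r r.2) 2, B.cT i0 e he (ok r r.2) 0, B.cT i0 e he (ok r r.2) 1, B.cT i0 e he (ok r r.2) 2,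
    B.cT i0 e he (ok r r.2) 3] : Fin 9 → TR (B.Sj i0 e he)) a

/-- representatives of the untilted frames (normalisation `ηn` of `z`) -/
def r9u (ok : ∀ r ∈ Sc, B.Ok i0 (ix r) bb ηm δ) (ηn : ℝ) (hη : ηn ≤ B.eta i0) (a : Fin 9) (r : Sc) :
    TR (B.Sj i0 e he) :=
  (![B.tcT i0 e he (ok r r.2).h, B.ycT i0 e he (ok r r.2).h, B.rT i0 e he (ok r r.2) 0, B.rT i0 e he (ok r r.2) 1,
    B.rT i0 e he (ok r r.2) 2, B.uT i0 e he (ok r r.2).dn (ok r r.2).h (ok r r.2).hb ηn hη 0,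
    B.uT i0 e he (ok r r.2).dn (ok r r.2).h (ok r r.2).hb ηn hη 1,
    B.uT i0 e he (ok r r.2).dn (ok r r.2).h (ok r r.2).hb ηn hη 2, 0] : Fin 9 → TR (B.Sj i0 e he)) a

variable {B i0 e he}

theorem r9t_lit (D : LD B) (ok : ∀ r ∈ Sc, B.Ok i0 (ix r) bb ηm δ) (ηn : ℝ) (hη : ηn ≤ B.eta i0) (a : Fin 9) (r : Sc) :
    ∀ᶠ k in UF, FLit ((B.Sj i0 e he).F k) ((D.rd i0 e he ηn hη ix).K r k) ((B.r9t i0 e he ok a r).1 k) := by
  have key : ∀ f : TR (B.Sj i0 e he), (∀ᶠ k in UF, ∀ ω ω', (S.F k).μ ω ≠ 0 → (S.F k).μ ω' ≠ 0 →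
      B.V (ix r) k ω ω' → (S.F k).Z ω ω' → f.1 k ω = f.1 k ω') →
      ∀ᶠ k in UF, FLit ((B.Sj i0 e he).F k) ((D.rd i0 e he ηn hη ix).K r k) (f.1 k) := by
    intro f hf
    filter_upwards [hf] with k hk ω ω' h h' hz hK
    exact hk ω ω' h h' (Quotient.exact hK) hz.2
  fin_cases a
  · exact key _ (B.tcT_lt (ok r r.2).h)
  · exact key _ (B.ycT_lt (ok r r.2).h)
  · exact key _ (B.rT_lt (ok r r.2) 0)
  · exact key _ (B.rT_lt (ok r r.2) 1)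
  · exact key _ (B.rT_lt (ok r r.2) 2)
  · exact key _ (B.cT_lt (ok r r.2) 0)
  · exact key _ (B.cT_lt (ok r r.2) 1)
  · exact key _ (B.cT_lt (ok r r.2) 2)
  · exact key _ (B.cT_lt (ok r r.2) 3)

theorem r9u_lit (D : LD B) (ok : ∀ r ∈ Sc, B.Ok i0 (ix r) bb ηm δ) (ηn : ℝ) (hη : ηn ≤ B.eta i0) (a : Fin 9) (r : Sc) :
    ∀ᶠ k in UF, FLit ((B.Sj i0 e he).F k) ((D.rd i0 e he ηn hη ix).K r k) ((B.r9u i0 e he ok ηn hη a r).1 k) := by
  have key : ∀ f : TR (B.Sj i0 e he), (∀ᶠ k in UF, ∀ ω ω', (S.F k).μ ω ≠ 0 → (S.F k).μ ω' ≠ 0 →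
      B.V (ix r) k ω ω' → (S.F k).Z ω ω' → f.1 k ω = f.1 k ω') →
      ∀ᶠ k in UF, FLit ((B.Sj i0 e he).F k) ((D.rd i0 e he ηn hη ix).K r k) (f.1 k) := by
    intro f hf
    filter_upwards [hf] with k hk ω ω' h h' hz hK
    exact hk ω ω' h h' (Quotient.exact hK) hz.2
  fin_cases a
  · exact key _ (B.tcT_lt (ok r r.2).h)
  · exact key _ (B.ycT_lt (ok r r.2).h)
  · exact key _ (B.rT_lt (ok r r.2) 0)
  · exact key _ (B.rT_lt (ok r r.2) 1)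
  · exact key _ (B.rT_lt (ok r r.2) 2)
  · exact key _ (B.uT_lt (ok r r.2).dn (ok r r.2).h (ok r r.2).hb ηn hη 0)
  · exact key _ (B.uT_lt (ok r r.2).dn (ok r r.2).h (ok r r.2).hb ηn hη 1)
  · exact key _ (B.uT_lt (ok r r.2).dn (ok r r.2).h (ok r r.2).hb ηn hη 2)
  · exact Eventually.of_forall fun k ω ω' _ _ _ _ => rfl

end BD

/-- the frame fields of the common fields at the window `i0`, errors `ε` -/
structure FrE {T : Sp} (H : RD T) (f : FR T) (w1 w : ℝ) (Sc : Set ℝ) (ε : ℝ) : Prop where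
  nest : LNest H Sc
  iA : io H.VA = H.L
  iB : io H.VB = H.B
  ft : ∀ s ∈ Sc, H.t - f.t0 s ∈ Id T s ∧ dg (f.t0 s) 1 ≤ dg H.t s
  fy : ∀ s ∈ Sc, H.y - f.y0 s ∈ Id T s ∧ dg (f.y0 s) 1 ≤ dg H.y s
  frR : ∀ s ∈ Sc, H.R - (f.r0 s + f.rt s * H.t + f.ry s * H.y) ∈ Id T (w1 * s - ε)
  frZ : ∀ s ∈ Sc, H.z - (f.z0 s + f.k0 s * H.t + f.k1 s * H.y + f.c s * H.R) ∈ Id T (w * s - ε)

namespace LD

variable {B : BD S} (D : LD B) {i0 : ℕ} {e : ℝ} {he : 0 < e} {ix : ℝ → ℕ} {Sc : Set ℝ} {bb ηm δ : ℝ}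

/-- THE FRAME FIELDS, tilted frames -/
theorem fret (htc : ∀ i r, TR.dg (B.tc i) r ≤ TR.dg B.t (B.q i)) (hyc : ∀ i r, TR.dg (B.yc i) r ≤ TR.dg B.y (B.q i))
    (ok : ∀ r ∈ Sc, B.Ok i0 (ix r) bb ηm δ) (hη : ηm ≤ B.eta i0) (hix : ∀ r ∈ Sc, B.q (ix r) = B.q i0 + e * r)
    {w1 w ε : ℝ} (hS1 : ∀ r ∈ Sc, r ≤ 1) (hw1 : ∀ r ∈ Sc, w1 * r - ε ≤ 1) (hw : ∀ r ∈ Sc, w * r - ε ≤ 1)
    (hl : ∀ r ∈ Sc, w1 * r - ε ≤ (B.lam (ix r) - B.lam i0) / e)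
    (hz : ∀ r ∈ Sc, w * r - ε ≤ (B.eta (ix r) - ηm) / e) :
    FrE (D.rd i0 e he ηm hη ix) (frOf (B.r9t i0 e he ok)) w1 w Sc ε := by
  have hq : ∀ r ∈ Sc, (B.q (ix r) - B.q i0) / e = r := fun r hr => by
    rw [hix r hr]
    field_simp
    ring
  have hf : ∀ (r : ℝ) (hr : r ∈ Sc) (i : Fin 9), f9 (frOf (B.r9t i0 e he ok)) r i = QS.mk (B.r9t i0 e he ok i ⟨r, hr⟩) :=
    fun r hr i => (frOf_f9 (B.r9t i0 e he ok) i ⟨r, hr⟩).symm
  refine ⟨D.lnest i0 e he ηm hη ix fun r hr r' hr' h => ?_, D.iA i0 e he ηm hη ix, D.iB i0 e he ηm hη ix, ?_, ?_, ?_, ?_⟩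
  · rw [hix r hr, hix r' hr']
    have := mul_le_mul_of_nonneg_left h he.le
    linarith
  · intro r hr
    have e0 : (frOf (B.r9t i0 e he ok)).t0 r = QS.mk (B.tcT i0 e he (ok r hr).h) := hf r hr 0
    rw [e0]
    refine ⟨id_of_ag (B.t_frame (ok r hr).h) (hq r hr).ge (hS1 r hr), ?_⟩
    rw [dg_mk _ le_rfl]
    show _ ≤ dg (QS.mk (B.tT i0 e he)) r
    rw [dg_mk _ (hS1 r hr)]
    exact B.tcT_dg htc (ok r hr).h (hix r hr)
  · intro r hr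
    have e0 : (frOf (B.r9t i0 e he ok)).y0 r = QS.mk (B.ycT i0 e he (ok r hr).h) := hf r hr 1
    rw [e0]
    refine ⟨id_of_ag (B.y_frame (ok r hr).h) (hq r hr).ge (hS1 r hr), ?_⟩
    rw [dg_mk _ le_rfl]
    show _ ≤ dg (QS.mk (B.yT i0 e he)) r
    rw [dg_mk _ (hS1 r hr)]
    exact B.ycT_dg hyc (ok r hr).h (hix r hr)
  · intro r hr
    have h2 : (frOf (B.r9t i0 e he ok)).r0 r = QS.mk (B.rT i0 e he (ok r hr) 0) := hf r hr 2
    have h3 : (frOf (B.r9t i0 e he ok)).rt r = QS.mk (B.rT i0 e he (ok r hr) 1) := hf r hr 3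
    have h4 : (frOf (B.r9t i0 e he ok)).ry r = QS.mk (B.rT i0 e he (ok r hr) 2) := hf r hr 4
    rw [h2, h3, h4]
    have h5 := id_of_ag (B.R_frame (e := e) (he := he) (ok r hr)) (hl r hr) (hw1 r hr)
    simp only [map_add, map_mul] at h5
    exact h5
  · intro r hr
    have h2 : (frOf (B.r9t i0 e he ok)).z0 r = QS.mk (B.cT i0 e he (ok r hr) 0) := hf r hr 5
    have h3 : (frOf (B.r9t i0 e he ok)).k0 r = QS.mk (B.cT i0 e he (ok r hr) 1) := hf r hr 6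
    have h4 : (frOf (B.r9t i0 e he ok)).k1 r = QS.mk (B.cT i0 e he (ok r hr) 2) := hf r hr 7
    have h6 : (frOf (B.r9t i0 e he ok)).c r = QS.mk (B.cT i0 e he (ok r hr) 3) := hf r hr 8
    rw [h2, h3, h4, h6]
    have h5 := id_of_ag (B.z_frame (e := e) (he := he) (ok r hr)) (hz r hr) (hw r hr)
    simp only [map_add, map_mul] at h5
    exact h5

/-- THE FRAME FIELDS, untilted frames -/
theorem freu (htc : ∀ i r, TR.dg (B.tc i) r ≤ TR.dg B.t (B.q i)) (hyc : ∀ i r, TR.dg (B.yc i) r ≤ TR.dg B.y (B.q i))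
    (ok : ∀ r ∈ Sc, B.Ok i0 (ix r) bb ηm δ) {ηn : ℝ} (hη : ηn ≤ B.eta i0) (hix : ∀ r ∈ Sc, B.q (ix r) = B.q i0 + e * r)
    {w1 w ε : ℝ} (hS1 : ∀ r ∈ Sc, r ≤ 1) (hw1 : ∀ r ∈ Sc, w1 * r - ε ≤ 1) (hw : ∀ r ∈ Sc, w * r - ε ≤ 1)
    (hl : ∀ r ∈ Sc, w1 * r - ε ≤ (B.lam (ix r) - B.lam i0) / e) {th : ℝ → ℝ}
    (hth : ∀ r ∈ Sc, th r ≤ 1 ∧ ∀ j j', B.q i0 ≤ B.q j → B.q j ≤ B.q j' → B.q j' ≤ B.q (ix r) → B.q j' ≤ B.q j + δ →
      th r ≤ B.eta j - B.lam j')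
    (hz : ∀ r ∈ Sc, w * r - ε ≤ (B.eta (ix r) - ηn) / e ∧ w * r - ε ≤ (th r + B.lam (ix r) - ηn) / e) :
    FrE (D.rd i0 e he ηn hη ix) (frOf (B.r9u i0 e he ok ηn hη)) w1 w Sc ε := by
  have hq : ∀ r ∈ Sc, (B.q (ix r) - B.q i0) / e = r := fun r hr => by
    rw [hix r hr]
    field_simp
    ring
  have hf : ∀ (r : ℝ) (hr : r ∈ Sc) (i : Fin 9),
      f9 (frOf (B.r9u i0 e he ok ηn hη)) r i = QS.mk (B.r9u i0 e he ok ηn hη i ⟨r, hr⟩) :=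
    fun r hr i => (frOf_f9 (B.r9u i0 e he ok ηn hη) i ⟨r, hr⟩).symm
  refine ⟨D.lnest i0 e he ηn hη ix fun r hr r' hr' h => ?_, D.iA i0 e he ηn hη ix, D.iB i0 e he ηn hη ix, ?_, ?_, ?_, ?_⟩
  · rw [hix r hr, hix r' hr']
    have := mul_le_mul_of_nonneg_left h he.le
    linarith
  · intro r hr
    have e0 : (frOf (B.r9u i0 e he ok ηn hη)).t0 r = QS.mk (B.tcT i0 e he (ok r hr).h) := hf r hr 0
    rw [e0]
    refine ⟨id_of_ag (B.t_frame (ok r hr).h) (hq r hr).ge (hS1 r hr), ?_⟩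
    rw [dg_mk _ le_rfl]
    show _ ≤ dg (QS.mk (B.tT i0 e he)) r
    rw [dg_mk _ (hS1 r hr)]
    exact B.tcT_dg htc (ok r hr).h (hix r hr)
  · intro r hr
    have e0 : (frOf (B.r9u i0 e he ok ηn hη)).y0 r = QS.mk (B.ycT i0 e he (ok r hr).h) := hf r hr 1
    rw [e0]
    refine ⟨id_of_ag (B.y_frame (ok r hr).h) (hq r hr).ge (hS1 r hr), ?_⟩
    rw [dg_mk _ le_rfl]
    show _ ≤ dg (QS.mk (B.yT i0 e he)) r
    rw [dg_mk _ (hS1 r hr)]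
    exact B.ycT_dg hyc (ok r hr).h (hix r hr)
  · intro r hr
    have h2 : (frOf (B.r9u i0 e he ok ηn hη)).r0 r = QS.mk (B.rT i0 e he (ok r hr) 0) := hf r hr 2
    have h3 : (frOf (B.r9u i0 e he ok ηn hη)).rt r = QS.mk (B.rT i0 e he (ok r hr) 1) := hf r hr 3
    have h4 : (frOf (B.r9u i0 e he ok ηn hη)).ry r = QS.mk (B.rT i0 e he (ok r hr) 2) := hf r hr 4
    rw [h2, h3, h4]
    have h5 := id_of_ag (B.R_frame (e := e) (he := he) (ok r hr)) (hl r hr) (hw1 r hr)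
    simp only [map_add, map_mul] at h5
    exact h5
  · intro r hr
    have h2 : (frOf (B.r9u i0 e he ok ηn hη)).z0 r =
      QS.mk (B.uT i0 e he (ok r hr).dn (ok r hr).h (ok r hr).hb ηn hη 0) := hf r hr 5
    have h3 : (frOf (B.r9u i0 e he ok ηn hη)).k0 r =
      QS.mk (B.uT i0 e he (ok r hr).dn (ok r hr).h (ok r hr).hb ηn hη 1) := hf r hr 6
    have h4 : (frOf (B.r9u i0 e he ok ηn hη)).k1 r =
      QS.mk (B.uT i0 e he (ok r hr).dn (ok r hr).h (ok r hr).hb ηn hη 2) := hf r hr 7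
    have h6 : (frOf (B.r9u i0 e he ok ηn hη)).c r = 0 := (hf r hr 8).trans (map_zero _)
    rw [h2, h3, h4, h6, zero_mul, add_zero]
    obtain ⟨t1, t2⟩ := hth r hr
    have hd' : B.Dn i0 (B.q (ix r)) := fun a a' g1 g2 g3 => (ok r hr).dn a a' g1 g2 (g3.trans (ok r hr).hb)
    have h7 := (B.sheet hd' (ok r hr).h le_rfl (ok r hr).hδ t1 t2).1
    have h8 := B.u_frame (e := e) (he := he) (ok r hr).dn (ok r hr).h (ok r hr).hb hη (θ := min (B.eta (ix r)) (th r + B.lam (ix r)))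
      h7 t1 (min_le_left _ _) (min_le_right _ _)
    have h9 : w * r - ε ≤ (min (B.eta (ix r)) (th r + B.lam (ix r)) - ηn) / e := by
      obtain ⟨z1, z2⟩ := hz r hr
      rw [le_div_iff₀ he] at z1 z2 ⊢
      rcases min_choice (B.eta (ix r)) (th r + B.lam (ix r)) with hc | hc
      · rw [hc]; exact z1
      · rw [hc]; exact z2
    have h5 := id_of_ag h8 h9 (hw r hr)
    simp only [map_add, map_mul] at h5
    exact h5

end LD

end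

end Pool.Agent.Helper98.FR
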