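import Pool.Agent.Helper98.FR.Chn

/-! NORMALISED FUNCTIONS: coordinates in the box of the window `i0`, and the frames of the finer windows in these
coordinates, as tame functions of the space over the label of the window `i0` (depth `e n`). -/

set_option autoImplicit false

namespace Pool.Agent.Helper98.FR

open Finset Filter Topology Pool.Agent.Helper69.RK Pool.Agent.Helper31.EC
open Pool.Agent.Helper82.TP Pool.Agent.Helper40.EL Pool.Agent.Helper60.CS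

noncomputable section

open Sp QS Pool.Agent.Helper80.MX

variable {S : Sp} (Z : ∀ k, Setoid (S.F k).Ω) (e : ℝ) (he : 0 < e)

theorem exists_K {f : TR S} {r : ℝ} (hr : r ≤ 1) (hf : mk f ∈ Id S r) :
    ∃ K : ℕ → ℝ, S.Sub K ∧ Typ (S := S) (fun k ω => |f.1 k ω - (fun _ _ => (0 : ℝ)) k ω| ≤ K k * S.dl r k) := by
  rw [mk_mem_Id hr] at hf
  obtain ⟨E, K, hE, hK, hh⟩ := hf
  refine ⟨K, hK, ?_⟩
  refine hE.mono ?_
  filter_upwards [hh] with k hk ω a b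
  exact hk ω a b

/-- the rescaled function -/
def nf (f : TR S) (r : ℝ) (hr : r ≤ 1) (hf : mk f ∈ Id S r) : TR (S.chg Z e he) :=
  zo Z e he f (fun _ _ => 0) r (exists_K hr hf).choose (exists_K hr hf).choose_spec.1

variable {Z e he}

theorem nf_typ {f : TR S} {r : ℝ} {hr : r ≤ 1} {hf : mk f ∈ Id S r} :
    Typ (S := S) (fun k ω => f.1 k ω = S.dl r k * (nf Z e he f r hr hf).1 k ω) := by
  refine (zo_typ Z e he (exists_K hr hf).choose_spec.1 (exists_K hr hf).choose_spec.2).mono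
    (Eventually.of_forall fun k ω _ h => ?_)
  rw [zero_add] at h
  exact h

theorem nf_dg {f : TR S} {r : ℝ} {hr : r ≤ 1} {hf : mk f ∈ Id S r} (u : ℝ) :
    TR.dg (nf Z e he f r hr hf) u = chgL Z e he (TR.dg f (r + e * u)) :=
  zo_dg Z e he (exists_K hr hf).choose_spec.1 (exists_K hr hf).choose_spec.2
    (Eventually.of_forall fun _ _ _ _ _ _ => rfl) u

/-- rescaled functions are known to what knows the function -/
theorem nf_lt {f : TR S} {r : ℝ} {hr : r ≤ 1} {hf : mk f ∈ Id S r} {W : ∀ k, Setoid (S.F k).Ω} (hl : Lt W f) :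
    ∀ᶠ k in UF, ∀ ω ω', (S.F k).μ ω ≠ 0 → (S.F k).μ ω' ≠ 0 → W k ω ω' → (S.F k).Z ω ω' →
      (nf Z e he f r hr hf).1 k ω = (nf Z e he f r hr hf).1 k ω' := by
  filter_upwards [hl] with k a ω ω' c d g g'
  have h1 : f.1 k ω = f.1 k ω' := a ω ω' c d g g'
  unfold nf zo
  simp only [h1]

/-- an identity between functions, in rescaled form -/
theorem nf_rel {f g : TR (S.chg Z e he)} {d : TR S} {r u : ℝ} (hd : mk d ∈ Id S u) (hu : u ≤ 1)
    (h : Typ (S := S) (fun k ω => S.dl r k * (f.1 k ω - g.1 k ω) = d.1 k ω)) :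
    TR.Ag ((u - r) / e) f g := by
  rw [mk_mem_Id hu] at hd
  obtain ⟨E, K, hE, hK, hh⟩ := hd
  refine ⟨_, K, typ_chg Z e he (h.and hE), chg_sub Z e he hK, ?_⟩
  filter_upwards [hh] with k hk ω a b
  have h1 : |d.1 k ω - 0| ≤ K k * S.dl u k := hk ω a b.2
  have h2 : S.dl r k * (f.1 k ω - g.1 k ω) = d.1 k ω := b.1
  rw [sub_zero, ← h2, abs_mul, abs_of_pos (S.dl_pos r k)] at h1
  rw [chg_dl]
  have h3 : e * ((u - r) / e) = u - r := by field_simp
  rw [h3]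
  show |f.1 k ω - g.1 k ω| ≤ K k * S.dl (u - r) k
  have h4 : S.dl u k = S.dl r k * S.dl (u - r) k := by rw [← dl_add]; congr 1; ring
  rw [h4] at h1
  have h5 : S.dl r k * |f.1 k ω - g.1 k ω| ≤ S.dl r k * (K k * S.dl (u - r) k) := h1.trans (le_of_eq (by ring))
  exact le_of_mul_le_mul_left h5 (S.dl_pos r k)

theorem ring_r {A : Type*} [CommRing A] (R t y tc yc r0 r1 r2 s0 s1 s2 : A) :
    R - (s0 + s1 * t + s2 * y) = R - (r0 + r1 * t + r2 * y) +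
      (((r0 - s0) + (r1 - s1) * tc + (r2 - s2) * yc) + (r1 - s1) * (t - tc) + (r2 - s2) * (y - yc)) := by ring

theorem ring_c {A : Type*} [CommRing A] (z R t y tc yc s0 s1 s2 c0 c1 c2 c3 d0 d1 d2 d3 : A) :
    z - (d0 + d1 * t + d2 * y + d3 * R) = z - (c0 + c1 * t + c2 * y + c3 * R) +
      (((c0 - d0) + (c3 - d3) * s0 + ((c1 - d1) + (c3 - d3) * s1) * tc + ((c2 - d2) + (c3 - d3) * s2) * yc) +
      ((c1 - d1) + (c3 - d3) * s1) * (t - tc) + ((c2 - d2) + (c3 - d3) * s2) * (y - yc) +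
      (c3 - d3) * (R - (s0 + s1 * t + s2 * y))) := by ring

theorem ring_3 {A : Type*} [CommRing A] {a b c d e f g : A} (h : a = b + (c + d * e + f * g)) :
    c = a - b - d * e - f * g := by rw [h]; ring

theorem ring_4 {A : Type*} [CommRing A] {a b c d e f g k l : A} (h : a = b + (c + d * e + f * g + k * l)) :
    c = a - b - d * e - f * g - k * l := by rw [h]; ring

namespace BD

variable (B : BD S) (i0 : ℕ)

/-- residual of the slab -/
def Rr (i : ℕ) : TR S := B.R - (B.r i 0 + B.r i 1 * B.t + B.r i 2 * B.y)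
/-- residual of the sheet -/
def Zr (i : ℕ) : TR S := B.z - (B.c i 0 + B.c i 1 * B.t + B.c i 2 * B.y + B.c i 3 * B.R)

theorem Rr_mem (i : ℕ) : QS.mk (B.Rr i) ∈ Id S (B.lam i) := by
  have := B.hr i
  unfold Rr
  simpa only [map_sub, map_add, map_mul] using this

theorem Zr_mem (i : ℕ) : QS.mk (B.Zr i) ∈ Id S (B.eta i) := by
  have := B.hc i
  unfold Zr
  simpa only [map_sub, map_add, map_mul] using this

theorem T_mem (i : ℕ) : QS.mk (B.t - B.tc i) ∈ Id S (B.q i) := by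
  rw [map_sub]; exact B.ht i

theorem Y_mem (i : ℕ) : QS.mk (B.y - B.yc i) ∈ Id S (B.q i) := by
  rw [map_sub]; exact B.hy i

/-- slopes of the slab of `i` in the box of `i0` -/
def ρ (i : ℕ) (a : Fin 3) : TR S :=
  if a = 0 then (B.r i 0 - B.r i0 0) + (B.r i 1 - B.r i0 1) * B.tc i0 + (B.r i 2 - B.r i0 2) * B.yc i0
  else B.r i a - B.r i0 a

/-- slopes of the sheet of `i` in the box of `i0` -/
def ζ (i : ℕ) (a : Fin 4) : TR S :=
  if a = 3 then B.c i 3 - B.c i0 3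
  else if a = 1 then (B.c i 1 - B.c i0 1) + (B.c i 3 - B.c i0 3) * B.r i0 1
  else if a = 2 then (B.c i 2 - B.c i0 2) + (B.c i 3 - B.c i0 3) * B.r i0 2
  else (B.c i 0 - B.c i0 0) + (B.c i 3 - B.c i0 3) * B.r i0 0 +
    ((B.c i 1 - B.c i0 1) + (B.c i 3 - B.c i0 3) * B.r i0 1) * B.tc i0 +
    ((B.c i 2 - B.c i0 2) + (B.c i 3 - B.c i0 3) * B.r i0 2) * B.yc i0

theorem ρ0 (i : ℕ) : B.ρ i0 i 0 = (B.r i 0 - B.r i0 0) + (B.r i 1 - B.r i0 1) * B.tc i0 + (B.r i 2 - B.r i0 2) * B.yc i0 :=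
  if_pos rfl
theorem ρ1 (i : ℕ) : B.ρ i0 i 1 = B.r i 1 - B.r i0 1 := if_neg (by decide)
theorem ρ2 (i : ℕ) : B.ρ i0 i 2 = B.r i 2 - B.r i0 2 := if_neg (by decide)
theorem ζ3 (i : ℕ) : B.ζ i0 i 3 = B.c i 3 - B.c i0 3 := if_pos rfl
theorem ζ1 (i : ℕ) : B.ζ i0 i 1 = (B.c i 1 - B.c i0 1) + (B.c i 3 - B.c i0 3) * B.r i0 1 :=
  (if_neg (by decide)).trans (if_pos rfl)
theorem ζ2 (i : ℕ) : B.ζ i0 i 2 = (B.c i 2 - B.c i0 2) + (B.c i 3 - B.c i0 3) * B.r i0 2 :=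
  (if_neg (by decide)).trans ((if_neg (by decide)).trans (if_pos rfl))
theorem ζ0 (i : ℕ) : B.ζ i0 i 0 = (B.c i 0 - B.c i0 0) + (B.c i 3 - B.c i0 3) * B.r i0 0 +
    ((B.c i 1 - B.c i0 1) + (B.c i 3 - B.c i0 3) * B.r i0 1) * B.tc i0 +
    ((B.c i 2 - B.c i0 2) + (B.c i 3 - B.c i0 3) * B.r i0 2) * B.yc i0 :=
  (if_neg (by decide)).trans ((if_neg (by decide)).trans (if_neg (by decide)))

theorem Rr_eq (i : ℕ) : B.Rr i0 = B.Rr i + (B.ρ i0 i 0 + B.ρ i0 i 1 * (B.t - B.tc i0) + B.ρ i0 i 2 * (B.y - B.yc i0)) := by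
  rw [B.ρ0, B.ρ1, B.ρ2]
  exact ring_r _ _ _ _ _ _ _ _ _ _ _

theorem Zr_eq (i : ℕ) : B.Zr i0 = B.Zr i + (B.ζ i0 i 0 + B.ζ i0 i 1 * (B.t - B.tc i0) + B.ζ i0 i 2 * (B.y - B.yc i0) +
    B.ζ i0 i 3 * B.Rr i0) := by
  rw [B.ζ0, B.ζ1, B.ζ2, B.ζ3]
  exact ring_c _ _ _ _ _ _ _ _ _ _ _ _ _ _ _ _ _

theorem ρ_lt (i : ℕ) (h : B.q i0 ≤ B.q i) (a : Fin 3) : Lt (B.V i) (B.ρ i0 i a) := by
  have l : ∀ a, Lt (B.V i) (B.r i0 a) := fun a => (B.lr i0 a).mono (B.nest i0 i h)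
  have l1 : Lt (B.V i) (B.tc i0) := (B.lt i0).mono (B.nest i0 i h)
  have l2 : Lt (B.V i) (B.yc i0) := (B.ly i0).mono (B.nest i0 i h)
  unfold ρ
  split_ifs
  · exact (((B.lr i 0).sub (l 0)).add (((B.lr i 1).sub (l 1)).mul l1)).add (((B.lr i 2).sub (l 2)).mul l2)
  · exact (B.lr i a).sub (l a)

theorem ζ_lt (i : ℕ) (h : B.q i0 ≤ B.q i) (a : Fin 4) : Lt (B.V i) (B.ζ i0 i a) := by
  have l : ∀ a, Lt (B.V i) (B.r i0 a) := fun a => (B.lr i0 a).mono (B.nest i0 i h)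
  have m : ∀ a, Lt (B.V i) (B.c i a - B.c i0 a) := fun a => (B.lc i a).sub ((B.lc i0 a).mono (B.nest i0 i h))
  have l1 : Lt (B.V i) (B.tc i0) := (B.lt i0).mono (B.nest i0 i h)
  have l2 : Lt (B.V i) (B.yc i0) := (B.ly i0).mono (B.nest i0 i h)
  unfold ζ
  split_ifs
  · exact m 3
  · exact (m 1).add ((m 3).mul (l 1))
  · exact (m 2).add ((m 3).mul (l 2))
  · exact ((((m 0).add ((m 3).mul (l 0))).add (((m 1).add ((m 3).mul (l 1))).mul l1)).add
      (((m 2).add ((m 3).mul (l 2))).mul l2))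

/-- the conditions on the windows, for the frames of `i` in the box of `i0`; `ηn` is the level of normalisation of `z` -/
structure Ok (i : ℕ) (b ηn δ : ℝ) : Prop where
  dn : B.Dn i0 b
  h : B.q i0 ≤ B.q i
  hb : B.q i ≤ b
  hδ : 0 < δ
  he : ηn ≤ B.eta i0
  hE : ∀ j j', B.q i0 ≤ B.q j → B.q j ≤ B.q j' → B.q j' ≤ b → B.q j' ≤ B.q j + δ → ηn - B.lam i0 ≤ B.eta j - B.lam j'

variable {B i0} {i : ℕ} {b ηn δ : ℝ}

/-- levels of the frames of the slab -/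
def ρl (B : BD S) (i0 : ℕ) (a : Fin 3) : ℝ := if a = 0 then B.lam i0 else B.lam i0 - B.q i0
/-- levels of the frames of the sheet -/
def ζl (B : BD S) (i0 : ℕ) (ηn : ℝ) (a : Fin 4) : ℝ :=
  if a = 0 then ηn else if a = 3 then ηn - B.lam i0 else ηn - B.q i0

theorem ρl_le (B : BD S) (i0 : ℕ) (a : Fin 3) : B.ρl i0 a ≤ 1 := by
  unfold ρl
  have := B.lam1 i0
  have := B.q0 i0
  split_ifs <;> linarith

theorem Ok.ζl_le (ok : B.Ok i0 i b ηn δ) (a : Fin 4) : B.ζl i0 ηn a ≤ 1 := by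
  unfold ζl
  have := ok.he
  have := B.eta1 i0
  have := B.q0 i0
  have := B.lam0 i0
  split_ifs <;> linarith

theorem Ok.ρ_mem (ok : B.Ok i0 i b ηn δ) (a : Fin 3) : QS.mk (B.ρ i0 i a) ∈ Id S (B.ρl i0 a) := by
  have key : ∀ a : Fin 3, a ≠ 0 → QS.mk (B.ρ i0 i a) ∈ Id S (B.lam i0 - B.q i0) := by
    intro a ha
    have h1 := B.slab ok.dn ok.h ok.hb a ha
    unfold ρ
    rw [if_neg ha, map_sub]
    exact h1
  by_cases ha : a = 0
  · subst ha
    unfold ρl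
    rw [if_pos rfl]
    have e1 := congrArg QS.mk (B.Rr_eq i0 i)
    simp only [map_add, map_mul] at e1
    rw [ring_3 e1]
    have k3 : B.lam i0 - B.q i0 ≤ 1 := by
      have := B.lam1 i0
      have := B.q0 i0
      linarith
    have m1 := Id_mul k3 (B.q1 i0) (key 1 (by decide)) (B.T_mem i0)
    have m2 := Id_mul k3 (B.q1 i0) (key 2 (by decide)) (B.Y_mem i0)
    rw [sub_add_cancel] at m1 m2
    exact (Id S _).sub_mem ((Id S _).sub_mem ((Id S _).sub_mem (B.Rr_mem i0) (Id_anti (B.lmono ok.h) (B.Rr_mem i))) m1) m2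
  · unfold ρl
    rw [if_neg ha]
    exact key a ha

theorem Ok.ζ_mem (ok : B.Ok i0 i b ηn δ) (a : Fin 4) : QS.mk (B.ζ i0 i a) ∈ Id S (B.ζl i0 ηn a) := by
  have hth : ηn - B.lam i0 ≤ 1 := by
    have := ok.he
    have := B.eta1 i0
    have := B.lam0 i0
    linarith
  have hq : ηn - B.q i0 ≤ 1 := by
    have := ok.he
    have := B.eta1 i0
    have := B.q0 i0
    linarith
  obtain ⟨h3, h12⟩ := B.sheet ok.dn ok.h ok.hb ok.hδ hth ok.hE
  have hmin : ηn - B.q i0 ≤ min (B.eta i0 - B.q i0) (ηn - B.lam i0 + (B.lam i0 - B.q i0)) := by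
    apply le_min
    · have := ok.he
      linarith
    · linarith
  have k3 : QS.mk (B.ζ i0 i 3) ∈ Id S (ηn - B.lam i0) := by
    rw [B.ζ3, map_sub]
    exact h3
  have k1 : QS.mk (B.ζ i0 i 1) ∈ Id S (ηn - B.q i0) := by
    have h := Id_anti hmin (h12 1 (by decide))
    change (QS.mk (B.c i 1) - QS.mk (B.c i0 1)) + (QS.mk (B.c i 3) - QS.mk (B.c i0 3)) * QS.mk (B.r i0 1) ∈ _ at h
    rw [B.ζ1]
    simpa only [map_sub, map_add, map_mul] using h
  have k2 : QS.mk (B.ζ i0 i 2) ∈ Id S (ηn - B.q i0) := by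
    have h := Id_anti hmin (h12 2 (by decide))
    change (QS.mk (B.c i 2) - QS.mk (B.c i0 2)) + (QS.mk (B.c i 3) - QS.mk (B.c i0 3)) * QS.mk (B.r i0 2) ∈ _ at h
    rw [B.ζ2]
    simpa only [map_sub, map_add, map_mul] using h
  have k0 : QS.mk (B.ζ i0 i 0) ∈ Id S ηn := by
    have e1 := congrArg QS.mk (B.Zr_eq i0 i)
    simp only [map_add, map_mul] at e1
    rw [ring_4 e1]
    have m1 := Id_mul hq (B.q1 i0) k1 (B.T_mem i0)
    have m2 := Id_mul hq (B.q1 i0) k2 (B.Y_mem i0)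
    have m3 := Id_mul hth (B.lam1 i0) k3 (B.Rr_mem i0)
    rw [sub_add_cancel] at m1 m2 m3
    exact (Id S _).sub_mem ((Id S _).sub_mem ((Id S _).sub_mem ((Id S _).sub_mem (Id_anti ok.he (B.Zr_mem i0))
      (Id_anti (ok.he.trans (B.emono ok.h)) (B.Zr_mem i))) m1) m2) m3
  unfold ζl
  fin_cases a
  · simpa using k0
  · simpa using k1
  · simpa using k2
  · simpa using k3

end BD

end

end Pool.Agent.Helper98.FR
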