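import Pool.Agent.Helper98.FR.Nrm

/-! THE COORDINATES IN THE BOX of the window `i0` and the FRAMES of the windows `i`, in the space over the label of `i0`. -/

set_option autoImplicit false

namespace Pool.Agent.Helper98.FR

open Finset Filter Topology Pool.Agent.Helper69.RK Pool.Agent.Helper31.EC
open Pool.Agent.Helper82.TP Pool.Agent.Helper40.EL Pool.Agent.Helper60.CS

noncomputable section

open Sp QS Pool.Agent.Helper80.MX

variable {S : Sp}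

/-- levels with respect to the unit `e` -/
theorem nf_rel0 {Z : ∀ k, Setoid (S.F k).Ω} {e : ℝ} {he : 0 < e} {f : TR (S.chg Z e he)} {d : TR S} {r u : ℝ}
    (hd : QS.mk d ∈ Id S u) (hu : u ≤ 1)
    (h : Typ (S := S) (fun k ω => S.dl r k * f.1 k ω = d.1 k ω)) : TR.Ag ((u - r) / e) f 0 := by
  apply nf_rel hd hu
  refine h.mono (Eventually.of_forall fun k ω _ h => ?_)
  show S.dl r k * (f.1 k ω - 0) = d.1 k ω
  rw [sub_zero]
  exact h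

namespace BD

variable (B : BD S) (i0 : ℕ) (e : ℝ) (he : 0 < e)

/-- the space over the label of the window `i0`, of depth `e n` -/
abbrev Sj : Sp := S.chg (B.V i0) e he

/-- `t` in the box -/
def tT : TR (B.Sj i0 e he) := nf (B.V i0) e he (B.t - B.tc i0) (B.q i0) (B.q1 i0) (B.T_mem i0)
/-- `y` in the box -/
def yT : TR (B.Sj i0 e he) := nf (B.V i0) e he (B.y - B.yc i0) (B.q i0) (B.q1 i0) (B.Y_mem i0)
/-- `R` in the box -/
def RT : TR (B.Sj i0 e he) := nf (B.V i0) e he (B.Rr i0) (B.lam i0) (B.lam1 i0) (B.Rr_mem i0)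

variable {i : ℕ} {b ηn δ : ℝ}

/-- `z` in the box -/
def zT (ηn : ℝ) (hη : ηn ≤ B.eta i0) : TR (B.Sj i0 e he) :=
  nf (B.V i0) e he (B.Zr i0) ηn (hη.trans (B.eta1 i0)) (Id_anti hη (B.Zr_mem i0))
/-- coefficients of the slab of `i` -/
def rT (ok : B.Ok i0 i b ηn δ) (a : Fin 3) : TR (B.Sj i0 e he) :=
  nf (B.V i0) e he (B.ρ i0 i a) (B.ρl i0 a) (B.ρl_le i0 a) (ok.ρ_mem a)
/-- coefficients of the sheet of `i` -/
def cT (ok : B.Ok i0 i b ηn δ) (a : Fin 4) : TR (B.Sj i0 e he) :=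
  nf (B.V i0) e he (B.ζ i0 i a) (B.ζl i0 ηn a) (ok.ζl_le a) (ok.ζ_mem a)

/-- the cell of `t` of the window `i` -/
theorem tc_mem {i : ℕ} (h : B.q i0 ≤ B.q i) : QS.mk (B.tc i - B.tc i0) ∈ Id S (B.q i0) := by
  have h1 := (Id S _).sub_mem (B.T_mem i0) (Id_anti h (B.T_mem i))
  rw [← map_sub, sub_sub_sub_cancel_left] at h1
  exact h1

theorem yc_mem {i : ℕ} (h : B.q i0 ≤ B.q i) : QS.mk (B.yc i - B.yc i0) ∈ Id S (B.q i0) := by
  have h1 := (Id S _).sub_mem (B.Y_mem i0) (Id_anti h (B.Y_mem i))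
  rw [← map_sub, sub_sub_sub_cancel_left] at h1
  exact h1

/-- the centre of the cell of `t` of the window `i` -/
def tcT {i : ℕ} (h : B.q i0 ≤ B.q i) : TR (B.Sj i0 e he) :=
  nf (B.V i0) e he (B.tc i - B.tc i0) (B.q i0) (B.q1 i0) (B.tc_mem i0 h)
/-- the centre of the cell of `y` of the window `i` -/
def ycT {i : ℕ} (h : B.q i0 ≤ B.q i) : TR (B.Sj i0 e he) :=
  nf (B.V i0) e he (B.yc i - B.yc i0) (B.q i0) (B.q1 i0) (B.yc_mem i0 h)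

variable {i0 e he}

/-! digits -/

theorem tT_dg (u : ℝ) : TR.dg (B.tT i0 e he) u = chgL (B.V i0) e he (TR.dg (B.t - B.tc i0) (B.q i0 + e * u)) := nf_dg u
theorem yT_dg (u : ℝ) : TR.dg (B.yT i0 e he) u = chgL (B.V i0) e he (TR.dg (B.y - B.yc i0) (B.q i0 + e * u)) := nf_dg u
theorem RT_dg (u : ℝ) : TR.dg (B.RT i0 e he) u = chgL (B.V i0) e he (TR.dg (B.Rr i0) (B.lam i0 + e * u)) := nf_dg u
theorem zT_dg {hη : ηn ≤ B.eta i0} (u : ℝ) :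
    TR.dg (B.zT i0 e he ηn hη) u = chgL (B.V i0) e he (TR.dg (B.Zr i0) (ηn + e * u)) := nf_dg u

/-! the coefficients are literally known to the label -/

theorem rT_lt (ok : B.Ok i0 i b ηn δ) (a : Fin 3) : ∀ᶠ k in UF, ∀ ω ω', (S.F k).μ ω ≠ 0 → (S.F k).μ ω' ≠ 0 →
    B.V i k ω ω' → (S.F k).Z ω ω' → (B.rT i0 e he ok a).1 k ω = (B.rT i0 e he ok a).1 k ω' :=
  nf_lt (B.ρ_lt i0 i ok.h a)
theorem cT_lt (ok : B.Ok i0 i b ηn δ) (a : Fin 4) : ∀ᶠ k in UF, ∀ ω ω', (S.F k).μ ω ≠ 0 → (S.F k).μ ω' ≠ 0 →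
    B.V i k ω ω' → (S.F k).Z ω ω' → (B.cT i0 e he ok a).1 k ω = (B.cT i0 e he ok a).1 k ω' :=
  nf_lt (B.ζ_lt i0 i ok.h a)
theorem tcT_lt (h : B.q i0 ≤ B.q i) : ∀ᶠ k in UF, ∀ ω ω', (S.F k).μ ω ≠ 0 → (S.F k).μ ω' ≠ 0 →
    B.V i k ω ω' → (S.F k).Z ω ω' → (B.tcT i0 e he h).1 k ω = (B.tcT i0 e he h).1 k ω' :=
  nf_lt ((B.lt i).sub ((B.lt i0).mono (B.nest i0 i h)))
theorem ycT_lt (h : B.q i0 ≤ B.q i) : ∀ᶠ k in UF, ∀ ω ω', (S.F k).μ ω ≠ 0 → (S.F k).μ ω' ≠ 0 →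
    B.V i k ω ω' → (S.F k).Z ω ω' → (B.ycT i0 e he h).1 k ω = (B.ycT i0 e he h).1 k ω' :=
  nf_lt ((B.ly i).sub ((B.ly i0).mono (B.nest i0 i h)))

/-! frames -/

/-- the cell of `t` -/
theorem t_frame (h : B.q i0 ≤ B.q i) : TR.Ag ((B.q i - B.q i0) / e) (B.tT i0 e he) (B.tcT i0 e he h) := by
  apply nf_rel (B.T_mem i) (B.q1 i)
  refine ((nf_typ (hr := B.q1 i0) (hf := B.T_mem i0) (Z := B.V i0) (e := e) (he := he)).and
    (nf_typ (hr := B.q1 i0) (hf := B.tc_mem i0 h) (Z := B.V i0) (e := e) (he := he))).mono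
    (Eventually.of_forall fun k ω _ hh => ?_)
  have h1 : B.t.1 k ω - (B.tc i0).1 k ω = S.dl (B.q i0) k * (B.tT i0 e he).1 k ω := hh.1
  have h2 : (B.tc i).1 k ω - (B.tc i0).1 k ω = S.dl (B.q i0) k * (B.tcT i0 e he h).1 k ω := hh.2
  show S.dl (B.q i0) k * ((B.tT i0 e he).1 k ω - (B.tcT i0 e he h).1 k ω) = B.t.1 k ω - (B.tc i).1 k ω
  rw [mul_sub, ← h1, ← h2]
  ring

/-- the cell of `y` -/
theorem y_frame (h : B.q i0 ≤ B.q i) : TR.Ag ((B.q i - B.q i0) / e) (B.yT i0 e he) (B.ycT i0 e he h) := by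
  apply nf_rel (B.Y_mem i) (B.q1 i)
  refine ((nf_typ (hr := B.q1 i0) (hf := B.Y_mem i0) (Z := B.V i0) (e := e) (he := he)).and
    (nf_typ (hr := B.q1 i0) (hf := B.yc_mem i0 h) (Z := B.V i0) (e := e) (he := he))).mono
    (Eventually.of_forall fun k ω _ hh => ?_)
  have h1 : B.y.1 k ω - (B.yc i0).1 k ω = S.dl (B.q i0) k * (B.yT i0 e he).1 k ω := hh.1
  have h2 : (B.yc i).1 k ω - (B.yc i0).1 k ω = S.dl (B.q i0) k * (B.ycT i0 e he h).1 k ω := hh.2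
  show S.dl (B.q i0) k * ((B.yT i0 e he).1 k ω - (B.ycT i0 e he h).1 k ω) = B.y.1 k ω - (B.yc i).1 k ω
  rw [mul_sub, ← h1, ← h2]
  ring

/-- THE SLAB of the window `i` in the box of `i0` -/
theorem R_frame (ok : B.Ok i0 i b ηn δ) : TR.Ag ((B.lam i - B.lam i0) / e) (B.RT i0 e he)
    (B.rT i0 e he ok 0 + B.rT i0 e he ok 1 * B.tT i0 e he + B.rT i0 e he ok 2 * B.yT i0 e he) := by
  apply nf_rel (B.Rr_mem i) (B.lam1 i)
  refine (((((nf_typ (hr := B.lam1 i0) (hf := B.Rr_mem i0) (Z := B.V i0) (e := e) (he := he)).and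
    (nf_typ (hr := B.ρl_le i0 0) (hf := ok.ρ_mem 0) (Z := B.V i0) (e := e) (he := he))).and
    (nf_typ (hr := B.ρl_le i0 1) (hf := ok.ρ_mem 1) (Z := B.V i0) (e := e) (he := he))).and
    (nf_typ (hr := B.ρl_le i0 2) (hf := ok.ρ_mem 2) (Z := B.V i0) (e := e) (he := he))).and
    ((nf_typ (hr := B.q1 i0) (hf := B.T_mem i0) (Z := B.V i0) (e := e) (he := he)).and
    (nf_typ (hr := B.q1 i0) (hf := B.Y_mem i0) (Z := B.V i0) (e := e) (he := he)))).mono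
    (Eventually.of_forall fun k ω _ h => ?_)
  obtain ⟨⟨⟨⟨h1, h2⟩, h3⟩, h4⟩, h5, h6⟩ := h
  have e0 := congrFun (congrFun (congrArg Subtype.val (B.Rr_eq i0 i)) k) ω
  have e0' : (B.Rr i0).1 k ω = (B.Rr i).1 k ω + ((B.ρ i0 i 0).1 k ω + (B.ρ i0 i 1).1 k ω * (B.t - B.tc i0).1 k ω +
    (B.ρ i0 i 2).1 k ω * (B.y - B.yc i0).1 k ω) := e0
  rw [h1, h2, h3, h4, h5, h6] at e0'
  have l0 : S.dl (B.ρl i0 0) k = S.dl (B.lam i0) k := rfl
  have l1 : S.dl (B.ρl i0 1) k * S.dl (B.q i0) k = S.dl (B.lam i0) k := by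
    rw [← dl_add]
    congr 1
    show (if (1 : Fin 3) = 0 then _ else _) + _ = _
    rw [if_neg (by decide)]
    ring
  have l2 : S.dl (B.ρl i0 2) k * S.dl (B.q i0) k = S.dl (B.lam i0) k := by
    rw [← dl_add]
    congr 1
    show (if (2 : Fin 3) = 0 then _ else _) + _ = _
    rw [if_neg (by decide)]
    ring
  rw [l0] at e0'
  show S.dl (B.lam i0) k * ((B.RT i0 e he).1 k ω - ((B.rT i0 e he ok 0).1 k ω + (B.rT i0 e he ok 1).1 k ω *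
    (B.tT i0 e he).1 k ω + (B.rT i0 e he ok 2).1 k ω * (B.yT i0 e he).1 k ω)) = (B.Rr i).1 k ω
  have e1 : S.dl (B.lam i0) k * (B.RT i0 e he).1 k ω = (B.Rr i).1 k ω + (S.dl (B.lam i0) k * (B.rT i0 e he ok 0).1 k ω +
    S.dl (B.ρl i0 1) k * (B.rT i0 e he ok 1).1 k ω * (S.dl (B.q i0) k * (B.tT i0 e he).1 k ω) +
    S.dl (B.ρl i0 2) k * (B.rT i0 e he ok 2).1 k ω * (S.dl (B.q i0) k * (B.yT i0 e he).1 k ω)) := e0'
  have e2 : S.dl (B.ρl i0 1) k * (B.rT i0 e he ok 1).1 k ω * (S.dl (B.q i0) k * (B.tT i0 e he).1 k ω) =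
      S.dl (B.lam i0) k * ((B.rT i0 e he ok 1).1 k ω * (B.tT i0 e he).1 k ω) := by rw [← l1]; ring
  have e3 : S.dl (B.ρl i0 2) k * (B.rT i0 e he ok 2).1 k ω * (S.dl (B.q i0) k * (B.yT i0 e he).1 k ω) =
      S.dl (B.lam i0) k * ((B.rT i0 e he ok 2).1 k ω * (B.yT i0 e he).1 k ω) := by rw [← l2]; ring
  rw [e2, e3] at e1
  rw [mul_sub, e1]
  ring

/-- THE SHEET of the window `i` in the box of `i0` -/
theorem z_frame (ok : B.Ok i0 i b ηn δ) : TR.Ag ((B.eta i - ηn) / e) (B.zT i0 e he ηn ok.he)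
    (B.cT i0 e he ok 0 + B.cT i0 e he ok 1 * B.tT i0 e he + B.cT i0 e he ok 2 * B.yT i0 e he +
      B.cT i0 e he ok 3 * B.RT i0 e he) := by
  apply nf_rel (B.Zr_mem i) (B.eta1 i)
  refine ((((((nf_typ (hr := ok.he.trans (B.eta1 i0)) (hf := Id_anti ok.he (B.Zr_mem i0)) (Z := B.V i0) (e := e)
    (he := he)).and
    (nf_typ (hr := ok.ζl_le 0) (hf := ok.ζ_mem 0) (Z := B.V i0) (e := e) (he := he))).and
    (nf_typ (hr := ok.ζl_le 1) (hf := ok.ζ_mem 1) (Z := B.V i0) (e := e) (he := he))).and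
    (nf_typ (hr := ok.ζl_le 2) (hf := ok.ζ_mem 2) (Z := B.V i0) (e := e) (he := he))).and
    (nf_typ (hr := ok.ζl_le 3) (hf := ok.ζ_mem 3) (Z := B.V i0) (e := e) (he := he))).and
    (((nf_typ (hr := B.q1 i0) (hf := B.T_mem i0) (Z := B.V i0) (e := e) (he := he)).and
    (nf_typ (hr := B.q1 i0) (hf := B.Y_mem i0) (Z := B.V i0) (e := e) (he := he))).and
    (nf_typ (hr := B.lam1 i0) (hf := B.Rr_mem i0) (Z := B.V i0) (e := e) (he := he)))).mono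
    (Eventually.of_forall fun k ω _ h => ?_)
  obtain ⟨⟨⟨⟨⟨h1, h2⟩, h3⟩, h4⟩, h5⟩, ⟨h6, h7⟩, h8⟩ := h
  have e0 := congrFun (congrFun (congrArg Subtype.val (B.Zr_eq i0 i)) k) ω
  have e0' : (B.Zr i0).1 k ω = (B.Zr i).1 k ω + ((B.ζ i0 i 0).1 k ω + (B.ζ i0 i 1).1 k ω * (B.t - B.tc i0).1 k ω +
    (B.ζ i0 i 2).1 k ω * (B.y - B.yc i0).1 k ω + (B.ζ i0 i 3).1 k ω * (B.Rr i0).1 k ω) := e0
  rw [h1, h2, h3, h4, h5, h6, h7, h8] at e0'
  have l0 : S.dl (B.ζl i0 ηn 0) k = S.dl ηn k := rfl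
  have l1 : S.dl (B.ζl i0 ηn 1) k * S.dl (B.q i0) k = S.dl ηn k := by
    rw [← dl_add]
    congr 1
    show (if (1 : Fin 4) = 0 then _ else if (1 : Fin 4) = 3 then _ else _) + _ = _
    rw [if_neg (by decide), if_neg (by decide)]
    ring
  have l2 : S.dl (B.ζl i0 ηn 2) k * S.dl (B.q i0) k = S.dl ηn k := by
    rw [← dl_add]
    congr 1
    show (if (2 : Fin 4) = 0 then _ else if (2 : Fin 4) = 3 then _ else _) + _ = _
    rw [if_neg (by decide), if_neg (by decide)]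
    ring
  have l3 : S.dl (B.ζl i0 ηn 3) k * S.dl (B.lam i0) k = S.dl ηn k := by
    rw [← dl_add]
    congr 1
    show (if (3 : Fin 4) = 0 then _ else if (3 : Fin 4) = 3 then _ else _) + _ = _
    rw [if_neg (by decide), if_pos rfl]
    ring
  rw [l0] at e0'
  show S.dl ηn k * ((B.zT i0 e he ηn ok.he).1 k ω - ((B.cT i0 e he ok 0).1 k ω + (B.cT i0 e he ok 1).1 k ω *
    (B.tT i0 e he).1 k ω + (B.cT i0 e he ok 2).1 k ω * (B.yT i0 e he).1 k ω +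
    (B.cT i0 e he ok 3).1 k ω * (B.RT i0 e he).1 k ω)) = (B.Zr i).1 k ω
  have e1 : S.dl ηn k * (B.zT i0 e he ηn ok.he).1 k ω = (B.Zr i).1 k ω + (S.dl ηn k * (B.cT i0 e he ok 0).1 k ω +
    S.dl (B.ζl i0 ηn 1) k * (B.cT i0 e he ok 1).1 k ω * (S.dl (B.q i0) k * (B.tT i0 e he).1 k ω) +
    S.dl (B.ζl i0 ηn 2) k * (B.cT i0 e he ok 2).1 k ω * (S.dl (B.q i0) k * (B.yT i0 e he).1 k ω) +
    S.dl (B.ζl i0 ηn 3) k * (B.cT i0 e he ok 3).1 k ω * (S.dl (B.lam i0) k * (B.RT i0 e he).1 k ω)) := e0'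
  have e2 : S.dl (B.ζl i0 ηn 1) k * (B.cT i0 e he ok 1).1 k ω * (S.dl (B.q i0) k * (B.tT i0 e he).1 k ω) =
      S.dl ηn k * ((B.cT i0 e he ok 1).1 k ω * (B.tT i0 e he).1 k ω) := by rw [← l1]; ring
  have e3 : S.dl (B.ζl i0 ηn 2) k * (B.cT i0 e he ok 2).1 k ω * (S.dl (B.q i0) k * (B.yT i0 e he).1 k ω) =
      S.dl ηn k * ((B.cT i0 e he ok 2).1 k ω * (B.yT i0 e he).1 k ω) := by rw [← l2]; ring
  have e4 : S.dl (B.ζl i0 ηn 3) k * (B.cT i0 e he ok 3).1 k ω * (S.dl (B.lam i0) k * (B.RT i0 e he).1 k ω) =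
      S.dl ηn k * ((B.cT i0 e he ok 3).1 k ω * (B.RT i0 e he).1 k ω) := by rw [← l3]; ring
  rw [e2, e3, e4] at e1
  rw [mul_sub, e1]
  ring

end BD

end

end Pool.Agent.Helper98.FR
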