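import Mathlib

/-! FUNCTIONAL REPRESENTATION of a kernel (rejection sampling from lists), finite form. -/

set_option autoImplicit false

namespace Pool.Agent.Helper98.FR.Rep

open Finset

noncomputable section

/-- probability weights -/
def Wt {α : Type} [Fintype α] (ν : α → ℝ) : Prop := (∀ a, 0 ≤ ν a) ∧ ∑ a, ν a = 1

section pi

variable {ι α : Type} [Fintype ι] [DecidableEq ι] [Fintype α]

/-- product weights -/
def piw (ν : ι → α → ℝ) (z : ι → α) : ℝ := ∏ i, ν i (z i)

theorem piw_marg {ν : ι → α → ℝ} (h : ∀ i, ∑ a, ν i a = 1) (i0 : ι) (g : α → ℝ) :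
    ∑ z, piw ν z * g (z i0) = ∑ a, ν i0 a * g a := by
  have h1 := Finset.prod_univ_sum (fun _ : ι => (univ : Finset α)) (fun i a => ν i a * (if i = i0 then g a else 1))
  rw [Fintype.piFinset_univ] at h1
  have h2 : ∏ i, ∑ a, ν i a * (if i = i0 then g a else 1) = ∑ a, ν i0 a * g a := by
    rw [Finset.prod_eq_single i0]
    · simp
    · intro i _ hi
      simp only [if_neg hi, mul_one]
      exact h i
    · intro hi
      exact absurd (Finset.mem_univ _) hi
  rw [h2] at h1
  rw [h1]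
  apply Finset.sum_congr rfl
  intro z _
  rw [Finset.prod_mul_distrib, Finset.prod_ite_eq' univ i0 (fun i => g (z i)), if_pos (Finset.mem_univ _)]
  rfl

theorem piw_wt {ν : ι → α → ℝ} (h : ∀ i, Wt (ν i)) : Wt (piw ν) := by
  refine ⟨fun z => Finset.prod_nonneg fun i _ => (h i).1 _, ?_⟩
  have h1 := Finset.prod_univ_sum (fun _ : ι => (univ : Finset α)) ν
  rw [Fintype.piFinset_univ] at h1
  have h2 : ∏ i, ∑ a, ν i a = 1 := Finset.prod_eq_one fun i _ => (h i).2
  rw [h2] at h1
  exact h1.symm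

end pi

variable {X V B Λ : Type} [Fintype X] [DecidableEq X] [Fintype V]

/-- weights of a trial: a value and the answers of all points -/
def tri (q : V → ℝ) (a : X → V → ℝ) (w : V × (X → Bool)) : ℝ :=
  q w.1 * piw (fun x (c : Bool) => if c = true then a x w.1 else 1 - a x w.1) w.2

theorem tri_marg {q : V → ℝ} {a : X → V → ℝ} (x : X) (h : V → Bool → ℝ) :
    ∑ w, tri q a w * h w.1 (w.2 x) = ∑ v, q v * (a x v * h v true + (1 - a x v) * h v false) := by
  rw [Fintype.sum_prod_type]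
  apply Finset.sum_congr rfl
  intro v _
  have h1 : ∀ i : X, ∑ c : Bool, (if c = true then a i v else 1 - a i v) = 1 := fun i => by
    rw [Fintype.sum_bool]; simp
  have h2 := piw_marg h1 x (h v)
  rw [Fintype.sum_bool] at h2
  simp only [if_true, Bool.false_eq_true, if_false] at h2
  unfold tri
  simp only [mul_assoc]
  rw [← Finset.mul_sum, h2]

theorem tri_wt {q : V → ℝ} {a : X → V → ℝ} (hq : Wt q) (ha0 : ∀ x v, 0 ≤ a x v) (ha1 : ∀ x v, a x v ≤ 1) :
    Wt (tri q a) := by
  have hb : ∀ v, Wt (piw (fun x (c : Bool) => if c = true then a x v else 1 - a x v)) := fun v => by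
    apply piw_wt
    intro x
    refine ⟨fun c => ?_, by rw [Fintype.sum_bool]; simp⟩
    show 0 ≤ if c = true then a x v else 1 - a x v
    split_ifs
    · exact ha0 x v
    · have := ha1 x v
      linarith
  refine ⟨fun w => mul_nonneg (hq.1 _) ((hb _).1 _), ?_⟩
  rw [Fintype.sum_prod_type]
  have h1 : ∀ v, ∑ c, tri q a (v, c) = q v := fun v => by
    have h2 : ∑ c, tri q a (v, c) = ∑ c, q v * piw (fun x (c : Bool) => if c = true then a x v else 1 - a x v) c := rfl
    rw [h2, ← Finset.mul_sum, (hb v).2, mul_one]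
  rw [Finset.sum_congr rfl fun v _ => h1 v]
  exact hq.2

variable [Fintype B] [DecidableEq B] [Fintype Λ] [DecidableEq Λ]

/-- acceptance probabilities -/
def ac (W : X → V → ℝ) (q : B → V → ℝ) (b : X → B) (lev : X → V → Λ) (w : Λ → ℕ) (l : Λ) (x : X) (v : V) : ℝ :=
  if lev x v = l then W x v / q (b x) v / 2 ^ w l else 0

variable {W : X → V → ℝ} {q : B → V → ℝ} {b : X → B} {lev : X → V → Λ} {w : Λ → ℕ}

omit [Fintype X] [DecidableEq X] [Fintype B] [DecidableEq B] [Fintype Λ] in
theorem ac_nonneg (hW : ∀ x, Wt (W x)) (hq : ∀ c, Wt (q c)) (l : Λ) (x : X) (v : V) : 0 ≤ ac W q b lev w l x v := by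
  unfold ac
  split_ifs
  · exact div_nonneg (div_nonneg ((hW x).1 v) ((hq _).1 v)) (by positivity)
  · exact le_rfl

omit [Fintype X] [DecidableEq X] [Fintype B] [DecidableEq B] [Fintype Λ] in
theorem ac_le_one (hq : ∀ c, Wt (q c)) (hlev : ∀ x v, W x v ≤ 2 ^ w (lev x v) * q (b x) v) (l : Λ) (x : X) (v : V) :
    ac W q b lev w l x v ≤ 1 := by
  unfold ac
  split_ifs with h
  · subst h
    rw [div_le_one (by positivity)]
    rcases ((hq (b x)).1 v).eq_or_lt with h0 | h0
    · rw [← h0, div_zero]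
      positivity
    · rw [div_le_iff₀ h0]
      exact hlev x v
  · exact zero_le_one

omit [Fintype X] [DecidableEq X] [Fintype B] [DecidableEq B] [Fintype Λ] in
theorem q_ac (hq : ∀ c, Wt (q c)) (hac : ∀ x v, q (b x) v = 0 → W x v = 0) (l : Λ) (x : X) (v : V) :
    q (b x) v * ac W q b lev w l x v = (if lev x v = l then W x v else 0) / 2 ^ w l := by
  unfold ac
  split_ifs with h
  · rcases ((hq (b x)).1 v).eq_or_lt with h0 | h0
    · rw [← h0, zero_mul, hac x v h0.symm, zero_div]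
    · field_simp
  · rw [mul_zero, zero_div]

/-- probability of the level -/
def pl (W : X → V → ℝ) (lev : X → V → Λ) (x : X) (l : Λ) : ℝ := ∑ v, if lev x v = l then W x v else 0

omit [Fintype X] [DecidableEq X] [Fintype Λ] in
theorem pl_nonneg (hW : ∀ x, Wt (W x)) (x : X) (l : Λ) : 0 ≤ pl W lev x l :=
  Finset.sum_nonneg fun v _ => by
    split_ifs
    · exact (hW x).1 v
    · exact le_rfl

omit [Fintype X] [DecidableEq X] [Fintype Λ] in
theorem pl_le_one (hW : ∀ x, Wt (W x)) (x : X) (l : Λ) : pl W lev x l ≤ 1 := by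
  rw [← (hW x).2]
  apply Finset.sum_le_sum
  intro v _
  split_ifs
  · exact le_rfl
  · exact (hW x).1 v

/-- rate of acceptance -/
def al (W : X → V → ℝ) (lev : X → V → Λ) (w : Λ → ℕ) (x : X) (l : Λ) : ℝ := pl W lev x l / 2 ^ w l

omit [Fintype X] [DecidableEq X] [Fintype Λ] in
theorem al_nonneg (hW : ∀ x, Wt (W x)) (x : X) (l : Λ) : 0 ≤ al W lev w x l :=
  div_nonneg (pl_nonneg hW x l) (by positivity)

omit [Fintype X] [DecidableEq X] [Fintype Λ] in
theorem al_le_one (hW : ∀ x, Wt (W x)) (x : X) (l : Λ) : al W lev w x l ≤ 1 := by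
  unfold al
  rw [div_le_one (by positivity)]
  exact (pl_le_one hW x l).trans (one_le_pow₀ (by norm_num))

omit [Fintype X] [DecidableEq X] [Fintype B] [DecidableEq B] [Fintype Λ] in
theorem sum_q_ac (hq : ∀ c, Wt (q c)) (hac : ∀ x v, q (b x) v = 0 → W x v = 0) (l : Λ) (x : X) (h : V → ℝ) :
    ∑ v, q (b x) v * (ac W q b lev w l x v * h v) = (∑ v, if lev x v = l then W x v * h v else 0) / 2 ^ w l := by
  rw [Finset.sum_div]
  apply Finset.sum_congr rfl
  intro v _
  rw [← mul_assoc, q_ac hq hac]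
  split_ifs
  · ring
  · simp

/-- a representation with `N` trials -/
structure Rp (W : X → V → ℝ) (b : X → B) (lev : X → V → Λ) (w : Λ → ℕ) (N : ℕ) where
  R : Type
  ft : Fintype R
  ν : R → ℝ
  wt : Wt ν
  f : X → R → V
  g : X → R → Λ
  k : X → R → ℕ
  D : R → B → Λ → ℕ → V
  law : ∀ x (h : Λ → V → ℝ), ∑ r, ν r * h (g x r) (f x r) = ∑ v, W x v * h (lev x v) v
  cnt : ∀ x l, ∑ r, ν r * (if g x r = l then (k x r : ℝ) + 1 else 0) ≤ 2 ^ w l
  fail : ∀ x l, ∑ r, ν r * (if g x r = l ∧ k x r = N then 1 else 0) ≤ pl W lev x l * (1 - al W lev w x l) ^ N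
  kle : ∀ x r, k x r ≤ N
  dec : ∀ x r, k x r < N → f x r = D r (b x) (g x r) (k x r)

attribute [instance] Rp.ft

/-- the trivial representation -/
def rp0 [Nonempty V] (hW : ∀ x, Wt (W x)) : Rp W b lev w 0 where
  R := X → V
  ft := inferInstance
  ν := piw W
  wt := piw_wt hW
  f := fun x r => r x
  g := fun x r => lev x (r x)
  k := fun _ _ => 0
  D := fun _ _ _ _ => Classical.arbitrary V
  law := fun x h => piw_marg (fun i => (hW i).2) x (fun v => h (lev x v) v)
  cnt := fun x l => by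
    have h1 := piw_marg (fun i => (hW i).2) x (fun v => if lev x v = l then (((0 : ℕ) : ℝ) + 1) else 0)
    refine h1.le.trans ?_
    have h2 : ∑ a, W x a * (if lev x a = l then (((0 : ℕ) : ℝ) + 1) else 0) = pl W lev x l := by
      unfold pl
      apply Finset.sum_congr rfl
      intro v _
      split_ifs <;> simp
    rw [h2]
    exact (pl_le_one hW x l).trans (one_le_pow₀ (by norm_num))
  fail := fun x l => by
    have h1 := piw_marg (fun i => (hW i).2) x (fun v => if lev x v = l ∧ (0 : ℕ) = 0 then (1 : ℝ) else 0)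
    refine h1.le.trans ?_
    have h2 : ∑ a, W x a * (if lev x a = l ∧ (0 : ℕ) = 0 then (1 : ℝ) else 0) = pl W lev x l := by
      unfold pl
      apply Finset.sum_congr rfl
      intro v _
      simp only [and_true]
      split_ifs <;> simp
    rw [h2, pow_zero, mul_one]
  kle := fun _ _ => le_rfl
  dec := fun _ _ h => absurd h (Nat.not_lt_zero _)

omit [Fintype Λ] [Fintype B] [DecidableEq B] in
theorem step_sum {R : Type} [Fintype R] {ν : R → ℝ} {g : X → R → Λ}
    (θ : (Λ × B → V × (X → Bool)) → ℝ) [Fintype (Λ × B → V × (X → Bool))] (x : X)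
    (hθ : ∀ (i : Λ × B) (h : V × (X → Bool) → ℝ), ∑ z, θ z * h (z i) =
      ∑ u, tri (q i.2) (fun x v => ac W q b lev w i.1 x v) u * h u)
    (H : R → V → Bool → ℝ) :
    ∑ z : (Λ × B → V × (X → Bool)) × R, θ z.1 * ν z.2 * H z.2 (z.1 (g x z.2, b x)).1 ((z.1 (g x z.2, b x)).2 x) =
      ∑ r, ν r * ∑ v, q (b x) v * (ac W q b lev w (g x r) x v * H r v true +
        (1 - ac W q b lev w (g x r) x v) * H r v false) := by
  rw [Fintype.sum_prod_type_right]
  apply Finset.sum_congr rfl
  intro r _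
  have h1 := hθ (g x r, b x) (fun u => H r u.1 (u.2 x))
  have h2 := tri_marg (q := q (b x)) (a := fun x' v => ac W q b lev w (g x r) x' v) x (H r)
  refine Eq.trans ?_ (congrArg (fun t => ν r * t) (h1.trans h2))
  show _ = ν r * ∑ z, θ z * H r (z (g x r, b x)).1 ((z (g x r, b x)).2 x)
  rw [Finset.mul_sum]
  apply Finset.sum_congr rfl
  intro z _
  show θ z * ν r * H r (z (g x r, b x)).1 ((z (g x r, b x)).2 x) = _
  ring

/-- one more trial -/
def rps (hW : ∀ x, Wt (W x)) (hq : ∀ c, Wt (q c)) (hac : ∀ x v, q (b x) v = 0 → W x v = 0)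
    (hlev : ∀ x v, W x v ≤ 2 ^ w (lev x v) * q (b x) v) {N : ℕ} (P : Rp W b lev w N) : Rp W b lev w (N + 1) := by
  classical
  set θ : (Λ × B → V × (X → Bool)) → ℝ := piw (fun i => tri (q i.2) (fun x v => ac W q b lev w i.1 x v)) with hθd
  have ht : ∀ i : Λ × B, Wt (tri (q i.2) (fun x v => ac W q b lev w i.1 x v)) := fun i =>
    tri_wt (hq i.2) (fun x v => ac_nonneg hW hq _ _ _) (fun x v => ac_le_one hq hlev _ _ _)
  have hθ : ∀ (i : Λ × B) (h : V × (X → Bool) → ℝ), ∑ z, θ z * h (z i) =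
      ∑ u, tri (q i.2) (fun x v => ac W q b lev w i.1 x v) u * h u := fun i h => piw_marg (fun i => (ht i).2) i h
  have hθw : Wt θ := piw_wt ht
  have hal : ∀ x l, ∑ v, q (b x) v * ac W q b lev w l x v = al W lev w x l := fun x l => by
    have h1 := sum_q_ac (lev := lev) (w := w) hq hac l x (fun _ => 1)
    simp only [mul_one] at h1
    exact h1
  have hql : ∀ x l, ∑ v, q (b x) v * (1 - ac W q b lev w l x v) = 1 - al W lev w x l := fun x l => by
    have h1 : ∑ v, q (b x) v * (1 - ac W q b lev w l x v) = ∑ v, q (b x) v - ∑ v, q (b x) v * ac W q b lev w l x v := by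
      rw [← Finset.sum_sub_distrib]
      apply Finset.sum_congr rfl
      intro v _
      ring
    rw [h1, (hq _).2, hal]
  exact
  { R := (Λ × B → V × (X → Bool)) × P.R
    ft := inferInstance
    ν := fun z => θ z.1 * P.ν z.2
    wt := ⟨fun z => mul_nonneg (hθw.1 _) (P.wt.1 _), by
      rw [Fintype.sum_prod_type, ← Finset.sum_mul_sum, hθw.2, P.wt.2, one_mul]⟩
    f := fun x z => if (z.1 (P.g x z.2, b x)).2 x = true then (z.1 (P.g x z.2, b x)).1 else P.f x z.2
    g := fun x z => P.g x z.2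
    k := fun x z => if (z.1 (P.g x z.2, b x)).2 x = true then 0 else P.k x z.2 + 1
    D := fun z c l j => if j = 0 then (z.1 (l, c)).1 else P.D z.2 c l (j - 1)
    law := fun x h => by
      have h1 := step_sum (b := b) (g := P.g) (ν := P.ν) (w := w) θ x hθ
        (fun r v c => h (P.g x r) (if c = true then v else P.f x r))
      refine h1.trans ?_
      simp only [if_true, Bool.false_eq_true, if_false]
      have h2 : ∀ r, P.ν r * ∑ v, q (b x) v * (ac W q b lev w (P.g x r) x v * h (P.g x r) v +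
          (1 - ac W q b lev w (P.g x r) x v) * h (P.g x r) (P.f x r)) =
          P.ν r * ((∑ v, if lev x v = P.g x r then W x v * h (P.g x r) v else 0) / 2 ^ w (P.g x r)) +
          P.ν r * ((1 - al W lev w x (P.g x r)) * h (P.g x r) (P.f x r)) := fun r => by
        rw [← mul_add, ← sum_q_ac (lev := lev) (w := w) hq hac (P.g x r) x (h (P.g x r)), ← hql, Finset.sum_mul,
          ← Finset.sum_add_distrib]
        congr 1
        apply Finset.sum_congr rfl
        intro v _
        ring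
      rw [Finset.sum_congr rfl fun r _ => h2 r, Finset.sum_add_distrib,
        P.law x (fun l _ => (∑ v, if lev x v = l then W x v * h l v else 0) / 2 ^ w l),
        P.law x (fun l v => (1 - al W lev w x l) * h l v)]
      have h3 : ∑ v, W x v * ((∑ v', if lev x v' = lev x v then W x v' * h (lev x v) v' else 0) / 2 ^ w (lev x v)) =
          ∑ v, W x v * (al W lev w x (lev x v) * h (lev x v) v) := by
        have e1 : ∀ v, W x v * ((∑ v', if lev x v' = lev x v then W x v' * h (lev x v) v' else 0) / 2 ^ w (lev x v)) =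
            ∑ v', if lev x v' = lev x v then W x v * W x v' * h (lev x v) v' / 2 ^ w (lev x v) else 0 := fun v => by
          rw [Finset.sum_div, Finset.mul_sum]
          apply Finset.sum_congr rfl
          intro v' _
          split_ifs
          · ring
          · simp
        have e2 : ∀ v, W x v * (al W lev w x (lev x v) * h (lev x v) v) =
            ∑ v', if lev x v = lev x v' then W x v' * W x v * h (lev x v') v / 2 ^ w (lev x v') else 0 := fun v => by
          unfold al pl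
          rw [Finset.sum_div, Finset.sum_mul, Finset.mul_sum]
          apply Finset.sum_congr rfl
          intro v' _
          by_cases h5 : lev x v' = lev x v
          · rw [if_pos h5, if_pos h5.symm, h5]
            ring
          · rw [if_neg h5, if_neg (fun h6 => h5 h6.symm)]
            simp
        rw [Finset.sum_congr rfl fun v _ => e1 v, Finset.sum_congr rfl fun v _ => e2 v, Finset.sum_comm]
      rw [h3, ← Finset.sum_add_distrib]
      apply Finset.sum_congr rfl
      intro v _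
      ring
    cnt := fun x l => by
      have h1 := step_sum (b := b) (g := P.g) (ν := P.ν) (w := w) θ x hθ
        (fun r v c => if P.g x r = l then (((if c = true then 0 else P.k x r + 1 : ℕ) : ℝ) + 1) else 0)
      refine (le_of_eq h1).trans ?_
      simp only [if_true, Bool.false_eq_true, if_false]
      have h2 : ∀ r, P.ν r * ∑ v, q (b x) v * (ac W q b lev w (P.g x r) x v * (if P.g x r = l then (((0 : ℕ) : ℝ) + 1) else 0) +
          (1 - ac W q b lev w (P.g x r) x v) * (if P.g x r = l then (((P.k x r + 1 : ℕ) : ℝ) + 1) else 0)) =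
          P.ν r * (if P.g x r = l then 1 else 0) +
          (1 - al W lev w x l) * (P.ν r * (if P.g x r = l then (P.k x r : ℝ) + 1 else 0)) := fun r => by
        by_cases h5 : P.g x r = l
        · simp only [if_pos h5]
          rw [h5]
          have e1 : ∑ v, q (b x) v * (ac W q b lev w l x v * (((0 : ℕ) : ℝ) + 1) +
              (1 - ac W q b lev w l x v) * (((P.k x r + 1 : ℕ) : ℝ) + 1)) =
              ∑ v, q (b x) v * ac W q b lev w l x v +
              (∑ v, q (b x) v * (1 - ac W q b lev w l x v)) * (((P.k x r + 1 : ℕ) : ℝ) + 1) := by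
            rw [Finset.sum_mul, ← Finset.sum_add_distrib]
            apply Finset.sum_congr rfl
            intro v _
            push_cast
            ring
          rw [e1, hal, hql]
          push_cast
          ring
        · simp only [if_neg h5]
          simp
      rw [Finset.sum_congr rfl fun r _ => h2 r, Finset.sum_add_distrib, ← Finset.mul_sum]
      have h3 := P.law x (fun l' _ => if l' = l then 1 else 0)
      have h4 : ∑ v, W x v * (if lev x v = l then (1 : ℝ) else 0) = pl W lev x l := by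
        unfold pl
        apply Finset.sum_congr rfl
        intro v _
        split_ifs <;> simp
      rw [h3, h4]
      have h5 := P.cnt x l
      have h6 : 0 ≤ 1 - al W lev w x l := by
        have := al_le_one (w := w) (lev := lev) hW x l
        linarith
      have h7 := mul_le_mul_of_nonneg_left h5 h6
      have h8 : al W lev w x l * 2 ^ w l = pl W lev x l := by
        unfold al
        field_simp
      linarith
    fail := fun x l => by
      have h1 := step_sum (b := b) (g := P.g) (ν := P.ν) (w := w) θ x hθ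
        (fun r v c => if P.g x r = l ∧ (if c = true then 0 else P.k x r + 1) = N + 1 then (1 : ℝ) else 0)
      refine (le_of_eq h1).trans ?_
      simp only [if_true, Bool.false_eq_true, if_false]
      have h2 : ∀ r, P.ν r * ∑ v, q (b x) v * (ac W q b lev w (P.g x r) x v * (if P.g x r = l ∧ 0 = N + 1 then (1 : ℝ) else 0) +
          (1 - ac W q b lev w (P.g x r) x v) * (if P.g x r = l ∧ P.k x r + 1 = N + 1 then (1 : ℝ) else 0)) =
          (1 - al W lev w x l) * (P.ν r * (if P.g x r = l ∧ P.k x r = N then 1 else 0)) := fun r => by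
        have e0 : ¬ (P.g x r = l ∧ 0 = N + 1) := fun h => absurd h.2 (by omega)
        rw [if_neg e0]
        by_cases h5 : P.g x r = l ∧ P.k x r = N
        · have h6 : P.g x r = l ∧ P.k x r + 1 = N + 1 := ⟨h5.1, by omega⟩
          rw [if_pos h5, if_pos h6, h5.1]
          have e1 : ∑ v, q (b x) v * (ac W q b lev w l x v * 0 + (1 - ac W q b lev w l x v) * 1) =
              ∑ v, q (b x) v * (1 - ac W q b lev w l x v) := by
            apply Finset.sum_congr rfl
            intro v _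
            ring
          rw [e1, hql]
          ring
        · have h6 : ¬ (P.g x r = l ∧ P.k x r + 1 = N + 1) := fun h => h5 ⟨h.1, by omega⟩
          rw [if_neg h5, if_neg h6]
          simp
      rw [Finset.sum_congr rfl fun r _ => h2 r, ← Finset.mul_sum]
      have h6 : 0 ≤ 1 - al W lev w x l := by
        have := al_le_one (w := w) (lev := lev) hW x l
        linarith
      refine (mul_le_mul_of_nonneg_left (P.fail x l) h6).trans (le_of_eq ?_)
      rw [pow_succ]
      ring
    kle := fun x z => by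
      show (if (z.1 (P.g x z.2, b x)).2 x = true then 0 else P.k x z.2 + 1) ≤ N + 1
      split_ifs
      · omega
      · have := P.kle x z.2
        omega
    dec := fun x z h => by
      show (if (z.1 (P.g x z.2, b x)).2 x = true then (z.1 (P.g x z.2, b x)).1 else P.f x z.2) =
        if (if (z.1 (P.g x z.2, b x)).2 x = true then 0 else P.k x z.2 + 1) = 0 then (z.1 (P.g x z.2, b x)).1
        else P.D z.2 (b x) (P.g x z.2) ((if (z.1 (P.g x z.2, b x)).2 x = true then 0 else P.k x z.2 + 1) - 1)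
      have h' : (if (z.1 (P.g x z.2, b x)).2 x = true then 0 else P.k x z.2 + 1) < N + 1 := h
      by_cases h5 : (z.1 (P.g x z.2, b x)).2 x = true
      · rw [if_pos h5, if_pos h5, if_pos rfl]
      · rw [if_neg h5] at h' ⊢
        rw [if_neg h5, if_neg (by omega)]
        exact P.dec x z.2 (by omega) }

/-- representations with any number of trials -/
def rp [Nonempty V] (hW : ∀ x, Wt (W x)) (hq : ∀ c, Wt (q c)) (hac : ∀ x v, q (b x) v = 0 → W x v = 0)
    (hlev : ∀ x v, W x v ≤ 2 ^ w (lev x v) * q (b x) v) : ∀ N, Rp W b lev w N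
  | 0 => rp0 hW
  | N + 1 => rps hW hq hac hlev (rp hW hq hac hlev N)

/-! ### expected code lengths -/

theorem logb_le_two {x : ℝ} (hx : 0 < x) : Real.logb 2 x ≤ 2 * x := by
  rw [Real.logb, div_le_iff₀ (Real.log_pos (by norm_num))]
  have h1 := Real.log_le_sub_one_of_pos hx
  have h2 := Real.log_two_gt_d9
  nlinarith

theorem logb_shift {u s : ℝ} (hu : 0 < u) : Real.logb 2 u ≤ s + 2 * (u * 2 ^ (-s)) := by
  have h1 : (0 : ℝ) < 2 ^ (-s) := by positivity
  have h2 := logb_le_two (mul_pos hu h1)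
  rw [Real.logb_mul hu.ne' h1.ne', Real.logb_rpow (by norm_num) (by norm_num)] at h2
  linarith

omit [Fintype X] [DecidableEq X] [Fintype B] [DecidableEq B] in
/-- expected logarithm of the number of trials -/
theorem Rp.logk {N : ℕ} (P : Rp W b lev w N) {δ S : ℝ} (hw : Function.Injective w)
    (hS : ∀ s : Finset ℕ, ∑ n ∈ s, (2 : ℝ) ^ (-(δ * n)) ≤ S) (x : X) :
    ∑ r, P.ν r * Real.logb 2 ((P.k x r : ℝ) + 1) ≤ (1 + δ) * ∑ v, W x v * (w (lev x v) : ℝ) + 2 * S := by
  have h1 : ∀ r, P.ν r * Real.logb 2 ((P.k x r : ℝ) + 1) ≤ P.ν r * ((1 + δ) * (w (P.g x r) : ℝ)) +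
      2 * ∑ l, 2 ^ (-((1 + δ) * (w l : ℝ))) * (P.ν r * (if P.g x r = l then (P.k x r : ℝ) + 1 else 0)) := fun r => by
    have h2 : (0 : ℝ) < (P.k x r : ℝ) + 1 := by positivity
    have h3 := logb_shift (s := (1 + δ) * (w (P.g x r) : ℝ)) h2
    have h4 := mul_le_mul_of_nonneg_left h3 (P.wt.1 r)
    have h5 : ∑ l, 2 ^ (-((1 + δ) * (w l : ℝ))) * (P.ν r * (if P.g x r = l then (P.k x r : ℝ) + 1 else 0)) =
        2 ^ (-((1 + δ) * (w (P.g x r) : ℝ))) * (P.ν r * ((P.k x r : ℝ) + 1)) := by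
      rw [Finset.sum_eq_single (P.g x r)]
      · rw [if_pos rfl]
      · intro l _ hl
        rw [if_neg (Ne.symm hl), mul_zero, mul_zero]
      · intro h
        exact absurd (Finset.mem_univ _) h
    rw [h5]
    refine h4.trans (le_of_eq ?_)
    ring
  refine (Finset.sum_le_sum fun r _ => h1 r).trans ?_
  rw [Finset.sum_add_distrib, ← Finset.mul_sum, Finset.sum_comm]
  have h6 := P.law x (fun l _ => (1 + δ) * (w l : ℝ))
  rw [h6]
  have h7 : ∑ v, W x v * ((1 + δ) * (w (lev x v) : ℝ)) = (1 + δ) * ∑ v, W x v * (w (lev x v) : ℝ) := by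
    rw [Finset.mul_sum]
    apply Finset.sum_congr rfl
    intro v _
    ring
  rw [h7]
  have h8 : ∑ l, ∑ r, (2 : ℝ) ^ (-((1 + δ) * (w l : ℝ))) * (P.ν r * (if P.g x r = l then (P.k x r : ℝ) + 1 else 0)) ≤
      ∑ l, (2 : ℝ) ^ (-(δ * (w l : ℝ))) := by
    apply Finset.sum_le_sum
    intro l _
    rw [← Finset.mul_sum]
    refine (mul_le_mul_of_nonneg_left (P.cnt x l) (by positivity)).trans (le_of_eq ?_)
    rw [← Real.rpow_natCast 2 (w l), ← Real.rpow_add (by norm_num)]
    congr 1
    ring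
  have h9 : ∑ l, (2 : ℝ) ^ (-(δ * (w l : ℝ))) ≤ S := by
    have h10 := hS (Finset.univ.image w)
    rw [Finset.sum_image (fun a _ c _ h => hw h)] at h10
    exact h10
  linarith

omit [Fintype X] [DecidableEq X] [Fintype B] [DecidableEq B] in
/-- probability of failure -/
theorem Rp.failp {N : ℕ} (P : Rp W b lev w N) (x : X) :
    ∑ r, P.ν r * (if P.k x r = N then (1 : ℝ) else 0) ≤ ∑ l, pl W lev x l * (1 - al W lev w x l) ^ N := by
  have h1 : ∀ r, P.ν r * (if P.k x r = N then (1 : ℝ) else 0) =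
      ∑ l, P.ν r * (if P.g x r = l ∧ P.k x r = N then (1 : ℝ) else 0) := fun r => by
    rw [Finset.sum_eq_single (P.g x r)]
    · simp
    · intro l _ hl
      rw [if_neg (fun h => hl h.1.symm), mul_zero]
    · intro h
      exact absurd (Finset.mem_univ _) h
  rw [Finset.sum_congr rfl fun r _ => h1 r, Finset.sum_comm]
  exact Finset.sum_le_sum fun l _ => P.fail x l

omit [DecidableEq X] in
theorem fail_small (hW : ∀ x, Wt (W x)) (p : X → ℝ) (hp : ∀ x, 0 ≤ p x) {ε : ℝ} (hε : 0 < ε) :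
    ∃ N, ∑ x, p x * ∑ l, pl W lev x l * (1 - al W lev w x l) ^ N ≤ ε := by
  have h1 : Filter.Tendsto (fun N : ℕ => ∑ x, p x * ∑ l, pl W lev x l * (1 - al W lev w x l) ^ N) Filter.atTop
      (nhds (∑ x, p x * ∑ _l : Λ, (0 : ℝ))) := by
    apply tendsto_finset_sum
    intro x _
    apply Filter.Tendsto.const_mul
    apply tendsto_finset_sum
    intro l _
    rcases (pl_nonneg (lev := lev) hW x l).eq_or_lt with h2 | h2
    · rw [← h2]
      simp only [zero_mul]
      exact tendsto_const_nhds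
    · have h3 : 0 < al W lev w x l := div_pos h2 (by positivity)
      have h4 := al_le_one (w := w) (lev := lev) hW x l
      have h5 := (tendsto_pow_atTop_nhds_zero_of_lt_one (show 0 ≤ 1 - al W lev w x l by linarith) (by linarith)).const_mul
        (pl W lev x l)
      rw [mul_zero] at h5
      exact h5
  have h2 : (∑ x, p x * ∑ _l : Λ, (0 : ℝ)) = 0 := by simp
  rw [h2] at h1
  obtain ⟨N, hN⟩ := (h1.eventually (gt_mem_nhds hε)).exists
  exact ⟨N, hN.le⟩

/-! ### the code -/

/-- code lengths -/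
def cl (w : Λ → ℕ) (δ c m : ℝ) : Λ × (ℕ ⊕ V) → ℝ := fun u =>
  δ * (w u.1 : ℝ) + c + Sum.elim (fun k : ℕ => (1 + δ) * Real.logb 2 ((k : ℝ) + 1)) (fun _ => m) u.2

omit [DecidableEq Λ] in
/-- Kraft inequality -/
theorem kraft [Nonempty V] {δ S T c : ℝ} (hw : Function.Injective w)
    (hS : ∀ s : Finset ℕ, ∑ n ∈ s, (2 : ℝ) ^ (-(δ * n)) ≤ S)
    (hT : ∀ s : Finset ℕ, ∑ k ∈ s, ((k : ℝ) + 1) ^ (-(1 + δ)) ≤ T) (hT0 : 0 ≤ T) (hc : S * (T + 1) ≤ 2 ^ c)
    (s : Finset (Λ × (ℕ ⊕ V))) :
    ∑ u ∈ s, (2 : ℝ) ^ (-(cl (V := V) w δ c (Real.logb 2 (Fintype.card V)) u)) ≤ 1 := by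
  classical
  have hV : (0 : ℝ) < (Fintype.card V : ℝ) := by exact_mod_cast Fintype.card_pos
  -- the second components
  set t : Finset (ℕ ⊕ V) := s.image Prod.snd with ht
  have h0 : ∀ u : Λ × (ℕ ⊕ V), (2 : ℝ) ^ (-(cl (V := V) w δ c (Real.logb 2 (Fintype.card V)) u)) =
      (2 : ℝ) ^ (-c) * ((2 : ℝ) ^ (-(δ * (w u.1 : ℝ))) *
        Sum.elim (fun k : ℕ => ((k : ℝ) + 1) ^ (-(1 + δ))) (fun _ : V => (Fintype.card V : ℝ)⁻¹) u.2) := by
    rintro ⟨l, k | v⟩
    · show (2 : ℝ) ^ (-(δ * (w l : ℝ) + c + (1 + δ) * Real.logb 2 ((k : ℝ) + 1))) =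
        (2 : ℝ) ^ (-c) * ((2 : ℝ) ^ (-(δ * (w l : ℝ))) * ((k : ℝ) + 1) ^ (-(1 + δ)))
      have h1 : (0 : ℝ) < (k : ℝ) + 1 := by positivity
      have h2 : ((k : ℝ) + 1) ^ (-(1 + δ)) = (2 : ℝ) ^ (-((1 + δ) * Real.logb 2 ((k : ℝ) + 1))) := by
        rw [← neg_mul, mul_comm, Real.rpow_mul (by norm_num), Real.rpow_logb (by norm_num) (by norm_num) h1]
      rw [h2, ← Real.rpow_add (by norm_num), ← Real.rpow_add (by norm_num)]
      congr 1
      ring
    · show (2 : ℝ) ^ (-(δ * (w l : ℝ) + c + Real.logb 2 (Fintype.card V))) =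
        (2 : ℝ) ^ (-c) * ((2 : ℝ) ^ (-(δ * (w l : ℝ))) * (Fintype.card V : ℝ)⁻¹)
      have h2 : (Fintype.card V : ℝ)⁻¹ = (2 : ℝ) ^ (-(Real.logb 2 (Fintype.card V))) := by
        rw [Real.rpow_neg (by norm_num), Real.rpow_logb (by norm_num) (by norm_num) hV]
      rw [h2, ← Real.rpow_add (by norm_num), ← Real.rpow_add (by norm_num)]
      congr 1
      ring
  have hpos : ∀ u : ℕ ⊕ V, 0 ≤ Sum.elim (fun k : ℕ => ((k : ℝ) + 1) ^ (-(1 + δ))) (fun _ : V => (Fintype.card V : ℝ)⁻¹) u := by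
    rintro (k | v)
    · show (0 : ℝ) ≤ ((k : ℝ) + 1) ^ (-(1 + δ))
      positivity
    · show (0 : ℝ) ≤ (Fintype.card V : ℝ)⁻¹
      positivity
  rw [Finset.sum_congr rfl fun u _ => h0 u, ← Finset.mul_sum]
  have h1 : ∑ u ∈ s, ((2 : ℝ) ^ (-(δ * (w u.1 : ℝ))) *
        Sum.elim (fun k : ℕ => ((k : ℝ) + 1) ^ (-(1 + δ))) (fun _ : V => (Fintype.card V : ℝ)⁻¹) u.2) ≤
      ∑ u ∈ (Finset.univ : Finset Λ) ×ˢ t, ((2 : ℝ) ^ (-(δ * (w u.1 : ℝ))) *
        Sum.elim (fun k : ℕ => ((k : ℝ) + 1) ^ (-(1 + δ))) (fun _ : V => (Fintype.card V : ℝ)⁻¹) u.2) := by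
    apply Finset.sum_le_sum_of_subset_of_nonneg
    · intro u hu
      rw [Finset.mem_product]
      exact ⟨Finset.mem_univ _, Finset.mem_image_of_mem _ hu⟩
    · intro u _ _
      exact mul_nonneg (by positivity) (hpos _)
  have h1' : ∑ u ∈ (Finset.univ : Finset Λ) ×ˢ t, ((2 : ℝ) ^ (-(δ * (w u.1 : ℝ))) *
        Sum.elim (fun k : ℕ => ((k : ℝ) + 1) ^ (-(1 + δ))) (fun _ : V => (Fintype.card V : ℝ)⁻¹) u.2) =
      (∑ l : Λ, (2 : ℝ) ^ (-(δ * (w l : ℝ)))) *
      (∑ u ∈ t, Sum.elim (fun k : ℕ => ((k : ℝ) + 1) ^ (-(1 + δ))) (fun _ : V => (Fintype.card V : ℝ)⁻¹) u) := by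
    rw [Finset.sum_product, Finset.sum_mul_sum]
  rw [h1'] at h1
  have h2 : ∑ l : Λ, (2 : ℝ) ^ (-(δ * (w l : ℝ))) ≤ S := by
    have h10 := hS (Finset.univ.image w)
    rw [Finset.sum_image (fun a _ c _ h => hw h)] at h10
    exact h10
  have h3 : ∑ u ∈ t, Sum.elim (fun k : ℕ => ((k : ℝ) + 1) ^ (-(1 + δ))) (fun _ : V => (Fintype.card V : ℝ)⁻¹) u ≤ T + 1 := by
    have h4 : t ⊆ (t.toLeft).disjSum (Finset.univ : Finset V) := by
      intro u hu
      rcases u with k | v
      · rw [Finset.inl_mem_disjSum, Finset.mem_toLeft]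
        exact hu
      · rw [Finset.inr_mem_disjSum]
        exact Finset.mem_univ _
    refine (Finset.sum_le_sum_of_subset_of_nonneg h4 fun u _ _ => hpos u).trans ?_
    rw [Finset.sum_disjSum]
    have h5 : ∑ v : V, Sum.elim (fun k : ℕ => ((k : ℝ) + 1) ^ (-(1 + δ))) (fun _ : V => (Fintype.card V : ℝ)⁻¹) (Sum.inr v) = 1 := by
      show ∑ _v : V, (Fintype.card V : ℝ)⁻¹ = 1
      rw [Finset.sum_const, Finset.card_univ, nsmul_eq_mul, mul_inv_cancel₀ hV.ne']
    rw [h5]
    have h6 := hT t.toLeft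
    have h7 : ∑ k ∈ t.toLeft, Sum.elim (fun k : ℕ => ((k : ℝ) + 1) ^ (-(1 + δ))) (fun _ : V => (Fintype.card V : ℝ)⁻¹) (Sum.inl k) =
        ∑ k ∈ t.toLeft, ((k : ℝ) + 1) ^ (-(1 + δ)) := rfl
    rw [h7]
    linarith
  have hS0 : 0 ≤ S := by
    have := hS ∅
    simpa using this
  have h8 : (∑ l : Λ, (2 : ℝ) ^ (-(δ * (w l : ℝ)))) *
      (∑ u ∈ t, Sum.elim (fun k : ℕ => ((k : ℝ) + 1) ^ (-(1 + δ))) (fun _ : V => (Fintype.card V : ℝ)⁻¹) u) ≤ S * (T + 1) :=
    mul_le_mul h2 h3 (Finset.sum_nonneg fun u _ => hpos u) hS0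
  calc (2 : ℝ) ^ (-c) * _ ≤ (2 : ℝ) ^ (-c) * (2 : ℝ) ^ c :=
        mul_le_mul_of_nonneg_left ((h1.trans h8).trans hc) (by positivity)
    _ = 1 := by
        rw [← Real.rpow_add (by norm_num), neg_add_cancel, Real.rpow_zero]

end

end Pool.Agent.Helper98.FR.Rep
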