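import Pool.Agent.Helper98.FR.Rep
import Pool.Agent.Helper40.EL.D1

/-! FUNCTIONAL REPRESENTATION: entropy of the value given the randomness. -/

set_option autoImplicit false

namespace Pool.Agent.Helper98.FR.Rep

open Finset Pool.Agent.Helper69.RK Pool.Agent.Helper31.EC

noncomputable section

/-- Gibbs inequality for codes -/
theorem CH_code {Ω ι : Type} [Fintype Ω] {μ : Ω → ℝ} (h0 : ∀ ω, 0 ≤ μ ω) (h1 : ∑ ω, μ ω = 1) (J : Ω → ι) (l : ι → ℝ)
    (hK : ∀ s : Finset ι, ∑ j ∈ s, (2 : ℝ) ^ (-l j) ≤ 1) : CH μ J (fun _ => ()) ≤ ∑ ω, μ ω * l (J ω) := by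
  classical
  have hp : ∀ ω, pr μ (fun ω' => (J ω', ())) ω = pr μ J ω := fun ω => by
    unfold pr
    apply Finset.sum_congr rfl
    intro ω' _
    by_cases h : J ω' = J ω
    · rw [if_pos (show (J ω', ()) = (J ω, ()) by rw [h]), if_pos h]
    · rw [if_neg (fun h2 => h (Prod.mk.inj h2).1), if_neg h]
  have hc : ∀ ω, pr μ (fun _ => ()) ω = 1 := fun ω => by
    unfold pr
    rw [← h1]
    apply Finset.sum_congr rfl
    intro ω' _
    rw [if_pos rfl]
  have hs : ∀ ω, μ ω ≤ pr μ J ω := fun ω => by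
    have h2 : (if J ω = J ω then μ ω else 0) ≤ ∑ ω', if J ω' = J ω then μ ω' else 0 :=
      Finset.single_le_sum (f := fun ω' => if J ω' = J ω then μ ω' else 0) (fun ω' _ => by
        split_ifs
        · exact h0 ω'
        · exact le_rfl) (Finset.mem_univ ω)
    rw [if_pos rfl] at h2
    refine h2.trans (le_of_eq ?_)
    unfold pr
    apply Finset.sum_congr rfl
    intro ω' _
    split_ifs <;> rfl
  unfold CH
  have h2 : ∀ ω, μ ω * (Real.logb 2 (pr μ (fun _ => ()) ω) - Real.logb 2 (pr μ (fun ω' => (J ω', ())) ω)) ≤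
      μ ω * l (J ω) + (μ ω * (2 ^ (-l (J ω)) / pr μ J ω) - μ ω) / Real.log 2 := fun ω => by
    rw [hp, hc, Real.logb_one, zero_sub]
    rcases (h0 ω).eq_or_lt with h3 | h3
    · rw [← h3]
      simp
    · have h4 : 0 < pr μ J ω := h3.trans_le (hs ω)
      have h5 : (0 : ℝ) < 2 ^ (-l (J ω)) := by positivity
      have h6 := Real.log_le_sub_one_of_pos (div_pos h5 h4)
      have h7 : Real.logb 2 (2 ^ (-l (J ω)) / pr μ J ω) ≤ (2 ^ (-l (J ω)) / pr μ J ω - 1) / Real.log 2 := by
        unfold Real.logb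
        exact div_le_div_of_nonneg_right h6 (Real.log_nonneg (by norm_num))
      rw [Real.logb_div h5.ne' h4.ne', Real.logb_rpow (by norm_num) (by norm_num)] at h7
      have h8 := mul_le_mul_of_nonneg_left h7 h3.le
      have e : μ ω * ((2 ^ (-l (J ω)) / pr μ J ω - 1) / Real.log 2) =
          (μ ω * (2 ^ (-l (J ω)) / pr μ J ω) - μ ω) / Real.log 2 := by ring
      rw [e] at h8
      linarith
  refine (Finset.sum_le_sum fun ω _ => h2 ω).trans ?_
  rw [Finset.sum_add_distrib, ← Finset.sum_div, Finset.sum_sub_distrib, h1]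
  have h3 : ∑ ω, μ ω * (2 ^ (-l (J ω)) / pr μ J ω) ≤ 1 := by
    have h4 : ∑ ω, μ ω * (2 ^ (-l (J ω)) / pr μ J ω) =
        ∑ j ∈ univ.image J, ∑ ω ∈ univ.filter (fun ω => J ω = j), μ ω * (2 ^ (-l (J ω)) / pr μ J ω) :=
      (Finset.sum_fiberwise_of_maps_to (fun ω _ => Finset.mem_image_of_mem J (Finset.mem_univ ω)) _).symm
    rw [h4]
    refine le_trans ?_ (hK (univ.image J))
    apply Finset.sum_le_sum
    intro j hj
    obtain ⟨ω0, -, rfl⟩ := Finset.mem_image.mp hj
    have h5 : ∀ ω ∈ univ.filter (fun ω => J ω = J ω0), μ ω * (2 ^ (-l (J ω)) / pr μ J ω) =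
        μ ω * (2 ^ (-l (J ω0)) / pr μ J ω0) := fun ω hω => by
      have h6 : J ω = J ω0 := (Finset.mem_filter.mp hω).2
      have h7 : pr μ J ω = pr μ J ω0 := by
        unfold pr
        rw [h6]
      rw [h6, h7]
    rw [Finset.sum_congr rfl h5, ← Finset.sum_mul]
    have h8 : ∑ ω ∈ univ.filter (fun ω => J ω = J ω0), μ ω = pr μ J ω0 := by
      unfold pr
      rw [Finset.sum_filter]
    rw [h8]
    rcases ((h0 ω0).trans (hs ω0)).eq_or_lt with h9 | h9
    · rw [← h9, zero_mul]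
      positivity
    · rw [mul_div_assoc', mul_comm, mul_div_assoc, div_self h9.ne', mul_one]
  have h4 : (∑ ω, μ ω * (2 ^ (-l (J ω)) / pr μ J ω) - 1) / Real.log 2 ≤ 0 :=
    div_nonpos_of_nonpos_of_nonneg (by linarith) (Real.log_nonneg (by norm_num))
  linarith

/-- conditional entropies and codes -/
theorem e_code (F : FSp) {α γ ι : Type} (f : F.Ω → α) (g : F.Ω → γ) (J : F.Ω → ι) (l : ι → ℝ)
    (hK : ∀ s : Finset ι, ∑ j ∈ s, (2 : ℝ) ^ (-l j) ≤ 1)
    (hd : ∀ ω ω', F.μ ω ≠ 0 → F.μ ω' ≠ 0 → J ω = J ω' → g ω = g ω' → f ω = f ω') :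
    F.e (Setoid.ker f) (Setoid.ker g) ≤ ∑ ω, F.μ ω * l (J ω) := by
  have h1 := F.e_triangle (Setoid.ker f) (Setoid.ker J) (Setoid.ker g)
  have h2 : F.e (Setoid.ker f) (Setoid.ker J ⊓ Setoid.ker g) = 0 :=
    F.e_zero fun ω ω' a b c => hd ω ω' a b c.1 c.2
  have h3 : F.e (Setoid.ker J) (Setoid.ker g) ≤ F.e (Setoid.ker J) (Setoid.ker fun _ => ()) :=
    F.e_anti fun _ _ _ _ _ => rfl
  rw [F.e_ker J (fun _ => ())] at h3
  have h4 := CH_code F.nn F.ms J l hK
  linarith

/-! ### constants -/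

theorem exists_S {δ : ℝ} (hδ : 0 < δ) : ∃ S : ℝ, 1 ≤ S ∧ ∀ s : Finset ℕ, ∑ n ∈ s, (2 : ℝ) ^ (-(δ * n)) ≤ S := by
  have h1 : Summable fun n : ℕ => (2 : ℝ) ^ (-(δ * n)) := by
    have h2 : (fun n : ℕ => (2 : ℝ) ^ (-(δ * n))) = fun n => ((2 : ℝ) ^ (-δ)) ^ n := by
      funext n
      rw [← Real.rpow_natCast, ← Real.rpow_mul (by norm_num)]
      congr 1
      ring
    rw [h2]
    apply summable_geometric_of_lt_one (by positivity)
    exact Real.rpow_lt_one_of_one_lt_of_neg (by norm_num) (by linarith)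
  refine ⟨max 1 (∑' n : ℕ, (2 : ℝ) ^ (-(δ * n))), le_max_left _ _, fun s => ?_⟩
  exact (h1.sum_le_tsum s fun n _ => by positivity).trans (le_max_right _ _)

theorem exists_T {δ : ℝ} (hδ : 0 < δ) : ∃ T : ℝ, 0 ≤ T ∧ ∀ s : Finset ℕ, ∑ k ∈ s, ((k : ℝ) + 1) ^ (-(1 + δ)) ≤ T := by
  have h1 : Summable fun k : ℕ => ((k : ℝ) + 1) ^ (-(1 + δ)) := by
    have h2 := (Real.summable_nat_rpow (p := -(1 + δ))).mpr (by linarith)
    have h3 := (summable_nat_add_iff 1).mpr h2
    refine h3.congr fun k => ?_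
    push_cast
    rfl
  exact ⟨∑' k : ℕ, ((k : ℝ) + 1) ^ (-(1 + δ)), tsum_nonneg fun k => by positivity,
    fun s => h1.sum_le_tsum s fun n _ => by positivity⟩

open Classical in
/-- constants of the code -/
def cS (δ : ℝ) : ℝ := if h : 0 < δ then (exists_S h).choose else 1
open Classical in
def cT (δ : ℝ) : ℝ := if h : 0 < δ then (exists_T h).choose else 0
def cC (δ : ℝ) : ℝ := Real.logb 2 (cS δ * (cT δ + 1))

theorem cS_one {δ : ℝ} (hδ : 0 < δ) : 1 ≤ cS δ := by
  unfold cS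
  rw [dif_pos hδ]
  exact (exists_S hδ).choose_spec.1
theorem cS_sum {δ : ℝ} (hδ : 0 < δ) (s : Finset ℕ) : ∑ n ∈ s, (2 : ℝ) ^ (-(δ * n)) ≤ cS δ := by
  unfold cS
  rw [dif_pos hδ]
  exact (exists_S hδ).choose_spec.2 s
theorem cT_nonneg {δ : ℝ} (hδ : 0 < δ) : 0 ≤ cT δ := by
  unfold cT
  rw [dif_pos hδ]
  exact (exists_T hδ).choose_spec.1
theorem cT_sum {δ : ℝ} (hδ : 0 < δ) (s : Finset ℕ) : ∑ k ∈ s, ((k : ℝ) + 1) ^ (-(1 + δ)) ≤ cT δ := by
  unfold cT
  rw [dif_pos hδ]
  exact (exists_T hδ).choose_spec.2 s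
theorem cC_le {δ : ℝ} (hδ : 0 < δ) : cS δ * (cT δ + 1) ≤ 2 ^ cC δ := by
  have h1 := cS_one hδ
  have h2 := cT_nonneg hδ
  unfold cC
  rw [Real.rpow_logb (by norm_num) (by norm_num) (by positivity)]
theorem cC_nonneg {δ : ℝ} (hδ : 0 < δ) : 0 ≤ cC δ := by
  have h1 := cS_one hδ
  have h2 := cT_nonneg hδ
  unfold cC
  apply Real.logb_nonneg (by norm_num)
  nlinarith

/-- the loss -/
def cK (δ : ℝ) : ℝ := 3 * (1 + 4 * δ) + 2 * (1 + δ) * cS δ + cC δ + 1

variable {X V B Λ : Type} [Fintype X] [Fintype V] [Fintype B] [DecidableEq B] [Fintype Λ] [DecidableEq Λ]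
variable {W : X → V → ℝ} {b : X → B} {lev : X → V → Λ} {w : Λ → ℕ}

omit [Fintype X] [Fintype B] [DecidableEq B] in
/-- expected code length at a point -/
theorem Rp.code_x {N : ℕ} (P : Rp W b lev w N) {δ : ℝ} (hδ : 0 < δ) (hw : Function.Injective w) (x : X) [Nonempty V] :
    ∑ r, P.ν r * cl (V := V) w δ (cC δ) (Real.logb 2 (Fintype.card V))
      (P.g x r, if P.k x r < N then Sum.inl (P.k x r) else Sum.inr (P.f x r)) ≤
    (δ + (1 + δ) * (1 + δ)) * (∑ v, W x v * (w (lev x v) : ℝ)) + (1 + δ) * (2 * cS δ) + cC δ +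
      Real.logb 2 (Fintype.card V) * ∑ l, pl W lev x l * (1 - al W lev w x l) ^ N := by
  have hV : (1 : ℝ) ≤ (Fintype.card V : ℝ) := by exact_mod_cast Fintype.card_pos
  have hm : 0 ≤ Real.logb 2 (Fintype.card V) := Real.logb_nonneg (by norm_num) hV
  have h1 : ∀ r, P.ν r * cl (V := V) w δ (cC δ) (Real.logb 2 (Fintype.card V))
      (P.g x r, if P.k x r < N then Sum.inl (P.k x r) else Sum.inr (P.f x r)) ≤
      P.ν r * (δ * (w (P.g x r) : ℝ)) + P.ν r * cC δ + (1 + δ) * (P.ν r * Real.logb 2 ((P.k x r : ℝ) + 1)) +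
      Real.logb 2 (Fintype.card V) * (P.ν r * (if P.k x r = N then (1 : ℝ) else 0)) := fun r => by
    have h2 : cl (V := V) w δ (cC δ) (Real.logb 2 (Fintype.card V))
      (P.g x r, if P.k x r < N then Sum.inl (P.k x r) else Sum.inr (P.f x r)) ≤
      δ * (w (P.g x r) : ℝ) + cC δ + (1 + δ) * Real.logb 2 ((P.k x r : ℝ) + 1) +
      Real.logb 2 (Fintype.card V) * (if P.k x r = N then (1 : ℝ) else 0) := by
      have h3 : 0 ≤ Real.logb 2 ((P.k x r : ℝ) + 1) := Real.logb_nonneg (by norm_num) (by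
        have : (0 : ℝ) ≤ (P.k x r : ℝ) := Nat.cast_nonneg _
        linarith)
      by_cases h4 : P.k x r < N
      · rw [if_pos h4, if_neg h4.ne]
        show δ * (w (P.g x r) : ℝ) + cC δ + (1 + δ) * Real.logb 2 ((P.k x r : ℝ) + 1) ≤ _
        linarith
      · have h5 : P.k x r = N := le_antisymm (P.kle x r) (not_lt.mp h4)
        rw [if_neg h4, if_pos h5, mul_one]
        show δ * (w (P.g x r) : ℝ) + cC δ + Real.logb 2 (Fintype.card V) ≤ _
        have h6 := mul_nonneg (show (0 : ℝ) ≤ 1 + δ by linarith) h3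
        linarith
    refine (mul_le_mul_of_nonneg_left h2 (P.wt.1 r)).trans (le_of_eq ?_)
    ring
  refine (Finset.sum_le_sum fun r _ => h1 r).trans ?_
  rw [Finset.sum_add_distrib, Finset.sum_add_distrib, Finset.sum_add_distrib, ← Finset.mul_sum, ← Finset.mul_sum,
    ← Finset.sum_mul, P.wt.2, one_mul, P.law x (fun l _ => δ * (w l : ℝ))]
  have h2 := P.logk (S := cS δ) hw (cS_sum hδ) x
  have h3 := mul_le_mul_of_nonneg_left (P.failp x) hm
  have h4 := mul_le_mul_of_nonneg_left h2 (show (0 : ℝ) ≤ 1 + δ by linarith)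
  have h5 : ∑ v, W x v * (δ * (w (lev x v) : ℝ)) = δ * ∑ v, W x v * (w (lev x v) : ℝ) := by
    rw [Finset.mul_sum]
    apply Finset.sum_congr rfl
    intro v _
    ring
  rw [h5]
  nlinarith

/-! ### kernels of a joint law -/

section joint

variable {P : X × V → ℝ}

/-- marginals -/
def mx (P : X × V → ℝ) (x : X) : ℝ := ∑ v, P (x, v)
def mb (P : X × V → ℝ) (b : X → B) (c : B) : ℝ := ∑ x, if b x = c then mx P x else 0
def mq (P : X × V → ℝ) (b : X → B) (c : B) (v : V) : ℝ := ∑ x, if b x = c then P (x, v) else 0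

open Classical in
/-- conditional law of the value given the base -/
def kq (v0 : V) (P : X × V → ℝ) (b : X → B) (c : B) (v : V) : ℝ :=
  if mb P b c = 0 then (if v = v0 then 1 else 0) else mq P b c v / mb P b c

open Classical in
/-- the kernel -/
def kW (v0 : V) (P : X × V → ℝ) (b : X → B) (x : X) (v : V) : ℝ :=
  if mx P x = 0 then kq v0 P b (b x) v else P (x, v) / mx P x

variable (h0 : ∀ z, 0 ≤ P z) (b : X → B) (v0 : V)

include h0

omit [Fintype X] [Fintype V] [Fintype B] [DecidableEq B] [Fintype Λ] [DecidableEq Λ] in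
theorem P_le_mx [Fintype V] (x : X) (v : V) : P (x, v) ≤ mx P x :=
  Finset.single_le_sum (f := fun v => P (x, v)) (fun v _ => h0 _) (Finset.mem_univ v)

omit [Fintype B] [Fintype Λ] [DecidableEq Λ] [Fintype X] in
theorem mx_nonneg (x : X) : 0 ≤ mx P x := Finset.sum_nonneg fun _ _ => h0 _

omit [Fintype B] [Fintype Λ] [DecidableEq Λ] in
theorem mb_nonneg (c : B) : 0 ≤ mb P b c := Finset.sum_nonneg fun x _ => by
  split_ifs
  · exact mx_nonneg h0 x
  · exact le_rfl

omit [Fintype B] [Fintype Λ] [DecidableEq Λ] [Fintype V] in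
theorem mq_nonneg (c : B) (v : V) : 0 ≤ mq P b c v := Finset.sum_nonneg fun x _ => by
  split_ifs
  · exact h0 _
  · exact le_rfl

omit [Fintype B] [Fintype Λ] [DecidableEq Λ] in
theorem mx_le_mb (x : X) : mx P x ≤ mb P b (b x) := by
  have h1 : (if b x = b x then mx P x else 0) ≤ ∑ x', if b x' = b x then mx P x' else 0 :=
    Finset.single_le_sum (f := fun x' => if b x' = b x then mx P x' else 0) (fun x' _ => by
      split_ifs
      · exact mx_nonneg h0 x'
      · exact le_rfl) (Finset.mem_univ x)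
  rwa [if_pos rfl] at h1

omit [Fintype B] [Fintype Λ] [DecidableEq Λ] [Fintype V] in
theorem P_le_mq (x : X) (v : V) : P (x, v) ≤ mq P b (b x) v := by
  have h1 : (if b x = b x then P (x, v) else 0) ≤ ∑ x', if b x' = b x then P (x', v) else 0 :=
    Finset.single_le_sum (f := fun x' => if b x' = b x then P (x', v) else 0) (fun x' _ => by
      split_ifs
      · exact h0 _
      · exact le_rfl) (Finset.mem_univ x)
  rwa [if_pos rfl] at h1

omit [Fintype B] [Fintype Λ] [DecidableEq Λ] h0 in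
theorem sum_mq (c : B) : ∑ v, mq P b c v = mb P b c := by
  unfold mq mb mx
  rw [Finset.sum_comm]
  apply Finset.sum_congr rfl
  intro x _
  split_ifs
  · rfl
  · simp

omit [Fintype B] [Fintype Λ] [DecidableEq Λ] in
theorem kq_wt (c : B) : Wt (kq v0 P b c) := by
  classical
  unfold kq
  by_cases h : mb P b c = 0
  · refine ⟨fun v => ?_, ?_⟩
    · show 0 ≤ if mb P b c = 0 then (if v = v0 then (1 : ℝ) else 0) else mq P b c v / mb P b c
      rw [if_pos h]
      split_ifs <;> norm_num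
    · simp only [if_pos h]
      rw [Finset.sum_ite_eq' univ v0 (fun _ => (1 : ℝ)), if_pos (Finset.mem_univ _)]
  · refine ⟨fun v => ?_, ?_⟩
    · show 0 ≤ if mb P b c = 0 then (if v = v0 then (1 : ℝ) else 0) else mq P b c v / mb P b c
      rw [if_neg h]
      exact div_nonneg (mq_nonneg h0 b c v) (mb_nonneg h0 b c)
    · simp only [if_neg h]
      rw [← Finset.sum_div, sum_mq, div_self h]

omit [Fintype B] [Fintype Λ] [DecidableEq Λ] in
theorem kW_wt (x : X) : Wt (kW v0 P b x) := by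
  classical
  unfold kW
  by_cases h : mx P x = 0
  · simp only [if_pos h]
    exact kq_wt h0 b v0 (b x)
  · refine ⟨fun v => ?_, ?_⟩
    · show 0 ≤ if mx P x = 0 then kq v0 P b (b x) v else P (x, v) / mx P x
      rw [if_neg h]
      exact div_nonneg (h0 _) (mx_nonneg h0 x)
    · simp only [if_neg h]
      rw [← Finset.sum_div]
      exact div_self h

omit [Fintype B] [Fintype Λ] [DecidableEq Λ] in
theorem mx_kW (x : X) (v : V) : mx P x * kW v0 P b x v = P (x, v) := by
  unfold kW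
  by_cases h : mx P x = 0
  · rw [h, zero_mul]
    have h1 := P_le_mx h0 x v
    rw [h] at h1
    exact le_antisymm (h0 _) h1
  · rw [if_neg h]
    field_simp

omit [Fintype B] [Fintype Λ] [DecidableEq Λ] in
theorem kW_ac (x : X) (v : V) (h : kq v0 P b (b x) v = 0) : kW v0 P b x v = 0 := by
  unfold kW
  by_cases h1 : mx P x = 0
  · rw [if_pos h1]
    exact h
  · rw [if_neg h1]
    have h2 : mb P b (b x) ≠ 0 := by
      have := mx_le_mb h0 b x
      have := lt_of_le_of_ne (mx_nonneg h0 x) (Ne.symm h1)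
      linarith
    unfold kq at h
    rw [if_neg h2, div_eq_zero_iff] at h
    rcases h with h | h
    · have h3 := P_le_mq h0 b x v
      rw [h] at h3
      rw [le_antisymm h3 (h0 _), zero_div]
    · exact absurd h h2

/-- the levels -/
def lv0 (v0 : V) (P : X × V → ℝ) (b : X → B) (x : X) (v : V) : ℕ :=
  ⌈Real.logb 2 (kW v0 P b x v / kq v0 P b (b x) v)⌉₊

omit [Fintype B] [Fintype Λ] [DecidableEq Λ] in
theorem lv0_le (x : X) (v : V) : kW v0 P b x v ≤ 2 ^ lv0 v0 P b x v * kq v0 P b (b x) v := by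
  rcases ((kq_wt h0 b v0 (b x)).1 v).eq_or_lt with h1 | h1
  · rw [kW_ac h0 b v0 x v h1.symm, ← h1, mul_zero]
  · rcases ((kW_wt h0 b v0 x).1 v).eq_or_lt with h2 | h2
    · rw [← h2]
      positivity
    · have h3 := div_pos h2 h1
      rw [← div_le_iff₀ h1]
      have h4 : kW v0 P b x v / kq v0 P b (b x) v = (2 : ℝ) ^ Real.logb 2 (kW v0 P b x v / kq v0 P b (b x) v) :=
        (Real.rpow_logb (by norm_num) (by norm_num) h3).symm
      rw [h4, ← Real.rpow_natCast]
      apply Real.rpow_le_rpow_of_exponent_le (by norm_num)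
      exact Nat.le_ceil _

omit [Fintype B] [Fintype Λ] [DecidableEq Λ] in
/-- the mean level is at most the information plus three -/
theorem mean_lv0 (h1 : ∑ z, P z = 1) : ∑ z, P z * (lv0 v0 P b z.1 z.2 : ℝ) ≤
    (CH P (fun z => z.2) (fun z => b z.1) - CH P (fun z => z.2) (fun z => z.1)) + 3 := by
  classical
  have p1 : ∀ z : X × V, pr P (fun z => b z.1) z = mb P b (b z.1) := fun z => by
    unfold pr mb mx
    rw [Fintype.sum_prod_type]
    apply Finset.sum_congr rfl
    intro x _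
    by_cases h : b x = b z.1
    · rw [if_pos h]
      exact Finset.sum_congr rfl fun v _ => if_pos h
    · rw [if_neg h]
      exact Finset.sum_eq_zero fun v _ => if_neg h
  have p2 : ∀ z : X × V, pr P (fun z => (z.2, b z.1)) z = mq P b (b z.1) z.2 := fun z => by
    unfold pr mq
    rw [Fintype.sum_prod_type]
    apply Finset.sum_congr rfl
    intro x _
    by_cases h : b x = b z.1
    · rw [if_pos h, Finset.sum_eq_single z.2]
      · exact if_pos (show (z.2, b x) = (z.2, b z.1) by rw [h])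
      · intro v _ hv
        exact if_neg fun h3 => hv (Prod.mk.inj h3).1
      · intro h3
        exact absurd (Finset.mem_univ _) h3
    · rw [if_neg h]
      exact Finset.sum_eq_zero fun v _ => if_neg fun h3 => h (Prod.mk.inj h3).2
  have p3 : ∀ z : X × V, pr P (fun z => z.1) z = mx P z.1 := fun z => by
    unfold pr mx
    rw [Fintype.sum_prod_type, Finset.sum_eq_single z.1]
    · exact Finset.sum_congr rfl fun v _ => if_pos rfl
    · intro x _ hx
      exact Finset.sum_eq_zero fun v _ => if_neg hx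
    · intro h3
      exact absurd (Finset.mem_univ _) h3
  have p4 : ∀ z : X × V, pr P (fun z => (z.2, z.1)) z = P z := fun z => by
    unfold pr
    rw [Finset.sum_eq_single z]
    · exact if_pos rfl
    · intro z' _ hz
      exact if_neg fun h3 => hz (Prod.ext (Prod.mk.inj h3).2 (Prod.mk.inj h3).1)
    · intro h3
      exact absurd (Finset.mem_univ _) h3
  unfold CH
  rw [← Finset.sum_sub_distrib]
  have key : ∀ z : X × V, P z * (lv0 v0 P b z.1 z.2 : ℝ) ≤
      (P z * (Real.logb 2 (pr P (fun z => b z.1) z) - Real.logb 2 (pr P (fun z => (z.2, b z.1)) z)) -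
        P z * (Real.logb 2 (pr P (fun z => z.1) z) - Real.logb 2 (pr P (fun z => (z.2, z.1)) z))) +
      (P z + 2 * (mx P z.1 * kq v0 P b (b z.1) z.2)) := fun z => by
    rw [p1, p2, p3, p4]
    have hq0 := (kq_wt h0 b v0 (b z.1)).1 z.2
    rcases (h0 z).eq_or_lt with h2 | h2
    · rw [← h2]
      have := mul_nonneg (mx_nonneg h0 z.1) hq0
      simp only [zero_mul, sub_zero, zero_add]
      linarith
    · obtain ⟨x, v⟩ := z
      have hx : 0 < mx P x := h2.trans_le (P_le_mx h0 x v)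
      have hb : 0 < mb P b (b x) := hx.trans_le (mx_le_mb h0 b x)
      have hq : 0 < mq P b (b x) v := h2.trans_le (P_le_mq h0 b x v)
      have e1 : kq v0 P b (b x) v = mq P b (b x) v / mb P b (b x) := by
        unfold kq
        rw [if_neg hb.ne']
      have e2 : kW v0 P b x v = P (x, v) / mx P x := by
        unfold kW
        rw [if_neg hx.ne']
      have hkq : 0 < kq v0 P b (b x) v := by rw [e1]; exact div_pos hq hb
      have hkW : 0 < kW v0 P b x v := by rw [e2]; exact div_pos h2 hx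
      show P (x, v) * (lv0 v0 P b x v : ℝ) ≤
        (P (x, v) * (Real.logb 2 (mb P b (b x)) - Real.logb 2 (mq P b (b x) v)) -
          P (x, v) * (Real.logb 2 (mx P x) - Real.logb 2 (P (x, v)))) + (P (x, v) + 2 * (mx P x * kq v0 P b (b x) v))
      have h3 : (lv0 v0 P b x v : ℝ) ≤ Real.logb 2 (kW v0 P b x v / kq v0 P b (b x) v) +
          2 * (kq v0 P b (b x) v / kW v0 P b x v) + 1 := by
        have h4 := logb_le_two (div_pos hkq hkW)
        rw [Real.logb_div hkq.ne' hkW.ne'] at h4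
        rw [Real.logb_div hkW.ne' hkq.ne']
        have h5 : 0 ≤ kq v0 P b (b x) v / kW v0 P b x v := (div_pos hkq hkW).le
        rcases le_total 0 (Real.logb 2 (kW v0 P b x v / kq v0 P b (b x) v)) with h6 | h6
        · have h7 := (Nat.ceil_lt_add_one h6).le
          have h7' : (lv0 v0 P b x v : ℝ) ≤ Real.logb 2 (kW v0 P b x v / kq v0 P b (b x) v) + 1 := h7
          rw [Real.logb_div hkW.ne' hkq.ne'] at h7'
          linarith
        · have h8 : lv0 v0 P b x v = 0 := Nat.ceil_eq_zero.mpr h6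
          rw [h8]
          push_cast
          linarith
      have h4 := mul_le_mul_of_nonneg_left h3 h2.le
      have e3 : Real.logb 2 (kW v0 P b x v / kq v0 P b (b x) v) =
          (Real.logb 2 (mb P b (b x)) - Real.logb 2 (mq P b (b x) v)) -
          (Real.logb 2 (mx P x) - Real.logb 2 (P (x, v))) := by
        rw [e1, e2, Real.logb_div (div_pos h2 hx).ne' (div_pos hq hb).ne', Real.logb_div h2.ne' hx.ne',
          Real.logb_div hq.ne' hb.ne']
        ring
      have e4 : P (x, v) * (2 * (kq v0 P b (b x) v / kW v0 P b x v)) = 2 * (mx P x * kq v0 P b (b x) v) := by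
        rw [e2]
        field_simp
      rw [e3] at h4
      rw [mul_add, mul_add, e4] at h4
      linarith
  refine (Finset.sum_le_sum fun z _ => key z).trans ?_
  rw [Finset.sum_add_distrib, Finset.sum_add_distrib, h1, ← Finset.mul_sum]
  have h2 : ∑ z : X × V, mx P z.1 * kq v0 P b (b z.1) z.2 = 1 := by
    rw [Fintype.sum_prod_type]
    have h3 : ∀ x, ∑ v, mx P x * kq v0 P b (b x) v = mx P x := fun x => by
      rw [← Finset.mul_sum, (kq_wt h0 b v0 (b x)).2, mul_one]
    rw [Finset.sum_congr rfl fun x _ => h3 x]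
    unfold mx
    rw [← Fintype.sum_prod_type (fun z => P z)]
    exact h1
  rw [h2]
  linarith

end joint

/-- FUNCTIONAL REPRESENTATION, abstract form -/
theorem frep_abs {P : X × V → ℝ} (h0 : ∀ z, 0 ≤ P z) (h1 : ∑ z, P z = 1) (b : X → B) :
    ∃ (R : Type) (_ : Fintype R) (ν : R → ℝ) (f : X → R → V), Wt ν ∧
      (∀ x v, mx P x * ∑ r, ν r * e1_ind (f x r = v) = P (x, v)) ∧
      ∀ δ : ℝ, 0 < δ → δ ≤ 1 → ∃ (ι : Type) (J : X → R → ι) (l : ι → ℝ),
        (∀ s : Finset ι, ∑ j ∈ s, (2 : ℝ) ^ (-l j) ≤ 1) ∧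
        (∀ x x' r, b x = b x' → J x r = J x' r → f x r = f x' r) ∧
        ∑ x, mx P x * ∑ r, ν r * l (J x r) ≤
          (1 + 4 * δ) * (CH P (fun z => z.2) (fun z => b z.1) - CH P (fun z => z.2) (fun z => z.1)) + cK δ := by
  classical
  have hne : Nonempty (X × V) := by
    by_contra hc
    rw [not_nonempty_iff] at hc
    rw [Finset.univ_eq_empty, Finset.sum_empty] at h1
    norm_num at h1
  obtain ⟨z0⟩ := hne
  obtain ⟨v0, -⟩ : ∃ v0 : V, True := ⟨z0.2, trivial⟩
  have hVn : Nonempty V := ⟨v0⟩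
  obtain ⟨L, hL⟩ : ∃ L : ℕ, ∀ x v, lv0 v0 P b x v ≤ L := by
    obtain ⟨g, hg⟩ : ∃ g : X × V → ℕ, ∀ z, g z = lv0 v0 P b z.1 z.2 := ⟨_, fun _ => rfl⟩
    refine ⟨Finset.sup Finset.univ g, fun x v => ?_⟩
    have h2 := Finset.le_sup (f := g) (Finset.mem_univ (x, v))
    rw [hg] at h2
    exact h2
  obtain ⟨lev, hlev⟩ : ∃ lev : X → V → Fin (L + 1), ∀ x v, (lev x v : ℕ) = lv0 v0 P b x v :=
    ⟨fun x v => ⟨lv0 v0 P b x v, Nat.lt_succ_of_le (hL x v)⟩, fun _ _ => rfl⟩
  obtain ⟨w, hw⟩ : ∃ w : Fin (L + 1) → ℕ, ∀ l, w l = l := ⟨fun l => l, fun _ => rfl⟩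
  have hwi : Function.Injective w := fun a c h => by
    rw [hw, hw] at h
    exact Fin.ext h
  have hwl : ∀ x v, w (lev x v) = lv0 v0 P b x v := fun x v => by rw [hw, hlev]
  have hW := kW_wt h0 b v0
  have hq := kq_wt h0 b v0
  have hV : (1 : ℝ) ≤ (Fintype.card V : ℝ) := by exact_mod_cast Fintype.card_pos
  obtain ⟨m, hm⟩ : ∃ m : ℝ, m = Real.logb 2 (Fintype.card V) := ⟨_, rfl⟩
  have hm0 : 0 ≤ m := by
    rw [hm]
    exact Real.logb_nonneg (by norm_num) hV
  obtain ⟨N, hN⟩ := fail_small (lev := lev) (w := w) hW (mx P) (mx_nonneg h0) (show (0 : ℝ) < 1 / (m + 1) by positivity)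
  obtain ⟨Q⟩ : Nonempty (Rp (kW v0 P b) b lev w N) := ⟨rp (q := kq v0 P b) hW hq (kW_ac h0 b v0) (fun x v => by
    rw [hwl]
    exact lv0_le h0 b v0 x v) N⟩
  refine ⟨Q.R, Q.ft, Q.ν, Q.f, Q.wt, fun x v => ?_, fun δ hδ hδ1 => ?_⟩
  · have h2 := Q.law x (fun _ v' => e1_ind (v' = v))
    rw [h2, ← mx_kW h0 b v0 x v]
    congr 1
    rw [Finset.sum_eq_single v]
    · rw [e1_ind_pos rfl, mul_one]
    · intro v' _ hv'
      rw [e1_ind_neg hv', mul_zero]
    · intro h
      exact absurd (Finset.mem_univ _) h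
  · refine ⟨Fin (L + 1) × (ℕ ⊕ V), fun x r => (Q.g x r, if Q.k x r < N then Sum.inl (Q.k x r) else Sum.inr (Q.f x r)),
      cl (V := V) w δ (cC δ) m, ?_, ?_, ?_⟩
    · rw [hm]
      exact kraft (V := V) hwi (cS_sum hδ) (cT_sum hδ) (cT_nonneg hδ) (cC_le hδ)
    · intro x x' r hb hJ
      rw [Prod.mk.injEq] at hJ
      obtain ⟨hg, hJ⟩ := hJ
      by_cases h2 : Q.k x r < N
      · rw [if_pos h2] at hJ
        by_cases h3 : Q.k x' r < N
        · rw [if_pos h3] at hJ
          have h4 : Q.k x r = Q.k x' r := Sum.inl_injective hJ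
          rw [Q.dec x r h2, Q.dec x' r h3, hb, hg, h4]
        · rw [if_neg h3] at hJ
          exact absurd hJ (by simp)
      · rw [if_neg h2] at hJ
        by_cases h3 : Q.k x' r < N
        · rw [if_pos h3] at hJ
          exact absurd hJ (by simp)
        · rw [if_neg h3] at hJ
          exact Sum.inr_injective hJ
    · have h2 : ∀ x, mx P x * ∑ r, Q.ν r * cl (V := V) w δ (cC δ) m
          (Q.g x r, if Q.k x r < N then Sum.inl (Q.k x r) else Sum.inr (Q.f x r)) ≤
          (δ + (1 + δ) * (1 + δ)) * (mx P x * ∑ v, kW v0 P b x v * (w (lev x v) : ℝ)) +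
          mx P x * ((1 + δ) * (2 * cS δ) + cC δ) +
          m * (mx P x * ∑ l, pl (kW v0 P b) lev x l * (1 - al (kW v0 P b) lev w x l) ^ N) := fun x => by
        have h9 := Q.code_x hδ hwi x
        rw [← hm] at h9
        refine (mul_le_mul_of_nonneg_left h9 (mx_nonneg h0 x)).trans (le_of_eq ?_)
        ring
      refine (Finset.sum_le_sum fun x _ => h2 x).trans ?_
      rw [Finset.sum_add_distrib, Finset.sum_add_distrib, ← Finset.mul_sum, ← Finset.mul_sum, ← Finset.sum_mul]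
      have h3 : ∑ x, mx P x = 1 := by
        unfold mx
        rw [← Fintype.sum_prod_type (fun z => P z)]
        exact h1
      have h4 : ∑ x, mx P x * ∑ v, kW v0 P b x v * (w (lev x v) : ℝ) = ∑ z, P z * (lv0 v0 P b z.1 z.2 : ℝ) := by
        rw [Fintype.sum_prod_type]
        apply Finset.sum_congr rfl
        intro x _
        rw [Finset.mul_sum]
        apply Finset.sum_congr rfl
        intro v _
        rw [← mul_assoc, mx_kW h0 b v0, hwl]
      have h5 := mean_lv0 h0 b v0 h1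
      have h6 : 0 ≤ ∑ z, P z * (lv0 v0 P b z.1 z.2 : ℝ) :=
        Finset.sum_nonneg fun z _ => mul_nonneg (h0 z) (Nat.cast_nonneg _)
      have h7 : m * ∑ x, mx P x * ∑ l, pl (kW v0 P b) lev x l * (1 - al (kW v0 P b) lev w x l) ^ N ≤ 1 := by
        refine (mul_le_mul_of_nonneg_left hN hm0).trans ?_
        rw [mul_one_div, div_le_one (by linarith)]
        linarith
      rw [h3, h4, one_mul]
      have h8 : (δ + (1 + δ) * (1 + δ)) * ∑ z, P z * (lv0 v0 P b z.1 z.2 : ℝ) ≤
          (1 + 4 * δ) * (CH P (fun z => z.2) (fun z => b z.1) - CH P (fun z => z.2) (fun z => z.1) + 3) := by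
        refine le_trans (mul_le_mul_of_nonneg_right (show δ + (1 + δ) * (1 + δ) ≤ 1 + 4 * δ by nlinarith) h6) ?_
        exact mul_le_mul_of_nonneg_left h5 (by linarith)
      unfold cK
      linarith

end

end Pool.Agent.Helper98.FR.Rep
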