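import Pool.Agent.Helper98.FR.Over

/-! FRAMES OF TWO NESTED WINDOWS: the slab and the sheet of the coarse window agree with those of the fine window, up to
the thickness of the coarse one divided by the size of the fine box. -/

set_option autoImplicit false

namespace Pool.Agent.Helper98.FR

open Finset Filter Topology Pool.Agent.Helper69.RK Pool.Agent.Helper31.EC
open Pool.Agent.Helper82.TP Pool.Agent.Helper40.EL Pool.Agent.Helper60.CS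

noncomputable section

open Sp QS Pool.Agent.Helper80.MX

variable {S : Sp} (Z : ∀ k, Setoid (S.F k).Ω)

/-- digits of the recentred functions -/
theorem dg_box_le {t y R : QS S} {tc yc : TR S} {ρ0 ρ1 ρ2 : TR S} (h1 : Lt Z tc) (h2 : Lt Z yc) (h3 : Lt Z ρ0)
    (h4 : Lt Z ρ1) (h5 : Lt Z ρ2) :
    dg (qc Z t) 1 ⊔ dg (qc Z y) 1 ⊔ dg (qc Z R) 1 ≤
      dg (qc Z (t - mk tc)) 1 ⊔ dg (qc Z (y - mk yc)) 1 ⊔ dg (qc Z (R - (mk ρ0 + mk ρ1 * t + mk ρ2 * y))) 1 := by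
  have b1 := h1.qc_bot Z 1
  have b2 := h2.qc_bot Z 1
  have b3 := h3.qc_bot Z 1
  have b4 := h4.qc_bot Z 1
  have b5 := h5.qc_bot Z 1
  have e1 : dg (qc Z t) 1 ≤ dg (qc Z (t - mk tc)) 1 := by
    have : qc Z t = qc Z (t - mk tc) + qc Z (mk tc) := by rw [map_sub]; ring
    rw [this]
    refine (dg_add_le _ _ le_rfl).trans ?_
    rw [b1, sup_bot_eq]
  have e2 : dg (qc Z y) 1 ≤ dg (qc Z (y - mk yc)) 1 := by
    have : qc Z y = qc Z (y - mk yc) + qc Z (mk yc) := by rw [map_sub]; ring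
    rw [this]
    refine (dg_add_le _ _ le_rfl).trans ?_
    rw [b2, sup_bot_eq]
  have e3 : dg (qc Z R) 1 ≤ dg (qc Z t) 1 ⊔ dg (qc Z y) 1 ⊔ dg (qc Z (R - (mk ρ0 + mk ρ1 * t + mk ρ2 * y))) 1 := by
    have : qc Z R = qc Z (R - (mk ρ0 + mk ρ1 * t + mk ρ2 * y)) +
        (qc Z (mk ρ0) + qc Z (mk ρ1) * qc Z t + qc Z (mk ρ2) * qc Z y) := by
      simp only [map_sub, map_add, map_mul]; ring
    rw [this]
    refine (dg_add_le _ _ le_rfl).trans (sup_le le_sup_right ?_)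
    refine (dg_add_le _ _ le_rfl).trans (sup_le ((dg_add_le _ _ le_rfl).trans (sup_le ?_ ?_)) ?_)
    · rw [b3]; exact bot_le
    · refine (dg_mul_le _ _ le_rfl).trans (sup_le ?_ (le_sup_left.trans le_sup_left))
      rw [b4]; exact bot_le
    · refine (dg_mul_le _ _ le_rfl).trans (sup_le ?_ (le_sup_right.trans le_sup_left))
      rw [b5]; exact bot_le
  have f1 : dg (qc Z t) 1 ≤ dg (qc Z (t - mk tc)) 1 ⊔ dg (qc Z (y - mk yc)) 1 ⊔
      dg (qc Z (R - (mk ρ0 + mk ρ1 * t + mk ρ2 * y))) 1 := e1.trans (le_sup_left.trans le_sup_left)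
  have f2 : dg (qc Z y) 1 ≤ dg (qc Z (t - mk tc)) 1 ⊔ dg (qc Z (y - mk yc)) 1 ⊔
      dg (qc Z (R - (mk ρ0 + mk ρ1 * t + mk ρ2 * y))) 1 := e2.trans (le_sup_right.trans le_sup_left)
  exact sup_le (sup_le f1 f2) (e3.trans (sup_le (sup_le f1 f2) le_sup_right))

/-- an affine function of the box which is small has small coefficients -/
theorem box_small {t y R : QS S} {tc yc ρ0 ρ1 ρ2 : TR S} {q lam : ℝ} (h1 : Lt Z tc) (h2 : Lt Z yc) (h3 : Lt Z ρ0)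
    (h4 : Lt Z ρ1) (h5 : Lt Z ρ2) (hq0 : 0 ≤ q) (hq1 : q ≤ 1) (hl0 : 0 ≤ lam) (hl1 : lam ≤ 1)
    (ht : t - mk tc ∈ Id S q) (hy : y - mk yc ∈ Id S q) (hR : R - (mk ρ0 + mk ρ1 * t + mk ρ2 * y) ∈ Id S lam)
    (hfull : (1 - q) + (1 - q) + (1 - lam) ≤ H (dg (qc Z t) 1 ⊔ dg (qc Z y) 1 ⊔ dg (qc Z R) 1))
    {d0 d1 d2 d3 : TR S} (g0 : Lt Z d0) (g1 : Lt Z d1) (g2 : Lt Z d2) (g3 : Lt Z d3) {b : ℝ} (hb : b ≤ 1)
    (hm : mk d0 + mk d1 * t + mk d2 * y + mk d3 * R ∈ Id S b) :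
    mk d3 ∈ Id S (b - lam) ∧ mk d1 + mk d3 * mk ρ1 ∈ Id S (b - q) ∧ mk d2 + mk d3 * mk ρ2 ∈ Id S (b - q) ∧
      mk d0 + mk d3 * mk ρ0 + (mk d1 + mk d3 * mk ρ1) * mk tc + (mk d2 + mk d3 * mk ρ2) * mk yc ∈ Id S b := by
  have hf := hfull.trans (H_mono (dg_box_le Z (t := t) (y := y) (R := R) h1 h2 h3 h4 h5))
  rw [← h_bot] at hf
  have e0 : mk d0 + mk d1 * t + mk d2 * y + mk d3 * R =
      mk (d0 + d3 * ρ0 + (d1 + d3 * ρ1) * tc + (d2 + d3 * ρ2) * yc) + mk (d1 + d3 * ρ1) * (t - mk tc) +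
      mk (d2 + d3 * ρ2) * (y - mk yc) + mk d3 * (R - (mk ρ0 + mk ρ1 * t + mk ρ2 * y)) := by
    simp only [map_add, map_mul]
    ring
  rw [e0, ← qc_mem_Id Z] at hm
  rw [map_add, map_add, map_add, map_mul, map_mul, map_mul] at hm
  have l1 : Lt Z (d1 + d3 * ρ1) := g1.add (g3.mul h4)
  have l2 : Lt Z (d2 + d3 * ρ2) := g2.add (g3.mul h5)
  have l0 : Lt Z (d0 + d3 * ρ0 + (d1 + d3 * ρ1) * tc + (d2 + d3 * ρ2) * yc) :=
    ((g0.add (g3.mul h3)).add (l1.mul h1)).add (l2.mul h2)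
  obtain ⟨c1, c2, c3, c4⟩ := lin_small3 (A := ⊥) hq0 hq1 hq0 hq1 hl0 hl1 ((qc_mem_Id Z).mpr ht) ((qc_mem_Id Z).mpr hy)
    ((qc_mem_Id Z).mpr hR) (l0.qc_bot Z 1).le (l1.qc_bot Z 1).le (l2.qc_bot Z 1).le (g3.qc_bot Z 1).le hf hb hm
  rw [qc_mem_Id] at c1 c2 c3 c4
  refine ⟨c3, ?_, ?_, ?_⟩
  · rw [← map_mul, ← map_add]; exact c1
  · rw [← map_mul, ← map_add]; exact c2
  · have : mk d0 + mk d3 * mk ρ0 + (mk d1 + mk d3 * mk ρ1) * mk tc + (mk d2 + mk d3 * mk ρ2) * mk yc =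
        mk (d0 + d3 * ρ0 + (d1 + d3 * ρ1) * tc + (d2 + d3 * ρ2) * yc) := by
      simp only [map_add, map_mul]
    rw [this]
    exact c4

/-- CHAINS of windows with small steps -/
theorem chain {q : ℕ → ℝ} {i0 : ℕ} {b ε : ℝ} (hε : 0 < ε) (hd : ∀ a a', q i0 ≤ a → a < a' → a' ≤ b → ∃ j, a < q j ∧ q j < a')
    (P : ℕ → Prop) (h0 : P i0) (hs : ∀ j i, q i0 ≤ q j → q j ≤ q i → q i ≤ b → q i ≤ q j + ε → P j → P i) :
    ∀ i, q i0 ≤ q i → q i ≤ b → P i := by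
  have key : ∀ n : ℕ, ∀ i, q i0 ≤ q i → q i ≤ b → q i ≤ q i0 + ((n : ℝ) + 1) * (ε / 2) → P i := by
    intro n
    induction n with
    | zero =>
      intro i h1 h2 h3
      refine hs i0 i le_rfl h1 h2 ?_ h0
      push_cast at h3
      linarith
    | succ n ih =>
      intro i h1 h2 h3
      by_cases h4 : q i ≤ q i0 + ((n : ℝ) + 1) * (ε / 2)
      · exact ih i h1 h2 h4
      · push Not at h4
        have hn : (0 : ℝ) ≤ n := Nat.cast_nonneg n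
        push_cast at h3
        obtain ⟨j, hj1, hj2⟩ := hd (max (q i0) (q i - ε)) (q i0 + ((n : ℝ) + 1) * (ε / 2)) (le_max_left _ _)
          (max_lt (by nlinarith) (by nlinarith)) (h4.le.trans h2)
        have h5 := (le_max_left _ _).trans hj1.le
        have h6 := (le_max_right _ _).trans hj1.le
        exact hs j i h5 (hj2.le.trans h4.le) h2 (by linarith) (ih j h5 (hj2.le.trans (h4.le.trans h2)) hj2.le)
  intro i h1 h2
  obtain ⟨n, hn⟩ := exists_nat_ge ((q i - q i0) / (ε / 2))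
  refine key n i h1 h2 ?_
  rw [div_le_iff₀ (by positivity)] at hn
  nlinarith

end

end Pool.Agent.Helper98.FR
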